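import Pool.Agent.P.MP_7a6434d8_pr.Defs2

/-! Interface of block ND (no traps): four inputs and one output, all on peeling trees. -/

namespace Pool.Agent.QL.ND

open Pool.Agent.P.MP_7a6434d8_pr Mp Finset
open scoped ENNReal

open Classical in
/-- energy of the edges with both ends in `N` -/
noncomputable def lenergy (t : Mp) (N : V t → Prop) (g : V t → ℝ) : ℝ :=
  (∑ d : Dt t, if N (org t d) ∧ N (org t (al t d)) then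
    (g (org t d) - g (org t (al t d))) ^ 2 else 0) / 2

/-- within distance `R` of the boundary arc `[u + a, u + b + 5 a]` -/
def Nbh (t : Mp) (u b a R : ℕ) (v : V t) : Prop :=
  ∃ p, a ≤ p ∧ p ≤ b + 5 * a ∧ Within t R (bv t (u + p)) v

/-- the arcs `[u + a, u + 2 a]` and `[u + b + 4 a, u + b + 5 a]` are at resistance more than
`T ^ 2` inside the `R`-neighbourhood of `[u + a, u + b + 5 a]`; the gap is
`[u + 3 a, u + 3 a + b]` -/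
def Fail (t : Mp) (u b a R : ℕ) (T : ℝ) : Prop :=
  ∃ g : V t → ℝ, lenergy t (Nbh t u b a R) g < 1 ∧
    (∀ p, a ≤ p → p ≤ 2 * a → g (bv t (u + p)) ≤ 0) ∧
    ∀ p, b + 4 * a ≤ p → p ≤ b + 5 * a → T ≤ g (bv t (u + p))

open Classical in
/-- combinatorial Laplacian: sum over the darts out of `x` of `w x - w y` -/
noncomputable def lapV (t : Mp) (w : V t → ℝ) (x : V t) : ℝ :=
  ∑ d : Dt t, if org t d = x then w x - w (org t (al t d)) else 0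

/-- every set `S` of inner vertices of volume at most `V0` has mean exit time at most `c` from
`v`, in supersolution form -/
def GoodV (t : Mp) (v : V t) (V0 c : ℝ) : Prop :=
  ∀ S : Finset (V t), (∀ p, p ≤ 2 * per t → bv t p ∉ S) → ∑ x ∈ S, dg t x ≤ V0 →
    ∃ w : V t → ℝ, (∀ x, 0 ≤ w x) ∧ (∀ x ∈ S, dg t x ≤ lapV t w x) ∧ w v ≤ c

/-- input SV: slow variation -/
def SlowVar (kap : ℕ → ℝ) : Prop :=
  (∀ a, 0 < kap a) ∧ ∀ lam : ℝ, 0 < lam → ∃ (C : ℝ) (a0 : ℕ), ∀ a a' : ℕ, a0 ≤ a → a0 ≤ a' →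
    kap a ≤ C * (max ((a : ℝ) / a') ((a' : ℝ) / a)) ^ lam * kap a'

/-- input E2u: no macroscopic near-pinch of the boundary -/
def E2u : Prop :=
  ∀ η : ℝ, 0 < η → ∀ K : ℕ, 1 ≤ K → ∃ r : ℝ, 0 < r ∧ ∃ a0 : ℕ, ∀ a, a0 ≤ a → ∀ L x : ℕ,
    4 * K * a ≤ 2 * L →
    mass L (fun t => ∃ p p', x ≤ p ∧ p + a ≤ p' ∧ p' ≤ x + K * a ∧ p' ≤ 2 * L ∧
      Within t ⌊r * √(a : ℝ)⌋₊ (bv t p) (bv t p')) ≤ η * Z L

/-- input C: two-sided bounds on the number of discs of given perimeter and size -/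
def CntBd : Prop :=
  (∃ C : ℝ, ∀ L m : ℕ, 1 ≤ L → (cnt L m (fun _ => True) : ℝ)
    ≤ C * (12 ^ m * 8 ^ L) / (((L : ℝ) + 1) ^ 4 * √((L : ℝ) + 1))) ∧
  ∀ B : ℕ, 1 ≤ B → ∃ c : ℝ, 0 < c ∧ ∃ L0 : ℕ, ∀ L m : ℕ, L0 ≤ L → L ^ 2 ≤ B * m → m ≤ B * L ^ 2 →
    c * (12 ^ m * 8 ^ L) / (((L : ℝ) + 1) ^ 4 * √((L : ℝ) + 1)) ≤ (cnt L m (fun _ => True) : ℝ)

/-- input C, tail part: pointed tail of the size -/
def TailV : Prop :=
  ∃ C : ℝ, 0 < C ∧ ∀ L m : ℕ, 1 ≤ m →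
    IE L (fun t => if m < size t then (Fintype.card (V t) : ℝ≥0∞) else 0)
      ≤ ENNReal.ofReal (C * ((L : ℝ) + 1) ^ 3 / √(m : ℝ) * Z L)

/-- input N1fix: one-scale crossing estimate at one fixed perimeter and size -/
def N1fix (kap : ℕ → ℝ) : Prop :=
  ∃ B : ℕ, 1 ≤ B ∧ ∀ r : ℝ, 0 < r → ∀ η : ℝ, 0 < η → ∃ C : ℝ, 0 < C ∧ ∃ a0 : ℕ, ∀ a, a0 ≤ a →
    ∀ b, b ≤ a → ∃ L m : ℕ, 100 * a ≤ L ∧ L ≤ B * a ∧ L ^ 2 ≤ B * m ∧ m ≤ B * L ^ 2 ∧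
      (cnt L m (fun t => Fail t (L - 3 * a) b a ⌊r * √(a : ℝ)⌋₊ √(C * kap a)) : ℝ)
        ≤ η * cnt L m (fun _ => True)

open Classical in
/-- output of block ND -/
def NDdisc (kap : ℕ → ℝ) : Prop :=
  ∀ ε : ℝ, 0 < ε → ∀ η : ℝ, 0 < η → ∃ v0 : ℝ, 0 < v0 ∧ ∃ L1 : ℕ, ∀ L, L1 ≤ L →
    IE L (fun t => ((univ.filter (fun v : V t =>
        ¬ GoodV t v (v0 * (L : ℝ) ^ 2) (ε * (L : ℝ) ^ 2 * kap L))).card : ℝ≥0∞))
      ≤ ENNReal.ofReal (η * (L : ℝ) ^ 2 * Z L)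

end Pool.Agent.QL.ND
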