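import Pool.Agent.P.MP_7a6434d8_pr.QL.ND.Expl

/-! Transfer of the one-scale estimate to all perimeters. -/

namespace Pool.Agent.QL.ND

open Pool.Agent.P.MP_7a6434d8_pr Mp Finset
open scoped ENNReal

theorem none_sqrt {x : ℝ} {a : ℕ} (h : ⌈x ^ 2⌉₊ ≤ a) : x ≤ √(a : ℝ) :=
  Real.le_sqrt_of_sq_le (Nat.ceil_le.1 h)

theorem near_bd (h : E2u) (η : ℝ) (hη : 0 < η) : ∃ r0 : ℝ, 0 < r0 ∧ r0 ≤ 1 ∧
    ∀ r : ℝ, 0 < r → r ≤ r0 → ∃ a0 : ℕ, ∀ a b u y L : ℕ, a0 ≤ a → b ≤ a → 100 * a ≤ u →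
      100 * a ≤ y → 2 * L = u + (b + 6 * a) + y →
      mass L (fun t => Near t u (b + 6 * a) a ⌊r * √(a : ℝ)⌋₊) ≤ η * Z L := by
  obtain ⟨r1, hr1, a1, h1⟩ := h η hη 49 (by norm_num)
  refine ⟨min 1 (r1 / 2), by positivity, min_le_left _ _, fun r hr hr0 =>
    ⟨max a1 ⌈(2 / r1) ^ 2⌉₊, fun a b u y L ha hb hu hy hL => ?_⟩⟩
  refine le_trans (mass_mono fun t _ ht ⟨p, p', h2, h3, h4, h5, h6⟩ => ?_)
    (h1 a (le_of_max_le_left ha) L (u - 21 * a) (by omega))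
  refine ⟨p, p', by omega, h2, by omega, by omega, Within.mono h6 (Nat.le_floor ?_)⟩
  have h7 := none_sqrt (le_of_max_le_right ha)
  rw [div_le_iff₀ hr1] at h7
  have h8 := Nat.floor_le (a := r * √(a : ℝ)) (by positivity)
  have h9 := mul_le_mul_of_nonneg_right (hr0.trans (min_le_right _ _)) (Real.sqrt_nonneg (a : ℝ))
  push_cast
  linarith

/-- the polynomial factor of the counting bounds -/
noncomputable def none_s (n : ℕ) : ℝ := ((n : ℝ) + 1) ^ 4 * √((n : ℝ) + 1)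

theorem none_s_pos (n : ℕ) : 0 < none_s n := by unfold none_s; positivity

theorem none_s_le {n n' : ℕ} (h : n ≤ 2 * n') : none_s n ≤ 32 * none_s n' := by
  have h1 : (n : ℝ) + 1 ≤ 2 * (n' + 1) := by
    have : (n : ℝ) ≤ 2 * n' := by exact_mod_cast h
    linarith
  have h2 : √((n : ℝ) + 1) ≤ 2 * √((n' : ℝ) + 1) := by
    rw [Real.sqrt_le_left (by positivity), mul_pow, Real.sq_sqrt (by positivity)]
    linarith [Nat.cast_nonneg (α := ℝ) n']
  calc none_s n ≤ (2 * ((n' : ℝ) + 1)) ^ 4 * (2 * √((n' : ℝ) + 1)) := by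
        unfold none_s; gcongr
    _ = _ := by unfold none_s; ring

theorem none_err {a B m R : ℕ} {r : ℝ} (ha : 1 ≤ a) (hm : (100 * a) ^ 2 ≤ B * m)
    (hR : (R : ℝ) + 1 ≤ 2 * r * √(a : ℝ)) :
    ((R : ℝ) + 1) * a * (1 / ((a : ℝ) * √(a : ℝ)) + 2 / m * √(((10 * a : ℕ) : ℝ) + 1)
      + 1 / ((((10 * a : ℕ) : ℝ) + 1) * √(((10 * a : ℕ) : ℝ) + 1))) ≤ 2 * (B + 2) * r := by
  have ha' : (1 : ℝ) ≤ a := by exact_mod_cast ha
  have hm' : (100 * a : ℝ) ^ 2 ≤ B * m := by exact_mod_cast hm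
  have hs : 0 < √(a : ℝ) := by positivity
  have hs2 : √(a : ℝ) ^ 2 = a := Real.sq_sqrt (by positivity)
  have hm0 : (0 : ℝ) < m := by
    refine lt_of_le_of_ne (Nat.cast_nonneg m) fun h => ?_
    rw [← h] at hm'
    nlinarith
  push_cast
  have h1 : √(10 * (a : ℝ) + 1) ≤ 4 * √(a : ℝ) := by
    rw [Real.sqrt_le_left (by positivity)]
    nlinarith
  have h2 : 1 / ((10 * (a : ℝ) + 1) * √(10 * (a : ℝ) + 1)) ≤ 1 / (a * √(a : ℝ)) := by
    gcongr <;> linarith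
  have h3 : 2 / m * √(10 * (a : ℝ) + 1) ≤ B / (a * √(a : ℝ)) := by
    rw [div_mul_eq_mul_div, div_le_div_iff₀ hm0 (by positivity)]
    have h4 : √(10 * (a : ℝ) + 1) * √(a : ℝ) ≤ 4 * a := by nlinarith
    nlinarith [mul_le_mul_of_nonneg_left h4 (by positivity : (0 : ℝ) ≤ a)]
  calc _ ≤ (2 * r * √(a : ℝ)) * a * (1 / (a * √(a : ℝ)) + B / (a * √(a : ℝ)) +
        1 / (a * √(a : ℝ))) := by
        gcongr
        exact mul_nonneg (by linarith [Nat.cast_nonneg (α := ℝ) R]) (by positivity)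
    _ = _ := by field_simp; ring

theorem n_one (kap : ℕ → ℝ) (hC : CntBd) (hN : N1fix kap) : ∃ C2 : ℝ, 0 < C2 ∧
    ∀ r : ℝ, 0 < r → r ≤ 1 → ∀ η : ℝ, 0 < η → ∃ C1 : ℝ, 0 < C1 ∧ ∃ a0 : ℕ,
      ∀ a b u y L : ℕ, a0 ≤ a → b ≤ a → 100 * a ≤ u → 100 * a ≤ y →
      2 * L = u + (b + 6 * a) + y →
      mass L (fun t => Fail t u b a ⌊r * √(a : ℝ)⌋₊ √(C1 * kap a))
        ≤ (η + C2 * r) * Z L + mass L (fun t => Near t u (b + 6 * a) a ⌊r * √(a : ℝ)⌋₊) := by
  obtain ⟨B, hB, hN⟩ := hN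
  obtain ⟨⟨CU, hU⟩, hC⟩ := hC
  obtain ⟨c, hc, L0, hlow⟩ := hC (4 * B) (by omega)
  obtain ⟨C, hC0, hex⟩ := explore
  obtain ⟨cw, hcw, hw⟩ := w_doubling 2
  refine ⟨C * (2 * (B + 2)), by positivity, fun r hr _ η hη => ?_⟩
  have hU0 : 0 < |CU| + 1 := by positivity
  obtain ⟨C1, hC1, a1, h1⟩ := hN r hr (η * cw * c / (32 * (|CU| + 1))) (by positivity)
  refine ⟨C1, hC1, max (max a1 L0) (max 2 ⌈(1 / r) ^ 2⌉₊), fun a b u y L ha hb hu hy hL => ?_⟩
  simp only [max_le_iff] at ha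
  obtain ⟨⟨ha1, haL⟩, ha2, har⟩ := ha
  obtain ⟨L1, m1, hL1, -, hm1, hm1', hcnt⟩ := h1 a ha1 b hb
  set R := ⌊r * √(a : ℝ)⌋₊ with hR
  set T := √(C1 * kap a)
  have hm0 : 0 < m1 := Nat.pos_of_ne_zero fun h => by
    rw [h, mul_zero, Nat.le_zero, pow_eq_zero_iff two_ne_zero] at hm1
    omega
  have hm0' : (0 : ℝ) < m1 := by exact_mod_cast hm0
  have hs1 := none_s_pos L1
  have hZ := Z_pos L
  set A : ℝ := Z L * (32 * none_s L1) / (cw * c * 8 ^ L1) with hA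
  have hA0 : 0 ≤ A := by positivity
  have hQ : ∀ t, ind (Fail t u b a R T) ≤ 1 := fun t => by unfold ind; split_ifs <;> simp
  have triv : ∀ (L' : ℕ) (F : Mp → ℝ≥0∞) (x : ℝ), (∀ t, F t ≤ 1) → 1 ≤ x →
      IE L' F ≤ ENNReal.ofReal (x * Z L') := fun L' F x hF hx =>
    (IE_le_Z fun t _ _ => hF t).trans
      (ENNReal.ofReal_le_ofReal (le_mul_of_one_le_left (Z_pos L').le hx))
  have key := hex a b R u y (L1 - 3 * a) (L1 - 3 * a - b) (10 * a) 1 (2 / m1) (ENNReal.ofReal A)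
    (fun t => Fail t (L1 - 3 * a) b a R T ∧ size t = m1) (fun t => ind (Fail t u b a R T)) ha2 hb
    le_rfl (by omega) (by omega) zero_le_one (by positivity) hQ ?_
    (fun e L' _ _ _ => triv _ _ _ (up_le_one e _ _ _ hQ) (le_add_of_nonneg_right (by positivity)))
    (fun e L' p m W2 _ _ _ _ _ _ _ => triv _ _ _
      (fun _ => iSup₂_le fun t1 _ => up_le_one e _ _ _ hQ t1)
      (le_add_of_nonneg_right (by positivity))) L L1 hL (by omega)
  · have hNear := mass_nonneg L fun t => Near t u (b + 6 * a) a R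
    have hP := mass_nonneg L1 fun t => Fail t (L1 - 3 * a) b a R T ∧ size t = m1
    rw [IE_indic, ← ENNReal.ofReal_mul hA0, ← ENNReal.ofReal_add (by positivity) (by positivity),
      ENNReal.ofReal_le_ofReal_iff (by positivity)] at key
    have h2 : (R : ℝ) + 1 ≤ 2 * r * √(a : ℝ) := by
      have h3 := none_sqrt har
      rw [div_le_iff₀ hr] at h3
      have h4 := Nat.floor_le (a := r * √(a : ℝ)) (by positivity)
      linarith
    have h3 := none_err (B := B) (m := m1) (by omega)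
      ((Nat.pow_le_pow_left hL1 2).trans hm1) h2
    have h4 : (cnt L1 m1 (fun _ => True) : ℝ) ≤ (|CU| + 1) * (12 ^ m1 * 8 ^ L1) / none_s L1 := by
      refine (hU L1 m1 (by omega)).trans ?_
      unfold none_s
      gcongr
      linarith [le_abs_self CU]
    have h5 : A * mass L1 (fun t => Fail t (L1 - 3 * a) b a R T ∧ size t = m1) ≤ η * Z L := by
      rw [mass_size_eq]
      calc _ ≤ A * (η * cw * c / (32 * (|CU| + 1)) *
            ((|CU| + 1) * (12 ^ m1 * 8 ^ L1) / none_s L1) / 12 ^ m1) := by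
            gcongr
            exact hcnt.trans (by gcongr)
        _ = _ := by rw [hA]; field_simp
    have h6 := mul_le_mul_of_nonneg_right (mul_le_mul_of_nonneg_left h3 hC0.le) hZ.le
    linarith
  · intro e Lx Ly hI hb' hLx hLy hNL
    by_cases hF : e.FailX b a R T
    swap
    · refine le_trans (IE_mono (G := fun _ => 0) fun t' _ _ => iSup₂_le fun t ht => ?_) ?_
      · exact (if_neg fun h => hF (fail_fwd ht h)).le
      · simp [IE_const]
    by_cases hv : m1 ≤ 2 * e.vol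
    · refine (triv _ _ _ (up_le_one e _ _ _ hQ) ?_).trans le_add_self
      rw [div_mul_eq_mul_div, le_div_iff₀ hm0', one_mul]
      exact_mod_cast hv
    have hsz := hI.2
    have h2 := mart_ge e (L1 - 3 * a) (b + 6 * a) (L1 - 3 * a - b)
      (fun t => Fail t (L1 - 3 * a) b a R T ∧ size t = m1) (fun t => True ∧ size t = m1 - e.sz) Ly
      fun t t' _ h3 h4 => ⟨fail_bwd h4 hNL hF, by have := h4.size_eq; omega⟩
    refine le_trans ?_ le_self_add
    refine le_trans ?_ (mul_le_mul_right h2 _)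
    rw [← ENNReal.ofReal_mul hA0]
    refine (IE_le_Z fun t _ _ => up_le_one e _ _ _ hQ t).trans (ENNReal.ofReal_le_ofReal ?_)
    have h3 := hlow Ly (m1 - e.sz) (by omega) (by
      obtain ⟨n, hn⟩ : ∃ n, m1 - e.sz = n := ⟨_, rfl⟩
      have h4 : 5 * Ly ≤ 6 * L1 := by omega
      have h5 : m1 ≤ 2 * n := by omega
      rw [hn]
      nlinarith [Nat.pow_le_pow_left h4 2, Nat.mul_le_mul_left B h5]) (by
      have h4 : L1 ≤ 2 * Ly := by omega
      nlinarith [Nat.mul_le_mul_left B (Nat.pow_le_pow_left h4 2), Nat.sub_le m1 e.sz])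
    have h4 := none_s_le (n := Ly) (n' := L1) (by omega)
    have h5 := hw Lx L (by omega)
    have h6 : (8 : ℝ) ^ Lx * 8 ^ L1 = 8 ^ L * 8 ^ Ly := by
      rw [← pow_add, ← pow_add]
      congr 1
      omega
    have hs2 := none_s_pos Ly
    have hw0 := w_pos Lx
    rw [mass_size_eq]
    calc Z Lx = cw * w Lx * 8 ^ L * none_s Ly / (cw * c * 8 ^ L1) *
          (c * (12 ^ (m1 - e.sz) * 8 ^ Ly) / none_s Ly / 12 ^ (m1 - e.sz)) := by
          rw [Z_eq_w]
          field_simp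
          linear_combination h6
      _ ≤ _ := by
          refine mul_le_mul ?_ (div_le_div_of_nonneg_right h3 (by positivity)) (by positivity) hA0
          have := w_pos L
          rw [hA, Z_eq_w]
          gcongr

end Pool.Agent.QL.ND
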