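import Pool.Agent.P.MP_7a6434d8_pr.QL.ND.ChordS
import Pool.Agent.P.MP_7a6434d8_pr.QL.ND.NOne

/-! The chord estimate. -/

namespace Pool.Agent.QL.ND

open Pool.Agent.P.MP_7a6434d8_pr Mp Finset
open scoped ENNReal

theorem chordb_pow {a H : ℝ} (ha : 0 < a) (h : a ≤ H) :
    √a * a / (H * √H) ≤ (a / H) ^ (5 / 4 : ℝ) := by
  have hH : 0 < H := ha.trans_le h
  have e : √a * a / (H * √H) = (a / H) ^ (1 / 2 + 1 : ℝ) := by
    rw [Real.rpow_add (by positivity), Real.rpow_one, ← Real.sqrt_eq_rpow, Real.sqrt_div ha.le]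
    field_simp
  rw [e]
  exact Real.rpow_le_rpow_of_exponent_ge (by positivity) ((div_le_one hH).2 h) (by norm_num)

theorem chord_bd (kap : ℕ → ℝ) (hE : E2u) (hC : CntBd) (hN : N1fix kap) :
    ∃ (C0 C1 : ℝ) (a0 : ℕ), 0 < C0 ∧ 0 < C1 ∧ ChordBd kap C0 C1 a0 := by
  obtain ⟨C, hC0, hstep⟩ := chord_step
  obtain ⟨C2, hC2, hone⟩ := n_one kap hC hN
  obtain ⟨M, hM⟩ : ∃ M : ℝ, M = 42 ^ (5 / 4 : ℝ) := ⟨_, rfl⟩
  have hM0 : 0 < M := by rw [hM]; positivity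
  obtain ⟨r0, hr0, hr1, hnear⟩ := near_bd hE (1 / (12 * M)) (by positivity)
  obtain ⟨r, hr, hrr0, hrM⟩ : ∃ r : ℝ, 0 < r ∧ r ≤ r0 ∧ M * ((C2 + 2 * C) * r) ≤ 1 / 4 :=
    ⟨min r0 (1 / (4 * M * (C2 + 2 * C))), by positivity, min_le_left _ _, by
      calc _ ≤ M * ((C2 + 2 * C) * (1 / (4 * M * (C2 + 2 * C)))) := by
            gcongr; exact min_le_right _ _
        _ = _ := by field_simp⟩
  obtain ⟨C1, hC1, a1, h1⟩ := hone r hr (hrr0.trans hr1) (1 / (12 * M)) (by positivity)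
  obtain ⟨a2, h2⟩ := hnear r hr hrr0
  obtain ⟨C0, hC0a, hC0b⟩ : ∃ C0 : ℝ, 1000 ^ (5 / 4 : ℝ) ≤ C0 ∧ 4 * C ≤ C0 :=
    ⟨_, le_max_left _ _, le_max_right _ _⟩
  have hC00 : 0 < C0 := by linarith
  refine ⟨C0, C1, max (max a1 a2) (max 2 ⌈(1 / r) ^ 2⌉₊), hC00, hC1, fun H => ?_⟩
  induction H using Nat.strong_induction_on with
  | _ H ih =>
  intro a b x L T ha hH hb hx hL hT0 hT
  have ha' := ha
  simp only [max_le_iff] at ha'
  obtain ⟨⟨ha1, ha2⟩, ha3, har⟩ := ha'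
  have hH0 : (0 : ℝ) < H := by exact_mod_cast hH
  have ha0 : (0 : ℝ) < a := by exact_mod_cast (by omega : 0 < a)
  have hZ := Z_pos L
  rcases lt_or_ge H (1000 * a) with h | h
  · refine (IE_le_Z fun t _ _ => theta_le_one _ _ _ _ _ t).trans
      (ENNReal.ofReal_le_ofReal (le_mul_of_one_le_left hZ.le ?_))
    calc (1 : ℝ) ≤ (1000 * ((a : ℝ) / H)) ^ (5 / 4 : ℝ) := by
          refine Real.one_le_rpow ?_ (by norm_num)
          rw [← mul_div_assoc, le_div_iff₀ hH0, one_mul]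
          exact_mod_cast h.le
      _ ≤ _ := by
          rw [Real.mul_rpow (by norm_num) (by positivity)]
          gcongr
  have hn := h2 a b (x - 3 * a) (2 * L - (x - 3 * a) - (b + 6 * a)) L ha2 hb (by omega) (by omega)
    (by omega)
  have hf := h1 a b (x - 3 * a) (2 * L - (x - 3 * a) - (b + 6 * a)) L ha1 hb (by omega) (by omega)
    (by omega)
  have hs : 0 < √(a : ℝ) := by positivity
  have hR : (⌊r * √(a : ℝ)⌋₊ : ℝ) + 1 ≤ 2 * r * √(a : ℝ) := by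
    have h3 := none_sqrt har
    rw [div_le_iff₀ hr] at h3
    have h4 := Nat.floor_le (a := r * √(a : ℝ)) (by positivity)
    linarith
  refine (hstep a b x L H ⌊r * √(a : ℝ)⌋₊ T (C0 * (42 * ((a : ℝ) / H)) ^ (5 / 4 : ℝ))
    (1 / (12 * M) + C2 * r + 1 / (12 * M)) (1 / (12 * M)) ha3 hb h hx hL hT0 (by positivity)
    (fun H' b' x' L' h3 h4 h5 h6 h7 => ?_) ?_ hn).trans (ENNReal.ofReal_le_ofReal ?_)
  · refine (ih H' h4 (21 * a) b' x' L' T (by omega) (by omega) h5 h6 h7 hT0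
      fun a' h8 h9 => hT a' (by omega) (by omega)).trans (ENNReal.ofReal_le_ofReal ?_)
    have hH' : (0 : ℝ) < H' := by exact_mod_cast (by omega : 0 < H')
    have h8 : (H : ℝ) ≤ 2 * H' := by exact_mod_cast h3
    have := Z_pos L'
    gcongr
    rw [← mul_div_assoc, div_le_div_iff₀ hH' hH0]
    push_cast
    nlinarith
  · refine (mass_mono fun t _ _ ht => fail_mono ht
      (Real.sqrt_le_iff.2 ⟨hT0, hT a le_rfl (by omega)⟩)).trans (hf.trans ?_)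
    linarith
  · have h3 : C * ((⌊r * √(a : ℝ)⌋₊ : ℝ) + 1) / √(a : ℝ) ≤ 2 * C * r := by
      rw [div_le_iff₀ hs]
      nlinarith
    have h4 := chordb_pow ha0 (H := H) (by exact_mod_cast (by omega : a ≤ H))
    have hq : 0 ≤ ((a : ℝ) / H) ^ (5 / 4 : ℝ) := by positivity
    have h5 : C * ((⌊r * √(a : ℝ)⌋₊ : ℝ) + 1) * a / (H * √(H : ℝ)) ≤
        2 * C * ((a : ℝ) / H) ^ (5 / 4 : ℝ) := by
      calc _ ≤ C * (2 * 1 * √(a : ℝ)) * a / (H * √(H : ℝ)) := by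
            gcongr
            exact hR.trans (by gcongr; exact hrr0.trans hr1)
        _ = 2 * C * (√(a : ℝ) * a / (H * √(H : ℝ))) := by ring
        _ ≤ _ := by gcongr
    have h6 : M * (1 / (12 * M) + C2 * r + 1 / (12 * M) + 1 / (12 * M) +
        C * ((⌊r * √(a : ℝ)⌋₊ : ℝ) + 1) / √(a : ℝ)) ≤ 1 / 2 := by
      have e : M * (1 / (12 * M)) = 1 / 12 := by field_simp
      nlinarith [mul_le_mul_of_nonneg_left h3 hM0.le]
    rw [Real.mul_rpow (by norm_num) (by positivity), ← hM]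
    refine mul_le_mul_of_nonneg_right ?_ hZ.le
    nlinarith [mul_le_mul_of_nonneg_left h6 (mul_nonneg hC00.le hq),
      mul_le_mul_of_nonneg_right hC0b hq]

end Pool.Agent.QL.ND
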