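import Pool.Agent.P.MP_7a6434d8_pr.QL.ND.Ems
import Pool.Agent.P.MP_7a6434d8_pr.Chain

/-! Chords of a sub-disc are chords. -/

namespace Pool.Agent.QL.ND

open Pool.Agent.P.MP_7a6434d8_pr Mp Finset
open scoped ENNReal

theorem cutl_conn {t t' : Mp} {ι : V t' → V t} (hι : ∀ a b, adj t' a b → adj t (ι a) (ι b))
    {K : V t' → Prop} {a b : V t'} (h : Conn t' K a b) :
    Conn t (fun z => ∃ z', K z' ∧ ι z' = z) (ι a) (ι b) := by
  obtain ⟨ha, hp⟩ := h
  induction hp with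
  | refl => exact chain_conn_refl ⟨a, ha, rfl⟩
  | tail _ hbc ih => exact chain_conn_tail ih (hι _ _ hbc.1) ⟨_, hbc.2, rfl⟩

theorem cutl_miss {t t' : Mp} {ι : V t' → V t} (hι : Function.Injective ι) {w : ℕ}
    (hc : Fintype.card (V t) ≤ Fintype.card (V t') + w) (K : V t' → Prop) :
    miss t (fun z => ∃ z', K z' ∧ ι z' = z) ≤ miss t' K + w := by
  classical
  have h1 := card_filter_add_card_filter_not (s := (univ : Finset (V t)))
    (fun z => ∃ z', K z' ∧ ι z' = z)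
  have h2 := card_filter_add_card_filter_not (s := (univ : Finset (V t'))) K
  have h3 : (univ.filter K).card ≤ (univ.filter (fun z => ∃ z', K z' ∧ ι z' = z)).card :=
    card_le_card_of_injOn ι (fun a ha => by
      simp only [coe_filter, mem_univ, true_and, Set.mem_ofPred_eq] at ha ⊢
      exact ⟨a, ha, rfl⟩) hι.injOn
  rw [card_univ] at h1 h2
  have e1 : miss t (fun z => ∃ z', K z' ∧ ι z' = z) =
      (univ.filter (fun z => ¬ ∃ z', K z' ∧ ι z' = z)).card := by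
    unfold miss
    congr
  have e2 : miss t' K = (univ.filter (fun z => ¬ K z)).card := by
    unfold miss
    congr
  omega

theorem cutl_chord {t t' : Mp} {x' b' x'' w x b H H' : ℕ} {T : ℝ}
    (C : Cut t t' x' b' x'' w) (h1 : x' ≤ x) (h2 : x + b ≤ x'') (h3 : H' + x ≤ H + x')
    (h4 : H' + x'' ≤ H + (x + b)) {K' : V t' → Prop} (hK : ChordK t' x' b' H' T K') :
    ∃ K, ChordK t x b H T K ∧ miss t K ≤ miss t' K' + w := by
  obtain ⟨ι, hi, ha, he, hl, hr⟩ := C.ex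
  have hp := C.per_eq
  have hle := C.le
  refine ⟨fun z => ∃ z', K' z' ∧ ι z' = z, ⟨?_, ?_, ?_⟩, cutl_miss hi C.card K'⟩
  · rintro _ _ ⟨z, hz, rfl⟩ ⟨z', hz', rfl⟩
    exact cutl_conn ha (hK.conn z z' hz hz')
  · rintro p hp2 (h | h)
    · exact ⟨bv t' p, hK.far p (by omega) (Or.inl (by omega)), (hl p (by omega)).symm⟩
    · obtain ⟨q, rfl⟩ : ∃ q, p = x'' + q := ⟨p - x'', by omega⟩
      exact ⟨bv t' (x' + b' + q), hK.far _ (by omega) (Or.inr (by omega)), (hr q hp2).symm⟩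
  · intro f hf
    obtain ⟨p, q, P, a1, a2, a3, a4, a5, a6, a7, a8⟩ := hK.path _ ((he f).trans_lt hf)
    obtain ⟨r, rfl⟩ : ∃ r, q = x' + b' + r := ⟨q - (x' + b'), by omega⟩
    refine ⟨p, x'' + r, fun z => ∃ z', P z' ∧ ι z' = z, by omega, by omega, by omega, by omega,
      by omega, ?_, ?_, ?_⟩
    · rw [hl p a2.le, hr r (by omega)]
      exact cutl_conn ha a6
    · rintro _ ⟨z, hz, rfl⟩ ⟨z', hz', h⟩
      exact a7 z hz (hi h ▸ hz')
    · rintro _ _ ⟨z, hz, rfl⟩ ⟨z', hz', rfl⟩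
      exact a8 z z' hz hz'

theorem cutl_sub {t t' : Mp} {ι : V t' → V t} {M : Multiset (Sym2 (V t))}
    (h : ems t = (ems t').map (Sym2.map ι) + M) :
    (∀ a b, adj t' a b → adj t (ι a) (ι b)) ∧
      ∀ f : V t → ℝ, energy t' (fun z => f (ι z)) ≤ energy t f := by
  refine ⟨fun a b hab => ?_, fun f => ?_⟩
  · rw [← mem_ems, h]
    exact Multiset.mem_add.2 (Or.inl ((mem_map_iff _ _ _ _).2 ⟨a, b, (mem_ems _ _ _).2 hab, rfl, rfl⟩))
  · rw [← men_ems, ← men_ems, h, men_add, men_map]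
    exact le_add_of_nonneg_right (men_nonneg _ _)

theorem theta_le_one (lam : ℝ≥0∞) (x b H : ℕ) (T : ℝ) (t : Mp) : theta lam x b H T t ≤ 1 := by
  exact min_le_left _ _

theorem theta_mono {lam lam' : ℝ≥0∞} (h : lam ≤ lam') (x b H : ℕ) (T : ℝ) (t : Mp) :
    theta lam x b H T t ≤ theta lam' x b H T t := by
  exact min_le_min le_rfl (iInf₂_mono fun K _ => mul_le_mul_left h _)

theorem theta_cut (lam : ℝ≥0∞) {t t' : Mp} {x' b' x'' w x b H H' : ℕ} (T : ℝ)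
    (C : Cut t t' x' b' x'' w) (h1 : x' ≤ x) (h2 : x + b ≤ x'') (h3 : H' + x ≤ H + x')
    (h4 : H' + x'' ≤ H + (x + b)) :
    theta lam x b H T t ≤ theta lam x' b' H' T t' + lam * (w : ℝ≥0∞) := by
  have h5 : (⨅ (K : V t → Prop) (_ : ChordK t x b H T K), lam * (miss t K : ℝ≥0∞)) ≤
      (⨅ (K : V t' → Prop) (_ : ChordK t' x' b' H' T K), lam * (miss t' K : ℝ≥0∞)) +
        lam * (w : ℝ≥0∞) := by
    simp only [ENNReal.iInf_add]
    refine le_iInf₂ fun K' hK' => ?_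
    obtain ⟨K, hK, hm⟩ := cutl_chord C h1 h2 h3 h4 hK'
    refine (iInf₂_le K hK).trans ?_
    rw [← mul_add, ← Nat.cast_add]
    exact mul_le_mul_right (Nat.cast_le.2 hm) _
  unfold theta
  rw [min_add]
  exact min_le_min le_self_add h5

theorem cut_fill {e : Ex} {u b0 y : ℕ} {t t' : Mp} (F : Fill e u b0 y t t') :
    Cut t t' u e.b (u + b0) e.nX := by
  obtain ⟨ι, ξ, hb, he, h1, -, h3⟩ := F.ex
  have p1 := F.per_t
  have p2 := F.per_t'
  refine ⟨F.ok_t, F.ok_t', by omega, by omega, ?_, ι, fun a b h => ?_, (cutl_sub he).1,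
    (cutl_sub he).2, h1, fun q hq => h3 q (by omega)⟩
  · let _ := e.fin
    rw [← Fintype.card_of_bijective hb, Fintype.card_sum]
    exact le_rfl
  · exact Sum.inl_injective (hb.1 (a₁ := Sum.inl a) (a₂ := Sum.inl b) h)

theorem cut_br {m x' x'' : ℕ} {t W1 W2 : Mp} (B : BrV m t W1 W2) (h1 : x' ≤ m)
    (h2 : m + 2 * per W2 + 2 ≤ x'') (h3 : x'' ≤ 2 * per t) :
    Cut t W1 x' (x'' - 2 * per W2 - 2 - x') x'' (edges W2 + 1) := by
  obtain ⟨ι1, ι2, hb, he, b1, -, b3⟩ := brM_of B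
  have p1 := B.isBr.per_eq
  rw [add_assoc] at he
  refine ⟨B.isBr.ok_t, B.isBr.ok_1, by omega, h3, ?_, ι1, fun a b h => ?_, (cutl_sub he).1,
    (cutl_sub he).2, fun p hp => b1 p (hp.trans h1), fun q hq => ?_⟩
  · rw [← Fintype.card_of_bijective hb, Fintype.card_sum]
    exact Nat.add_le_add_left (card_V_le W2 B.isBr.ok_2) _
  · exact Sum.inl_injective (hb.1 (a₁ := Sum.inl a) (a₂ := Sum.inl b) h)
  · rw [← b3 _ (by omega) (by omega)]
    congr 1
    omega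

/-- the infimum in `theta` is attained -/
theorem theta_attain {lam : ℝ≥0∞} {x b H : ℕ} {T : ℝ} {t : Mp} (h : theta lam x b H T t < 1) :
    ∃ K, ChordK t x b H T K ∧ lam * (miss t K : ℝ≥0∞) ≤ theta lam x b H T t := by
  classical
  have h1 : (⨅ (K : V t → Prop) (_ : ChordK t x b H T K), lam * (miss t K : ℝ≥0∞)) < 1 :=
    (min_lt_iff.1 h).resolve_left (lt_irrefl _)
  have h2 : ∃ n, ∃ K, ChordK t x b H T K ∧ miss t K = n := by
    obtain ⟨K, hK⟩ := iInf_lt_iff.1 h1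
    obtain ⟨hK', -⟩ := iInf_lt_iff.1 hK
    exact ⟨_, K, hK', rfl⟩
  obtain ⟨K, hK, hm⟩ := Nat.find_spec h2
  have h3 : lam * (miss t K : ℝ≥0∞) ≤
      ⨅ (K : V t → Prop) (_ : ChordK t x b H T K), lam * (miss t K : ℝ≥0∞) :=
    le_iInf₂ fun K' hK' =>
      mul_le_mul_right (Nat.cast_le.2 (hm ▸ Nat.find_min' h2 ⟨K', hK', rfl⟩)) _
  exact ⟨K, hK, le_min (h3.trans h1.le) h3⟩

end Pool.Agent.QL.ND
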