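import Pool.Agent.P.MP_7a6434d8_pr.QL.ND.Rch
import Pool.Agent.P.MP_7a6434d8_pr.Chain

/-! A successful exploration gives a chord. -/

namespace Pool.Agent.QL.ND

open Pool.Agent.P.MP_7a6434d8_pr Mp Finset
open scoped ENNReal

/-- total variation of `F` along explored paths inside `N` from the arc `[a, 2 a]` -/
inductive newchord_TV (e : Ex) (a : ℕ) (N : ℕ ⊕ e.X → Prop) (F : ℕ ⊕ e.X → ℝ) :
    ℕ ⊕ e.X → ℝ → Prop
  | base (p : ℕ) : a ≤ p → p ≤ 2 * a → newchord_TV e a N F (e.bd p) 0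
  | step (z' z : ℕ ⊕ e.X) (s : ℝ) : newchord_TV e a N F z' s → s(z', z) ∈ e.el → N z →
      newchord_TV e a N F z (s + |F z - F z'|)

theorem newchord_nonneg {e : Ex} {a : ℕ} {N : ℕ ⊕ e.X → Prop} {F : ℕ ⊕ e.X → ℝ} {z : ℕ ⊕ e.X}
    {s : ℝ} (h : newchord_TV e a N F z s) : 0 ≤ s := by
  induction h with
  | base => exact le_rfl
  | step z' z s _ _ _ ih => positivity

theorem newchord_tv {e : Ex} {b a R : ℕ} {T : ℝ} (hT : 0 ≤ T) (h : ¬ e.FailX b a R T)
    (F : ℕ ⊕ e.X → ℝ) (hF : men e.el F < 1) : ∃ q s, b + 4 * a ≤ q ∧ q ≤ b + 5 * a ∧ s < T ∧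
      newchord_TV e a (e.rch a (b + 5 * a) R) F (e.bd q) s := by
  obtain ⟨S, hS⟩ : ∃ S : ℕ ⊕ e.X → Set ℝ,
    ∀ z s, s ∈ S z ↔ s = T ∨ newchord_TV e a (e.rch a (b + 5 * a) R) F z s :=
    ⟨fun z => {s | s = T ∨ newchord_TV e a (e.rch a (b + 5 * a) R) F z s}, fun _ _ => Iff.rfl⟩
  have hne : ∀ z, (S z).Nonempty := fun z => ⟨T, (hS z T).2 (Or.inl rfl)⟩
  have hbd : ∀ z, BddBelow (S z) := fun z => ⟨0, fun s hs => by
    rcases (hS z s).1 hs with h | h
    · exact h ▸ hT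
    · exact newchord_nonneg h⟩
  have hlip : ∀ x y, s(y, x) ∈ e.el → e.rch a (b + 5 * a) R x →
      sInf (S x) - sInf (S y) ≤ |F x - F y| := by
    intro x y hxy hx
    have : sInf (S x) - |F x - F y| ≤ sInf (S y) := by
      refine le_csInf (hne y) fun s hs => ?_
      rcases (hS y s).1 hs with h | h
      · have := csInf_le (hbd x) ((hS x T).2 (Or.inl rfl))
        have := abs_nonneg (F x - F y)
        linarith
      · have := csInf_le (hbd x) ((hS x _).2 (Or.inr (h.step y x s hxy hx)))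
        linarith
    linarith
  by_contra hc
  refine h ⟨fun z => sInf (S z), lt_of_le_of_lt ((menOn_le_of e.el _ _ F _ ?_).trans
    (menOn_le_men e.el (e.rch a (b + 5 * a) R) F)) hF, fun p h1 h2 => ?_, fun q h1 h2 => ?_⟩
  · intro x y hxy hx hy
    refine Or.inr ⟨hx, hy, ?_⟩
    have h1 := hlip x y (Sym2.eq_swap ▸ hxy) hx
    have h2 := hlip y x hxy hy
    rw [abs_sub_comm] at h2
    rw [← sq_abs (F x - F y)]
    exact sq_le_sq' (by linarith) h1
  · exact csInf_le (hbd _) ((hS _ _).2 (Or.inr (newchord_TV.base p h1 h2)))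
  · refine le_csInf (hne _) fun s hs => ?_
    rcases (hS _ s).1 hs with h | h
    · exact h.ge
    · by_contra hlt
      exact hc ⟨q, s, h1, h2, not_le.1 hlt, h⟩

theorem newchord_path {e : Ex} {a : ℕ} {N : ℕ ⊕ e.X → Prop} {t : Mp} (π : ℕ ⊕ e.X → V t)
    (f : V t → ℝ) (hπ : ∀ z z', s(z, z') ∈ e.el → adj t (π z) (π z'))
    (hN : ∀ p, a ≤ p → p ≤ 2 * a → N (e.bd p)) {z : ℕ ⊕ e.X} {s : ℝ}
    (h : newchord_TV e a N (fun z => f (π z)) z s) :
    ∃ (p : ℕ) (P : V t → Prop), a ≤ p ∧ p ≤ 2 * a ∧ Conn t P (π (e.bd p)) (π z) ∧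
      (∀ w, P w → ∃ z', N z' ∧ w = π z') ∧ ∀ w, P w → |f w - f (π (e.bd p))| ≤ s := by
  induction h with
  | base p h1 h2 =>
    refine ⟨p, fun w => w = π (e.bd p), h1, h2, chain_conn_refl rfl,
      fun w hw => ⟨_, hN p h1 h2, hw⟩, fun w hw => ?_⟩
    rw [hw]
    simp
  | step z' z s _ he hz ih =>
    obtain ⟨p, P, h1, h2, hc, h3, h4⟩ := ih
    refine ⟨p, fun w => P w ∨ w = π z, h1, h2,
      chain_conn_tail (chain_conn_mono (fun _ h => Or.inl h) hc) (hπ _ _ he) (Or.inr rfl),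
      fun w hw => ?_, fun w hw => ?_⟩
    · rcases hw with hw | hw
      · exact h3 w hw
      · exact ⟨z, hz, hw⟩
    · rcases hw with hw | hw
      · exact (h4 w hw).trans (le_add_of_nonneg_right (abs_nonneg _))
      · have h5 := h4 _ (chain_conn_right hc)
        have h6 := abs_sub_le (f (π z)) (f (π z')) (f (π (e.bd p)))
        rw [hw]
        linarith

theorem newchord_conn {t t' : Mp} (ι : V t' → V t) (hι : ∀ x y, adj t' x y → adj t (ι x) (ι y))
    {k : ℕ} {x y : V t'} (h : Within t' k x y) : Conn t (fun z => ∃ v, ι v = z) (ι x) (ι y) := by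
  induction k generalizing y with
  | zero =>
    obtain rfl : x = y := h
    exact chain_conn_refl ⟨x, rfl⟩
  | succ k ih =>
    rcases h with h | ⟨z, h, hz⟩
    · exact ih h
    · exact chain_conn_tail (ih h) (hι _ _ hz) ⟨y, rfl⟩

theorem chord_new {e : Ex} {u b a y R H : ℕ} {T : ℝ} {t t' : Mp}
    (F : Fill e u (b + 6 * a) y t t') (hN : e.NoLow a (b + 5 * a) (R + 1)) (ha : 1 ≤ a)
    (hH : 3 * a ≤ H) (hT : 0 ≤ T) (h : ¬ e.FailX b a R T) :
    ∃ K, ChordK t (u + 3 * a) b H (2 * T) K ∧ miss t K ≤ e.nX := by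
  classical
  obtain ⟨ι, ξ, hbij, hems, h1, h2, h3⟩ := F.ex
  have hper := F.per_t
  have hι : ∀ x y, adj t' x y → adj t (ι x) (ι y) := fun x y hxy => by
    rw [← mem_ems, hems]
    exact Multiset.mem_add.2 (Or.inl ((mem_map_iff _ _ _ _).2 ⟨x, y, (mem_ems _ _ _).2 hxy, rfl,
      rfl⟩))
  have hπ : ∀ z z', s(z, z') ∈ e.el → adj t (e.pos u ι ξ z) (e.pos u ι ξ z') := fun z z' hz => by
    rw [← mem_ems, hems]
    exact Multiset.mem_add.2 (Or.inr ((mem_map_iff _ _ _ _).2 ⟨z, z', hz, rfl, rfl⟩))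
  refine ⟨fun z => ∃ v, ι v = z, ⟨?_, ?_, ?_⟩, ?_⟩
  · rintro _ _ ⟨x, rfl⟩ ⟨y, rfl⟩
    obtain ⟨k, hk⟩ := within_exists t' F.ok_t' x y
    exact newchord_conn ι hι hk
  · intro p hp hfar
    rcases hfar with hfar | hfar
    · exact ⟨_, (h1 p (by omega)).symm⟩
    · have := h3 (p - (u + (b + 6 * a))) (by omega)
      rw [show u + (b + 6 * a) + (p - (u + (b + 6 * a))) = p by omega] at this
      exact ⟨_, this.symm⟩
  · intro f hf
    have hF : men e.el (fun z => f (e.pos u ι ξ z)) < 1 := by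
      rw [← men_ems, hems, men_add, men_map e.el] at hf
      have := men_nonneg ((ems t').map (Sym2.map ι)) f
      linarith
    obtain ⟨q, s, hq1, hq2, hs, hTV⟩ := newchord_tv hT h _ hF
    obtain ⟨p, P, hp1, hp2, hc, hP1, hP2⟩ := newchord_path (e.pos u ι ξ) f hπ
      (fun p g1 g2 => rch_mono (n := 0) ⟨p, g1, by omega, rfl⟩ (Nat.zero_le R)) hTV
    refine ⟨u + p, u + q, P, by omega, by omega, by omega, by omega, by omega, ?_, ?_, ?_⟩
    · rw [h2 p (by omega), h2 q (by omega)]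
      exact hc
    · rintro w hw ⟨v, hv⟩
      obtain ⟨z, hz, rfl⟩ := hP1 w hw
      rcases z with p' | x
      · exact hN R p' (Nat.lt_succ_self R) hz
      · exact Sum.inl_ne_inr (hbij.1 (a₁ := Sum.inl v) (a₂ := Sum.inr x) hv)
    · intro z z' hz hz'
      have g1 := abs_le.1 (hP2 z hz)
      have g2 := abs_le.1 (hP2 z' hz')
      linarith [g1.2, g2.1]
  · let _ := e.fin
    unfold miss Ex.nX
    refine le_trans (Finset.card_le_card (t := univ.image ξ) fun z hz => ?_) Finset.card_image_le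
    obtain ⟨v | x, rfl⟩ := hbij.2 z
    · exact absurd ⟨v, rfl⟩ ((@mem_filter _ _ (_) _ _).1 hz).2
    · exact mem_image.2 ⟨x, mem_univ _, rfl⟩

theorem theta_new (lam : ℝ≥0∞) {e : Ex} {u b a y R H : ℕ} {T : ℝ} {t t' : Mp}
    (F : Fill e u (b + 6 * a) y t t') (hN : e.NoLow a (b + 5 * a) (R + 1)) (ha : 1 ≤ a)
    (hH : 3 * a ≤ H) (hT : 0 ≤ T) (h : ¬ e.FailX b a R T) :
    theta lam (u + 3 * a) b H (2 * T) t ≤ lam * (e.nX : ℝ≥0∞) := by
  obtain ⟨K, hK, hm⟩ := chord_new F hN ha hH hT h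
  unfold theta
  refine (min_le_right _ _).trans ((iInf₂_le K hK).trans ?_)
  exact mul_le_mul_right (by exact_mod_cast hm) _

end Pool.Agent.QL.ND
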