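import Pool.Agent.P.MP_7a6434d8_pr.QL.ND.Expl
import Pool.Agent.P.MP_7a6434d8_pr.QL.ND.NewChord
import Pool.Agent.P.MP_7a6434d8_pr.QL.ND.CutL

/-! One step of the chord recursion. -/

namespace Pool.Agent.QL.ND

open Pool.Agent.P.MP_7a6434d8_pr Mp Finset
open scoped ENNReal

theorem chords_lam {H H' : ℕ} (h0 : 0 < H') (h : H' ≤ H) :
    ENNReal.ofReal (1 / (H : ℝ) ^ 2) ≤ ENNReal.ofReal (1 / (H' : ℝ) ^ 2) := by
  have h1 : (0 : ℝ) < H' := by exact_mod_cast h0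
  have h2 : (H' : ℝ) ≤ H := by exact_mod_cast h
  exact ENNReal.ofReal_le_ofReal (one_div_le_one_div_of_le (by positivity)
    (pow_le_pow_left₀ h1.le h2 2))

theorem chords_IE {L : ℕ} {F G : Mp → ℝ≥0∞} {β l n : ℝ} (hβ : 0 ≤ β) (hl : 0 ≤ l) (hn : 0 ≤ n)
    (h : ∀ t, ok t → per t = L → F t ≤ G t + ENNReal.ofReal l * ENNReal.ofReal n)
    (hG : IE L G ≤ ENNReal.ofReal (β * Z L)) :
    IE L F ≤ ENNReal.ofReal ((β + l * n) * Z L) := by
  have hZ := (Z_pos L).le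
  refine (IE_mono h).trans ?_
  rw [IE_add, IE_const, ← ENNReal.ofReal_mul hl, ← ENNReal.ofReal_mul (mul_nonneg hl hn), add_mul,
    ENNReal.ofReal_add (mul_nonneg hβ hZ) (mul_nonneg (mul_nonneg hl hn) hZ)]
  exact add_le_add hG le_rfl

theorem chords_cast {l : ℝ≥0∞} {n m : ℕ} (h : n ≤ m) :
    l * (n : ℝ≥0∞) ≤ l * ENNReal.ofReal (m : ℝ) := by
  rw [ENNReal.ofReal_natCast]
  exact mul_le_mul_right (by exact_mod_cast h) _

theorem chords_num {a H R : ℕ} {C β : ℝ} (hC : 0 < C) (hβ : 0 ≤ β) (ha : 2 ≤ a)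
    (hH : 1000 * a ≤ H) :
    C * ((R : ℝ) + 1) * a * (β / ((a : ℝ) * √(a : ℝ)) + 1 / (H : ℝ) ^ 2 * √(((H / 8 : ℕ) : ℝ) + 1)
      + 1 / ((((H / 8 : ℕ) : ℝ) + 1) * √(((H / 8 : ℕ) : ℝ) + 1)))
    ≤ β * (25 * C * ((R : ℝ) + 1) / √(a : ℝ))
      + 25 * C * ((R : ℝ) + 1) * a / ((H : ℝ) * √(H : ℝ)) := by
  have ha' : (0 : ℝ) < a := by exact_mod_cast (by omega : 0 < a)
  have hH' : (0 : ℝ) < H := by exact_mod_cast (by omega : 0 < H)
  have sa : 0 < √(a : ℝ) := Real.sqrt_pos.2 ha'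
  have sH : 0 < √(H : ℝ) := Real.sqrt_pos.2 hH'
  have hs : √(H : ℝ) * √(H : ℝ) = H := Real.mul_self_sqrt hH'.le
  set J : ℝ := ((H / 8 : ℕ) : ℝ) + 1 with hJ
  have hJ1 : J ≤ H := by
    have : H / 8 + 1 ≤ H := by omega
    rw [hJ]; exact_mod_cast this
  have hJ2 : (H : ℝ) ≤ 8 * J := by
    have : H ≤ 8 * (H / 8 + 1) := by omega
    rw [hJ]; exact_mod_cast this
  have hJ0 : 0 < J := by linarith
  have s1 : √J ≤ √(H : ℝ) := Real.sqrt_le_sqrt hJ1
  have s2 : √(H : ℝ) ≤ 3 * √J := by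
    rw [Real.sqrt_le_left (by positivity), mul_pow, Real.sq_sqrt hJ0.le]
    linarith
  have sJ : 0 < √J := Real.sqrt_pos.2 hJ0
  have e1 : 1 / (H : ℝ) ^ 2 * √J ≤ 1 / ((H : ℝ) * √(H : ℝ)) := by
    rw [div_mul_eq_mul_div, one_mul, div_le_div_iff₀ (by positivity) (by positivity)]
    calc √J * ((H : ℝ) * √(H : ℝ)) ≤ √(H : ℝ) * ((H : ℝ) * √(H : ℝ)) :=
          mul_le_mul_of_nonneg_right s1 (by positivity)
      _ = (H : ℝ) * (√(H : ℝ) * √(H : ℝ)) := by ring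
      _ = 1 * (H : ℝ) ^ 2 := by rw [hs]; ring
  have e2 : 1 / (J * √J) ≤ 24 / ((H : ℝ) * √(H : ℝ)) := by
    rw [div_le_div_iff₀ (by positivity) (by positivity)]
    calc 1 * ((H : ℝ) * √(H : ℝ)) ≤ (8 * J) * (3 * √J) := by
          rw [one_mul]; exact mul_le_mul hJ2 s2 sH.le (by positivity)
      _ = _ := by ring
  have e3 : C * ((R : ℝ) + 1) * a * (β / ((a : ℝ) * √(a : ℝ)))
      = β * (C * ((R : ℝ) + 1) / √(a : ℝ)) := by field_simp
  have e4 : β * (C * ((R : ℝ) + 1) / √(a : ℝ)) ≤ β * (25 * C * ((R : ℝ) + 1) / √(a : ℝ)) := by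
    refine mul_le_mul_of_nonneg_left (div_le_div_of_nonneg_right ?_ sa.le) hβ
    have : 0 ≤ C * ((R : ℝ) + 1) := by positivity
    linarith
  have e5 : C * ((R : ℝ) + 1) * a * (1 / (H : ℝ) ^ 2 * √J + 1 / (J * √J))
      ≤ C * ((R : ℝ) + 1) * a * (1 / ((H : ℝ) * √(H : ℝ)) + 24 / ((H : ℝ) * √(H : ℝ))) :=
    mul_le_mul_of_nonneg_left (add_le_add e1 e2) (by positivity)
  have e6 : C * ((R : ℝ) + 1) * a * (1 / ((H : ℝ) * √(H : ℝ)) + 24 / ((H : ℝ) * √(H : ℝ)))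
      = 25 * C * ((R : ℝ) + 1) * a / ((H : ℝ) * √(H : ℝ)) := by ring
  rw [add_assoc, mul_add, e3]
  linarith

theorem chord_step : ∃ C : ℝ, 0 < C ∧ ∀ (a b x L H R : ℕ) (T β η1 η2 : ℝ), 2 ≤ a → b ≤ a →
    1000 * a ≤ H → 2 * H ≤ x → x + b + 2 * H ≤ 2 * L → 0 ≤ T → 0 ≤ β →
    (∀ H' b' x' L' : ℕ, H ≤ 2 * H' → H' < H → b' ≤ 21 * a → 2 * H' ≤ x' →
      x' + b' + 2 * H' ≤ 2 * L' →
      IE L' (theta (ENNReal.ofReal (1 / (H' : ℝ) ^ 2)) x' b' H' (2 * T))
        ≤ ENNReal.ofReal (β * Z L')) →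
    mass L (fun t => Fail t (x - 3 * a) b a R T) ≤ η1 * Z L →
    mass L (fun t => Near t (x - 3 * a) (b + 6 * a) a R) ≤ η2 * Z L →
    IE L (theta (ENNReal.ofReal (1 / (H : ℝ) ^ 2)) x b H (2 * T))
      ≤ ENNReal.ofReal ((β * (η1 + η2 + C * ((R : ℝ) + 1) / √(a : ℝ))
          + C * ((R : ℝ) + 1) * a / ((H : ℝ) * √(H : ℝ))) * Z L) := by
  obtain ⟨C, hC, hE⟩ := explore
  refine ⟨25 * C, by positivity, fun a b x L H R T β η1 η2 ha hb hH hx hL hT hβ IH h1 h2 => ?_⟩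
  obtain ⟨u, rfl⟩ : ∃ u, x = u + 3 * a := ⟨x - 3 * a, by omega⟩
  obtain ⟨y, hy⟩ : ∃ y, 2 * L = u + (b + 6 * a) + y := ⟨2 * L - (u + (b + 6 * a)), by omega⟩
  rw [Nat.add_sub_cancel] at h1 h2
  set l : ℝ := 1 / (H : ℝ) ^ 2 with hl
  have hl0 : 0 ≤ l := by positivity
  have key : ∀ (e : Ex) (t t' : Mp), e.Inv → Fill e u (b + 6 * a) y t t' →
      theta (ENNReal.ofReal l) (u + 3 * a) b H (2 * T) t ≤
        theta (ENNReal.ofReal l) u e.b (H - 3 * a) (2 * T) t'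
          + ENNReal.ofReal l * ENNReal.ofReal (e.vol : ℝ) := fun e t t' hI F =>
    (theta_cut _ _ (cut_fill F) (by omega) (by omega) (by omega) (by omega)).trans
      (add_le_add le_rfl (chords_cast hI.1))
  have hyp2 : ∀ (e : Ex) (L1 : ℕ), e.Inv → e.b ≤ 20 * a + 2 → 2 * L1 = u + e.b + y →
      IE L1 (Up e u (b + 6 * a) y (theta (ENNReal.ofReal l) (u + 3 * a) b H (2 * T)))
        ≤ ENNReal.ofReal ((β + l * e.vol) * Z L1) := by
    intro e L1 hI heb hL1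
    refine chords_IE hβ hl0 (Nat.cast_nonneg _) (fun t' _ _ => iSup₂_le fun t F => ?_)
      (IH (H - 3 * a) e.b u L1 (by omega) (by omega) (by omega) (by omega) (by omega))
    exact (key e t t' hI F).trans
      (add_le_add (theta_mono (chords_lam (by omega) (by omega)) _ _ _ _ _) le_rfl)
  have main := hE a b R u y u y (H / 8) β l (ENNReal.ofReal β) (fun t => Fail t u b a R T)
    (theta (ENNReal.ofReal l) (u + 3 * a) b H (2 * T)) ha hb (by omega) (by omega) (by omega) hβ hl0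
    (theta_le_one _ _ _ _ _) ?_ hyp2 ?_ L L hy hy
  · refine main.trans ?_
    have hZ := (Z_pos L).le
    have m1 : 0 ≤ mass L (fun t => Fail t u b a R T) := ENNReal.toReal_nonneg
    have m2 : 0 ≤ mass L (fun t => Near t u (b + 6 * a) a R) := ENNReal.toReal_nonneg
    rw [← ENNReal.ofReal_mul hβ, ← ENNReal.ofReal_add (mul_nonneg hβ m1) (by positivity)]
    refine ENNReal.ofReal_le_ofReal ?_
    have n1 := mul_le_mul_of_nonneg_right (chords_num (R := R) hC hβ ha hH) hZ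
    have n2 := mul_le_mul_of_nonneg_left h1 hβ
    have n3 := mul_le_mul_of_nonneg_left h2 hβ
    rw [← hl] at n1
    linarith
  · intro e L1 L' hI heb hL1 hL' hN
    obtain rfl : L' = L1 := by omega
    have hZ := (Z_pos L').le
    by_cases hF : e.FailX b a R T
    · refine (hyp2 e L' hI heb hL1).trans ?_
      rw [add_mul, ENNReal.ofReal_add (mul_nonneg hβ hZ) (by positivity), ENNReal.ofReal_mul hβ]
      exact add_le_add (mul_le_mul_right
        (mart_full e u _ y _ L' fun t t' F => fail_bwd F hN hF) _) le_rfl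
    · refine le_add_left ?_
      have := chords_IE (L := L') (G := fun _ => 0) (β := 0)
        (F := Up e u (b + 6 * a) y (theta (ENNReal.ofReal l) (u + 3 * a) b H (2 * T))) le_rfl hl0
        (Nat.cast_nonneg e.vol) (fun t' _ _ => iSup₂_le fun t F => by
          rw [zero_add]
          exact (theta_new _ F hN (by omega) (by omega) hT hF).trans (chords_cast hI.1))
        (by rw [IE_const, zero_mul]; exact zero_le)
      rwa [zero_add] at this
  · intro e L1 p m W2 hI heb hL1 hp _ hj hX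
    have hb' : max (u + e.b) (m + 2 * per W2 + 2) - 2 * per W2 - 2 - min u m ≤ 21 * a := by
      rcases hX with ⟨h3, h4⟩ | ⟨h3, h4⟩ <;> omega
    have hx' : 2 * (H - 3 * a - 2 * per W2 - 2) ≤ min u m := by
      rcases hX with ⟨h3, h4⟩ | ⟨h3, h4⟩ <;> omega
    have hL' : min u m + (max (u + e.b) (m + 2 * per W2 + 2) - 2 * per W2 - 2 - min u m)
        + 2 * (H - 3 * a - 2 * per W2 - 2) ≤ 2 * (L1 - 1 - per W2) := by
      rcases hX with ⟨h3, h4⟩ | ⟨h3, h4⟩ <;> omega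
    refine chords_IE hβ hl0 (by positivity)
      (fun W1 _ _ => iSup₂_le fun t1 B => iSup₂_le fun t F => ?_)
      (IH (H - 3 * a - 2 * per W2 - 2) _ (min u m) (L1 - 1 - per W2) (by omega) (by omega) hb' hx'
        hL')
    have hp1 := F.per_t'
    have c := cut_br (x' := min u m) (x'' := max (u + e.b) (m + 2 * per W2 + 2)) B
      (min_le_right _ _) (le_max_right _ _) (by rcases hX with ⟨h3, h4⟩ | ⟨h3, h4⟩ <;> omega)
    have k2 := theta_cut (ENNReal.ofReal l) (x := u) (b := e.b) (H := H - 3 * a)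
      (H' := H - 3 * a - 2 * per W2 - 2) (2 * T) c (min_le_left _ _) (le_max_left _ _)
      (by rcases hX with ⟨h3, h4⟩ | ⟨h3, h4⟩ <;> omega)
      (by rcases hX with ⟨h3, h4⟩ | ⟨h3, h4⟩ <;> omega)
    refine (key e t t1 hI F).trans ((add_le_add k2 le_rfl).trans ?_)
    rw [add_assoc]
    refine add_le_add (theta_mono (chords_lam (by omega) (by omega)) _ _ _ _ _) (le_of_eq ?_)
    rw [← mul_add, add_comm, add_assoc, ENNReal.ofReal_add (by positivity) (by positivity),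
      ← ENNReal.ofReal_natCast (edges W2 + 1), Nat.cast_add, Nat.cast_one]

end Pool.Agent.QL.ND
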