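import Pool.Agent.P.MP_7a6434d8_pr.QL.ND.Defs

/-! Internal definitions of block ND: edge multisets, explored parts, chords, trapping. -/

namespace Pool.Agent.QL.ND

open Pool.Agent.P.MP_7a6434d8_pr Mp Finset
open scoped ENNReal

/-! ### edge multisets -/

/-- the multiset of edges -/
def ems : (t : Mp) → Multiset (Sym2 (V t))
  | pt => 0
  | face t => (s(bv t 0, bv t 3) : Sym2 (V t)) ::ₘ ems t
  | bridge a b => (s(Sum.inl (bv a 0), Sum.inr (bv b 0)) : Sym2 (V a ⊕ V b)) ::ₘ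
      ((ems a).map (Sym2.map Sum.inl) + (ems b).map (Sym2.map Sum.inr))

/-- squared increment along an edge -/
def sqd {α : Type} (f : α → ℝ) : Sym2 α → ℝ :=
  Sym2.lift ⟨fun x y => (f x - f y) ^ 2, fun _ _ => by ring⟩

/-- energy of a multiset of edges -/
def men {α : Type} (M : Multiset (Sym2 α)) (f : α → ℝ) : ℝ := (M.map (sqd f)).sum

open Classical in
/-- energy of the edges with both ends in `N` -/
noncomputable def menOn {α : Type} (M : Multiset (Sym2 α)) (N : α → Prop) (f : α → ℝ) : ℝ :=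
  (M.map (fun e => if ∀ x ∈ e, N x then sqd f e else 0)).sum

/-- edge-level form of `FaceV` -/
def FaceM (k : ℕ) (t t' : Mp) : Prop :=
  ∃ ι : V t' → V t, Function.Bijective ι ∧
    ems t = (ems t').map (Sym2.map ι) + {s(ι (bv t' k), ι (bv t' (k + 3)))} ∧
    (∀ p, p ≤ k → bv t p = ι (bv t' p)) ∧
    ∀ p, k < p → p ≤ 2 * per t → bv t p = ι (bv t' (p + 2))

/-- edge-level form of `BrV` -/
def BrM (m : ℕ) (t W1 W2 : Mp) : Prop :=
  ∃ (ι1 : V W1 → V t) (ι2 : V W2 → V t), Function.Bijective (Sum.elim ι1 ι2) ∧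
    ems t = (ems W1).map (Sym2.map ι1) + (ems W2).map (Sym2.map ι2)
      + {s(ι1 (bv W1 m), ι2 (bv W2 0))} ∧
    (∀ p, p ≤ m → bv t p = ι1 (bv W1 p)) ∧
    (∀ p, p ≤ 2 * per W2 → bv t (m + 1 + p) = ι2 (bv W2 p)) ∧
    ∀ p, m ≤ p → p ≤ 2 * per W1 → bv t (p + 2 * per W2 + 2) = ι1 (bv W1 p)

open Classical in
/-- indicator -/
noncomputable def ind (P : Prop) : ℝ≥0∞ := if P then 1 else 0

/-! ### explored parts -/

/-- The explored part of a window: inner vertices `X`, current window length `b`, explored edges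
between window positions and inner vertices, present location of the original window positions,
number of explored faces. -/
structure Ex where
  X : Type
  fin : Fintype X
  b : ℕ
  el : Multiset (Sym2 (ℕ ⊕ X))
  bd : ℕ → ℕ ⊕ X
  sz : ℕ

namespace Ex

/-- nothing explored -/
def init (b0 : ℕ) : Ex := ⟨Empty, inferInstance, b0, 0, Sum.inl, 0⟩

/-- relabelling of positions after discovering a face at `k` -/
def fmap {X : Type} (k : ℕ) : ℕ ⊕ X → ℕ ⊕ X :=
  Sum.map (fun p => if p ≤ k then p else p + 2) id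

/-- discover a face at `k` -/
def fc (e : Ex) (k : ℕ) : Ex :=
  ⟨e.X, e.fin, e.b + 2, e.el.map (Sym2.map (fmap k)) + {s(Sum.inl k, Sum.inl (k + 3))},
    fun p => fmap k (e.bd p), e.sz + 1⟩

/-- relabelling after swallowing `W` at `m` -/
def bmap {X : Type} (m : ℕ) (W : Mp) : ℕ ⊕ X → ℕ ⊕ (X ⊕ V W) :=
  Sum.elim (fun p => if p ≤ m then Sum.inl p
    else if p ≤ m + 1 + 2 * per W then Sum.inr (Sum.inr (bv W (p - m - 1)))
    else Sum.inl (p - 2 * per W - 2)) (fun x => Sum.inr (Sum.inl x))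

/-- swallow `W` at `m` -/
def br (e : Ex) (m : ℕ) (W : Mp) : Ex :=
  ⟨e.X ⊕ V W, @instFintypeSum _ _ e.fin inferInstance, e.b - 2 * per W - 2,
    e.el.map (Sym2.map (bmap m W)) + (ems W).map (Sym2.map (fun v => Sum.inr (Sum.inr v)))
      + {s(Sum.inl m, Sum.inr (Sum.inr (bv W 0)))},
    fun p => bmap m W (e.bd p), e.sz + size W⟩

/-- number of explored edges -/
def vol (e : Ex) : ℕ := Multiset.card e.el

/-- number of inner vertices -/
def nX (e : Ex) : ℕ := @Fintype.card e.X e.fin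

/-- bookkeeping invariant -/
def Inv (e : Ex) : Prop := e.nX ≤ e.vol ∧ e.sz ≤ e.vol

/-- joined to the original positions `[lo, hi]` by at most `n` explored edges -/
def rch (e : Ex) (lo hi : ℕ) : ℕ → ℕ ⊕ e.X → Prop
  | 0, z => ∃ p, lo ≤ p ∧ p ≤ hi ∧ z = e.bd p
  | n + 1, z => rch e lo hi n z ∨ ∃ z', rch e lo hi n z' ∧ s(z', z) ∈ e.el

/-- no current position is reached in fewer than `r` steps -/
def NoLow (e : Ex) (lo hi r : ℕ) : Prop := ∀ n p, n < r → ¬ e.rch lo hi n (Sum.inl p)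

open Classical in
/-- number of current positions reached in `r` steps -/
noncomputable def cntR (e : Ex) (lo hi r : ℕ) : ℕ :=
  ((range (e.b + 1)).filter (fun p => e.rch lo hi r (Sum.inl p))).card

/-- the vertex of `t` at a node -/
def pos (e : Ex) (u : ℕ) {t t' : Mp} (ι : V t' → V t) (ξ : e.X → V t) : ℕ ⊕ e.X → V t :=
  Sum.elim (fun p => ι (bv t' (u + min p e.b))) ξ

/-- the failure event read on the explored part -/
def FailX (e : Ex) (b a R : ℕ) (T : ℝ) : Prop :=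
  ∃ g : ℕ ⊕ e.X → ℝ, menOn e.el (e.rch a (b + 5 * a) R) g < 1 ∧
    (∀ p, a ≤ p → p ≤ 2 * a → g (e.bd p) ≤ 0) ∧
    ∀ p, b + 4 * a ≤ p → p ≤ b + 5 * a → T ≤ g (e.bd p)

end Ex

/-- `t` is the explored part `e` of the window `[u, u + b0]` filled with `t'` -/
structure Fill (e : Ex) (u b0 y : ℕ) (t t' : Mp) : Prop where
  ok_t : ok t
  ok_t' : ok t'
  per_t : 2 * per t = u + b0 + y
  per_t' : 2 * per t' = u + e.b + y
  size_eq : size t = size t' + e.sz
  ex : ∃ (ι : V t' → V t) (ξ : e.X → V t), Function.Bijective (Sum.elim ι ξ) ∧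
    ems t = (ems t').map (Sym2.map ι) + e.el.map (Sym2.map (e.pos u ι ξ)) ∧
    (∀ p, p ≤ u → bv t p = ι (bv t' p)) ∧
    (∀ p, p ≤ b0 → bv t (u + p) = e.pos u ι ξ (e.bd p)) ∧
    ∀ q, q ≤ y → bv t (u + b0 + q) = ι (bv t' (u + e.b + q))

/-- two positions near the window, at least `a` apart, are at distance at most `R + 1` -/
def Near (t : Mp) (u b0 a R : ℕ) : Prop :=
  ∃ p p', p + a ≤ p' ∧ u ≤ p + 21 * a ∧ p' ≤ u + b0 + 21 * a ∧ p' ≤ 2 * per t ∧
    Within t (R + 1) (bv t p) (bv t p')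

/-- mass of the fillings all of whose completions satisfy `P` -/
noncomputable def Mart (e : Ex) (u b0 y : ℕ) (P : Mp → Prop) (L : ℕ) : ℝ≥0∞ :=
  IE L (fun t' => ind (∀ t, Fill e u b0 y t t' → P t))

/-- the functional `Q` read on the fillings -/
noncomputable def Up (e : Ex) (u b0 y : ℕ) (Q : Mp → ℝ≥0∞) (t' : Mp) : ℝ≥0∞ :=
  ⨆ (t : Mp) (_ : Fill e u b0 y t t'), Q t

/-- the peeled edge `u + p` is glued to an edge outside the window `[u, u + b]` -/
def Exit (u b p m j : ℕ) : Prop :=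
  (m = u + p ∧ b < p + 2 * j + 2) ∨ (m + 2 * j + 1 = u + p ∧ p < 2 * j + 1)

/-- quadratic potential of the window length -/
noncomputable def fq (a b0 b : ℕ) : ℝ := (((b - b0 : ℕ) : ℝ) / (13 * a)) ^ 2

/-! ### chords and rings -/

/-- cheap chords over `[x, x + b]`, of range `H`, that avoid the connected set `K` -/
structure ChordK (t : Mp) (x b H : ℕ) (T : ℝ) (K : V t → Prop) : Prop where
  conn : ∀ z z', K z → K z' → Conn t K z z'
  far : ∀ p, p ≤ 2 * per t → (p + H < x ∨ x + b + H < p) → K (bv t p)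
  path : ∀ f : V t → ℝ, energy t f < 1 → ∃ (p q : ℕ) (P : V t → Prop), x ≤ p + H ∧ p < x ∧
    x + b < q ∧ q ≤ x + b + H ∧ q ≤ 2 * per t ∧ Conn t P (bv t p) (bv t q) ∧
    (∀ z, P z → ¬ K z) ∧ ∀ z z', P z → P z' → f z - f z' ≤ T

open Classical in
/-- number of vertices outside `K` -/
noncomputable def miss (t : Mp) (K : V t → Prop) : ℕ := (univ.filter (fun z => ¬ K z)).card

/-- cost of the best chord system -/
noncomputable def theta (lam : ℝ≥0∞) (x b H : ℕ) (T : ℝ) (t : Mp) : ℝ≥0∞ :=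
  min 1 (⨅ (K : V t → Prop) (_ : ChordK t x b H T K), lam * (miss t K : ℝ≥0∞))

/-- `t'` sits in `t`; the boundaries agree on `[0, x']` and after `x' + b'`, resp. `x''`; at most
`w` vertices are lost -/
structure Cut (t t' : Mp) (x' b' x'' w : ℕ) : Prop where
  ok_t : ok t
  ok_t' : ok t'
  per_eq : 2 * per t + (x' + b') = 2 * per t' + x''
  le : x'' ≤ 2 * per t
  card : Fintype.card (V t) ≤ Fintype.card (V t') + w
  ex : ∃ ι : V t' → V t, Function.Injective ι ∧ (∀ a b, adj t' a b → adj t (ι a) (ι b)) ∧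
    (∀ f : V t → ℝ, energy t' (fun z => f (ι z)) ≤ energy t f) ∧
    (∀ p, p ≤ x' → bv t p = ι (bv t' p)) ∧
    ∀ q, x'' + q ≤ 2 * per t → bv t (x'' + q) = ι (bv t' (x' + b' + q))

/-- number of tiles of length `a` -/
def nT (L a : ℕ) : ℕ := (2 * L - 2 * (L / 4)) / a + 1

/-- `v` is separated from the arc `[L / 4, 2 L - L / 4]` by cheap chords -/
def RingV (t : Mp) (a : ℕ) (T : ℝ) (v : V t) : Prop :=
  ∀ i, i < nT (per t) a → ∃ K, ChordK t (per t / 4 + i * a) a (per t / 16) T K ∧ K v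

/-- the chord estimate -/
def ChordBd (kap : ℕ → ℝ) (C0 C1 : ℝ) (a0 : ℕ) : Prop :=
  ∀ (H a b x L : ℕ) (T : ℝ), a0 ≤ a → 1 ≤ H → b ≤ a → 2 * H ≤ x → x + b + 2 * H ≤ 2 * L →
    0 ≤ T → (∀ a', a ≤ a' → a' ≤ H → C1 * kap a' ≤ T ^ 2) →
    IE L (theta (ENNReal.ofReal (1 / (H : ℝ) ^ 2)) x b H (2 * T))
      ≤ ENNReal.ofReal (C0 * ((a : ℝ) / H) ^ (5 / 4 : ℝ) * Z L)

/-! ### trapping -/

/-- `t'` is a sub-disc of `t` -/
structure Sub (t' t : Mp) (ι : V t' → V t) : Prop where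
  ok_t : ok t
  ok_t' : ok t'
  inj : Function.Injective ι
  en : ∀ f : V t → ℝ, energy t' (fun z => f (ι z)) ≤ energy t f
  back : ∀ a z, adj t (ι a) z →
    (∃ p, p ≤ 2 * per t' ∧ a = bv t' p) ∨ ∃ b, z = ι b ∧ adj t' a b
  deg : ∀ a, (∀ p, p ≤ 2 * per t' → a ≠ bv t' p) → dg t (ι a) ≤ dg t' a
  bdry : ∀ p a, p ≤ 2 * per t → bv t p = ι a → ∃ p', p' ≤ 2 * per t' ∧ a = bv t' p'
  edges_le : edges t' ≤ edges t

/-- positions outside the frontier `[x', x' + b']` of `t'` are positions outside the frontier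
`[x, x + b]` of `t` -/
def OldMap (t' t : Mp) (ι : V t' → V t) (x' b' x b : ℕ) : Prop :=
  ∀ p', p' ≤ 2 * per t' → (p' < x' ∨ x' + b' < p') →
    ∃ p, p ≤ 2 * per t ∧ (p < x ∨ x + b < p) ∧ ι (bv t' p') = bv t p

/-- Green-like functions with pole `v`, nonpositive off the frontier `[x, x + b]`, at most `m` on
the boundary -/
structure GIn (t : Mp) (x b : ℕ) (v : V t) (G : V t → ℝ) (m : ℝ) : Prop where
  en : ∀ s s' : ℝ, 0 ≤ s → s ≤ s' → energy t (fun z => max s (min (G z) s')) ≤ s' - s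
  old : ∀ p, p ≤ 2 * per t → (p < x ∨ x + b < p) → G (bv t p) ≤ 0
  m0 : 0 ≤ m
  mb : ∀ p, p ≤ 2 * per t → G (bv t p) ≤ m
  pa : ∀ z, m < G z → Conn t (fun y => G z ≤ G y) z v
  pm : 0 < m → ∃ p, p ≤ 2 * per t ∧ Conn t (fun y => m ≤ G y) (bv t p) v

/-- trapping time during a stage -/
noncomputable def trapIn (V0 U : ℝ) (x b : ℕ) (t : Mp) (v : V t) : ℝ≥0∞ :=
  ⨆ (G : V t → ℝ) (m : ℝ) (_ : GIn t x b v G m) (S : Finset (V t)) (_ : ∑ z ∈ S, dg t z ≤ V0),
    ENNReal.ofReal (m * U + ∑ z ∈ S, dg t z * max (G z - m) 0)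

/-- trapping time -/
noncomputable def trap (V0 : ℝ) (t : Mp) (v : V t) : ℝ≥0∞ :=
  ⨆ (G : V t → ℝ) (_ : GIn t 0 0 v G 0) (S : Finset (V t)) (_ : ∑ z ∈ S, dg t z ≤ V0),
    ENNReal.ofReal (∑ z ∈ S, dg t z * max (G z) 0)

/-- pointed partition function -/
noncomputable def Pz (L : ℕ) : ℝ := Av L * Z L / 2

/-- pointed peeling operator on functions of the perimeter -/
noncomputable def opP (h : ℕ → ℝ) (L : ℕ) : ℝ :=
  Pz (L + 1) * h (L + 1) / 12 + 2 * ∑ j ∈ range L, Z j * (Pz (L - 1 - j) * h (L - 1 - j))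

/-- scale function -/
noncomputable def phi (Λ L : ℕ) : ℝ := ((2 * (L : ℝ) + 1) / (2 * Λ + 1)) ^ (1 / 128 : ℝ)

/-- volume cap of a stage -/
noncomputable def capE (Λ L0 : ℕ) : ℝ := ((L0 : ℝ) + 1) ^ 2 / phi Λ L0 ^ 8

/-- frontier threshold of a stage -/
noncomputable def thB (Λ L0 : ℕ) : ℕ := ⌊(L0 : ℝ) * phi Λ L0 ^ 2⌋₊

/-- pointed functional at the start of a stage -/
noncomputable def FS (V0 c : ℝ) (t : Mp) : ℝ≥0∞ :=
  ∑ v : V t, min 1 (trap V0 t v / ENNReal.ofReal c)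

/-- pointed functional during a stage -/
noncomputable def FI (V0 c : ℝ) (Λ L0 x b : ℕ) (t : Mp) : ℝ≥0∞ :=
  ∑ v : V t, if (edges t : ℝ) ≤ capE Λ L0 then
    min 1 (trapIn V0 (min V0 (2 * capE Λ L0)) x b t v / ENNReal.ofReal c) else 0

/-- peeled edge for the frontier `[x, x + b]` -/
def pk (L x b : ℕ) : ℕ := min (x + b / 2) (2 * L - 1)

/-- frontier of the outer part -/
def fx1 (x m : ℕ) : ℕ := min x m

/-- length of the frontier of the outer part -/
def fb1 (x b m j : ℕ) : ℕ := max m (x + b - 2 * j - 2) - min x m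

/-- frontier of the enclosed part -/
def fx2 (x m j : ℕ) : ℕ := min (2 * j) (x - (m + 1))

/-- length of the frontier of the enclosed part -/
def fb2 (x b m j : ℕ) : ℕ := min (2 * j) (x + b - (m + 1)) - min (2 * j) (x - (m + 1))

/-- potential of a stage -/
noncomputable def psiS (Λ L0 L b : ℕ) : ℝ :=
  ((b : ℝ) / thB Λ L0) ^ 2 + (2 * ((L0 - L : ℕ) : ℝ) / L0) ^ 2

end Pool.Agent.QL.ND
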