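import Pool.Agent.P.MP_7a6434d8_pr.QL.ND.Defs2
import Pool.Agent.P.MP_7a6434d8_pr.XGraphA
import Pool.Agent.P.MP_7a6434d8_pr.XGraphB
import Pool.Agent.P.MP_7a6434d8_pr.XV

/-! Edge multisets. -/

namespace Pool.Agent.QL.ND

open Pool.Agent.P.MP_7a6434d8_pr Mp Finset
open scoped ENNReal

theorem sqd_mk {α : Type} (f : α → ℝ) (x y : α) : sqd f s(x, y) = (f x - f y) ^ 2 := rfl

theorem ems_sqd_nonneg {α : Type} (f : α → ℝ) (e : Sym2 α) : 0 ≤ sqd f e := by
  induction e using Sym2.ind
  exact sq_nonneg _

theorem ems_sqd_map {α β : Type} (φ : α → β) (f : β → ℝ) (e : Sym2 α) :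
    sqd f (e.map φ) = sqd (fun x => f (φ x)) e := by
  induction e using Sym2.ind
  rfl

theorem ems_bridge (a b : Mp) (F : Sym2 (V a ⊕ V b) → ℝ) :
    ((ems (bridge a b)).map F).sum = F s(Sum.inl (bv a 0), Sum.inr (bv b 0)) +
      (((ems a).map fun e => F (e.map Sum.inl)).sum +
        ((ems b).map fun e => F (e.map Sum.inr)).sum) := by
  change (Multiset.map F (_ ::ₘ (_ + _))).sum = _
  rw [Multiset.map_cons, Multiset.sum_cons, Multiset.map_add, Multiset.sum_add, Multiset.map_map,
    Multiset.map_map]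
  rfl

theorem ems_face (t : Mp) (F : Sym2 (V t) → ℝ) :
    ((ems (face t)).map F).sum = F s(bv t 0, bv t 3) + ((ems t).map F).sum := by
  change (Multiset.map F (_ ::ₘ _)).sum = _
  rw [Multiset.map_cons, Multiset.sum_cons]

theorem ems_sum (t : Mp) (F : Sym2 (V t) → ℝ) :
    ∑ d : Dt t, F s(org t d, org t (al t d)) = 2 * ((ems t).map F).sum := by
  induction t with
  | pt => exact (Finset.sum_of_isEmpty (ι := Empty) _).trans (mul_zero 2).symm
  | face t ih =>
    refine (Fintype.sum_sum_type (α₁ := Dt t) (α₂ := Bool) _).trans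
      (Eq.trans ?_ (congrArg _ (ems_face t F)).symm)
    rw [Fintype.sum_bool, mul_add, add_comm, two_mul]
    exact congrArg₂ _ (congrArg₂ _ rfl (congrArg F Sym2.eq_swap)) (ih F)
  | bridge a b iha ihb =>
    refine (Fintype.sum_sum_type (α₁ := Dt a ⊕ Dt b) (α₂ := Bool) _).trans
      (Eq.trans ?_ (congrArg _ (ems_bridge a b F)).symm)
    rw [Fintype.sum_bool, Fintype.sum_sum_type, mul_add, mul_add, ← iha, ← ihb, add_comm, two_mul]
    exact congrArg₂ _ (congrArg₂ _ rfl (congrArg F Sym2.eq_swap)) rfl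

theorem ems_mem_map {α β : Type} (M : Multiset (Sym2 α)) (φ : α → β) (x y : β) :
    s(x, y) ∈ M.map (Sym2.map φ) ↔ ∃ a b, s(a, b) ∈ M ∧ φ a = x ∧ φ b = y := by
  rw [Multiset.mem_map]
  constructor
  · rintro ⟨e, he, h⟩
    induction e using Sym2.ind with | _ a b
    rcases Sym2.eq_iff.1 h with ⟨h1, h2⟩ | ⟨h1, h2⟩
    · exact ⟨a, b, he, h1, h2⟩
    · exact ⟨b, a, Sym2.eq_swap ▸ he, h2, h1⟩
  · rintro ⟨a, b, h, rfl, rfl⟩
    exact ⟨_, h, rfl⟩

open Classical in
theorem ems_count {α : Type} (M : Multiset (Sym2 α)) {x y : α} (h : x ≠ y) :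
    men M (fun z => if z = x then 1 else 0) + men M (fun z => if z = y then 1 else 0) -
      men M (fun z => (if z = x then 1 else 0) + if z = y then 1 else 0) =
      2 * M.count s(x, y) := by
  unfold men
  induction M using Multiset.induction_on with
  | empty => simp
  | cons e M ih =>
    have k : sqd (fun z => if z = x then 1 else 0) e + sqd (fun z => if z = y then 1 else 0) e -
        sqd (fun z => (if z = x then 1 else 0) + if z = y then 1 else 0) e =
        if s(x, y) = e then 2 else 0 := by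
      induction e using Sym2.ind with | _ a b
      simp only [sqd_mk, Sym2.eq_iff]
      by_cases h1 : a = x <;> by_cases h2 : b = x <;> by_cases h3 : a = y <;> by_cases h4 : b = y <;>
        simp_all [eq_comm] <;> norm_num
    simp only [Multiset.map_cons, Multiset.sum_cons, Multiset.count_cons]
    split_ifs at k ⊢ <;> push_cast <;> linarith

theorem men_ems (t : Mp) (f : V t → ℝ) : men (ems t) f = energy t f := by
  induction t with
  | pt => rfl
  | face t ih => exact (ems_face t _).trans ((add_comm _ _).trans (congrArg₂ _ (ih f) rfl))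
  | bridge a b iha ihb =>
    exact (ems_bridge a b _).trans ((add_comm _ _).trans (congrArg₂ _ (congrArg₂ _
      ((congrArg _ (Multiset.map_congr rfl fun e _ => ems_sqd_map _ _ e)).trans (iha _))
      ((congrArg _ (Multiset.map_congr rfl fun e _ => ems_sqd_map _ _ e)).trans (ihb _))) rfl))

theorem mem_ems (t : Mp) (x y : V t) : s(x, y) ∈ ems t ↔ adj t x y := by
  induction t with
  | pt => exact iff_of_false (Multiset.notMem_zero _) id
  | face t ih =>
    exact (Multiset.mem_cons (α := Sym2 (V t))).trans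
      (or_comm.trans (or_congr (ih x y) (Sym2.eq_iff (α := V t))))
  | bridge a b iha ihb =>
    have key : ∀ x y : V a ⊕ V b, s(x, y) ∈ s(Sum.inl (bv a 0), Sum.inr (bv b 0)) ::ₘ
        ((ems a).map (Sym2.map Sum.inl) + (ems b).map (Sym2.map Sum.inr)) ↔
        adj (bridge a b) x y := by
      intro x y
      rw [Multiset.mem_cons, Multiset.mem_add, ems_mem_map, ems_mem_map, Sym2.eq_iff]
      rcases x with x | x <;> rcases y with y | y <;> simp [adj, iha, ihb]
    exact key x y

theorem card_ems (t : Mp) : Multiset.card (ems t) = edges t := by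
  induction t with
  | pt => rfl
  | face t ih => exact (Multiset.card_cons (α := Sym2 (V t)) _ _).trans (congrArg (· + 1) ih)
  | bridge a b iha ihb =>
    exact (Multiset.card_cons (α := Sym2 (V a ⊕ V b)) _ _).trans (congrArg (· + 1)
      ((Multiset.card_add _ _).trans (congrArg₂ _ ((Multiset.card_map _ _).trans iha)
        ((Multiset.card_map _ _).trans ihb))))

theorem lenergy_eq (t : Mp) (N : V t → Prop) (g : V t → ℝ) :
    lenergy t N g = menOn (ems t) N g := by
  unfold lenergy menOn
  rw [div_eq_iff two_ne_zero, mul_comm, ← ems_sum]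
  exact Finset.sum_congr rfl fun d _ => by
    by_cases h : N (org t d) ∧ N (org t (al t d))
    · rw [if_pos h, if_pos (Sym2.forall_mem_pair.2 h), sqd_mk]
    · rw [if_neg h, if_neg (mt Sym2.forall_mem_pair.1 h)]

theorem men_nonneg {α : Type} (M : Multiset (Sym2 α)) (f : α → ℝ) : 0 ≤ men M f := by
  exact Multiset.sum_nonneg (Multiset.forall_mem_map_iff.2 fun e _ => ems_sqd_nonneg f e)

theorem menOn_nonneg {α : Type} (M : Multiset (Sym2 α)) (N : α → Prop) (f : α → ℝ) :
    0 ≤ menOn M N f := by
  refine Multiset.sum_nonneg (Multiset.forall_mem_map_iff.2 fun e _ => ?_)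
  split_ifs
  exacts [ems_sqd_nonneg f e, le_rfl]

theorem menOn_le_men {α : Type} (M : Multiset (Sym2 α)) (N : α → Prop) (f : α → ℝ) :
    menOn M N f ≤ men M f := by
  refine Multiset.sum_map_le_sum_map _ _ fun e _ => ?_
  split_ifs
  exacts [le_rfl, ems_sqd_nonneg f e]

theorem men_add {α : Type} (M M' : Multiset (Sym2 α)) (f : α → ℝ) :
    men (M + M') f = men M f + men M' f := by
  rw [men, Multiset.map_add, Multiset.sum_add]
  rfl

theorem menOn_add {α : Type} (M M' : Multiset (Sym2 α)) (N : α → Prop) (f : α → ℝ) :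
    menOn (M + M') N f = menOn M N f + menOn M' N f := by
  rw [menOn, Multiset.map_add, Multiset.sum_add]
  rfl

theorem men_map {α β : Type} (M : Multiset (Sym2 α)) (φ : α → β) (f : β → ℝ) :
    men (M.map (Sym2.map φ)) f = men M (fun x => f (φ x)) := by
  simp only [men, Multiset.map_map, Function.comp_def, ems_sqd_map]

theorem menOn_map {α β : Type} (M : Multiset (Sym2 α)) (φ : α → β) (N : β → Prop) (f : β → ℝ) :
    menOn (M.map (Sym2.map φ)) N f = menOn M (fun x => N (φ x)) (fun x => f (φ x)) := by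
  unfold menOn
  rw [Multiset.map_map]
  refine congrArg _ (Multiset.map_congr rfl fun e _ => ?_)
  induction e using Sym2.ind with | _ x y
  rw [Function.comp_apply, Sym2.map_mk]
  by_cases h : N (φ x) ∧ N (φ y)
  · rw [if_pos (Sym2.forall_mem_pair.2 h),
      if_pos ((Sym2.forall_mem_pair (P := fun x => N (φ x))).2 h), sqd_mk, sqd_mk]
  · rw [if_neg (mt Sym2.forall_mem_pair.1 h),
      if_neg (mt (Sym2.forall_mem_pair (P := fun x => N (φ x))).1 h)]

theorem menOn_le_of {α : Type} (M : Multiset (Sym2 α)) (N N' : α → Prop) (f g : α → ℝ)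
    (h : ∀ x y, s(x, y) ∈ M → N x → N y →
      (g x - g y) ^ 2 = 0 ∨ (N' x ∧ N' y ∧ (g x - g y) ^ 2 ≤ (f x - f y) ^ 2)) :
    menOn M N g ≤ menOn M N' f := by
  refine Multiset.sum_map_le_sum_map _ _ fun e he => ?_
  induction e using Sym2.ind with | _ x y
  simp only [sqd_mk]
  split_ifs with h1 h2 h2
  · rcases h x y he (h1 _ (by simp)) (h1 _ (by simp)) with k | k
    exacts [k.trans_le (sq_nonneg _), k.2.2]
  · rcases h x y he (h1 _ (by simp)) (h1 _ (by simp)) with k | k
    exacts [k.le, absurd (Sym2.forall_mem_pair.2 ⟨k.1, k.2.1⟩) h2]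
  · exact sq_nonneg _
  · exact le_rfl

theorem mem_map_iff {α β : Type} (M : Multiset (Sym2 α)) (φ : α → β) (x y : β) :
    s(x, y) ∈ M.map (Sym2.map φ) ↔ ∃ a b, s(a, b) ∈ M ∧ φ a = x ∧ φ b = y := by
  exact ems_mem_map M φ x y

theorem ems_polar {α : Type} (M M' : Multiset (Sym2 α)) (h : ∀ f, men M f = men M' f)
    (hc : Multiset.card M = Multiset.card M') (hl : ∀ e ∈ M, ¬ e.IsDiag) : M = M' := by
  classical
  refine Multiset.eq_of_le_of_card_le (Multiset.le_iff_count.2 fun e => ?_) hc.ge
  by_cases he : e ∈ M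
  · induction e using Sym2.ind with | _ x y
    have h1 := ems_count M (x := x) (y := y) (hl _ he)
    rw [h, h, h, ems_count M' (x := x) (y := y) (hl _ he)] at h1
    have h2 := Nat.cast_injective (mul_left_cancel₀ two_ne_zero h1)
    convert h2.ge
  · rw [Multiset.count_eq_zero_of_notMem he]
    exact Nat.zero_le _

theorem faceM_of {k : ℕ} {t t' : Mp} (H : FaceV k t t') : FaceM k t t' := by
  obtain ⟨H, E, h1, h2, h3⟩ := H
  refine ⟨E.symm, E.symm.bijective, ems_polar _ _ (fun f => ?_) ?_ fun e he => ?_,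
    fun p hp => by rw [← h2 p hp, E.symm_apply_apply],
    fun p hp hp' => by rw [← h3 p hp hp', E.symm_apply_apply]⟩
  · have h := h1 fun x => f (E.symm x)
    simp only [E.symm_apply_apply] at h
    rw [men_add, men_map, men_ems, men_ems, h]
    simp [men, sqd_mk]
  · rw [Multiset.card_add, Multiset.card_map, card_ems, card_ems, H.edges_eq,
      Multiset.card_singleton]
  · induction e using Sym2.ind with | _ x y
    rintro (rfl : x = y)
    exact adj_irrefl t H.ok_t x ((mem_ems t x x).1 he)

theorem brM_of {m : ℕ} {t W1 W2 : Mp} (H : BrV m t W1 W2) : BrM m t W1 W2 := by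
  obtain ⟨H, E, h1, h2, h3, h4⟩ := H
  refine ⟨fun x => E.symm (.inl x), fun x => E.symm (.inr x), ?_,
    ems_polar _ _ (fun f => ?_) ?_ fun e he => ?_,
    fun p hp => by beta_reduce; rw [← h2 p hp, E.symm_apply_apply],
    fun p hp => by beta_reduce; rw [← h3 p hp, E.symm_apply_apply],
    fun p hp hp' => by beta_reduce; rw [← h4 p hp hp', E.symm_apply_apply]⟩
  · convert E.symm.bijective using 1
    funext x
    cases x <;> rfl
  · have h := h1 fun x => f (E.symm x)
    simp only [E.symm_apply_apply] at h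
    rw [men_add, men_add, men_map, men_map, men_ems, men_ems, men_ems, h]
    simp [men, sqd_mk]
  · rw [Multiset.card_add, Multiset.card_add, Multiset.card_map, Multiset.card_map, card_ems,
      card_ems, card_ems, H.edges_eq, Multiset.card_singleton]
  · induction e using Sym2.ind with | _ x y
    rintro (rfl : x = y)
    exact adj_irrefl t H.ok_t x ((mem_ems t x x).1 he)

end Pool.Agent.QL.ND
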