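import Pool.Agent.P.MP_7a6434d8_pr.QL.ND.Num1

/-! The numerical inequality of one exploration step. -/

namespace Pool.Agent.QL.ND

open Pool.Agent.P.MP_7a6434d8_pr Mp Finset
open scoped ENNReal

/-- cost of a bridge step with swallowed half-perimeter `j`; `J` bounds the inside steps -/
noncomputable def xt (a b0 b J2 J : ℕ) (β lam vol c : ℝ) (j : ℕ) : ℝ :=
  if j < J then β * fq a b0 (b - 2 * j - 2) + lam * (vol + 1 + Bv j) + c
  else if j ≤ 10 * a then lam * (vol + 1 + Bv j)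
  else if j ≤ J2 then β + lam * (vol + 1 + Bv j) else 1

/-- gain of the quadratic potential -/
noncomputable def exnumQ (d : ℝ) (j : ℕ) : ℝ :=
  max 0 (2 * d * (2 * (j : ℝ) + 2) - (2 * (j : ℝ) + 2) ^ 2)

theorem exnum_fq_nonneg (a b0 b : ℕ) : 0 ≤ fq a b0 b := by
  unfold fq; positivity

theorem exnum_fq_eq (a b0 b : ℕ) :
    fq a b0 b = ((b - b0 : ℕ) : ℝ) ^ 2 / (13 * (a : ℝ)) ^ 2 := by
  unfold fq; rw [div_pow]

theorem exnum_fq_face (a b0 b : ℕ) :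
    fq a b0 (b + 2) ≤ fq a b0 b + (4 * ((b - b0 : ℕ) : ℝ) + 4) / (13 * (a : ℝ)) ^ 2 := by
  rw [exnum_fq_eq, exnum_fq_eq, ← add_div]
  apply div_le_div_of_nonneg_right _ (by positivity)
  have h : ((b + 2 - b0 : ℕ) : ℝ) ≤ ((b - b0 : ℕ) : ℝ) + 2 := by
    have : b + 2 - b0 ≤ b - b0 + 2 := by omega
    exact_mod_cast this
  have h0 : (0 : ℝ) ≤ ((b + 2 - b0 : ℕ) : ℝ) := Nat.cast_nonneg _
  nlinarith [mul_self_le_mul_self h0 h]

theorem exnum_Q_le (d : ℝ) (j : ℕ) : exnumQ d j ≤ d ^ 2 := by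
  unfold exnumQ
  apply max_le (by positivity)
  nlinarith [sq_nonneg (d - (2 * (j : ℝ) + 2))]

theorem exnum_Q_nonneg (d : ℝ) (j : ℕ) : 0 ≤ exnumQ d j := le_max_left _ _

theorem exnum_fq_br (a b0 b j : ℕ) :
    fq a b0 (b - 2 * j - 2)
      ≤ fq a b0 b - exnumQ ((b - b0 : ℕ) : ℝ) j / (13 * (a : ℝ)) ^ 2 := by
  rw [exnum_fq_eq, exnum_fq_eq, ← sub_div]
  apply div_le_div_of_nonneg_right _ (by positivity)
  by_cases h : b - b0 ≤ 2 * j + 2
  · have e : b - 2 * j - 2 - b0 = 0 := by omega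
    rw [e]
    have := exnum_Q_le ((b - b0 : ℕ) : ℝ) j
    simp only [Nat.cast_zero]
    nlinarith
  · have e : ((b - 2 * j - 2 - b0 : ℕ) : ℝ) = ((b - b0 : ℕ) : ℝ) - (2 * (j : ℝ) + 2) := by
      have e' : b - b0 = (b - 2 * j - 2 - b0) + (2 * j + 2) := by omega
      have : ((b - b0 : ℕ) : ℝ) = ((b - 2 * j - 2 - b0 : ℕ) : ℝ) + (2 * (j : ℝ) + 2) := by
        rw [e']; push_cast
        have e2 : b - 2 * j - 2 - b0 + (2 * j + 2) - (2 * j + 2) = b - 2 * j - 2 - b0 := by omega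
        ring
      linarith
    rw [e]
    have h1 : (2 * (j : ℝ) + 2) ≤ ((b - b0 : ℕ) : ℝ) := by
      have : 2 * j + 2 ≤ b - b0 := by omega
      exact_mod_cast this
    have h2 : (0 : ℝ) ≤ 2 * (j : ℝ) + 2 := by positivity
    unfold exnumQ
    rw [max_eq_right (by nlinarith)]
    nlinarith

theorem exnum_Bv_nonneg (j : ℕ) : 0 ≤ Bv j := by unfold Bv; positivity

theorem exnum_xt_le (a b0 b J2 J : ℕ) (β lam vol c : ℝ) (j : ℕ) (hJ : J ≤ 10 * a)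
    (hJ2 : 10 * a ≤ J2) (hβ : 0 ≤ β) (hl : 0 ≤ lam) (hv : 0 ≤ vol) (hc : 0 ≤ c) :
    xt a b0 b J2 J β lam vol c j ≤ (β * fq a b0 b + lam * vol + c)
      - (if j < a then β / (13 * (a : ℝ)) ^ 2 * exnumQ ((b - b0 : ℕ) : ℝ) j else 0)
      + (if 10 * a < j then β else 0) + (if J2 < j then 1 else 0)
      + (if j < J2 + 1 then lam * (Bv j + 1) else 0) := by
  have hq := exnum_fq_br a b0 b j
  have hq0 := exnum_fq_nonneg a b0 (b - 2 * j - 2)
  have hf0 := exnum_fq_nonneg a b0 b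
  have hQ0 : 0 ≤ exnumQ ((b - b0 : ℕ) : ℝ) j / (13 * (a : ℝ)) ^ 2 :=
    div_nonneg (exnum_Q_nonneg _ _) (by positivity)
  have hB := exnum_Bv_nonneg j
  have key : (if j < a then β / (13 * (a : ℝ)) ^ 2 * exnumQ ((b - b0 : ℕ) : ℝ) j else 0)
      ≤ β * fq a b0 b - β * fq a b0 (b - 2 * j - 2) := by
    have e : β / (13 * (a : ℝ)) ^ 2 * exnumQ ((b - b0 : ℕ) : ℝ) j
        = β * (exnumQ ((b - b0 : ℕ) : ℝ) j / (13 * (a : ℝ)) ^ 2) := by ring
    have h1 := mul_le_mul_of_nonneg_left hq hβ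
    have h2 := mul_nonneg hβ hQ0
    split_ifs
    · rw [e]; nlinarith
    · nlinarith
  have h3 := mul_nonneg hβ hq0
  have h4 := mul_nonneg hl hv
  have h5 := mul_nonneg hβ hf0
  generalize (if j < a then β / (13 * (a : ℝ)) ^ 2 * exnumQ ((b - b0 : ℕ) : ℝ) j else 0) = X
    at key ⊢
  unfold xt
  by_cases c1 : j < J
  · rw [if_pos c1, if_neg (by omega), if_neg (by omega), if_pos (by omega)]
    nlinarith
  · rw [if_neg c1]
    by_cases c2 : j ≤ 10 * a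
    · rw [if_pos c2, if_neg (by omega), if_neg (by omega), if_pos (by omega)]
      nlinarith
    · rw [if_neg c2]
      by_cases c3 : j ≤ J2
      · rw [if_pos c3, if_pos (by omega), if_neg (by omega), if_pos (by omega)]
        nlinarith
      · rw [if_neg c3, if_pos (by omega), if_pos (by omega), if_neg (by omega)]
        nlinarith

theorem exnum_sum_lt (N M : ℕ) (h : M ≤ N) (f : ℕ → ℝ) :
    ∑ j ∈ range N, (if j < M then f j else 0) = ∑ j ∈ range M, f j := by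
  rw [← Finset.sum_filter]
  congr 1
  ext j
  simp only [mem_filter, mem_range]
  omega

theorem exnum_side (C1 C2 : ℝ)
    (h1 : ∀ (L J : ℕ) (s : Finset ℕ), (∀ j ∈ s, J ≤ j ∧ J + j + 1 ≤ L) →
      ∑ j ∈ s, Z (L - 1 - j) * Z j ≤ C1 * Z L / (((J : ℝ) + 1) * √((J : ℝ) + 1)))
    (h2 : ∀ (L J : ℕ), 2 * J + 1 ≤ L →
      ∑ j ∈ range (J + 1), Z (L - 1 - j) * Z j * (Bv j + 1) ≤ C2 * √((J : ℝ) + 1) * Z L)
    (a b0 b J2 J L N : ℕ) (β lam vol : ℝ) (c : ℕ → ℝ) (hJ : J ≤ 10 * a)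
    (hJ2 : 10 * a ≤ J2) (hβ : 0 ≤ β) (hl : 0 ≤ lam) (hv : 0 ≤ vol) (hc : ∀ j, 0 ≤ c j)
    (hN : J2 + 1 ≤ N) (hNL : ∀ j, j < N → J2 + j + 1 ≤ L) (hL : 2 * J2 + 1 ≤ L) :
    ∑ j ∈ range N, xt a b0 b J2 J β lam vol (c j) j * (Z (L - 1 - j) * Z j)
      ≤ ∑ j ∈ range N, (β * fq a b0 b + lam * vol + c j) * (Z (L - 1 - j) * Z j)
        - β / (13 * (a : ℝ)) ^ 2 *
            ∑ j ∈ range a, Z (L - 1 - j) * Z j * exnumQ ((b - b0 : ℕ) : ℝ) j
        + β * (C1 * Z L / ((((10 * a : ℕ) : ℝ) + 1) * √(((10 * a : ℕ) : ℝ) + 1)))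
        + C1 * Z L / (((J2 : ℝ) + 1) * √((J2 : ℝ) + 1))
        + lam * (C2 * √((J2 : ℝ) + 1) * Z L) := by
  have hP : ∀ j, 0 ≤ Z (L - 1 - j) * Z j := fun j => (mul_pos (Z_pos _) (Z_pos _)).le
  have s0 : ∑ j ∈ range N, xt a b0 b J2 J β lam vol (c j) j * (Z (L - 1 - j) * Z j)
      ≤ ∑ j ∈ range N, ((β * fq a b0 b + lam * vol + c j) * (Z (L - 1 - j) * Z j)
        - (if j < a then β / (13 * (a : ℝ)) ^ 2 *
            (Z (L - 1 - j) * Z j * exnumQ ((b - b0 : ℕ) : ℝ) j) else 0)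
        + β * (if 10 * a < j then Z (L - 1 - j) * Z j else 0)
        + (if J2 < j then Z (L - 1 - j) * Z j else 0)
        + (if j < J2 + 1 then lam * (Z (L - 1 - j) * Z j * (Bv j + 1)) else 0)) := by
    apply Finset.sum_le_sum
    intro j _
    refine (mul_le_mul_of_nonneg_right
      (exnum_xt_le a b0 b J2 J β lam vol (c j) j hJ hJ2 hβ hl hv (hc j)) (hP j)).trans (le_of_eq ?_)
    split_ifs <;> ring
  rw [Finset.sum_add_distrib, Finset.sum_add_distrib, Finset.sum_add_distrib,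
    Finset.sum_sub_distrib, exnum_sum_lt N a (by omega), exnum_sum_lt N (J2 + 1) hN,
    ← Finset.mul_sum, ← Finset.mul_sum, ← Finset.mul_sum, ← Finset.sum_filter,
    ← Finset.sum_filter] at s0
  have b1 := h1 L (10 * a) ((range N).filter (fun j => 10 * a < j)) (by
    intro j hj
    rw [mem_filter, mem_range] at hj
    have := hNL j hj.1
    omega)
  have b2 := h1 L J2 ((range N).filter (fun j => J2 < j)) (by
    intro j hj
    rw [mem_filter, mem_range] at hj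
    have := hNL j hj.1
    omega)
  have b3 := h2 L J2 hL
  have b1' := mul_le_mul_of_nonneg_left b1 hβ
  have b3' := mul_le_mul_of_nonneg_left b3 hl
  linarith

theorem exnum_quad_le (a : ℕ) (ha : 1 ≤ a) (d : ℝ) (hd : d ≤ 14 * a) :
    (d / √((a : ℝ) + 1) + √((a : ℝ) + 1)) / (13 * (a : ℝ)) ^ 2 ≤ 1 / ((a : ℝ) * √(a : ℝ)) := by
  have ha' : (1 : ℝ) ≤ a := by exact_mod_cast ha
  have hs : 0 < √(a : ℝ) := Real.sqrt_pos.2 (by linarith)
  have hs2 : √(a : ℝ) * √(a : ℝ) = a := Real.mul_self_sqrt (by linarith)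
  have hm : √(a : ℝ) ≤ √((a : ℝ) + 1) := Real.sqrt_le_sqrt (by linarith)
  have h1 : d / √((a : ℝ) + 1) ≤ 14 * √(a : ℝ) := by
    rw [div_le_iff₀ (lt_of_lt_of_le hs hm)]
    nlinarith
  have h2 : √((a : ℝ) + 1) ≤ 2 * √(a : ℝ) := by
    apply Real.sqrt_le_iff.2 ⟨by positivity, by nlinarith⟩
  rw [div_le_div_iff₀ (by positivity) (by positivity)]
  have h3 : (d / √((a : ℝ) + 1) + √((a : ℝ) + 1)) * ((a : ℝ) * √(a : ℝ))
      ≤ (16 * √(a : ℝ)) * ((a : ℝ) * √(a : ℝ)) :=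
    mul_le_mul_of_nonneg_right (by linarith) (by positivity)
  have h4 : (16 * √(a : ℝ)) * ((a : ℝ) * √(a : ℝ)) = 16 * (a : ℝ) ^ 2 := by
    have : (16 * √(a : ℝ)) * ((a : ℝ) * √(a : ℝ)) = 16 * (a : ℝ) * (√(a : ℝ) * √(a : ℝ)) := by
      ring
    rw [this, hs2]; ring
  nlinarith

theorem exnum_ten_le (a : ℕ) (ha : 1 ≤ a) :
    1 / ((((10 * a : ℕ) : ℝ) + 1) * √(((10 * a : ℕ) : ℝ) + 1)) ≤ 1 / ((a : ℝ) * √(a : ℝ)) := by
  have ha' : (1 : ℝ) ≤ a := by exact_mod_cast ha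
  have hs : 0 < √(a : ℝ) := Real.sqrt_pos.2 (by linarith)
  have h0 : (a : ℝ) ≤ ((10 * a : ℕ) : ℝ) + 1 := by push_cast; linarith
  apply one_div_le_one_div_of_le (by positivity)
  exact mul_le_mul h0 (Real.sqrt_le_sqrt h0) hs.le (by positivity)

theorem ex_num : ∃ C : ℝ, 0 < C ∧ ∀ (a b0 b p u y L J2 : ℕ) (β lam vol κ ψ : ℝ),
    1 ≤ a → 6 * a ≤ b0 → b ≤ 20 * a → 0 < p → p < b → 2 * L = u + b + y → 10 * a ≤ J2 →
    2 * J2 + 2 ≤ u → 2 * J2 + 2 ≤ y → 0 ≤ β → 0 ≤ lam → 0 ≤ vol → 1 ≤ ψ →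
    C * (β / ((a : ℝ) * √(a : ℝ)) + lam * √((J2 : ℝ) + 1)
      + 1 / (((J2 : ℝ) + 1) * √((J2 : ℝ) + 1))) ≤ κ →
    (β * fq a b0 (b + 2) + lam * (vol + 1) + κ * ψ) * Z (L + 1) / 12
      + ∑ j ∈ range ((2 * L - (u + p)) / 2),
          xt a b0 b J2 ((b - p) / 2) β lam vol (κ * ψ) j * (Z (L - 1 - j) * Z j)
      + ∑ j ∈ range ((u + p + 1) / 2),
          xt a b0 b J2 ((p + 1) / 2) β lam vol (κ * (if j = 0 then ψ - 1 else ψ)) j
            * (Z (L - 1 - j) * Z j)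
      ≤ (β * fq a b0 b + lam * vol + κ * ψ) * Z L := by
  obtain ⟨C0, hC0, hq⟩ := n_quad
  obtain ⟨C1, hC1, hb⟩ := n_big
  obtain ⟨C2, hC2, hv⟩ := n_vol
  refine ⟨8 * (C0 + 2 * C1 + 1 + 2 * C2), by positivity, ?_⟩
  intro a b0 b p u y L J2 β lam vol κ ψ ha hb0 hb20 hp hpb hL hJ2 hu hy hβ hl hvol hψ hκ
  have ha' : (1 : ℝ) ≤ a := by exact_mod_cast ha
  have hsa : 0 < √(a : ℝ) := Real.sqrt_pos.2 (by linarith)
  have hsJ : 1 ≤ √((J2 : ℝ) + 1) := Real.one_le_sqrt.2 (by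
    have : (0 : ℝ) ≤ J2 := Nat.cast_nonneg _
    linarith)
  set X : ℝ := 1 / ((a : ℝ) * √(a : ℝ)) with hX
  set S : ℝ := √((J2 : ℝ) + 1) with hS
  set Y : ℝ := 1 / (((J2 : ℝ) + 1) * S) with hY
  have hX0 : 0 ≤ X := by positivity
  have hY0 : 0 ≤ Y := by positivity
  have hβX : β / ((a : ℝ) * √(a : ℝ)) = β * X := by rw [hX]; ring
  rw [hβX] at hκ
  have hβX0 : 0 ≤ β * X := mul_nonneg hβ hX0
  have hlS : 0 ≤ lam * S := mul_nonneg hl (by linarith)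
  have hκ0 : 0 ≤ κ := le_trans (by positivity) hκ
  have hZ := Z_pos L
  have hZ1 := Z_succ_le L
  have hZ2 : Z L ≤ 8 * Z (L - 1) := by
    have := Z_succ_le (L - 1)
    rwa [show L - 1 + 1 = L by omega] at this
  have hR := exnum_side C1 C2 hb hv a b0 b J2 ((b - p) / 2) L ((2 * L - (u + p)) / 2) β lam vol
    (fun _ => κ * ψ) (by omega) hJ2 hβ hl hvol (fun _ => mul_nonneg hκ0 (by linarith))
    (by omega) (fun j hj => by omega) (by omega)
  have hLft := exnum_side C1 C2 hb hv a b0 b J2 ((p + 1) / 2) L ((u + p + 1) / 2) β lam vol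
    (fun j => κ * (if j = 0 then ψ - 1 else ψ)) (by omega) hJ2 hβ hl hvol
    (fun j => mul_nonneg hκ0 (by split_ifs <;> linarith))
    (by omega) (fun j hj => by omega) (by omega)
  have hT := tutte_at L (u + p) (by omega)
  have hQ := hq Z (fun n => (Z_pos n).le) Z_succ_le L a ((b - b0 : ℕ) : ℝ) (Nat.cast_nonneg _)
    (by omega)
  have hd : ((b - b0 : ℕ) : ℝ) ≤ 14 * a := by
    have : b - b0 ≤ 14 * a := by omega
    exact_mod_cast this
  have hQ2 := exnum_quad_le a ha _ hd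
  have hT10 := exnum_ten_le a ha
  have hF := exnum_fq_face a b0 b
  rw [← hX] at hQ2 hT10
  rw [← Finset.mul_sum] at hR
  set base : ℝ := β * fq a b0 b + lam * vol + κ * ψ with hbase
  have hL0 : ∑ j ∈ range ((u + p + 1) / 2),
      (β * fq a b0 b + lam * vol + κ * (if j = 0 then ψ - 1 else ψ)) * (Z (L - 1 - j) * Z j)
      = base * ∑ j ∈ range ((u + p + 1) / 2), Z (L - 1 - j) * Z j - κ * Z (L - 1) := by
    obtain ⟨M, hM⟩ : ∃ M, (u + p + 1) / 2 = M + 1 := ⟨(u + p + 1) / 2 - 1, by omega⟩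
    rw [hM, Finset.sum_range_succ', Finset.sum_range_succ', mul_add, Finset.mul_sum]
    simp only [Nat.add_one_ne_zero, if_false, if_true, Nat.sub_zero, Z_zero, hbase]
    ring
  rw [hL0] at hLft
  set SR := ∑ j ∈ range ((2 * L - (u + p)) / 2), Z (L - 1 - j) * Z j
  set SL := ∑ j ∈ range ((u + p + 1) / 2), Z (L - 1 - j) * Z j
  change Z (L + 1) / 12 * (4 * ((b - b0 : ℕ) : ℝ) + 4)
    - 2 * ∑ j ∈ range a, Z (L - 1 - j) * Z j * exnumQ ((b - b0 : ℕ) : ℝ) j ≤ _ at hQ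
  set SQ := ∑ j ∈ range a, Z (L - 1 - j) * Z j * exnumQ ((b - b0 : ℕ) : ℝ) j
  set D : ℝ := ((b - b0 : ℕ) : ℝ)
  set A : ℝ := (13 * (a : ℝ)) ^ 2 with hA
  have hA0 : 0 < A := by positivity
  have hZ10 := (Z_pos (L + 1)).le
  -- face term
  have f1 : (β * fq a b0 (b + 2) + lam * (vol + 1) + κ * ψ) * Z (L + 1) / 12
      ≤ base * (Z (L + 1) / 12) + β / A * (Z (L + 1) / 12 * (4 * D + 4)) + lam * S * Z L := by
    have g1 : β * fq a b0 (b + 2) ≤ β * fq a b0 b + β / A * (4 * D + 4) := by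
      have := mul_le_mul_of_nonneg_left hF hβ
      have e : β / A * (4 * D + 4) = β * ((4 * D + 4) / A) := by ring
      rw [e]; linarith
    have g2 := mul_le_mul_of_nonneg_right g1 hZ10
    have g3 : lam * Z (L + 1) / 12 ≤ lam * S * Z L := by
      have g4 : Z (L + 1) / 12 ≤ S * Z L := by nlinarith
      have := mul_le_mul_of_nonneg_left g4 hl
      linarith
    rw [hbase]
    linarith
  -- quadratic part
  have f2 : β / A * (Z (L + 1) / 12 * (4 * D + 4)) - 2 * (β / A * SQ)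
      ≤ C0 * (β * X) * Z L := by
    have g1 := mul_le_mul_of_nonneg_left hQ (div_nonneg hβ hA0.le)
    have g2 : β / A * (C0 * (D / √((a : ℝ) + 1) + √((a : ℝ) + 1)) * Z L)
        = (β * C0 * Z L) * ((D / √((a : ℝ) + 1) + √((a : ℝ) + 1)) / A) := by ring
    have g3 := mul_le_mul_of_nonneg_left hQ2 (show 0 ≤ β * C0 * Z L by positivity)
    rw [g2] at g1
    linarith
  have f3 : β * (C1 * Z L / ((((10 * a : ℕ) : ℝ) + 1) * √(((10 * a : ℕ) : ℝ) + 1)))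
      ≤ C1 * (β * X) * Z L := by
    have g1 := mul_le_mul_of_nonneg_left hT10 (show 0 ≤ β * C1 * Z L by positivity)
    have e : β * (C1 * Z L / ((((10 * a : ℕ) : ℝ) + 1) * √(((10 * a : ℕ) : ℝ) + 1)))
        = β * C1 * Z L * (1 / ((((10 * a : ℕ) : ℝ) + 1) * √(((10 * a : ℕ) : ℝ) + 1))) := by ring
    rw [e]; linarith
  have f4 : C1 * Z L / (((J2 : ℝ) + 1) * S) = C1 * Y * Z L := by rw [hY]; ring
  rw [f4] at hR hLft
  have f5 : base * Z L = base * (Z (L + 1) / 12) + base * SR + base * SL := by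
    rw [hT]; ring
  have f6 : (C0 + 2 * C1) * (β * X) + 2 * C1 * Y + (1 + 2 * C2) * (lam * S) ≤ κ / 8 := by
    have t1 := mul_nonneg (show 0 ≤ 1 + 2 * C2 by positivity) hβX0
    have t2 := mul_nonneg (show 0 ≤ C0 + 1 + 2 * C2 by positivity) hY0
    have t3 := mul_nonneg (show 0 ≤ C0 + 2 * C1 by positivity) hlS
    linarith
  have f7 := mul_le_mul_of_nonneg_right f6 hZ.le
  have f8 : κ / 8 * Z L ≤ κ * Z (L - 1) := by
    have := mul_le_mul_of_nonneg_left hZ2 hκ0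
    linarith
  linarith

end Pool.Agent.QL.ND
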