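import Pool.Agent.P.MP_7a6434d8_pr.QL.ND.Rch

/-! Locality of the failure event, and near-pinches. -/

namespace Pool.Agent.QL.ND

open Pool.Agent.P.MP_7a6434d8_pr Mp Finset
open scoped ENNReal

theorem loc_within {e : Ex} {u lo hi : ℕ} {t t' : Mp} {ι : V t' → V t} {ξ : e.X → V t}
    (hE : ems t = (ems t').map (Sym2.map ι) + e.el.map (Sym2.map (e.pos u ι ξ))) :
    ∀ (n : ℕ) (z : ℕ ⊕ e.X), e.rch lo hi n z →
      ∃ p, lo ≤ p ∧ p ≤ hi ∧ Within t n (e.pos u ι ξ (e.bd p)) (e.pos u ι ξ z)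
  | 0, z, ⟨p, h1, h2, h3⟩ => ⟨p, h1, h2, by rw [h3]; exact Within.refl t 0 _⟩
  | n + 1, z, Or.inl h => by
      obtain ⟨p, h1, h2, h3⟩ := loc_within hE n z h
      exact ⟨p, h1, h2, Or.inl h3⟩
  | n + 1, z, Or.inr ⟨z', h, hm⟩ => by
      obtain ⟨p, h1, h2, h3⟩ := loc_within hE n z' h
      refine ⟨p, h1, h2, Or.inr ⟨_, h3, (mem_ems t _ _).1 ?_⟩⟩
      rw [hE]
      exact Multiset.mem_add.2 (Or.inr ((mem_map_iff _ _ _ _).2 ⟨z', z, hm, rfl, rfl⟩))

theorem near_term {e : Ex} {u b a y R p : ℕ} {t t' : Mp} (H : Fill e u (b + 6 * a) y t t')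
    (hp : p = 0 ∨ e.b ≤ p) (h : e.rch a (b + 5 * a) R (Sum.inl p)) :
    Near t u (b + 6 * a) a R := by
  obtain ⟨ι, ξ, -, hE, hl, hm, hr⟩ := H.ex
  obtain ⟨p0, h1, h2, h3⟩ := loc_within hE R _ h
  rw [← hm p0 (by omega)] at h3
  have hper := H.per_t
  rcases hp with rfl | hp
  · have e1 : e.pos u ι ξ (Sum.inl 0) = bv t u := by
      rw [hl u le_rfl]
      simp [Ex.pos]
    rw [e1] at h3
    exact ⟨u, u + p0, by omega, by omega, by omega, by omega, h3.symm.mono (by omega)⟩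
  · have e1 : e.pos u ι ξ (Sum.inl p) = bv t (u + (b + 6 * a) + 0) := by
      rw [hr 0 (Nat.zero_le _)]
      simp [Ex.pos, min_eq_right hp]
    rw [e1] at h3
    exact ⟨u + p0, u + (b + 6 * a) + 0, by omega, by omega, by omega, by omega,
      h3.mono (by omega)⟩

theorem near_exit {e : Ex} {u b a y R p m : ℕ} {t t1 W1 W2 : Mp}
    (H : Fill e u (b + 6 * a) y t t1) (ha : 2 ≤ a) (hp : p < e.b)
    (h : e.rch a (b + 5 * a) R (Sum.inl p)) (B : BrV m t1 W1 W2)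
    (hX : Exit u e.b p m (per W2)) (hj : per W2 ≤ 10 * a) : Near t u (b + 6 * a) a R := by
  obtain ⟨ι, ξ, -, hE, hl, hm, hr⟩ := H.ex
  obtain ⟨p0, h1, h2, h3⟩ := loc_within hE R _ h
  rw [← hm p0 (by omega)] at h3
  have hper := H.per_t
  have hper' := H.per_t'
  have e0 : e.pos u ι ξ (Sum.inl p) = ι (bv t1 (u + p)) := by
    simp [Ex.pos, min_eq_left hp.le]
  rw [e0] at h3
  obtain ⟨E, -, b1, b2, b3⟩ := B.ex
  have hm1 := B.isBr.le
  have hpe := B.isBr.per_eq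
  rcases hX with ⟨rfl, hx⟩ | ⟨hx, hx'⟩
  · obtain ⟨q, hq⟩ : ∃ q, p + 2 * per W2 + 2 = e.b + q := ⟨p + 2 * per W2 + 2 - e.b, by omega⟩
    have e1 : bv t1 (u + p) = bv t1 (u + e.b + q) := by
      apply E.injective
      rw [b1 _ le_rfl, show u + e.b + q = u + p + 2 * per W2 + 2 by omega, b3 _ le_rfl hm1]
    rw [e1, ← hr q (by omega)] at h3
    exact ⟨u + p0, u + (b + 6 * a) + q, by omega, by omega, by omega, by omega,
      h3.mono (by omega)⟩
  · have e1 : bv t1 (u + p) = bv t1 (m + 1) := by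
      apply E.injective
      rw [show u + p = m + 1 + 2 * per W2 by omega, b2 _ le_rfl, bv_end W2 B.isBr.ok_2,
        ← b2 0 (Nat.zero_le _)]
    rw [e1, ← hl (m + 1) (by omega)] at h3
    exact ⟨m + 1, u + p0, by omega, by omega, by omega, by omega, h3.symm.mono (by omega)⟩

theorem fail_fwd {e : Ex} {u b a y R : ℕ} {T : ℝ} {t t' : Mp} (H : Fill e u (b + 6 * a) y t t')
    (h : Fail t u b a R T) : e.FailX b a R T := by
  obtain ⟨ι, ξ, -, hE, -, hm, -⟩ := H.ex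
  obtain ⟨g, g1, g2, g3⟩ := h
  refine ⟨fun z => g (e.pos u ι ξ z), ?_, fun p h1 h2 => ?_, fun p h1 h2 => ?_⟩
  · rw [lenergy_eq, hE, menOn_add, menOn_map e.el] at g1
    have h0 := menOn_nonneg ((ems t').map (Sym2.map ι)) (Nbh t u b a R) g
    have hN : ∀ z, e.rch a (b + 5 * a) R z → Nbh t u b a R (e.pos u ι ξ z) := fun z hz => by
      obtain ⟨p0, h1, h2, h3⟩ := loc_within hE R _ hz
      rw [← hm p0 (by omega)] at h3
      exact ⟨p0, h1, h2, h3⟩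
    have h1 := menOn_le_of e.el (e.rch a (b + 5 * a) R) (fun z => Nbh t u b a R (e.pos u ι ξ z))
      (fun z => g (e.pos u ι ξ z)) (fun z => g (e.pos u ι ξ z))
      (fun x y _ hx hy => Or.inr ⟨hN x hx, hN y hy, le_rfl⟩)
    linarith
  · change g (e.pos u ι ξ (e.bd p)) ≤ 0
    rw [← hm p (by omega)]
    exact g2 p h1 h2
  · change T ≤ g (e.pos u ι ξ (e.bd p))
    rw [← hm p (by omega)]
    exact g3 p h1 h2

theorem loc_pos_eq {e : Ex} {u : ℕ} {t t' : Mp} {ι : V t' → V t} {ξ : e.X → V t}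
    (hB : Function.Injective (Sum.elim ι ξ)) {z : ℕ ⊕ e.X} {x : e.X}
    (h : e.pos u ι ξ z = ξ x) : z = Sum.inr x := by
  rcases z with p | x'
  · exact absurd (hB (a₁ := Sum.inl _) (a₂ := Sum.inr x) h) (by simp)
  · exact congrArg _ (Sum.inr.inj (hB (a₁ := Sum.inr x') (a₂ := Sum.inr x) h))

theorem loc_inr {e : Ex} {lo hi r n : ℕ} (hN : e.NoLow lo hi r) (hn : n < r) {z : ℕ ⊕ e.X}
    (h : e.rch lo hi n z) : ∃ x, z = Sum.inr x := by
  rcases z with p | x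
  · exact absurd h (hN n p hn)
  · exact ⟨x, rfl⟩

theorem loc_back {e : Ex} {u lo hi r p : ℕ} {t t' : Mp} {ι : V t' → V t} {ξ : e.X → V t}
    (hB : Function.Injective (Sum.elim ι ξ))
    (hE : ems t = (ems t').map (Sym2.map ι) + e.el.map (Sym2.map (e.pos u ι ξ)))
    (hN : e.NoLow lo hi r) (h1 : lo ≤ p) (h2 : p ≤ hi) :
    ∀ (n : ℕ) (v : V t), n < r → Within t n (e.pos u ι ξ (e.bd p)) v →
      ∃ x, v = ξ x ∧ e.rch lo hi n (Sum.inr x)
  | 0, v, hn, h => by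
      have h0 : e.rch lo hi 0 (e.bd p) := ⟨p, h1, h2, rfl⟩
      obtain ⟨x, hx⟩ := loc_inr hN hn h0
      have h' : e.pos u ι ξ (e.bd p) = v := h
      rw [hx] at h0 h'
      exact ⟨x, h'.symm, h0⟩
  | n + 1, v, hn, Or.inl h => by
      obtain ⟨x, hx, hr⟩ := loc_back hB hE hN h1 h2 n v (by omega) h
      exact ⟨x, hx, Or.inl hr⟩
  | n + 1, v, hn, Or.inr ⟨z, h, hadj⟩ => by
      obtain ⟨x, rfl, hr⟩ := loc_back hB hE hN h1 h2 n z (by omega) h
      have hmem := (mem_ems t _ _).2 hadj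
      rw [hE] at hmem
      rcases Multiset.mem_add.1 hmem with hm | hm
      · obtain ⟨c, d, -, hc, -⟩ := (mem_map_iff _ _ _ _).1 hm
        exact absurd (hB (a₁ := Sum.inl c) (a₂ := Sum.inr x) hc) (by simp)
      · obtain ⟨c, d, hcd, hc, hd⟩ := (mem_map_iff _ _ _ _).1 hm
        obtain rfl := loc_pos_eq hB hc
        have hd' : e.rch lo hi (n + 1) d := Or.inr ⟨_, hr, hcd⟩
        obtain ⟨x', rfl⟩ := loc_inr hN hn hd'
        exact ⟨x', hd.symm, hd'⟩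

theorem fail_bwd {e : Ex} {u b a y R : ℕ} {T : ℝ} {t t' : Mp} (H : Fill e u (b + 6 * a) y t t')
    (hN : e.NoLow a (b + 5 * a) (R + 1)) (h : e.FailX b a R T) : Fail t u b a R T := by
  obtain ⟨ι, ξ, hB, hE, -, hm, -⟩ := H.ex
  obtain ⟨g', g1, g2, g3⟩ := h
  obtain ⟨g, gι, gξ⟩ : ∃ g : V t → ℝ, (∀ v, g (ι v) = 0) ∧ ∀ x, g (ξ x) = g' (Sum.inr x) := by
    let E := Equiv.ofBijective _ hB
    refine ⟨fun v => Sum.elim (fun _ => 0) (fun x => g' (Sum.inr x)) (E.symm v), fun v => ?_,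
      fun x => ?_⟩
    · have : E.symm (ι v) = Sum.inl v := E.symm_apply_apply (Sum.inl v)
      simp only [this, Sum.elim_inl]
    · have : E.symm (ξ x) = Sum.inr x := E.symm_apply_apply (Sum.inr x)
      simp only [this, Sum.elim_inr]
  have hbd : ∀ p, a ≤ p → p ≤ b + 5 * a → g (bv t (u + p)) = g' (e.bd p) := fun p h1 h2 => by
    obtain ⟨x, hx⟩ := loc_inr hN (Nat.succ_pos R) (⟨p, h1, h2, rfl⟩ : e.rch _ _ 0 (e.bd p))
    rw [hm p (by omega), hx]
    exact gξ x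
  refine ⟨g, ?_, fun p h1 h2 => ?_, fun p h1 h2 => ?_⟩
  · rw [lenergy_eq, hE, menOn_add, menOn_map, menOn_map]
    have hz : ∀ z, Nbh t u b a R (e.pos u ι ξ z) →
        e.rch a (b + 5 * a) R z ∧ g (e.pos u ι ξ z) = g' z := fun z hz => by
      obtain ⟨p, h1, h2, h3⟩ := hz
      rw [hm p (by omega)] at h3
      obtain ⟨x, hx, hr⟩ := loc_back hB.1 hE hN h1 h2 R _ (Nat.lt_succ_self R) h3
      obtain rfl := loc_pos_eq hB.1 hx
      exact ⟨hr, gξ x⟩
    have h1 := menOn_le_of e.el (fun z => Nbh t u b a R (e.pos u ι ξ z)) (e.rch a (b + 5 * a) R)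
      g' (fun z => g (e.pos u ι ξ z)) (fun x y _ hx hy => Or.inr ⟨(hz x hx).1, (hz y hy).1, by
        rw [(hz x hx).2, (hz y hy).2]⟩)
    have h2 := menOn_le_men (ems t') (fun z => Nbh t u b a R (ι z)) (fun z => g (ι z))
    have h3 : men (ems t') (fun z => g (ι z)) = 0 := by
      rw [men_ems]
      simp only [gι]
      exact energy_const t' 0
    linarith
  · rw [hbd p h1 (by omega)]
    exact g2 p h1 h2
  · rw [hbd p (by omega) h2]
    exact g3 p h1 h2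

theorem fail_mono {t : Mp} {u b a R : ℕ} {T T' : ℝ} (h : Fail t u b a R T) (hT : T' ≤ T) :
    Fail t u b a R T' := by
  obtain ⟨g, g1, g2, g3⟩ := h
  exact ⟨g, g1, g2, fun p h1 h2 => hT.trans (g3 p h1 h2)⟩

end Pool.Agent.QL.ND
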