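import Pool.Agent.P.MP_7a6434d8_pr.QL.ND.MartL
import Pool.Agent.P.MP_7a6434d8_pr.QL.ND.Loc
import Pool.Agent.P.MP_7a6434d8_pr.QL.ND.ExNum

/-! The one-scale exploration. -/

namespace Pool.Agent.QL.ND

open Pool.Agent.P.MP_7a6434d8_pr Mp Finset
open scoped ENNReal

theorem expl_fq (a b0 b : ℕ) : 0 ≤ fq a b0 b := sq_nonneg _

theorem expl_xt {a b0 b J2 J : ℕ} {β lam vol c : ℝ} (j : ℕ) (hβ : 0 ≤ β) (hl : 0 ≤ lam)
    (hv : 0 ≤ vol) (hc : 0 ≤ c) : 0 ≤ xt a b0 b J2 J β lam vol c j := by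
  have h1 := expl_fq a b0 (b - 2 * j - 2)
  have h2 := xmom_Bv j
  unfold xt
  split_ifs <;> positivity

theorem expl_sum (n J K : ℕ) (T MP MN : ℕ → ℝ≥0∞) (zz x : ℕ → ℝ) (A B : ℝ≥0∞)
    (hx : ∀ j, 0 ≤ x j)
    (h : ∀ j, j < n → T j ≤ A * (if j < J then MP j else 0)
      + B * ((if j < J then MN j else 0)
        + (if J ≤ j ∧ j ≤ K then ENNReal.ofReal (zz j) else 0)) + ENNReal.ofReal (x j)) :
    ∑ j ∈ range n, T j ≤ A * ∑ j ∈ range J, MP j
      + B * (∑ j ∈ range J, MN j
        + ∑ j ∈ (range n).filter (fun j => J ≤ j ∧ j ≤ K), ENNReal.ofReal (zz j))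
      + ENNReal.ofReal (∑ j ∈ range n, x j) := by
  have key : ∀ f : ℕ → ℝ≥0∞,
      ∑ j ∈ range n, (if j < J then f j else 0) ≤ ∑ j ∈ range J, f j := by
    intro f
    rw [← Finset.sum_filter]
    refine Finset.sum_le_sum_of_subset fun j hj => ?_
    exact mem_range.2 (mem_filter.1 hj).2
  refine (Finset.sum_le_sum fun j hj => h j (mem_range.1 hj)).trans ?_
  rw [Finset.sum_add_distrib, Finset.sum_add_distrib, ← Finset.mul_sum, ← Finset.mul_sum,
    Finset.sum_add_distrib, ENNReal.ofReal_sum_of_nonneg fun j _ => hx j, Finset.sum_filter]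
  gcongr
  · exact key MP
  · exact key MN

/-- the bound carried along the exploration -/
noncomputable def expl_G (a b R u y u' y' : ℕ) (β lam : ℝ) (A : ℝ≥0∞) (P : Mp → Prop) (e : Ex)
    (L L' : ℕ) (c : ℝ) : ℝ≥0∞ :=
  A * Mart e u' (b + 6 * a) y' P L'
    + ENNReal.ofReal β * Mart e u (b + 6 * a) y (fun t => Near t u (b + 6 * a) a R) L
    + ENNReal.ofReal ((β * fq a (b + 6 * a) e.b + lam * e.vol + c) * Z L)

theorem expl_G_mono (a b R u y u' y' : ℕ) (β lam : ℝ) (A : ℝ≥0∞) (P : Mp → Prop) (e : Ex)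
    (L L' : ℕ) {c c' : ℝ} (h : c ≤ c') :
    expl_G a b R u y u' y' β lam A P e L L' c ≤ expl_G a b R u y u' y' β lam A P e L L' c' := by
  unfold expl_G
  have := (Z_pos L).le
  gcongr

open Classical in
/-- the functional after a bridge step -/
noncomputable def expl_F (e : Ex) (u b0 y : ℕ) (Q : Mp → ℝ≥0∞) (m : ℕ) (W1 W2 : Mp) : ℝ≥0∞ :=
  if u ≤ m ∧ m - u + 2 * per W2 + 2 ≤ e.b then Up (e.br (m - u) W2) u b0 y Q W1
  else ⨆ (t1 : Mp) (_ : BrV m t1 W1 W2), Up e u b0 y Q t1

theorem expl_F_le (e : Ex) (u b0 y : ℕ) (Q : Mp → ℝ≥0∞) {m : ℕ} {t W1 W2 : Mp}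
    (B : BrV m t W1 W2) : Up e u b0 y Q t ≤ expl_F e u b0 y Q m W1 W2 := by
  unfold expl_F
  split_ifs with h
  · have hm : m = u + (m - u) := by omega
    exact up_br Q h.2 (hm ▸ B)
  · exact le_iSup₂ (f := fun (t1 : Mp) (_ : BrV m t1 W1 W2) => Up e u b0 y Q t1) t B

theorem expl_aff (j : ℕ) (c d z : ℝ) (hc : 0 ≤ c) (hd : 0 ≤ d) (hz : 0 ≤ z) :
    IE j (fun W => ENNReal.ofReal ((c + d * edges W) * z))
      ≤ ENNReal.ofReal ((c + d * Bv j) * (z * Z j)) := by
  have h := IE_aff j (c * z) (d * z) (by positivity) (by positivity)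
  refine le_trans (le_of_eq ?_) (h.trans (le_of_eq ?_))
  · congr 1
    funext W
    congr 1
    ring
  · congr 1
    ring

theorem expl_term {a b R u y u' y' J2 : ℕ} {β lam : ℝ} {A : ℝ≥0∞} {P : Mp → Prop}
    {Q : Mp → ℝ≥0∞} (hβ : 0 ≤ β) (hl : 0 ≤ lam) (hQ : ∀ t, Q t ≤ 1) {e : Ex}
    {N L L' p m m0 j J : ℕ} {c : ℝ} (hc : 0 ≤ c) (hJ : 10 * a ≤ J2)
    (hin : j < J → m = u + m0 ∧ m0 + 2 * j + 2 ≤ e.b) (hout : J ≤ j → Exit u e.b p m j)
    (IH : ∀ W, ok W → per W = j → j < J →
      IE (L - 1 - j) (trunc N (Up (e.br m0 W) u (b + 6 * a) y Q))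
        ≤ expl_G a b R u y u' y' β lam A P (e.br m0 W) (L - 1 - j) (L' - 1 - j) c)
    (hX : ∀ W2, ok W2 → per W2 ≤ J2 → Exit u e.b p m (per W2) →
      IE (L - 1 - per W2) (fun W1 => ⨆ (t1 : Mp) (_ : BrV m t1 W1 W2),
          Up e u (b + 6 * a) y Q t1)
        ≤ ENNReal.ofReal ((β + lam * (e.vol + edges W2 + 1)) * Z (L - 1 - per W2))) :
    IE j (trunc N (fun W => IE (L - 1 - j)
        (trunc N (fun W1 => expl_F e u (b + 6 * a) y Q m W1 W))))
      ≤ A * (if j < J then
            IE j (fun W => Mart (e.br m0 W) u' (b + 6 * a) y' P (L' - 1 - j)) else 0)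
        + ENNReal.ofReal β * ((if j < J then IE j (fun W => Mart (e.br m0 W) u (b + 6 * a) y
              (fun t => Near t u (b + 6 * a) a R) (L - 1 - j)) else 0)
          + (if J ≤ j ∧ j ≤ 10 * a then ENNReal.ofReal (Z (L - 1 - j) * Z j) else 0))
        + ENNReal.ofReal (xt a (b + 6 * a) e.b J2 J β lam e.vol c j * (Z (L - 1 - j) * Z j)) := by
  have hz := (Z_pos (L - 1 - j)).le
  have hzj := (Z_pos j).le
  have hv : (0 : ℝ) ≤ e.vol := Nat.cast_nonneg _
  have hB := xmom_Bv j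
  refine (IE_trunc_le _ _ _).trans ?_
  by_cases hj : j < J
  · obtain ⟨hm, hm'⟩ := hin hj
    have hf := expl_fq a (b + 6 * a) (e.b - 2 * j - 2)
    refine (IE_mono (G := fun W =>
      expl_G a b R u y u' y' β lam A P (e.br m0 W) (L - 1 - j) (L' - 1 - j) c)
      fun W hW hp => ?_).trans ?_
    · refine le_trans (le_of_eq ?_) (IH W hW hp hj)
      congr 2
      funext W1
      have h1 : m - u = m0 := by omega
      unfold expl_F
      rw [if_pos (by rw [h1, hp]; omega), h1]
    · unfold expl_G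
      rw [IE_add, IE_add, IE_const_mul, IE_const_mul, if_pos hj, if_pos hj,
        if_neg (by omega), add_zero]
      gcongr
      refine (IE_mono (G := fun W => ENNReal.ofReal
        (((β * fq a (b + 6 * a) (e.b - 2 * j - 2) + lam * (e.vol + 1) + c) + lam * edges W)
          * Z (L - 1 - j))) fun W _ hp => le_of_eq ?_).trans ?_
      · congr 1
        rw [vol_br]
        have : (e.br m0 W).b = e.b - 2 * j - 2 := by rw [← hp]; rfl
        rw [this]
        push_cast
        ring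
      · refine (expl_aff j _ _ _ (by positivity) hl hz).trans (le_of_eq ?_)
        congr 1
        unfold xt
        rw [if_pos hj]
        ring
  · have hE := hout (by omega)
    have hF : ∀ W W1, per W = j → expl_F e u (b + 6 * a) y Q m W1 W
        = ⨆ (t1 : Mp) (_ : BrV m t1 W1 W), Up e u (b + 6 * a) y Q t1 := by
      intro W W1 hp
      unfold expl_F
      rw [if_neg]
      rw [hp]
      unfold Exit at hE
      omega
    rw [if_neg hj, if_neg hj, mul_zero, zero_add, zero_add]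
    by_cases hj2 : j ≤ J2
    · have h1 : IE j (fun W => IE (L - 1 - j)
          (trunc N (fun W1 => expl_F e u (b + 6 * a) y Q m W1 W)))
          ≤ ENNReal.ofReal ((β + lam * (e.vol + 1) + lam * Bv j) * (Z (L - 1 - j) * Z j)) := by
        refine le_trans (IE_mono fun W hW hp => ?_)
          (expl_aff j (β + lam * (e.vol + 1)) lam _ (by positivity) hl hz)
        refine (IE_trunc_le _ _ _).trans ?_
        have h2 := hX W hW (hp ▸ hj2) (hp ▸ hE)
        rw [hp] at h2
        refine le_trans (le_of_eq ?_) (h2.trans (le_of_eq ?_))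
        · congr 1
          funext W1
          exact hF W W1 hp
        · congr 1
          ring
      refine h1.trans (le_of_eq ?_)
      unfold xt
      by_cases hj3 : j ≤ 10 * a
      · rw [if_pos ⟨by omega, hj3⟩, if_neg hj, if_pos hj3, ← ENNReal.ofReal_mul hβ,
          ← ENNReal.ofReal_add (by positivity) (by positivity)]
        congr 1
        ring
      · rw [if_neg (fun h => hj3 h.2), if_neg hj, if_neg hj3, if_pos hj2, mul_zero, zero_add]
        congr 1
        ring
    · refine le_trans ?_ le_add_self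
      unfold xt
      rw [if_neg hj, if_neg (by omega), if_neg hj2, one_mul]
      refine (IE_mono (G := fun _ => ENNReal.ofReal (Z (L - 1 - j))) fun W _ hp => ?_).trans ?_
      · refine (IE_trunc_le _ _ _).trans (IE_le_Z fun W1 _ _ => ?_)
        rw [hF W W1 hp]
        exact iSup₂_le fun t1 _ => up_le_one e u _ y hQ t1
      · rw [IE_const, ENNReal.ofReal_mul hz]

theorem expl_step {a b R u y u' y' J2 : ℕ} {β lam κ ψ : ℝ} {A : ℝ≥0∞} {P : Mp → Prop}
    {Q : Mp → ℝ≥0∞} (ha : 2 ≤ a) (hβ : 0 ≤ β) (hl : 0 ≤ lam) (hQ : ∀ t, Q t ≤ 1) {e : Ex}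
    {N L L' p : ℕ} (hκ : 0 ≤ κ) (hψ : 1 ≤ ψ) (hJ : 10 * a ≤ J2) (hp : p < e.b)
    (hL : 2 * L = u + e.b + y) (hL' : 2 * L' = u' + e.b + y')
    (hr : e.rch a (b + 5 * a) R (Sum.inl p))
    (IH0 : IE (L + 1) (trunc N (Up (e.fc p) u (b + 6 * a) y Q))
      ≤ expl_G a b R u y u' y' β lam A P (e.fc p) (L + 1) (L' + 1) (κ * ψ))
    (IHR : ∀ j W, ok W → per W = j → j < (e.b - p) / 2 →
      IE (L - 1 - j) (trunc N (Up (e.br p W) u (b + 6 * a) y Q))
        ≤ expl_G a b R u y u' y' β lam A P (e.br p W) (L - 1 - j) (L' - 1 - j) (κ * ψ))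
    (IHL : ∀ j W, ok W → per W = j → j < (p + 1) / 2 →
      IE (L - 1 - j) (trunc N (Up (e.br (p - 2 * j - 1) W) u (b + 6 * a) y Q))
        ≤ expl_G a b R u y u' y' β lam A P (e.br (p - 2 * j - 1) W) (L - 1 - j) (L' - 1 - j)
          (κ * (ψ - 1)))
    (hX : ∀ m W2, ok W2 → per W2 ≤ J2 → Exit u e.b p m (per W2) →
      IE (L - 1 - per W2) (fun W1 => ⨆ (t1 : Mp) (_ : BrV m t1 W1 W2),
          Up e u (b + 6 * a) y Q t1)
        ≤ ENNReal.ofReal ((β + lam * (e.vol + edges W2 + 1)) * Z (L - 1 - per W2)))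
    (hnum : (β * fq a (b + 6 * a) (e.b + 2) + lam * (e.vol + 1) + κ * ψ) * Z (L + 1) / 12
      + ∑ j ∈ range ((2 * L - (u + p)) / 2),
          xt a (b + 6 * a) e.b J2 ((e.b - p) / 2) β lam e.vol (κ * ψ) j * (Z (L - 1 - j) * Z j)
      + ∑ j ∈ range ((u + p + 1) / 2),
          xt a (b + 6 * a) e.b J2 ((p + 1) / 2) β lam e.vol
            (κ * (if j = 0 then ψ - 1 else ψ)) j * (Z (L - 1 - j) * Z j)
      ≤ (β * fq a (b + 6 * a) e.b + lam * e.vol + κ * ψ) * Z L) :
    IE L (trunc (N + 1) (Up e u (b + 6 * a) y Q))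
      ≤ expl_G a b R u y u' y' β lam A P e L L' (κ * ψ) := by
  have hv : (0 : ℝ) ≤ e.vol := Nat.cast_nonneg _
  have hzz : ∀ j, 0 ≤ Z (L - 1 - j) * Z j := fun j => mul_nonneg (Z_pos _).le (Z_pos _).le
  have hc : 0 ≤ κ * ψ := mul_nonneg hκ (by linarith)
  have hc' : ∀ j : ℕ, 0 ≤ κ * (if j = 0 then ψ - 1 else ψ) := fun j =>
    mul_nonneg hκ (by split_ifs <;> linarith)
  have hxR := fun j => mul_nonneg (expl_xt (a := a) (b0 := b + 6 * a) (b := e.b) (J2 := J2)
    (J := (e.b - p) / 2) j hβ hl hv hc) (hzz j)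
  have hxL := fun j => mul_nonneg (expl_xt (a := a) (b0 := b + 6 * a) (b := e.b) (J2 := J2)
    (J := (p + 1) / 2) j hβ hl hv (hc' j)) (hzz j)
  have h0 := peel_up N L (u + p) (by omega) (Up e u (b + 6 * a) y Q)
    (Up (e.fc p) u (b + 6 * a) y Q) (expl_F e u (b + 6 * a) y Q)
    (fun t t' _ F => up_face Q hp F) (fun m t W1 W2 _ _ B => expl_F_le e u _ y Q B)
  have hR := expl_sum ((2 * L - (u + p)) / 2) ((e.b - p) / 2) (10 * a) _ _ _ _ _ A
    (ENNReal.ofReal β) hxR fun j _ =>
      expl_term (R := R) (u' := u') (y' := y') (A := A) (P := P) (N := N) (L := L) (L' := L')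
        (p := p) (m := u + p) (m0 := p) (j := j) (J := (e.b - p) / 2) hβ hl hQ hc hJ
        (fun h => ⟨rfl, by omega⟩) (fun h => Or.inl ⟨rfl, by omega⟩) (IHR j) (hX _)
  have hLf := expl_sum ((u + p + 1) / 2) ((p + 1) / 2) (10 * a) _ _ _ _ _ A
    (ENNReal.ofReal β) hxL fun j hj =>
      expl_term (R := R) (u' := u') (y' := y') (A := A) (P := P) (N := N) (L := L) (L' := L')
        (p := p) (m := u + p - 2 * j - 1) (m0 := p - 2 * j - 1) (j := j) (J := (p + 1) / 2)
        hβ hl hQ (hc' j) hJ (fun h => ⟨by omega, by omega⟩)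
        (fun h => Or.inr ⟨by omega, by omega⟩)
        (fun W h1 h2 h3 => (IHL j W h1 h2 h3).trans (expl_G_mono _ _ _ _ _ _ _ _ _ _ _ _ _ _
          (mul_le_mul_of_nonneg_left (by split_ifs <;> linarith) hκ))) (hX _)
  have mP := mart_step e u' (b + 6 * a) y' P L' p ∅ ∅ hL' hp (by simp) (by simp) (by simp)
    (by simp)
  have mN := mart_step e u (b + 6 * a) y (fun t => Near t u (b + 6 * a) a R) L p
    ((range ((2 * L - (u + p)) / 2)).filter (fun j => (e.b - p) / 2 ≤ j ∧ j ≤ 10 * a))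
    ((range ((u + p + 1) / 2)).filter (fun j => (p + 1) / 2 ≤ j ∧ j ≤ 10 * a)) hL hp
    (fun j hj => ⟨(mem_filter.1 hj).2.1, mem_range.1 (mem_filter.1 hj).1⟩)
    (fun j hj => ⟨(mem_filter.1 hj).2.1, mem_range.1 (mem_filter.1 hj).1⟩)
    (fun t t1 W1 W2 H hj B => near_exit H ha hp hr B
      (Or.inl ⟨rfl, by have := (mem_filter.1 hj).2.1; omega⟩) (mem_filter.1 hj).2.2)
    (fun t t1 W1 W2 H hj B => near_exit H ha hp hr B
      (Or.inr ⟨by have := mem_range.1 (mem_filter.1 hj).1; omega,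
        by have := (mem_filter.1 hj).2.1; omega⟩) (mem_filter.1 hj).2.2)
  simp only [Finset.sum_empty, add_zero] at mP
  have hf := expl_fq a (b + 6 * a) (e.b + 2)
  have hz1 := (Z_pos (L + 1)).le
  have h12 : (12 : ℝ≥0∞)⁻¹ * ENNReal.ofReal
      ((β * fq a (b + 6 * a) (e.fc p).b + lam * (e.fc p).vol + κ * ψ) * Z (L + 1))
      = ENNReal.ofReal
        ((β * fq a (b + 6 * a) (e.b + 2) + lam * (e.vol + 1) + κ * ψ) * Z (L + 1) / 12) := by
    rw [xmom_inv12, ← ENNReal.ofReal_mul (by norm_num), vol_fc]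
    congr 1
    have : (e.fc p).b = e.b + 2 := rfl
    rw [this]
    push_cast
    ring
  have hn := ENNReal.ofReal_le_ofReal hnum
  rw [ENNReal.ofReal_add (add_nonneg (by positivity) (Finset.sum_nonneg fun j _ => hxR j))
    (Finset.sum_nonneg fun j _ => hxL j),
    ENNReal.ofReal_add (by positivity) (Finset.sum_nonneg fun j _ => hxR j), ← h12] at hn
  refine h0.trans ((add_le_add (add_le_add (mul_le_mul_right IH0 _) hR) hLf).trans ?_)
  unfold expl_G
  refine le_trans (le_of_eq ?_) (add_le_add (add_le_add (mul_le_mul_right mP A)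
    (mul_le_mul_right mN (ENNReal.ofReal β))) hn)
  ring

theorem explore : ∃ C : ℝ, 0 < C ∧ ∀ (a b R u y u' y' J2 : ℕ) (β lam : ℝ) (A : ℝ≥0∞)
    (P : Mp → Prop) (Q : Mp → ℝ≥0∞), 2 ≤ a → b ≤ a → 10 * a ≤ J2 → 2 * J2 + 2 ≤ u →
    2 * J2 + 2 ≤ y → 0 ≤ β → 0 ≤ lam → (∀ t, Q t ≤ 1) →
    (∀ (e : Ex) (L L' : ℕ), e.Inv → e.b ≤ 20 * a + 2 → 2 * L = u + e.b + y →
      2 * L' = u' + e.b + y' → e.NoLow a (b + 5 * a) (R + 1) →
      IE L (Up e u (b + 6 * a) y Q)
        ≤ A * Mart e u' (b + 6 * a) y' P L' + ENNReal.ofReal (lam * e.vol * Z L)) →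
    (∀ (e : Ex) (L : ℕ), e.Inv → e.b ≤ 20 * a + 2 → 2 * L = u + e.b + y →
      IE L (Up e u (b + 6 * a) y Q) ≤ ENNReal.ofReal ((β + lam * e.vol) * Z L)) →
    (∀ (e : Ex) (L p m : ℕ) (W2 : Mp), e.Inv → e.b ≤ 20 * a → 2 * L = u + e.b + y → p < e.b →
      ok W2 → per W2 ≤ J2 → Exit u e.b p m (per W2) →
      IE (L - 1 - per W2) (fun W1 => ⨆ (t1 : Mp) (_ : BrV m t1 W1 W2),
          Up e u (b + 6 * a) y Q t1)
        ≤ ENNReal.ofReal ((β + lam * (e.vol + edges W2 + 1)) * Z (L - 1 - per W2))) →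
    ∀ L L' : ℕ, 2 * L = u + (b + 6 * a) + y → 2 * L' = u' + (b + 6 * a) + y' →
      IE L Q ≤ A * ENNReal.ofReal (mass L' P) + ENNReal.ofReal
        (β * mass L (fun t => Near t u (b + 6 * a) a R)
          + C * ((R : ℝ) + 1) * a * (β / ((a : ℝ) * √(a : ℝ)) + lam * √((J2 : ℝ) + 1)
            + 1 / (((J2 : ℝ) + 1) * √((J2 : ℝ) + 1))) * Z L) := by
  obtain ⟨C, hC, hnum⟩ := ex_num
  refine ⟨30 * C, by positivity, ?_⟩
  intro a b R u y u' y' J2 β lam A P Q ha hb hJ hu hy hβ hl hQ h1 h2 h3 L L' hL hL'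
  obtain ⟨E, hE⟩ : ∃ E, E = β / ((a : ℝ) * √(a : ℝ)) + lam * √((J2 : ℝ) + 1)
    + 1 / (((J2 : ℝ) + 1) * √((J2 : ℝ) + 1)) := ⟨_, rfl⟩
  have hE0 : 0 ≤ E := by rw [hE]; positivity
  have hκ : 0 ≤ C * E := by positivity
  have main : ∀ N k r : ℕ, r + k = R + 1 → ∀ (e : Ex) (L L' : ℕ), e.Inv → e.b ≤ 20 * a + 2 →
      2 * L = u + e.b + y → 2 * L' = u' + e.b + y' → e.NoLow a (b + 5 * a) r →
      IE L (trunc N (Up e u (b + 6 * a) y Q)) ≤ expl_G a b R u y u' y' β lam A P e L L'
        (C * E * ((k * (20 * a + 4) + e.cntR a (b + 5 * a) r : ℕ) : ℝ)) := by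
    intro N
    induction N with
    | zero => intro k r _ e L L' _ _ _ _ _; rw [IE_trunc_zero]; exact zero_le
    | succ N IH =>
      intro k
      induction k with
      | zero =>
        intro r hr e L L' hI hb' hL hL' hN
        obtain rfl : r = R + 1 := by omega
        refine (IE_trunc_le _ _ _).trans ((h1 e L L' hI hb' hL hL' hN).trans ?_)
        unfold expl_G
        refine add_le_add le_self_add (ENNReal.ofReal_le_ofReal ?_)
        refine mul_le_mul_of_nonneg_right ?_ (Z_pos L).le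
        have := mul_nonneg hβ (expl_fq a (b + 6 * a) e.b)
        have := mul_nonneg hκ
          (Nat.cast_nonneg (α := ℝ) (0 * (20 * a + 4) + e.cntR a (b + 5 * a) (R + 1)))
        linarith
      | succ k IHk =>
        intro r hr e L L' hI hb' hL hL' hN
        have hz := (Z_pos L).le
        have hc := mul_nonneg hκ
          (Nat.cast_nonneg (α := ℝ) ((k + 1) * (20 * a + 4) + e.cntR a (b + 5 * a) r))
        have hf := expl_fq a (b + 6 * a) e.b
        have hv : (0 : ℝ) ≤ e.vol := Nat.cast_nonneg _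
        by_cases hlong : 20 * a < e.b
        · refine (IE_trunc_le _ _ _).trans ((h2 e L hI hb' hL).trans ?_)
          unfold expl_G
          refine le_trans (ENNReal.ofReal_le_ofReal ?_) le_add_self
          refine mul_le_mul_of_nonneg_right ?_ hz
          have h13 : (13 * a : ℝ) ≤ ((e.b - (b + 6 * a) : ℕ) : ℝ) := by
            exact_mod_cast (by omega : 13 * a ≤ e.b - (b + 6 * a))
          have ha' : (0 : ℝ) < 13 * a := by
            have : (2 : ℝ) ≤ a := by exact_mod_cast ha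
            linarith
          have hq : 1 ≤ fq a (b + 6 * a) e.b := one_le_pow₀ ((one_le_div ha').2 h13)
          have := mul_le_mul_of_nonneg_left hq hβ
          linarith
        by_cases hex : ∃ p, e.rch a (b + 5 * a) r (Sum.inl p)
        · obtain ⟨p, hp⟩ := hex
          have hpR := rch_mono hp (show r ≤ R by omega)
          by_cases hpt : p = 0 ∨ e.b ≤ p
          · refine (IE_trunc_le _ _ _).trans ((h2 e L hI hb' hL).trans ?_)
            have hm := mart_full e u (b + 6 * a) y (fun t => Near t u (b + 6 * a) a R) L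
              fun t t' H => near_term H hpt hpR
            unfold expl_G
            rw [add_mul, ENNReal.ofReal_add (by positivity) (by positivity),
              ENNReal.ofReal_mul hβ]
            refine add_le_add (le_trans (mul_le_mul_right hm _) le_add_self)
              (ENNReal.ofReal_le_ofReal (mul_le_mul_of_nonneg_right ?_ hz))
            have := mul_nonneg hβ hf
            linarith
          · have hp0 : 0 < p := by omega
            have hpb : p < e.b := by omega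
            have hψ : (1 : ℝ) ≤ (((k + 1) * (20 * a + 4) + e.cntR a (b + 5 * a) r : ℕ) : ℝ) := by
              have := cntR_pos hpb.le hp
              exact_mod_cast (by omega : 1 ≤ (k + 1) * (20 * a + 4) + e.cntR a (b + 5 * a) r)
            refine expl_step ha hβ hl hQ hκ hψ hJ hpb hL hL' hpR ?_ ?_ ?_
              (fun m W2 => h3 e L p m W2 hI (by omega) hL hpb)
              (hnum a (b + 6 * a) e.b p u y L J2 β lam e.vol (C * E) _ (by omega) (by omega)
                (by omega) hp0 hpb hL hJ hu hy hβ hl hv hψ (by rw [hE]))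
            · obtain ⟨g1, g2⟩ := noLow_fc hpb hN
              have hb2 : (e.fc p).b = e.b + 2 := rfl
              refine (IH (k + 1) r hr (e.fc p) (L + 1) (L' + 1) (inv_fc hI p) (by omega)
                (by omega) (by omega) g1).trans (expl_G_mono _ _ _ _ _ _ _ _ _ _ _ _ _ _ ?_)
              exact mul_le_mul_of_nonneg_left (by exact_mod_cast Nat.add_le_add_left g2 _) hκ
            · intro j W hW hj hjl
              obtain ⟨g1, g2, -⟩ := noLow_br (m := p) (W := W) (by omega) hN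
              have hb2 : (e.br p W).b = e.b - 2 * per W - 2 := rfl
              refine (IH (k + 1) r hr (e.br p W) (L - 1 - j) (L' - 1 - j) (inv_br hI p hW)
                (by omega) (by omega) (by omega) g1).trans
                (expl_G_mono _ _ _ _ _ _ _ _ _ _ _ _ _ _ ?_)
              exact mul_le_mul_of_nonneg_left (by exact_mod_cast Nat.add_le_add_left g2 _) hκ
            · intro j W hW hj hjl
              obtain ⟨g1, -, g3⟩ := noLow_br (m := p - 2 * j - 1) (W := W) (by omega) hN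
              have hb2 : (e.br (p - 2 * j - 1) W).b = e.b - 2 * per W - 2 := rfl
              have g4 := g3 (by
                rw [show p - 2 * j - 1 + 1 + 2 * per W = p by omega]; exact hp)
              refine (IH (k + 1) r hr (e.br (p - 2 * j - 1) W) (L - 1 - j) (L' - 1 - j)
                (inv_br hI _ hW) (by omega) (by omega) (by omega) g1).trans
                (expl_G_mono _ _ _ _ _ _ _ _ _ _ _ _ _ _ ?_)
              refine mul_le_mul_of_nonneg_left ?_ hκ
              rw [le_sub_iff_add_le]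
              exact_mod_cast (by omega : (k + 1) * (20 * a + 4)
                + (e.br (p - 2 * j - 1) W).cntR a (b + 5 * a) r + 1
                ≤ (k + 1) * (20 * a + 4) + e.cntR a (b + 5 * a) r)
        · refine (IHk (r + 1) (by omega) e L L' hI hb' hL hL'
            (noLow_succ fun p hp => hex ⟨p, hp⟩)).trans
            (expl_G_mono _ _ _ _ _ _ _ _ _ _ _ _ _ _ (mul_le_mul_of_nonneg_left ?_ hκ))
          have := cntR_le e a (b + 5 * a) (r + 1)
          have h4 : k * (20 * a + 4) + e.cntR a (b + 5 * a) (r + 1)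
              ≤ (k + 1) * (20 * a + 4) + e.cntR a (b + 5 * a) r := by
            rw [add_mul, one_mul]; omega
          exact_mod_cast h4
  refine le_trans (IE_mono fun t ht hp => up_init (u := u) (b0 := b + 6 * a) (y := y) Q ht
    (by rw [hp, hL])) (IE_le_of_trunc fun N => ?_)
  have hb0 : (Ex.init (b + 6 * a)).b = b + 6 * a := rfl
  refine (main N (R + 1) 0 (by omega) (Ex.init (b + 6 * a)) L L' (inv_init _) (by omega)
    (by omega) (by omega) (noLow_zero _ _ _)).trans ?_
  unfold expl_G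
  have hm : 0 ≤ mass L (fun t => Near t u (b + 6 * a) a R) := ENNReal.toReal_nonneg
  have hz := (Z_pos L).le
  rw [← hE, ENNReal.ofReal_add (by positivity) (by positivity), ENNReal.ofReal_mul hβ,
    ← add_assoc]
  refine add_le_add (add_le_add (mul_le_mul_right (mart_init P hL') A)
    (mul_le_mul_right (mart_init _ hL) _)) (ENNReal.ofReal_le_ofReal ?_)
  refine mul_le_mul_of_nonneg_right ?_ hz
  have hq : fq a (b + 6 * a) (Ex.init (b + 6 * a)).b = 0 := by
    rw [hb0]; simp [fq]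
  have h5 := cntR_le (Ex.init (b + 6 * a)) a (b + 5 * a) 0
  have h6 : (R + 1) * (20 * a + 4) + (Ex.init (b + 6 * a)).cntR a (b + 5 * a) 0
      ≤ 30 * (R + 1) * a := by
    have h7 : (R + 1) * (20 * a + 4) ≤ (R + 1) * (22 * a) := Nat.mul_le_mul_left _ (by omega)
    have h8 : 8 * a ≤ (R + 1) * (8 * a) := Nat.le_mul_of_pos_left _ (by omega)
    have h9 : 30 * (R + 1) * a = (R + 1) * (22 * a) + (R + 1) * (8 * a) := by ring
    omega
  have h10 : (((R + 1) * (20 * a + 4) + (Ex.init (b + 6 * a)).cntR a (b + 5 * a) 0 : ℕ) : ℝ)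
      ≤ 30 * ((R : ℝ) + 1) * a := by exact_mod_cast h6
  have h11 := mul_le_mul_of_nonneg_left h10 hκ
  rw [hq, vol_init]
  simp only [mul_zero, Nat.cast_zero, zero_add]
  linarith

end Pool.Agent.QL.ND
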