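import Pool.Agent.P.MP_7a6434d8_pr.QL.ND.Ems

/-! Composition of exploration steps. -/

namespace Pool.Agent.QL.ND

open Pool.Agent.P.MP_7a6434d8_pr Mp Finset
open scoped ENNReal

theorem fill_init {u b0 y : ℕ} {t : Mp} (ht : ok t) (hp : 2 * per t = u + b0 + y) :
    Fill (Ex.init b0) u b0 y t t := by
  refine ⟨ht, ht, hp, hp, rfl, id, fun x => Empty.elim x, ⟨?_, ?_⟩, ?_, fun p _ => rfl, ?_,
    fun q _ => rfl⟩
  · rintro (a | a) (b | b) h
    · exact congrArg Sum.inl h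
    · exact Empty.elim b
    · exact Empty.elim a
    · exact Empty.elim a
  · intro v
    exact ⟨Sum.inl v, rfl⟩
  · show ems t = (ems t).map (Sym2.map id) + Multiset.map _ (0 : Multiset (Sym2 (ℕ ⊕ Empty)))
    rw [Multiset.map_zero, add_zero, Sym2.map_id, Multiset.map_id]
  · intro p hpb
    show bv t (u + p) = bv t (u + min p b0)
    rw [min_eq_left hpb]

theorem filll_mm {α β γ : Type} (M : Multiset (Sym2 α)) (f : α → β) (g : β → γ) :
    (M.map (Sym2.map f)).map (Sym2.map g) = M.map (Sym2.map (fun x => g (f x))) := by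
  rw [Multiset.map_map]
  refine Multiset.map_congr rfl fun s _ => ?_
  show Sym2.map _ (Sym2.map _ s) = _
  rw [Sym2.map_map]
  rfl

theorem filll_two {α β γ : Type} (M : Multiset (Sym2 α)) (f : α → β) (g : β → γ) (x y : β) :
    (M.map (Sym2.map f) + {s(x, y)}).map (Sym2.map g)
      = M.map (Sym2.map (fun x => g (f x))) + {s(g x, g y)} := by
  rw [Multiset.map_add, filll_mm, Multiset.map_singleton, Sym2.map_mk]

theorem filll_three {α α' β γ : Type} (M : Multiset (Sym2 α)) (M' : Multiset (Sym2 α'))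
    (f : α → β) (f' : α' → β) (g : β → γ) (x y : β) :
    (M.map (Sym2.map f) + M'.map (Sym2.map f') + {s(x, y)}).map (Sym2.map g)
      = M.map (Sym2.map (fun x => g (f x))) + M'.map (Sym2.map (fun x => g (f' x)))
        + {s(g x, g y)} := by
  rw [Multiset.map_add, Multiset.map_add, filll_mm, filll_mm, Multiset.map_singleton,
    Sym2.map_mk]

theorem filll_card2 {α β : Type} (M : Multiset (Sym2 α)) (f : α → β) (x : Sym2 β) :
    Multiset.card (M.map (Sym2.map f) + {x}) = Multiset.card M + 1 := by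
  rw [Multiset.card_add, Multiset.card_map, Multiset.card_singleton]

theorem filll_card3 {α α' β : Type} (M : Multiset (Sym2 α)) (M' : Multiset (Sym2 α'))
    (f : α → β) (f' : α' → β) (x : Sym2 β) :
    Multiset.card (M.map (Sym2.map f) + M'.map (Sym2.map f') + {x})
      = Multiset.card M + Multiset.card M' + 1 := by
  rw [Multiset.card_add, Multiset.card_add, Multiset.card_map, Multiset.card_map,
    Multiset.card_singleton]

theorem filll_pos_fc {e : Ex} {u y k : ℕ} {t t1 t' : Mp} (ι : V t1 → V t) (ξ : e.X → V t)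
    (ι0 : V t' → V t1) (hk : k < e.b) (hper : 2 * per t1 = u + e.b + y)
    (h1 : ∀ p, p ≤ u + k → bv t1 p = ι0 (bv t' p))
    (h2 : ∀ p, u + k < p → p ≤ 2 * per t1 → bv t1 p = ι0 (bv t' (p + 2))) (z : ℕ ⊕ e.X) :
    (e.fc k).pos u (fun v => ι (ι0 v)) ξ (Ex.fmap k z) = e.pos u ι ξ z := by
  rcases z with p | x
  · show ι (ι0 (bv t' (u + min (if p ≤ k then p else p + 2) (e.b + 2))))
      = ι (bv t1 (u + min p e.b))
    split_ifs with hp
    · rw [min_eq_left (by omega), min_eq_left (by omega), h1 _ (by omega)]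
    · rw [h2 (u + min p e.b) (by omega) (by omega)]
      congr 3
      omega
  · rfl

theorem fill_face {e : Ex} {u b0 y k : ℕ} {t t1 t' : Mp} (H : Fill e u b0 y t t1) (hk : k < e.b)
    (F : FaceV (u + k) t1 t') : Fill (e.fc k) u b0 y t t' := by
  obtain ⟨ι, ξ, hb, hE, hu, hw, hy⟩ := H.ex
  obtain ⟨ι0, hb0, hE0, h1, h2⟩ := faceM_of F
  have hper := H.per_t'
  have hp' := F.isFace.per_eq
  have hs := F.isFace.size_eq
  have hs' := H.size_eq
  have key := filll_pos_fc ι ξ ι0 hk hper h1 h2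
  refine ⟨H.ok_t, F.isFace.ok_t', H.per_t, ?_, ?_, fun v => ι (ι0 v), ξ, ?_, ?_, ?_, ?_, ?_⟩
  · show 2 * per t' = u + (e.b + 2) + y
    omega
  · show size t = size t' + (e.sz + 1)
    omega
  · have : Sum.elim (fun v => ι (ι0 v)) ξ = Sum.elim ι ξ ∘ Sum.map ι0 id := by
      funext z
      rcases z with z | z <;> rfl
    show Function.Bijective (Sum.elim (fun v => ι (ι0 v)) ξ : V t' ⊕ e.X → V t)
    rw [this]
    exact hb.comp (Function.Bijective.sumMap hb0 Function.bijective_id)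
  · have e1 := filll_two e.el (Ex.fmap k)
      ((e.fc k).pos u (fun v => ι (ι0 v)) ξ : ℕ ⊕ e.X → V t) (Sum.inl k) (Sum.inl (k + 3))
    refine Eq.trans ?_ (congrArg (fun M => (ems t').map (Sym2.map (fun v => ι (ι0 v))) + M)
      e1.symm)
    have e2 : (fun z => (e.fc k).pos u (fun v => ι (ι0 v)) ξ (Ex.fmap k z)) = e.pos u ι ξ :=
      funext key
    show ems t = (ems t').map (Sym2.map (fun v => ι (ι0 v))) +
      (e.el.map (Sym2.map (fun z => (e.fc k).pos u (fun v => ι (ι0 v)) ξ (Ex.fmap k z))) +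
        {s(ι (ι0 (bv t' (u + min k (e.b + 2)))), ι (ι0 (bv t' (u + min (k + 3) (e.b + 2)))))})
    rw [e2, min_eq_left (by omega), min_eq_left (by omega), ← add_assoc u, hE, hE0, filll_two]
    abel
  · intro p hp
    rw [hu p hp, h1 p (by omega)]
  · intro p hp
    rw [hw p hp]
    exact (key (e.bd p)).symm
  · intro q hq
    rw [hy q hq, h2 _ (by omega) (by omega)]
    show ι (ι0 (bv t' (u + e.b + q + 2))) = ι (ι0 (bv t' (u + (e.b + 2) + q)))
    congr 3
    omega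

theorem filll_pos_br {e : Ex} {u y m : ℕ} {t t1 W1 W2 : Mp} (ι : V t1 → V t) (ξ : e.X → V t)
    (ι1 : V W1 → V t1) (ι2 : V W2 → V t1) (hm : m + 2 * per W2 + 2 ≤ e.b)
    (hper : 2 * per t1 = u + e.b + y) (hp1 : per t1 = per W1 + per W2 + 1)
    (h1 : ∀ p, p ≤ u + m → bv t1 p = ι1 (bv W1 p))
    (h2 : ∀ p, p ≤ 2 * per W2 → bv t1 (u + m + 1 + p) = ι2 (bv W2 p))
    (h3 : ∀ p, u + m ≤ p → p ≤ 2 * per W1 → bv t1 (p + 2 * per W2 + 2) = ι1 (bv W1 p))
    (z : ℕ ⊕ e.X) :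
    (e.br m W2).pos u (fun v => ι (ι1 v)) (Sum.elim ξ (fun v => ι (ι2 v))) (Ex.bmap m W2 z)
      = e.pos u ι ξ z := by
  rcases z with p | x
  · show (e.br m W2).pos u (fun v => ι (ι1 v)) (Sum.elim ξ (fun v => ι (ι2 v)))
      (if p ≤ m then Sum.inl p
        else if p ≤ m + 1 + 2 * per W2 then Sum.inr (Sum.inr (bv W2 (p - m - 1)))
        else Sum.inl (p - 2 * per W2 - 2)) = ι (bv t1 (u + min p e.b))
    split_ifs with hp hp2
    · show ι (ι1 (bv W1 (u + min p (e.b - 2 * per W2 - 2)))) = _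
      rw [min_eq_left (by omega), min_eq_left (by omega), h1 _ (by omega)]
    · show ι (ι2 (bv W2 (p - m - 1))) = _
      rw [← h2 _ (by omega), min_eq_left (by omega)]
      congr 2
      omega
    · show ι (ι1 (bv W1 (u + min (p - 2 * per W2 - 2) (e.b - 2 * per W2 - 2)))) = _
      rw [← h3 _ (by omega) (by omega)]
      congr 2
      omega
  · rfl

theorem fill_br {e : Ex} {u b0 y m : ℕ} {t t1 W1 W2 : Mp} (H : Fill e u b0 y t t1)
    (hm : m + 2 * per W2 + 2 ≤ e.b) (B : BrV (u + m) t1 W1 W2) :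
    Fill (e.br m W2) u b0 y t W1 := by
  obtain ⟨ι, ξ, hb, hE, hu, hw, hy⟩ := H.ex
  obtain ⟨ι1, ι2, hb0, hE0, h1, h2, h3⟩ := brM_of B
  have hper := H.per_t'
  have hp' := B.isBr.per_eq
  have hs := B.isBr.size_eq
  have hs' := H.size_eq
  have key := filll_pos_br ι ξ ι1 ι2 hm hper hp' h1 h2 h3
  refine ⟨H.ok_t, B.isBr.ok_1, H.per_t, ?_, ?_, fun v => ι (ι1 v),
    Sum.elim ξ (fun v => ι (ι2 v)), ?_, ?_, ?_, ?_, ?_⟩
  · show 2 * per W1 = u + (e.b - 2 * per W2 - 2) + y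
    omega
  · show size t = size W1 + (e.sz + size W2)
    omega
  · let σ : V W1 ⊕ (e.X ⊕ V W2) ≃ (V W1 ⊕ V W2) ⊕ e.X :=
      ((Equiv.refl (V W1)).sumCongr (Equiv.sumComm e.X (V W2))).trans
        (Equiv.sumAssoc (V W1) (V W2) e.X).symm
    have : (Sum.elim (fun v => ι (ι1 v)) (Sum.elim ξ (fun v => ι (ι2 v))) :
        V W1 ⊕ (e.X ⊕ V W2) → V t)
        = Sum.elim ι ξ ∘ Sum.map (Sum.elim ι1 ι2) id ∘ σ := by
      funext z
      rcases z with z | z | z <;> rfl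
    show Function.Bijective (Sum.elim (fun v => ι (ι1 v)) (Sum.elim ξ (fun v => ι (ι2 v))) :
        V W1 ⊕ (e.X ⊕ V W2) → V t)
    rw [this]
    exact hb.comp ((Function.Bijective.sumMap hb0 Function.bijective_id).comp σ.bijective)
  · have e1 := filll_three e.el (ems W2) (Ex.bmap m W2)
      (fun v => (Sum.inr (Sum.inr v) : ℕ ⊕ (e.X ⊕ V W2)))
      ((e.br m W2).pos u (fun v => ι (ι1 v)) (Sum.elim ξ (fun v => ι (ι2 v))) :
        ℕ ⊕ (e.X ⊕ V W2) → V t) (Sum.inl m) (Sum.inr (Sum.inr (bv W2 0)))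
    refine Eq.trans ?_ (congrArg (fun M => (ems W1).map (Sym2.map (fun v => ι (ι1 v))) + M)
      e1.symm)
    have e2 : (fun z => (e.br m W2).pos u (fun v => ι (ι1 v)) (Sum.elim ξ (fun v => ι (ι2 v)))
        (Ex.bmap m W2 z)) = e.pos u ι ξ := funext key
    show ems t = (ems W1).map (Sym2.map (fun v => ι (ι1 v))) +
      (e.el.map (Sym2.map (fun z => (e.br m W2).pos u (fun v => ι (ι1 v))
          (Sum.elim ξ (fun v => ι (ι2 v))) (Ex.bmap m W2 z))) +
        (ems W2).map (Sym2.map (fun v => ι (ι2 v))) +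
        {s(ι (ι1 (bv W1 (u + min m (e.b - 2 * per W2 - 2)))), ι (ι2 (bv W2 0)))})
    rw [e2, min_eq_left (by omega), hE, hE0, filll_three]
    abel
  · intro p hp
    rw [hu p hp, h1 p (by omega)]
  · intro p hp
    rw [hw p hp]
    exact (key (e.bd p)).symm
  · intro q hq
    show bv t (u + b0 + q) = ι (ι1 (bv W1 (u + (e.b - 2 * per W2 - 2) + q)))
    rw [hy q hq, ← h3 _ (by omega) (by omega)]
    congr 2
    omega

theorem vol_init (b0 : ℕ) : (Ex.init b0).vol = 0 := rfl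

theorem vol_fc (e : Ex) (k : ℕ) : (e.fc k).vol = e.vol + 1 :=
  filll_card2 e.el (Ex.fmap k) s(Sum.inl k, Sum.inl (k + 3))

theorem vol_br (e : Ex) (m : ℕ) (W : Mp) : (e.br m W).vol = e.vol + edges W + 1 := by
  rw [← card_ems W]
  exact filll_card3 e.el (ems W) (Ex.bmap m W)
    (fun v => (Sum.inr (Sum.inr v) : ℕ ⊕ (e.X ⊕ V W))) s(Sum.inl m, Sum.inr (Sum.inr (bv W 0)))

theorem inv_init (b0 : ℕ) : (Ex.init b0).Inv := by
  refine ⟨?_, le_refl 0⟩
  show Fintype.card Empty ≤ 0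
  simp

theorem inv_fc {e : Ex} (h : e.Inv) (k : ℕ) : (e.fc k).Inv := by
  obtain ⟨h1, h2⟩ := h
  refine ⟨?_, ?_⟩
  · rw [vol_fc]
    show e.nX ≤ e.vol + 1
    omega
  · rw [vol_fc]
    show e.sz + 1 ≤ e.vol + 1
    omega

theorem inv_br {e : Ex} (h : e.Inv) (m : ℕ) {W : Mp} (hW : ok W) : (e.br m W).Inv := by
  obtain ⟨h1, h2⟩ := h
  have h3 := card_V_le W hW
  have h4 := edges_eq W hW
  refine ⟨?_, ?_⟩
  · rw [vol_br]
    have : (e.br m W).nX = e.nX + Fintype.card (V W) :=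
      @Fintype.card_sum e.X (V W) e.fin _
    omega
  · rw [vol_br]
    show e.sz + size W ≤ e.vol + edges W + 1
    omega

theorem up_init {u b0 y : ℕ} (Q : Mp → ℝ≥0∞) {t : Mp} (ht : ok t) (hp : 2 * per t = u + b0 + y) :
    Q t ≤ Up (Ex.init b0) u b0 y Q t :=
  le_iSup₂ (f := fun (s : Mp) (_ : Fill (Ex.init b0) u b0 y s t) => Q s) t (fill_init ht hp)

theorem up_face {e : Ex} {u b0 y k : ℕ} (Q : Mp → ℝ≥0∞) {t1 t' : Mp} (hk : k < e.b)
    (F : FaceV (u + k) t1 t') : Up e u b0 y Q t1 ≤ Up (e.fc k) u b0 y Q t' :=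
  iSup₂_le fun t H =>
    le_iSup₂ (f := fun (s : Mp) (_ : Fill (e.fc k) u b0 y s t') => Q s) t (fill_face H hk F)

theorem up_br {e : Ex} {u b0 y m : ℕ} (Q : Mp → ℝ≥0∞) {t1 W1 W2 : Mp}
    (hm : m + 2 * per W2 + 2 ≤ e.b) (B : BrV (u + m) t1 W1 W2) :
    Up e u b0 y Q t1 ≤ Up (e.br m W2) u b0 y Q W1 :=
  iSup₂_le fun t H =>
    le_iSup₂ (f := fun (s : Mp) (_ : Fill (e.br m W2) u b0 y s W1) => Q s) t (fill_br H hm B)

theorem up_le_one (e : Ex) (u b0 y : ℕ) {Q : Mp → ℝ≥0∞} (hQ : ∀ t, Q t ≤ 1) (t' : Mp) :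
    Up e u b0 y Q t' ≤ 1 :=
  iSup₂_le fun t _ => hQ t

end Pool.Agent.QL.ND
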