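import Pool.Agent.P.MP_7a6434d8_pr.QL.ND.Defs2
import Pool.Agent.P.MP_7a6434d8_pr.XIE
import Pool.Agent.P.MP_7a6434d8_pr.XV
import Pool.Agent.P.MP_7a6434d8_pr.XMom
import Pool.Agent.P.MP_7a6434d8_pr.Peel
import Pool.Agent.P.MP_7a6434d8_pr.CountA

/-! Peeling for integrals. -/

namespace Pool.Agent.QL.ND

open Pool.Agent.P.MP_7a6434d8_pr Mp Finset
open scoped ENNReal

theorem peeli_congr {L : ℕ} {F G : Mp → ℝ≥0∞} (h : ∀ t, ok t → per t = L → F t = G t) :
    IE L F = IE L G :=
  le_antisymm (IE_mono fun t ht hp => (h t ht hp).le) (IE_mono fun t ht hp => (h t ht hp).ge)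

theorem peeli_face (L k : ℕ) (F : Mp → ℝ≥0∞) :
    IE (L + 1) (fun t => F (rotN (2 * L - k) (face t))) = IE (L + 1) (fun t => F (faceAt k t)) := by
  rw [← IE_rot (L + 1) k (fun t => F (rotN (2 * L - k) (face t)))]
  refine peeli_congr fun t _ hp => ?_
  unfold faceAt
  rw [hp, Nat.add_sub_cancel]

theorem peeli_right (L k j : ℕ) (hj : j < L) (F : Mp → ℝ≥0∞) :
    IE j (fun b => IE (L - 1 - j) (fun a => F (rotN (2 * L - k) (bridge a b))))
      = IE j (fun b => IE (L - 1 - j) (fun a => F (brR k a b))) := by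
  refine peeli_congr fun b _ hpb => ?_
  rw [← IE_rot (L - 1 - j) k (fun a => F (rotN (2 * L - k) (bridge a b)))]
  refine peeli_congr fun a _ hpa => ?_
  unfold brR
  have : per a + per b + 1 = L := by omega
  rw [this]

theorem peeli_left (L k j : ℕ) (hj : j < L) (hk : 2 * j + 1 ≤ k) (F : Mp → ℝ≥0∞) :
    IE (L - 1 - j) (fun b => IE j (fun a => F (rotN (2 * L - k) (bridge a b))))
      = IE j (fun b => IE (L - 1 - j) (fun a => F (brL (k - 2 * j - 1) a b))) := by
  rw [IE_comm]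
  refine peeli_congr fun b _ hpb => ?_
  rw [← IE_rot (L - 1 - j) (k - 2 * j - 1) (fun a => F (rotN (2 * L - k) (bridge b a)))]
  refine peeli_congr fun a _ hpa => ?_
  unfold brL
  have h1 : per a + per b + 1 = L := by omega
  have h2 : k - 2 * j - 1 + 2 * per b + 1 = k := by omega
  rw [h1, h2]

theorem peeli_eq (L k : ℕ) (hk : k < 2 * L) (F : Mp → ℝ≥0∞) :
    IE L F = (12 : ℝ≥0∞)⁻¹ * IE (L + 1) (fun t => F (faceAt k t))
      + ∑ j ∈ range ((2 * L - k) / 2), IE j (fun b => IE (L - 1 - j) (fun a => F (brR k a b)))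
      + ∑ j ∈ range ((k + 1) / 2),
          IE j (fun b => IE (L - 1 - j) (fun a => F (brL (k - 2 * j - 1) a b))) := by
  have hL : 1 ≤ L := by omega
  rw [← IE_rot L (2 * L - k) F, IE_root L hL, peeli_face, add_assoc]
  congr 1
  have hsplit : L = (2 * L - k) / 2 + (k + 1) / 2 := by omega
  have key : ∀ G : ℕ → ℝ≥0∞, ∑ j ∈ range L, G j
      = ∑ j ∈ range ((2 * L - k) / 2), G j + ∑ j ∈ range ((k + 1) / 2), G (L - 1 - j) := by
    intro G
    conv_lhs => rw [hsplit, sum_range_add]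
    congr 1
    rw [← sum_range_reflect]
    refine sum_congr rfl fun j hj => ?_
    rw [mem_range] at hj
    congr 1
    omega
  rw [key]
  congr 1
  · refine sum_congr rfl fun j hj => ?_
    rw [mem_range] at hj
    exact peeli_right L k j (by omega) F
  · refine sum_congr rfl fun j hj => ?_
    rw [mem_range] at hj
    have h1 : L - 1 - (L - 1 - j) = j := by omega
    rw [h1]
    exact peeli_left L k j (by omega) (by omega) F

theorem peeli_zero (L : ℕ) : IE L (fun _ => 0) = 0 := by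
  rw [IE_const, zero_mul]

theorem peeli_br (N i j : ℕ) (F : Mp → ℝ≥0∞) (G : Mp → Mp → ℝ≥0∞) (g : Mp → Mp → Mp)
    (h : ∀ a b, ok a → per a = i → ok b → per b = j →
      edges (g a b) = edges a + edges b + 1 ∧ F (g a b) ≤ G a b) :
    IE j (fun b => IE i (fun a => trunc (N + 1) F (g a b)))
      ≤ IE j (trunc N (fun b => IE i (trunc N (fun a => G a b)))) := by
  refine IE_mono fun b hb hpb => ?_
  by_cases hN : edges b < N
  · rw [trunc, if_pos hN]
    refine IE_mono fun a ha hpa => ?_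
    obtain ⟨e, h1⟩ := h a b ha hpa hb hpb
    simp only [trunc]
    split_ifs with h2 h3
    · exact h1
    · omega
    · exact zero_le
    · exact le_rfl
  · refine le_trans (IE_mono (G := fun _ => 0) fun a ha hpa => ?_)
      ((peeli_zero _).trans_le zero_le)
    rw [trunc, if_neg (by have := (h a b ha hpa hb hpb).1; omega)]

theorem peel_up (N L k : ℕ) (hk : k < 2 * L) (F F0 : Mp → ℝ≥0∞) (F1 : ℕ → Mp → Mp → ℝ≥0∞)
    (h0 : ∀ t t', per t = L → FaceV k t t' → F t ≤ F0 t')
    (h1 : ∀ m t W1 W2, per t = L → (m = k ∨ m + 2 * per W2 + 1 = k) → BrV m t W1 W2 →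
      F t ≤ F1 m W1 W2) :
    IE L (trunc (N + 1) F) ≤ (12 : ℝ≥0∞)⁻¹ * IE (L + 1) (trunc N F0)
      + ∑ j ∈ range ((2 * L - k) / 2),
          IE j (trunc N (fun b => IE (L - 1 - j) (trunc N (fun a => F1 k a b))))
      + ∑ j ∈ range ((k + 1) / 2),
          IE j (trunc N (fun b => IE (L - 1 - j) (trunc N (fun a => F1 (k - 2 * j - 1) a b)))) := by
  rw [peeli_eq L k hk]
  refine add_le_add (add_le_add (mul_le_mul' le_rfl (IE_mono fun t ht hp => ?_))
    (sum_le_sum fun j hj => peeli_br N _ _ F _ _ fun a b ha hpa hb hpb => ?_))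
    (sum_le_sum fun j hj => peeli_br N _ _ F _ _ fun a b ha hpa hb hpb => ?_)
  · have H := faceV_faceAt k t ht (by omega)
    have e1 := H.isFace.edges_eq
    have e2 := H.isFace.per_eq
    simp only [trunc]
    split_ifs with h2 h3
    · exact h0 _ _ (by omega) H
    · omega
    · exact zero_le
    · exact le_rfl
  · rw [mem_range] at hj
    have H := brV_brR k a b ha hb (by omega)
    have e2 := H.isBr.per_eq
    exact ⟨H.isBr.edges_eq, h1 _ _ _ _ (by omega) (Or.inl rfl) H⟩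
  · rw [mem_range] at hj
    have H := brV_brL (k - 2 * j - 1) a b ha hb (by omega)
    have e2 := H.isBr.per_eq
    exact ⟨H.isBr.edges_eq, h1 _ _ _ _ (by omega) (Or.inr (by omega)) H⟩

theorem peel_down (L k : ℕ) (hk : k < 2 * L) (F F0 : Mp → ℝ≥0∞) (F1 : ℕ → Mp → Mp → ℝ≥0∞)
    (h0 : ∀ t t', per t = L → FaceV k t t' → F0 t' ≤ F t)
    (h1 : ∀ m t W1 W2, per t = L → (m = k ∨ m + 2 * per W2 + 1 = k) → BrV m t W1 W2 →
      F1 m W1 W2 ≤ F t) :
    (12 : ℝ≥0∞)⁻¹ * IE (L + 1) F0
      + ∑ j ∈ range ((2 * L - k) / 2), IE j (fun b => IE (L - 1 - j) (fun a => F1 k a b))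
      + ∑ j ∈ range ((k + 1) / 2),
          IE j (fun b => IE (L - 1 - j) (fun a => F1 (k - 2 * j - 1) a b)) ≤ IE L F := by
  rw [peeli_eq L k hk F]
  refine add_le_add (add_le_add (mul_le_mul' le_rfl (IE_mono fun t ht hp => ?_))
    (sum_le_sum fun j hj => IE_mono fun b hb hpb => IE_mono fun a ha hpa => ?_))
    (sum_le_sum fun j hj => IE_mono fun b hb hpb => IE_mono fun a ha hpa => ?_)
  · have H := faceV_faceAt k t ht (by omega)
    have e2 := H.isFace.per_eq
    exact h0 _ _ (by omega) H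
  · rw [mem_range] at hj
    have H := brV_brR k a b ha hb (by omega)
    have e2 := H.isBr.per_eq
    exact h1 _ _ _ _ (by omega) (Or.inl rfl) H
  · rw [mem_range] at hj
    have H := brV_brL (k - 2 * j - 1) a b ha hb (by omega)
    have e2 := H.isBr.per_eq
    exact h1 _ _ _ _ (by omega) (Or.inr (by omega)) H

theorem IE_trunc_le (N L : ℕ) (F : Mp → ℝ≥0∞) : IE L (trunc N F) ≤ IE L F := by
  refine IE_mono fun t _ _ => ?_
  unfold trunc
  split_ifs
  exacts [le_rfl, zero_le]

theorem IE_trunc_mono {N L : ℕ} {F G : Mp → ℝ≥0∞} (h : ∀ t, ok t → per t = L → F t ≤ G t) :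
    IE L (trunc N F) ≤ IE L (trunc N G) := by
  refine IE_mono fun t ht hp => ?_
  unfold trunc
  split_ifs
  exacts [h t ht hp, le_rfl]

theorem IE_trunc_add (N L : ℕ) (F G : Mp → ℝ≥0∞) :
    IE L (trunc N (fun t => F t + G t)) ≤ IE L F + IE L (trunc N G) := by
  rw [← IE_add]
  refine IE_mono fun t _ _ => ?_
  unfold trunc
  split_ifs
  exacts [le_rfl, zero_le]

theorem IE_trunc_rot (N L k : ℕ) (F : Mp → ℝ≥0∞) :
    IE L (trunc N (fun t => F (rotN k t))) = IE L (trunc N F) := by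
  rw [← IE_rot L k (trunc N F)]
  refine peeli_congr fun t ht _ => ?_
  unfold trunc
  rw [rotN_edges k t ht]

theorem two_le (N i j : ℕ) (FA FB : Mp → ℝ≥0∞) :
    IE j (trunc N (fun b => IE i (trunc N (fun a => FA a + FB b))))
      ≤ IE i (trunc N FA) * ENNReal.ofReal (Z j) + ENNReal.ofReal (Z i) * IE j (trunc N FB) := by
  have h : ∀ b, IE i (trunc N (fun a => FA a + FB b))
      ≤ IE i (trunc N FA) + ENNReal.ofReal (Z i) * FB b := fun b => by
    have h1 := IE_trunc_add N i (fun _ => FB b) FA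
    rw [IE_const, mul_comm, add_comm] at h1
    exact le_trans (IE_trunc_mono fun a _ _ => (add_comm _ _).le) h1
  refine (IE_trunc_mono fun b _ _ => h b).trans ((IE_trunc_add N j _ _).trans ?_)
  rw [IE_const, ← IE_const_mul]
  refine add_le_add le_rfl (IE_mono fun b _ _ => ?_)
  unfold trunc
  split_ifs
  exacts [le_rfl, zero_le]

theorem IE_indic (L : ℕ) (φ : Mp → Prop) :
    IE L (fun t => ind (φ t)) = ENNReal.ofReal (mass L φ) := by
  exact IE_ind L φ

theorem IE_le_Z {L : ℕ} {F : Mp → ℝ≥0∞} (h : ∀ t, ok t → per t = L → F t ≤ 1) :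
    IE L F ≤ ENNReal.ofReal (Z L) := by
  refine (IE_mono h).trans ?_
  rw [IE_const, one_mul]

theorem IE_card (L : ℕ) :
    IE L (fun t => (Fintype.card (V t) : ℝ≥0∞)) ≤ ENNReal.ofReal (Pz L) := by
  have hZ := (Z_pos L).le
  have h1 : IE L (fun t => (Fintype.card (V t) : ℝ≥0∞))
      = IE L (fun t => (size t : ℝ≥0∞) + ENNReal.ofReal ((L : ℝ) + 1)) :=
    peeli_congr fun t ht hp => by
      rw [card_V t ht, hp, ENNReal.ofReal_add (Nat.cast_nonneg L) zero_le_one,
        ENNReal.ofReal_natCast, ENNReal.ofReal_one]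
      push_cast
      rw [add_assoc]
  rw [h1, IE_add, IE_const, ← ENNReal.ofReal_mul (by positivity)]
  refine (add_le_add (IE_size L) le_rfl).trans (le_of_eq ?_)
  rw [← ENNReal.ofReal_add (by positivity) (by positivity)]
  congr 1
  unfold Pz Av
  ring

/-- integral of an affine function of the number of edges -/
theorem IE_aff (j : ℕ) (c d : ℝ) (hc : 0 ≤ c) (hd : 0 ≤ d) :
    IE j (fun W => ENNReal.ofReal (c + d * edges W))
      ≤ ENNReal.ofReal ((c + d * Bv j) * Z j) := by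
  have hZ := (Z_pos j).le
  have hB := xmom_Bv j
  have h1 : IE j (fun W => ENNReal.ofReal (c + d * edges W))
      = IE j (fun W => ENNReal.ofReal c + ENNReal.ofReal d * (edges W : ℝ≥0∞)) :=
    peeli_congr fun t _ _ => by
      rw [ENNReal.ofReal_add hc (by positivity), ENNReal.ofReal_mul hd, ENNReal.ofReal_natCast]
  rw [h1, IE_add, IE_const, IE_const_mul]
  refine (add_le_add le_rfl (mul_le_mul' le_rfl (IE_edges j))).trans (le_of_eq ?_)
  rw [← ENNReal.ofReal_mul hc, ← ENNReal.ofReal_mul hd,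
    ← ENNReal.ofReal_add (by positivity) (by positivity)]
  congr 1
  ring

theorem mass_size_eq (L m : ℕ) (φ : Mp → Prop) :
    mass L (fun t => φ t ∧ size t = m) = (cnt L m φ : ℝ) / 12 ^ m := by
  classical
  have h1 : massE L (fun t => φ t ∧ size t = m)
      = ((cnt L m φ : ℕ) : ℝ≥0∞) * (12 : ℝ≥0∞)⁻¹ ^ m := by
    rw [counta_cnt]
    unfold massE
    rw [tsum_eq_sum (s := (countaT L m).filter φ), ← nsmul_eq_mul, ← sum_const]
    · refine sum_congr (by congr) fun t ht => ?_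
      obtain ⟨h, hφ⟩ := mem_filter.1 ht
      obtain ⟨h1, h2, h3⟩ := (counta_mem L m t).1 h
      rw [if_pos ⟨hφ, h3⟩]
      unfold wt
      rw [if_pos ⟨h1, h2⟩, h3]
    · intro t ht
      split_ifs with h
      · exact massb_wt_zero fun h' =>
          ht (mem_filter.2 ⟨(counta_mem L m t).2 ⟨h'.1, h'.2, h.2⟩, h.1⟩)
      · rfl
  unfold mass
  rw [h1, ENNReal.toReal_mul, ENNReal.toReal_pow, ENNReal.toReal_inv]
  simp only [ENNReal.toReal_natCast, ENNReal.toReal_ofNat]
  rw [inv_pow, div_eq_mul_inv]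

end Pool.Agent.QL.ND
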