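import Pool.Agent.P.MP_7a6434d8_pr.QL.ND.Phi
import Pool.Agent.P.MP_7a6434d8_pr.QL.ND.PeelI

/-! Volume tail and small scales. -/

namespace Pool.Agent.QL.ND

open Pool.Agent.P.MP_7a6434d8_pr Mp Finset
open scoped ENNReal

theorem fin_vol (hV : TailV) : ∃ D : ℝ, 0 < D ∧ ∀ Λ L : ℕ, L ≤ Λ →
    IE L (fun t => if capE Λ L < (edges t : ℝ) then (Fintype.card (V t) : ℝ≥0∞) else 0)
      ≤ ENNReal.ofReal (D * phi Λ L ^ 4 * Pz L) := by
  obtain ⟨C, hC, h⟩ := hV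
  refine ⟨6 * C + 2, by positivity, fun Λ L hL => ?_⟩
  have hp := phi_pos Λ L
  have h1 := phi_le_one hL
  have hz := Pz_pos L
  have hL0 : (0 : ℝ) ≤ L := L.cast_nonneg
  have h4 : 0 < phi Λ L ^ 4 := by positivity
  have hE : capE Λ L * (phi Λ L ^ 4) ^ 2 = ((L : ℝ) + 1) ^ 2 := by
    rw [capE]
    field_simp
  have hE0 : 0 < capE Λ L := by
    rw [capE]
    positivity
  have hE1 : ((L : ℝ) + 1) ^ 2 ≤ capE Λ L := by
    rw [← hE]
    exact mul_le_of_le_one_right hE0.le (pow_le_one₀ h4.le (pow_le_one₀ hp.le h1))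
  have m1 := Nat.floor_le (show 0 ≤ capE Λ L / 4 by positivity)
  have m2 := Nat.lt_floor_add_one (capE Λ L / 4)
  rcases Nat.eq_zero_or_pos ⌊capE Λ L / 4⌋₊ with h0 | h0
  · refine (IE_mono fun t _ _ => ?_).trans ((IE_card L).trans (ENNReal.ofReal_le_ofReal ?_))
    · split_ifs
      · exact le_rfl
      · exact zero_le
    · rw [h0, Nat.cast_zero, zero_add] at m2
      have h5 : 1 ≤ (2 * phi Λ L ^ 4) ^ 2 := by
        nlinarith [mul_le_mul_of_nonneg_right (show capE Λ L ≤ 4 by linarith)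
          (sq_nonneg (phi Λ L ^ 4))]
      have h6 : 1 ≤ 2 * phi Λ L ^ 4 := by nlinarith
      exact le_mul_of_one_le_left hz.le (by nlinarith)
  · refine (IE_mono fun t ht hL' => ?_).trans ((h L _ h0).trans (ENNReal.ofReal_le_ofReal ?_))
    · by_cases h2 : capE Λ L < (edges t : ℝ)
      · rw [if_pos h2, if_pos]
        rw [counta_edges t ht, hL'] at h2
        push_cast at h2
        have : (⌊capE Λ L / 4⌋₊ : ℝ) < size t := by nlinarith
        exact_mod_cast this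
      · rw [if_neg h2]
        exact zero_le
    · have m3 : (1 : ℝ) ≤ ⌊capE Λ L / 4⌋₊ := by exact_mod_cast h0
      generalize (⌊capE Λ L / 4⌋₊ : ℝ) = m at m1 m2 m3
      have hs : 0 < √m := Real.sqrt_pos.2 (by linarith)
      have h5 : (L : ℝ) + 1 ≤ 3 * phi Λ L ^ 4 * √m := by
        refine le_of_pow_le_pow_left₀ two_ne_zero (by positivity) ?_
        rw [← hE, mul_pow, Real.sq_sqrt (by linarith), mul_pow]
        nlinarith [mul_le_mul_of_nonneg_right (show capE Λ L ≤ 9 * m by linarith)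
          (sq_nonneg (phi Λ L ^ 4))]
      have h6 := Pz_ge L
      have h7 := Z_pos L
      calc C * ((L : ℝ) + 1) ^ 3 / √m * Z L
          = C * (((L : ℝ) + 1) / √m) * (((L : ℝ) + 1) ^ 2 * Z L) := by ring
        _ ≤ C * (3 * phi Λ L ^ 4) * (2 * Pz L) := by
            gcongr
            exact (div_le_iff₀ hs).2 h5
        _ ≤ _ := by nlinarith [mul_pos h4 hz]

theorem fin_base (kap : ℕ → ℝ) (hS : SlowVar kap) (ε : ℝ) (hε : 0 < ε) (K : ℕ) (hK : 1 ≤ K) :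
    ∃ L1 : ℕ, ∀ Ls L : ℕ, L1 ≤ Ls → L ^ 3 ≤ K * Ls →
      2 * capE (K * Ls) L ^ 2 ≤ phi (K * Ls) L * (ε * (Ls : ℝ) ^ 2 * kap Ls) := by
  obtain ⟨C, a0, hC⟩ := hS.2 (1 / 4) (by norm_num)
  have k0 := hS.1 (a0 + 1)
  have hK' : (1 : ℝ) ≤ K := by exact_mod_cast hK
  obtain ⟨M, hM0, hM⟩ : ∃ M : ℝ, 0 ≤ M ∧
      32 * (K : ℝ) ^ 4 * (3 * K) ^ 17 * |C| = M * (ε * kap (a0 + 1)) :=
    ⟨32 * (K : ℝ) ^ 4 * (3 * K) ^ 17 * |C| / (ε * kap (a0 + 1)), by positivity, by field_simp⟩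
  refine ⟨a0 + 1 + ⌈(M + 1) ^ 384⌉₊, fun Ls L h1 h2 => ?_⟩
  have k1 := hS.1 Ls
  have hx : (1 : ℝ) ≤ Ls := by exact_mod_cast (show 1 ≤ Ls by omega)
  have ha : (1 : ℝ) ≤ (a0 + 1 : ℕ) := by exact_mod_cast (show 1 ≤ a0 + 1 by omega)
  have ha' : ((a0 + 1 : ℕ) : ℝ) ≤ Ls := by exact_mod_cast (show a0 + 1 ≤ Ls by omega)
  obtain ⟨u, hu0, hu⟩ : ∃ u : ℝ, 0 ≤ u ∧ u ^ 384 = Ls :=
    ⟨(Ls : ℝ) ^ ((384 : ℕ) : ℝ)⁻¹, by positivity, Real.rpow_inv_natCast_pow (by positivity)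
      (by norm_num)⟩
  have hu1 : M + 1 ≤ u := le_of_pow_le_pow_left₀ (n := 384) (by norm_num) hu0 (by
    rw [hu]
    exact (Nat.le_ceil _).trans (by exact_mod_cast (show _ ≤ Ls by omega)))
  have hu2 : 1 ≤ u := by linarith
  have e1 : kap (a0 + 1) ≤ |C| * u ^ 96 * kap Ls := by
    refine (hC (a0 + 1) Ls (by omega) (by omega)).trans (mul_le_mul_of_nonneg_right
      (mul_le_mul (le_abs_self C) ?_ (by positivity) (abs_nonneg C)) k1.le)
    have e : u ^ 96 = (Ls : ℝ) ^ (1 / 4 : ℝ) := by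
      rw [← hu, ← Real.rpow_natCast u 384, ← Real.rpow_mul hu0, ← Real.rpow_natCast]
      norm_num
    rw [e]
    refine Real.rpow_le_rpow (by positivity) (max_le ?_ (div_le_self (by positivity) ha))
      (by norm_num)
    exact ((div_le_one (by positivity)).2 ha').trans hx
  have h3 : (L : ℝ) ^ 3 ≤ K * Ls := by exact_mod_cast h2
  have h4 : (1 : ℝ) ≤ K * Ls := one_le_mul_of_one_le_of_one_le hK' hx
  have hL0 : (0 : ℝ) ≤ L := L.cast_nonneg
  have e2 : (L : ℝ) + 1 ≤ 2 * K * u ^ 128 := by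
    have h5 : (K : ℝ) * Ls ≤ (K * u ^ 128) ^ 3 := by
      rw [mul_pow, ← pow_mul, hu]
      exact mul_le_mul_of_nonneg_right (le_self_pow₀ hK' (by norm_num)) (by positivity)
    have h6 : (L : ℝ) ≤ K * u ^ 128 :=
      le_of_pow_le_pow_left₀ three_ne_zero (by positivity) (h3.trans h5)
    have h7 : (1 : ℝ) ≤ K * u ^ 128 := one_le_mul_of_one_le_of_one_le hK' (one_le_pow₀ hu2)
    linarith
  have hp := phi_pos (K * Ls) L
  have e3 : 1 ≤ 3 * K * u ^ 3 * phi (K * Ls) L := by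
    refine le_of_pow_le_pow_left₀ (n := 128) (by norm_num) (by positivity) ?_
    rw [one_pow, mul_pow, phi_pow, mul_pow, ← pow_mul, hu, ← mul_div_assoc,
      one_le_div (by positivity)]
    have h5 : 3 * (K : ℝ) ≤ (3 * K) ^ 128 := le_self_pow₀ (by linarith) (by norm_num)
    have h6 : 3 * (K : ℝ) * Ls ≤ (3 * K) ^ 128 * Ls * (2 * L + 1) :=
      (mul_le_mul_of_nonneg_right h5 (by positivity)).trans
        (le_mul_of_one_le_right (by positivity) (by linarith))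
    push_cast
    linarith
  rw [capE, div_pow, ← mul_div_assoc, div_le_iff₀ (by positivity), ← hu]
  generalize phi (K * Ls) L = p at hp e3
  refine le_of_mul_le_mul_right ?_ k0
  have e4 : M ≤ u ^ 109 := by linarith [le_self_pow₀ hu2 (show 109 ≠ 0 by norm_num)]
  calc 2 * (((L : ℝ) + 1) ^ 2) ^ 2 * kap (a0 + 1)
      = 2 * ((L : ℝ) + 1) ^ 4 * 1 ^ 17 * kap (a0 + 1) := by ring
    _ ≤ 2 * (2 * K * u ^ 128) ^ 4 * (3 * K * u ^ 3 * p) ^ 17 * (|C| * u ^ 96 * kap Ls) := by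
        gcongr
    _ = 32 * (K : ℝ) ^ 4 * (3 * K) ^ 17 * |C| * (u ^ 659 * p ^ 17 * kap Ls) := by ring
    _ ≤ u ^ 109 * (ε * kap (a0 + 1)) * (u ^ 659 * p ^ 17 * kap Ls) := by
        rw [hM]
        gcongr
    _ = _ := by ring

end Pool.Agent.QL.ND
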