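import Pool.Agent.P.MP_7a6434d8_pr.QL.ND.Phi

/-! Choice of the ring parameters. -/

namespace Pool.Agent.QL.ND

open Pool.Agent.P.MP_7a6434d8_pr Mp Finset
open scoped ENNReal

theorem finb_min {A B x y : ℝ} (hA : 0 ≤ A) (hB : 0 ≤ B) (hx : x ≤ A ^ 2) (hy : y ≤ B ^ 2) :
    min x y ≤ A * B := by
  rcases le_total A B with h | h
  · exact (min_le_left _ _).trans (hx.trans (by nlinarith))
  · exact (min_le_right _ _).trans (hy.trans (by nlinarith))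

theorem finb_rpow {x y : ℝ} (hx : 0 ≤ x) (hy : 0 ≤ y) (h : x ≤ y ^ 178) :
    x ^ (1 / 178 : ℝ) ≤ y := by
  have h1 := Real.rpow_le_rpow hx h (show (0 : ℝ) ≤ 1 / 178 by norm_num)
  have h2 : (y ^ 178) ^ (1 / 178 : ℝ) = y := by
    rw [one_div]
    exact Real.pow_rpow_inv_natCast hy (n := 178) (by norm_num)
  rwa [h2] at h1

theorem finb_H {f M : ℝ} {L0 L : ℕ} (hM : 64 ≤ M) (h : M ≤ L0 * f ^ 2)
    (hL : 2 * ⌊(L0 : ℝ) * f ^ 2⌋₊ ≤ L) : (L0 : ℝ) * f ^ 2 / 16 ≤ ((L / 16 : ℕ) : ℝ) := by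
  have h1 : (L0 : ℝ) * f ^ 2 < ⌊(L0 : ℝ) * f ^ 2⌋₊ + 1 := Nat.lt_floor_add_one _
  have h2 : 2 * ⌊(L0 : ℝ) * f ^ 2⌋₊ ≤ 16 * (L / 16) + 15 := by omega
  have h3 : 2 * (⌊(L0 : ℝ) * f ^ 2⌋₊ : ℝ) ≤ 16 * ((L / 16 : ℕ) : ℝ) + 15 := by exact_mod_cast h2
  linarith

theorem finb_nT {g : ℝ} {L a : ℕ} (ha : 1 ≤ a) (haH : a ≤ L / 16) (hg : 1 ≤ g)
    (h : ((L / 16 : ℕ) : ℝ) ≤ 2 * a * g) : (nT L a : ℝ) ≤ 125 * g := by
  have ha' : (0 : ℝ) < a := by exact_mod_cast ha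
  have h1 : (nT L a : ℝ) ≤ ((2 * L - 2 * (L / 4) : ℕ) : ℝ) / a + 1 := by
    rw [nT, Nat.cast_add, Nat.cast_one]
    exact add_le_add Nat.cast_div_le le_rfl
  have h2 : 2 * L - 2 * (L / 4) ≤ 62 * (L / 16) := by omega
  have h3 : ((2 * L - 2 * (L / 4) : ℕ) : ℝ) ≤ 62 * ((L / 16 : ℕ) : ℝ) := by exact_mod_cast h2
  have h4 : ((2 * L - 2 * (L / 4) : ℕ) : ℝ) / a ≤ 124 * g := by
    rw [div_le_iff₀ ha']
    nlinarith
  linarith

theorem fin_cost (kap : ℕ → ℝ) (hS : SlowVar kap) (C1 : ℝ) (hC1 : 0 < C1) (a0 : ℕ) (ε : ℝ)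
    (hε : 0 < ε) (K : ℕ) (hK : 1 ≤ K) : ∃ v0 : ℝ, 0 < v0 ∧ ∃ L1 : ℕ, ∀ Ls L0 L : ℕ, L1 ≤ Ls →
    K * Ls < L0 ^ 3 → phi (K * Ls) L0 ≤ 1 / 4 → 2 * thB (K * Ls) L0 ≤ L → L ≤ 2 * L0 →
    ∃ (a : ℕ) (T : ℝ), a0 ≤ a ∧ 1 ≤ a ∧ a ≤ L / 16 ∧
      (a : ℝ) * (1 / phi (K * Ls) L0 ^ 4) ^ 12 ≤ ((L / 16 : ℕ) : ℝ) ∧
      ((L / 16 : ℕ) : ℝ) ≤ 2 * a * (1 / phi (K * Ls) L0 ^ 4) ^ 12 ∧ 0 ≤ T ∧
      (∀ a', a ≤ a' → a' ≤ L / 16 → C1 * kap a' ≤ T ^ 2) ∧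
      4 * (nT L a : ℝ) ^ 2 * (2 * T) ^ 2 * min (v0 * (Ls : ℝ) ^ 2) (2 * capE (K * Ls) L0)
        ≤ phi (K * Ls) L0 ^ 4 * (ε * (Ls : ℝ) ^ 2 * kap Ls) := by
  obtain ⟨hpos, hsv⟩ := hS
  obtain ⟨C, a1, hC⟩ := hsv (1 / 178) (by norm_num)
  have hK' : (1 : ℝ) ≤ K := by exact_mod_cast hK
  set C2 : ℝ := max C 1 with hC2
  have hC2p : 1 ≤ C2 := le_max_right _ _
  set δ : ℝ := ε / (60000000 * C1 * C2 * K ^ 2) with hδ
  have hδp : 0 < δ := by positivity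
  obtain ⟨Λ0, hΛ⟩ := phi_big (32 * ((a0 : ℝ) + a1 + 2))
  refine ⟨δ ^ 2, by positivity, max Λ0 (max a1 1), fun Ls L0 L hLs h3 hf4 hth hL => ?_⟩
  have hLs1 : 1 ≤ Ls := (le_max_right _ _).trans ((le_max_right _ _).trans hLs)
  have hLsa : a1 ≤ Ls := (le_max_left _ _).trans ((le_max_right _ _).trans hLs)
  have hLsK : Ls ≤ K * Ls := Nat.le_mul_of_pos_left _ hK
  obtain ⟨hM2, hM50⟩ := hΛ (K * Ls) L0 (((le_max_left _ _).trans hLs).trans hLsK) h3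
  have hL0 : L0 ≤ K * Ls := le_of_phi_le_one (hf4.trans (by norm_num))
  have hpw := phi_pow (K * Ls) L0
  have hf := phi_pos (K * Ls) L0
  rw [thB] at hth
  rw [capE]
  set f := phi (K * Ls) L0 with hfd
  have hf1 : f ≤ 1 := hf4.trans (by norm_num)
  have hLs' : (1 : ℝ) ≤ Ls := by exact_mod_cast hLs1
  have ha0 : (0 : ℝ) ≤ a0 := Nat.cast_nonneg _
  have ha1 : (0 : ℝ) ≤ a1 := Nat.cast_nonneg _
  have hH := finb_H (by linarith) hM2 hth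
  set H : ℕ := L / 16 with hHd
  have hH0 : (0 : ℝ) ≤ H := Nat.cast_nonneg _
  have f48 : 0 < f ^ 48 := by positivity
  have f48' : f ^ 48 ≤ 1 := pow_le_one₀ hf.le hf1
  have hX : (L0 : ℝ) * f ^ 50 / 16 ≤ H * f ^ 48 := by
    calc (L0 : ℝ) * f ^ 50 / 16 = (L0 : ℝ) * f ^ 2 / 16 * f ^ 48 := by ring
      _ ≤ H * f ^ 48 := mul_le_mul_of_nonneg_right hH f48.le
  set a : ℕ := ⌊(H : ℝ) * f ^ 48⌋₊ with had
  have hau : (a : ℝ) ≤ H * f ^ 48 := Nat.floor_le (by positivity)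
  have hal : (H : ℝ) * f ^ 48 < a + 1 := Nat.lt_floor_add_one _
  have hal2 : (H : ℝ) * f ^ 48 ≤ 2 * a := by linarith
  have hab : (a0 : ℝ) + a1 + 2 ≤ a := by linarith
  have hab' : a0 + a1 + 2 ≤ a := by exact_mod_cast hab
  have haH : a ≤ H := by
    have : (a : ℝ) ≤ H := hau.trans (mul_le_of_le_one_right hH0 f48')
    exact_mod_cast this
  have eg : (1 / f ^ 4) ^ 12 = 1 / f ^ 48 := by rw [div_pow, one_pow, ← pow_mul]
  have hg : 1 ≤ 1 / f ^ 48 := by rw [le_div_iff₀ f48]; linarith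
  have hHa : (H : ℝ) ≤ 2 * a * (1 / f ^ 48) := by
    rw [mul_one_div, le_div_iff₀ f48]; exact hal2
  have hKL : ((K * Ls : ℕ) : ℝ) = K * Ls := Nat.cast_mul _ _
  have hKL1 : (1 : ℝ) ≤ K * Ls := one_le_mul_of_one_le_of_one_le hK' hLs'
  have hpw' : 2 * (L0 : ℝ) + 1 = (2 * (K * Ls) + 1) * f ^ 128 := by
    rw [hpw, hKL]; field_simp
  have f128 : 0 < f ^ 128 := by positivity
  have hk := hpos Ls
  have hT2 : 0 ≤ C1 * (C2 * (48 * K / f) * kap Ls) := by positivity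
  rw [eg]
  refine ⟨a, √(C1 * (C2 * (48 * K / f) * kap Ls)), by omega, by omega, haH, ?_, hHa,
    Real.sqrt_nonneg _, fun a' h1 h2 => ?_, ?_⟩
  · rw [mul_one_div, div_le_iff₀ f48]; exact hau
  · rw [Real.sq_sqrt hT2]
    refine mul_le_mul_of_nonneg_left ?_ hC1.le
    have h1' : (a : ℝ) ≤ a' := by exact_mod_cast h1
    have ha' : (0 : ℝ) < a' := by linarith
    have hL0p : (1 : ℝ) ≤ L0 := by
      have : 1 ≤ L0 := by omega
      exact_mod_cast this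
    have f178 : 0 < f ^ 178 := by positivity
    have f178' : f ^ 178 ≤ 1 := pow_le_one₀ hf.le hf1
    have hB : max ((a' : ℝ) / Ls) ((Ls : ℝ) / a') ≤ 48 * K / f ^ 178 := by
      refine max_le ?_ ?_
      · have h4 : a' ≤ K * Ls := by omega
        have h5 : (a' : ℝ) ≤ K * Ls := by exact_mod_cast h4
        have h6 : (a' : ℝ) / Ls ≤ K := by rw [div_le_iff₀ (by linarith)]; exact h5
        refine h6.trans ?_
        rw [le_div_iff₀ f178]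
        nlinarith
      · rw [div_le_div_iff₀ ha' f178]
        have h4 : (Ls : ℝ) * f ^ 128 ≤ K * Ls * f ^ 128 :=
          mul_le_mul_of_nonneg_right (le_mul_of_one_le_left (by linarith) hK') f128.le
        have h5 : 2 * ((Ls : ℝ) * f ^ 128) ≤ 3 * L0 := by nlinarith
        have h6 : (Ls : ℝ) * f ^ 178 ≤ 3 / 2 * (L0 * f ^ 50) := by
          calc (Ls : ℝ) * f ^ 178 = Ls * f ^ 128 * f ^ 50 := by ring
            _ ≤ 3 / 2 * L0 * f ^ 50 := mul_le_mul_of_nonneg_right (by linarith) (by positivity)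
            _ = _ := by ring
        have h7 : (Ls : ℝ) * f ^ 178 ≤ 48 * a' := by linarith
        nlinarith
    have hB2 : 48 * K / f ^ 178 ≤ (48 * K / f) ^ 178 := by
      rw [div_pow]
      exact div_le_div_of_nonneg_right (le_self_pow₀ (by linarith) (by norm_num)) f178.le
    have hm0 : 0 ≤ max ((a' : ℝ) / Ls) ((Ls : ℝ) / a') :=
      le_max_of_le_left (by positivity)
    have hr := finb_rpow hm0 (by positivity) (hB.trans hB2)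
    refine (hC a' Ls (by omega) hLsa).trans (mul_le_mul_of_nonneg_right ?_ hk.le)
    exact mul_le_mul (le_max_left _ _) hr (Real.rpow_nonneg hm0 _) (by linarith)
  · have hn := finb_nT (by omega) haH hg hHa
    have hcap : 2 * (((L0 : ℝ) + 1) ^ 2 / f ^ 8) ≤ (5 * K * Ls * f ^ 124) ^ 2 := by
      have hL00 : (0 : ℝ) ≤ L0 := Nat.cast_nonneg _
      have h4 : (L0 : ℝ) + 1 ≤ 3 * (K * Ls) * f ^ 128 := by nlinarith
      have h5 : ((L0 : ℝ) + 1) ^ 2 ≤ (3 * (K * Ls) * f ^ 128) ^ 2 :=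
        pow_le_pow_left₀ (by positivity) h4 2
      have h6 : ((L0 : ℝ) + 1) ^ 2 / f ^ 8 ≤ 9 * ((K : ℝ) * Ls * f ^ 124) ^ 2 := by
        rw [div_le_iff₀ (by positivity)]
        refine h5.trans (le_of_eq ?_)
        ring
      have h7 : 0 ≤ ((K : ℝ) * Ls * f ^ 124) ^ 2 := sq_nonneg _
      calc 2 * (((L0 : ℝ) + 1) ^ 2 / f ^ 8) ≤ 25 * ((K : ℝ) * Ls * f ^ 124) ^ 2 := by linarith
        _ = _ := by ring
    have hmin : min (δ ^ 2 * (Ls : ℝ) ^ 2) (2 * (((L0 : ℝ) + 1) ^ 2 / f ^ 8))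
        ≤ (δ * Ls) * (5 * K * Ls * f ^ 124) :=
      finb_min (by positivity) (by positivity) (le_of_eq (by ring)) hcap
    have hn2 : (nT L a : ℝ) ^ 2 ≤ (125 * (1 / f ^ 48)) ^ 2 :=
      pow_le_pow_left₀ (Nat.cast_nonneg _) hn 2
    rw [mul_pow, Real.sq_sqrt hT2]
    have f23 : f ^ 23 ≤ 1 := pow_le_one₀ hf.le hf1
    calc 4 * (nT L a : ℝ) ^ 2 * (2 ^ 2 * (C1 * (C2 * (48 * K / f) * kap Ls))) *
          min (δ ^ 2 * (Ls : ℝ) ^ 2) (2 * (((L0 : ℝ) + 1) ^ 2 / f ^ 8))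
        ≤ 4 * (125 * (1 / f ^ 48)) ^ 2 * (2 ^ 2 * (C1 * (C2 * (48 * K / f) * kap Ls))) *
          ((δ * Ls) * (5 * K * Ls * f ^ 124)) := by
          refine mul_le_mul ?_ hmin (le_min (by positivity) (by positivity)) (by positivity)
          exact mul_le_mul_of_nonneg_right (by linarith) (by positivity)
      _ = f ^ 23 * (f ^ 4 * (ε * (Ls : ℝ) ^ 2 * kap Ls)) := by
          rw [hδ]; field_simp; ring
      _ ≤ f ^ 4 * (ε * (Ls : ℝ) ^ 2 * kap Ls) := mul_le_of_le_one_left (by positivity) f23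

end Pool.Agent.QL.ND
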