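import Pool.Agent.P.MP_7a6434d8_pr.QL.ND.Defs2
import Pool.Agent.P.MP_7a6434d8_pr.XGraphA
import Pool.Agent.P.MP_7a6434d8_pr.XGraphB
import Pool.Agent.P.MP_7a6434d8_pr.Chain

/-! Green functions of a disc. -/

namespace Pool.Agent.QL.ND

open Pool.Agent.P.MP_7a6434d8_pr Mp Finset
open scoped ENNReal

/-- twice the mutual energy -/
noncomputable def green_B (t : Mp) (f g : V t → ℝ) : ℝ :=
  ∑ d : Dt t, (f (org t d) - f (org t (al t d))) * (g (org t d) - g (org t (al t d)))

/-- boundary vertices -/
def green_Bd (t : Mp) (x : V t) : Prop := ∃ p, p ≤ 2 * per t ∧ bv t p = x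

theorem green_B_comm (t : Mp) (f g : V t → ℝ) : green_B t f g = green_B t g f :=
  sum_congr rfl fun _ _ => mul_comm _ _

theorem green_sum_al (t : Mp) (g : Dt t → ℝ) : ∑ d, g (al t d) = ∑ d, g d :=
  Equiv.sum_comp (Function.Involutive.toPerm (al t) (al_al t)) g

/-- Green identity -/
theorem green_id (t : Mp) (f g : V t → ℝ) : 2 * ∑ x, g x * lapV t f x = green_B t f g := by
  classical
  have h1 : ∑ x, g x * lapV t f x =
      ∑ d : Dt t, g (org t d) * (f (org t d) - f (org t (al t d))) := by
    simp only [lapV, mul_sum]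
    rw [sum_comm]
    refine sum_congr rfl fun d _ => ?_
    rw [sum_eq_single (org t d)]
    · rw [if_pos rfl]
    · intro x _ hx
      rw [if_neg (Ne.symm hx), mul_zero]
    · intro h
      exact absurd (mem_univ _) h
  have h2 := green_sum_al t (fun d => g (org t d) * (f (org t d) - f (org t (al t d))))
  simp only [al_al] at h2
  rw [h1, two_mul]
  nth_rewrite 1 [← h2]
  rw [← sum_add_distrib, green_B]
  exact sum_congr rfl fun d _ => by ring

/-- a set closed under adjacency is everything -/
theorem green_all {t : Mp} (ht : ok t) {C : V t → Prop} (hC : ∀ x y, adj t x y → C x → C y)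
    {x : V t} (hx : C x) (y : V t) : C y := by
  obtain ⟨k, hk⟩ := within_exists t ht x y
  induction k generalizing y with
  | zero => exact (show x = y from hk) ▸ hx
  | succ k ih =>
    rcases hk with hk | ⟨z, hz, ha⟩
    · exact ih y hk
    · exact hC z y ha (ih z hz)

theorem green_zero {t : Mp} (ht : ok t) {g : V t → ℝ} (h0 : ∀ x, green_Bd t x → g x = 0)
    (h : green_B t g g ≤ 0) (x : V t) : g x = 0 := by
  have h1 : ∀ d ∈ (univ : Finset (Dt t)), 0 ≤ (g (org t d) - g (org t (al t d))) *
      (g (org t d) - g (org t (al t d))) := fun d _ => mul_self_nonneg _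
  have h2 := (sum_eq_zero_iff_of_nonneg h1).1 (le_antisymm h (sum_nonneg h1))
  refine green_all ht (C := fun y => g y = 0) (fun a b hab ha => ?_)
    (h0 (bv t 0) ⟨0, Nat.zero_le _, rfl⟩) x
  obtain ⟨d, rfl, rfl⟩ := (adj_iff_dart t a b).1 hab
  have h3 := mul_self_eq_zero.1 (h2 d (mem_univ _))
  linarith

theorem green_lap_add (t : Mp) (f g : V t → ℝ) (x : V t) :
    lapV t (f + g) x = lapV t f x + lapV t g x := by
  simp only [lapV, ← sum_add_distrib, Pi.add_apply]
  refine sum_congr rfl fun d _ => ?_
  split_ifs <;> ring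

theorem green_lap_smul (t : Mp) (c : ℝ) (f : V t → ℝ) (x : V t) :
    lapV t (c • f) x = c * lapV t f x := by
  simp only [lapV, mul_sum, Pi.smul_apply, smul_eq_mul]
  refine sum_congr rfl fun d _ => ?_
  split_ifs <;> ring

open Classical in
/-- the Dirichlet problem as a linear map -/
noncomputable def green_A (t : Mp) : (V t → ℝ) →ₗ[ℝ] (V t → ℝ) where
  toFun f x := if green_Bd t x then f x else lapV t f x
  map_add' f g := by
    funext x
    simp only [Pi.add_apply, green_lap_add]
    split_ifs <;> rfl
  map_smul' c f := by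
    funext x
    simp only [Pi.smul_apply, green_lap_smul, smul_eq_mul, RingHom.id_apply]
    split_ifs <;> rfl

/-- solution of the Dirichlet problem -/
theorem green_solve {t : Mp} (ht : ok t) (h : V t → ℝ) : ∃ f : V t → ℝ,
    (∀ x, green_Bd t x → f x = 0) ∧ ∀ x, ¬ green_Bd t x → lapV t f x = h x := by
  classical
  have hinj : Function.Injective (green_A t) := by
    refine (injective_iff_map_eq_zero _).2 fun f hf => ?_
    have h1 : ∀ x, green_Bd t x → f x = 0 := fun x hx => by
      have := congrFun hf x
      simpa only [green_A, LinearMap.coe_mk, AddHom.coe_mk, if_pos hx, Pi.zero_apply] using this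
    have h2 : ∀ x, ¬ green_Bd t x → lapV t f x = 0 := fun x hx => by
      have := congrFun hf x
      simpa only [green_A, LinearMap.coe_mk, AddHom.coe_mk, if_neg hx, Pi.zero_apply] using this
    funext x
    refine green_zero ht h1 ?_ x
    rw [← green_id, sum_eq_zero, mul_zero]
    intro y _
    by_cases hy : green_Bd t y
    · rw [h1 y hy, zero_mul]
    · rw [h2 y hy, mul_zero]
  obtain ⟨f, hf⟩ := LinearMap.injective_iff_surjective.1 hinj
    (fun x => if green_Bd t x then 0 else h x)
  refine ⟨f, fun x hx => ?_, fun x hx => ?_⟩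
  · have := congrFun hf x
    simpa only [green_A, LinearMap.coe_mk, AddHom.coe_mk, if_pos hx] using this
  · have := congrFun hf x
    simpa only [green_A, LinearMap.coe_mk, AddHom.coe_mk, if_neg hx] using this

theorem green_clamp (s s' a b : ℝ) :
    (max s (min a s') - max s (min b s')) * (max s (min a s') - max s (min b s')) ≤
      (a - b) * (max s (min a s') - max s (min b s')) := by
  have key : ∀ a b : ℝ, b ≤ a → 0 ≤ max s (min a s') - max s (min b s') ∧
      max s (min a s') - max s (min b s') ≤ a - b := by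
    intro a b hab
    refine ⟨sub_nonneg.2 (max_le_max le_rfl (min_le_min hab le_rfl)), ?_⟩
    simp only [max_def, min_def]
    split_ifs <;> linarith
  rcases le_total b a with hab | hab
  · obtain ⟨h1, h2⟩ := key a b hab
    exact mul_le_mul_of_nonneg_right h2 h1
  · obtain ⟨h1, h2⟩ := key b a hab
    nlinarith

/-- minimum principle -/
theorem green_min {t : Mp} (ht : ok t) {f : V t → ℝ} (h0 : ∀ x, green_Bd t x → f x = 0)
    (h : ∀ x, ¬ green_Bd t x → 0 ≤ lapV t f x) (x : V t) : 0 ≤ f x := by
  have h1 : ∀ y, green_Bd t y → min (f y) 0 = 0 := fun y hy => by rw [h0 y hy, min_self]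
  have h2 : green_B t (fun y => min (f y) 0) (fun y => min (f y) 0) ≤
      green_B t f (fun y => min (f y) 0) := by
    refine sum_le_sum fun d _ => ?_
    beta_reduce
    generalize f (org t d) = a
    generalize f (org t (al t d)) = b
    simp only [min_def]
    split_ifs <;> nlinarith
  have h3 : green_B t f (fun y => min (f y) 0) ≤ 0 := by
    rw [← green_id]
    refine mul_nonpos_of_nonneg_of_nonpos zero_le_two (sum_nonpos fun y _ => ?_)
    by_cases hy : green_Bd t y
    · rw [h1 y hy, zero_mul]
    · exact mul_nonpos_of_nonpos_of_nonneg (min_le_right _ _) (h y hy)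
  have h4 := green_zero ht h1 (h2.trans h3) x
  exact min_eq_right_iff.1 h4

/-- the Green function with an inner pole -/
theorem green_fun {t : Mp} (ht : ok t) {v : V t} (hv : ¬ green_Bd t v) : ∃ G : V t → ℝ,
    (∀ x, green_Bd t x → G x = 0) ∧ (∀ x, 0 ≤ G x) ∧
      ∀ g : V t → ℝ, (∀ x, green_Bd t x → g x = 0) → green_B t G g = 2 * g v := by
  classical
  obtain ⟨G, h1, h2⟩ := green_solve ht (fun x => if x = v then 1 else 0)
  refine ⟨G, h1, green_min ht h1 fun x hx => ?_, fun g hg => ?_⟩
  · rw [h2 x hx]
    split_ifs <;> norm_num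
  · rw [← green_id, sum_eq_single v]
    · rw [h2 v hv, if_pos rfl, mul_one]
    · intro y _ hy
      by_cases hb : green_Bd t y
      · rw [hg y hb, zero_mul]
      · rw [h2 y hb, if_neg hy, mul_zero]
    · intro h
      exact absurd (mem_univ _) h

theorem green_gin {t : Mp} (ht : ok t) {v : V t} {G : V t → ℝ}
    (h1 : ∀ x, green_Bd t x → G x = 0)
    (h2 : ∀ g : V t → ℝ, (∀ x, green_Bd t x → g x = 0) → green_B t G g = 2 * g v) :
    GIn t 0 0 v G 0 := by
  classical
  refine ⟨fun s s' hs hss => ?_, fun p hp _ => (h1 _ ⟨p, hp, rfl⟩).le, le_rfl,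
    fun p hp => (h1 _ ⟨p, hp, rfl⟩).le, fun z hz => ?_, fun h => absurd h (lt_irrefl _)⟩
  · have h3 := h2 (fun z => max s (min (G z) s') - s) fun x hx => by
      rw [h1 x hx, min_eq_left (hs.trans hss), max_eq_left hs, sub_self]
    have h4 := two_energy t (fun z => max s (min (G z) s'))
    have h5 : ∑ d : Dt t, (max s (min (G (org t d)) s') - max s (min (G (org t (al t d))) s')) ^ 2
        ≤ green_B t G (fun z => max s (min (G z) s') - s) := by
      refine sum_le_sum fun d _ => ?_
      rw [sq, sub_sub_sub_cancel_right]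
      exact green_clamp _ _ _ _
    have h6 : max s (min (G v) s') ≤ s' := max_le hss (min_le_right _ _)
    linarith
  · by_contra hn
    set C : V t → Prop := fun y => Conn t (fun y => G z ≤ G y) z y with hC
    have h3 := h2 (fun y => if C y then 1 else 0) fun x hx => if_neg fun hc => by
      have h4 : G z ≤ G x := chain_conn_right hc
      rw [h1 x hx] at h4
      exact absurd hz (not_lt.2 h4)
    have hv : ¬ C v := hn
    have h4 : ∀ x y, adj t x y → C x → ¬ C y → G y < G x := fun x y hxy hx hy => by
      have h5 : G z ≤ G x := chain_conn_right hx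
      have h6 : ¬ G z ≤ G y := fun h => hy (chain_conn_tail hx hxy h)
      linarith [not_le.1 h6]
    have h5 : ∀ d ∈ (univ : Finset (Dt t)), 0 ≤ (G (org t d) - G (org t (al t d))) *
        ((if C (org t d) then (1 : ℝ) else 0) - if C (org t (al t d)) then 1 else 0) := by
      intro d _
      have ha : adj t (org t d) (org t (al t d)) := (adj_iff_dart t _ _).2 ⟨d, rfl, rfl⟩
      split_ifs with a b b
      · simp
      · have := h4 _ _ ha a b
        nlinarith
      · have := h4 _ _ (adj_symm t _ _ ha) b a
        nlinarith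
      · simp
    rw [if_neg hv, mul_zero] at h3
    have h6 := (sum_eq_zero_iff_of_nonneg h5).1 h3
    refine hv (green_all ht (C := C) (fun a b hab ha => ?_) (chain_conn_refl le_rfl) v)
    by_contra hb
    have h7 := h4 a b hab ha hb
    obtain ⟨d, rfl, rfl⟩ := (adj_iff_dart t a b).1 hab
    have h8 := h6 d (mem_univ _)
    rw [if_pos ha, if_neg hb] at h8
    linarith

theorem good_of_trap {t : Mp} (ht : ok t) (v : V t) {V0 c : ℝ} (hc : 0 ≤ c)
    (h : trap V0 t v ≤ ENNReal.ofReal c) : GoodV t v V0 c := by
  classical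
  intro S hS hV
  have hS' : ∀ x ∈ S, ¬ green_Bd t x := fun x hx ⟨p, hp, he⟩ => hS p hp (he ▸ hx)
  obtain ⟨w, h1, h2⟩ := green_solve ht (fun x => if x ∈ S then dg t x else 0)
  refine ⟨w, green_min ht h1 fun x hx => ?_, fun x hx => ?_, ?_⟩
  · rw [h2 x hx]
    split_ifs
    · exact energy_nonneg _ _
    · exact le_rfl
  · rw [h2 x (hS' x hx), if_pos hx]
  · by_cases hv : green_Bd t v
    · rw [h1 v hv]
      exact hc
    obtain ⟨G, g1, g2, g3⟩ := green_fun ht hv
    have h3 : w v = ∑ z ∈ S, dg t z * max (G z) 0 := by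
      have h4 := g3 w h1
      rw [green_B_comm, ← green_id] at h4
      have h5 : ∑ x, G x * lapV t w x = ∑ z ∈ S, dg t z * max (G z) 0 := by
        rw [← sum_subset (subset_univ S)]
        · refine sum_congr rfl fun x hx => ?_
          rw [h2 x (hS' x hx), if_pos hx, max_eq_left (g2 x), mul_comm]
        · intro x _ hx
          by_cases hb : green_Bd t x
          · rw [g1 x hb, zero_mul]
          · rw [h2 x hb, if_neg hx, mul_zero]
      linarith
    have h4 : ENNReal.ofReal (∑ z ∈ S, dg t z * max (G z) 0) ≤ trap V0 t v :=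
      le_iSup₂_of_le G (green_gin ht g1 g3) (le_iSup₂_of_le S hV le_rfl)
    rw [h3]
    exact (ENNReal.ofReal_le_ofReal_iff hc).1 (h4.trans h)

end Pool.Agent.QL.ND
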