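import Pool.Agent.P.MP_7a6434d8_pr.QL.ND.CutL
import Pool.Agent.P.MP_7a6434d8_pr.QL.ND.PeelI
import Pool.Agent.P.MP_7a6434d8_pr.NumA

/-! Pointed probability that the ring fails. -/

namespace Pool.Agent.QL.ND

open Pool.Agent.P.MP_7a6434d8_pr Mp Finset
open scoped ENNReal

open Classical in
theorem ringp_point {t : Mp} (ht : ok t) (a m : ℕ) (T : ℝ) (hH : 1 ≤ per t / 16) :
    ((univ.filter (fun v : V t => ¬ RingV t a T v)).card : ℝ≥0∞)
      ≤ (if m < size t then (Fintype.card (V t) : ℝ≥0∞) else 0)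
        + ((m + per t + 1 + (per t / 16) ^ 2 : ℕ) : ℝ≥0∞) * ∑ i ∈ range (nT (per t) a),
          theta (ENNReal.ofReal (1 / ((per t / 16 : ℕ) : ℝ) ^ 2)) (per t / 4 + i * a) a
            (per t / 16) T t := by
  have hc : ((univ.filter (fun v : V t => ¬ RingV t a T v)).card : ℝ≥0∞)
      ≤ (Fintype.card (V t) : ℝ≥0∞) := by
    exact_mod_cast card_le_univ _
  by_cases hm : m < size t
  · rw [if_pos hm]
    exact hc.trans le_self_add
  rw [if_neg hm, zero_add]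
  set H := per t / 16 with hHd
  set θ : ℕ → ℝ≥0∞ := fun i =>
    theta (ENNReal.ofReal (1 / (H : ℝ) ^ 2)) (per t / 4 + i * a) a H T t with hθ
  by_cases hall : ∀ i ∈ range (nT (per t) a), θ i < 1
  · choose! K hK hK' using fun i hi => theta_attain (hall i hi)
    have h1 : univ.filter (fun v : V t => ¬ RingV t a T v) ⊆
        (range (nT (per t) a)).biUnion fun i => univ.filter (fun z => ¬ K i z) := by
      intro v hv
      have hv' := (mem_filter.1 hv).2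
      by_contra hn
      refine hv' fun i hi => ⟨K i, hK i (mem_range.2 hi), ?_⟩
      by_contra hk
      exact hn (mem_biUnion.2 ⟨i, mem_range.2 hi, mem_filter.2 ⟨mem_univ _, hk⟩⟩)
    have h2 : (univ.filter (fun v : V t => ¬ RingV t a T v)).card
        ≤ ∑ i ∈ range (nT (per t) a), miss t (K i) := (card_le_card h1).trans card_biUnion_le
    have hHp : (0 : ℝ) < (H : ℝ) ^ 2 := by positivity
    have h3 : ((H ^ 2 : ℕ) : ℝ≥0∞) * ENNReal.ofReal (1 / (H : ℝ) ^ 2) = 1 := by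
      rw [← ENNReal.ofReal_natCast, ← ENNReal.ofReal_mul (Nat.cast_nonneg _), Nat.cast_pow,
        mul_one_div_cancel hHp.ne', ENNReal.ofReal_one]
    calc ((univ.filter (fun v : V t => ¬ RingV t a T v)).card : ℝ≥0∞)
        ≤ ∑ i ∈ range (nT (per t) a), (miss t (K i) : ℝ≥0∞) := by exact_mod_cast h2
      _ ≤ ∑ i ∈ range (nT (per t) a), ((H ^ 2 : ℕ) : ℝ≥0∞) * θ i := by
          refine sum_le_sum fun i hi => ?_
          calc (miss t (K i) : ℝ≥0∞) = ((H ^ 2 : ℕ) : ℝ≥0∞) *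
                (ENNReal.ofReal (1 / (H : ℝ) ^ 2) * (miss t (K i) : ℝ≥0∞)) := by
                rw [← mul_assoc, h3, one_mul]
            _ ≤ _ := mul_le_mul_right (hK' i hi) _
      _ ≤ _ := by
          rw [← mul_sum]
          exact mul_le_mul_left (by exact_mod_cast Nat.le_add_left _ _) _
  · push Not at hall
    obtain ⟨i, hi, h1⟩ := hall
    have h2 : Fintype.card (V t) ≤ m + per t + 1 + H ^ 2 := by
      rw [card_V t ht]
      omega
    calc ((univ.filter (fun v : V t => ¬ RingV t a T v)).card : ℝ≥0∞)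
        ≤ ((m + per t + 1 + H ^ 2 : ℕ) : ℝ≥0∞) * 1 := by
          rw [mul_one]
          exact hc.trans (by exact_mod_cast h2)
      _ ≤ _ := mul_le_mul_right
          (h1.trans (single_le_sum (f := θ) (fun _ _ => zero_le) hi)) _

theorem ringp_tiles {L a : ℕ} {y : ℝ} (hy : 1 ≤ y) (ha : 1 ≤ a)
    (h : (a : ℝ) * y ^ 12 ≤ ((L / 16 : ℕ) : ℝ)) :
    (nT L a : ℝ) * ((a : ℝ) / (L / 16 : ℕ)) ^ (5 / 4 : ℝ) ≤ 65 / y ^ 3 := by
  have ha' : (1 : ℝ) ≤ a := by exact_mod_cast ha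
  have hy12 : (1 : ℝ) ≤ y ^ 12 := one_le_pow₀ hy
  have haH : (a : ℝ) ≤ ((L / 16 : ℕ) : ℝ) := by nlinarith
  have haH' : a ≤ L / 16 := by exact_mod_cast haH
  set H := L / 16 with hH
  have hHp : (0 : ℝ) < H := by linarith
  have h1 : nT L a * a ≤ 65 * H := by
    have := Nat.div_mul_le_self (2 * L - 2 * (L / 4)) a
    rw [nT, add_mul, one_mul]
    omega
  have h2 : (nT L a : ℝ) * ((a : ℝ) / H) ≤ 65 := by
    rw [← mul_div_assoc, div_le_iff₀ hHp]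
    exact_mod_cast h1
  have hq : (0 : ℝ) < (a : ℝ) / H := by positivity
  have h3 : ((a : ℝ) / H) ^ (1 / 4 : ℝ) ≤ 1 / y ^ 3 := by
    have h4 : (a : ℝ) / H ≤ (1 / y ^ 3) ^ 4 := by
      rw [div_pow, one_pow, ← pow_mul, div_le_div_iff₀ hHp (by positivity), one_mul]
      exact h
    calc ((a : ℝ) / H) ^ (1 / 4 : ℝ) ≤ ((1 / y ^ 3) ^ 4) ^ (1 / 4 : ℝ) :=
          Real.rpow_le_rpow hq.le h4 (by norm_num)
      _ = 1 / y ^ 3 := by
          rw [one_div (4 : ℝ)]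
          exact Real.pow_rpow_inv_natCast (by positivity) (by norm_num)
  have h5 : ((a : ℝ) / H) ^ (5 / 4 : ℝ) = (a : ℝ) / H * ((a : ℝ) / H) ^ (1 / 4 : ℝ) := by
    rw [show (5 / 4 : ℝ) = 1 + 1 / 4 by norm_num, Real.rpow_add hq, Real.rpow_one]
  rw [h5, ← mul_assoc, div_eq_mul_one_div 65]
  exact mul_le_mul h2 h3 (by positivity) (by norm_num)

open Classical in
theorem ring_prob (C0 : ℝ) (hC0 : 0 < C0) (hV : TailV) : ∃ C : ℝ, 0 < C ∧
    ∀ (kap : ℕ → ℝ) (C1 : ℝ) (a0 : ℕ), ChordBd kap C0 C1 a0 →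
    ∀ (L a : ℕ) (y T : ℝ), 1 ≤ y → a0 ≤ a → 1 ≤ a → (a : ℝ) * y ^ 12 ≤ ((L / 16 : ℕ) : ℝ) →
    ((L / 16 : ℕ) : ℝ) ≤ 2 * a * y ^ 12 → 0 ≤ T →
    (∀ a', a ≤ a' → a' ≤ L / 16 → C1 * kap a' ≤ T ^ 2) →
    IE L (fun t => ((univ.filter (fun v : V t => ¬ RingV t a (2 * T) v)).card : ℝ≥0∞))
      ≤ ENNReal.ofReal (C / y * Pz L) := by
  obtain ⟨Ct, hCt, hT⟩ := hV
  refine ⟨4 * Ct + 390 * C0, by positivity, ?_⟩
  intro kap C1 a0 hch L a y T hy ha0 ha h1 _ hT0 hk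
  have ha' : (1 : ℝ) ≤ a := by exact_mod_cast ha
  have hy12 : (1 : ℝ) ≤ y ^ 12 := one_le_pow₀ hy
  have haH : a ≤ L / 16 := by
    have : (a : ℝ) ≤ ((L / 16 : ℕ) : ℝ) := by nlinarith
    exact_mod_cast this
  have hL : 16 ≤ L := by omega
  have hL' : (16 : ℝ) ≤ L := by exact_mod_cast hL
  have hZ := Z_pos L
  have hy0 : 0 < y := by linarith
  set m := ⌈((L : ℝ) * y) ^ 2⌉₊ with hm
  have hLy : (1 : ℝ) ≤ L * y := by nlinarith
  have hm1 : ((L : ℝ) * y) ^ 2 ≤ m := Nat.le_ceil _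
  have hm2 : (m : ℝ) < ((L : ℝ) * y) ^ 2 + 1 := Nat.ceil_lt_add_one (by positivity)
  have hm3 : 1 ≤ m := by
    have : (1 : ℝ) ≤ m := (one_le_pow₀ hLy).trans hm1
    exact_mod_cast this
  have hm4 : (L : ℝ) * y ≤ √(m : ℝ) := Real.le_sqrt_of_sq_le hm1
  have hP : ((L : ℝ) + 1) ^ 2 * Z L ≤ 2 * Pz L := by
    rw [Pz, Av]
    nlinarith
  have hθ : ∀ i ∈ range (nT L a),
      IE L (theta (ENNReal.ofReal (1 / ((L / 16 : ℕ) : ℝ) ^ 2)) (L / 4 + i * a) a (L / 16) (2 * T))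
        ≤ ENNReal.ofReal (C0 * ((a : ℝ) / (L / 16 : ℕ)) ^ (5 / 4 : ℝ) * Z L) := by
    intro i hi
    have h2 : i * a ≤ 2 * L - 2 * (L / 4) :=
      (Nat.mul_le_mul_right a (Nat.lt_succ_iff.1 (mem_range.1 hi))).trans
        (Nat.div_mul_le_self _ _)
    exact hch (L / 16) a a (L / 4 + i * a) L T ha0 (by omega) le_rfl (by omega) (by omega) hT0 hk
  have hA : Ct * ((L : ℝ) + 1) ^ 3 / √(m : ℝ) * Z L ≤ 4 * Ct / y * Pz L := by
    have h2 : Ct * ((L : ℝ) + 1) ^ 3 / √(m : ℝ) ≤ 2 * Ct / y * ((L : ℝ) + 1) ^ 2 := by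
      calc Ct * ((L : ℝ) + 1) ^ 3 / √(m : ℝ) ≤ Ct * ((L : ℝ) + 1) ^ 3 / (L * y) :=
            div_le_div_of_nonneg_left (by positivity) (by positivity) hm4
        _ = ((L : ℝ) + 1) / L * (Ct / y * ((L : ℝ) + 1) ^ 2) := by field_simp
        _ ≤ 2 * (Ct / y * ((L : ℝ) + 1) ^ 2) := by
            refine mul_le_mul_of_nonneg_right ?_ (by positivity)
            rw [div_le_iff₀ (by positivity)]
            linarith
        _ = _ := by ring
    calc Ct * ((L : ℝ) + 1) ^ 3 / √(m : ℝ) * Z L ≤ 2 * Ct / y * ((L : ℝ) + 1) ^ 2 * Z L :=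
          mul_le_mul_of_nonneg_right h2 hZ.le
      _ = 2 * Ct / y * (((L : ℝ) + 1) ^ 2 * Z L) := by ring
      _ ≤ 2 * Ct / y * (2 * Pz L) := mul_le_mul_of_nonneg_left hP (by positivity)
      _ = _ := by ring
  have hB : ((m + L + 1 + (L / 16) ^ 2 : ℕ) : ℝ) *
      ((nT L a : ℝ) * (C0 * ((a : ℝ) / (L / 16 : ℕ)) ^ (5 / 4 : ℝ) * Z L))
        ≤ 390 * C0 / y * Pz L := by
    have h2 : ((m + L + 1 + (L / 16) ^ 2 : ℕ) : ℝ) ≤ 3 * (((L : ℝ) + 1) ^ 2 * y ^ 2) := by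
      have h3 : ((L / 16 : ℕ) : ℝ) ≤ L := by exact_mod_cast Nat.div_le_self _ _
      have h4 : ((L / 16 : ℕ) : ℝ) ^ 2 ≤ (L : ℝ) ^ 2 := pow_le_pow_left₀ (by positivity) h3 2
      have h5 : (1 : ℝ) ≤ y ^ 2 := one_le_pow₀ hy
      have h6 : ((L : ℝ) + 1) ^ 2 ≤ ((L : ℝ) + 1) ^ 2 * y ^ 2 :=
        le_mul_of_one_le_right (by positivity) h5
      have h7 : ((L : ℝ) * y) ^ 2 ≤ ((L : ℝ) + 1) ^ 2 * y ^ 2 := by
        rw [mul_pow]
        exact mul_le_mul_of_nonneg_right (by nlinarith) (by positivity)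
      push_cast
      nlinarith
    have h3 := ringp_tiles hy ha h1
    calc ((m + L + 1 + (L / 16) ^ 2 : ℕ) : ℝ) *
          ((nT L a : ℝ) * (C0 * ((a : ℝ) / (L / 16 : ℕ)) ^ (5 / 4 : ℝ) * Z L))
        = ((m + L + 1 + (L / 16) ^ 2 : ℕ) : ℝ) *
          (((nT L a : ℝ) * ((a : ℝ) / (L / 16 : ℕ)) ^ (5 / 4 : ℝ)) * (C0 * Z L)) := by ring
      _ ≤ 3 * (((L : ℝ) + 1) ^ 2 * y ^ 2) * (65 / y ^ 3 * (C0 * Z L)) :=
          mul_le_mul h2 (mul_le_mul_of_nonneg_right h3 (by positivity)) (by positivity)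
            (by positivity)
      _ = 195 * C0 / y * (((L : ℝ) + 1) ^ 2 * Z L) := by field_simp; ring
      _ ≤ 195 * C0 / y * (2 * Pz L) := mul_le_mul_of_nonneg_left hP (by positivity)
      _ = _ := by ring
  have hPz : 0 ≤ Pz L := by nlinarith [sq_nonneg ((L : ℝ) + 1)]
  calc IE L (fun t => ((univ.filter (fun v : V t => ¬ RingV t a (2 * T) v)).card : ℝ≥0∞))
      ≤ IE L (fun t => (if m < size t then (Fintype.card (V t) : ℝ≥0∞) else 0)
        + ((m + L + 1 + (L / 16) ^ 2 : ℕ) : ℝ≥0∞) * ∑ i ∈ range (nT L a),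
          theta (ENNReal.ofReal (1 / ((L / 16 : ℕ) : ℝ) ^ 2)) (L / 4 + i * a) a (L / 16)
            (2 * T) t) := by
        refine IE_mono fun t ht hp => ?_
        subst hp
        exact ringp_point ht a m (2 * T) (by omega)
    _ ≤ ENNReal.ofReal (Ct * ((L : ℝ) + 1) ^ 3 / √(m : ℝ) * Z L)
        + ((m + L + 1 + (L / 16) ^ 2 : ℕ) : ℝ≥0∞) * ∑ _i ∈ range (nT L a),
          ENNReal.ofReal (C0 * ((a : ℝ) / (L / 16 : ℕ)) ^ (5 / 4 : ℝ) * Z L) := by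
        rw [IE_add, IE_const_mul, IE_sum]
        exact add_le_add (hT L m hm3) (mul_le_mul_right (sum_le_sum hθ) _)
    _ ≤ ENNReal.ofReal (4 * Ct / y * Pz L) + ENNReal.ofReal (390 * C0 / y * Pz L) := by
        refine add_le_add (ENNReal.ofReal_le_ofReal hA) ?_
        rw [sum_const, card_range, nsmul_eq_mul, ← ENNReal.ofReal_natCast,
          ← ENNReal.ofReal_natCast (nT L a), ← ENNReal.ofReal_mul (Nat.cast_nonneg _),
          ← ENNReal.ofReal_mul (Nat.cast_nonneg _)]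
        exact ENNReal.ofReal_le_ofReal hB
    _ = _ := by
        rw [← ENNReal.ofReal_add (by positivity) (by positivity)]
        congr 1
        ring

end Pool.Agent.QL.ND
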