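import Pool.Agent.P.MP_7a6434d8_pr.QL.ND.Nest
import Pool.Agent.P.MP_7a6434d8_pr.QL.ND.ChordB
import Pool.Agent.P.MP_7a6434d8_pr.QL.ND.RingP
import Pool.Agent.P.MP_7a6434d8_pr.QL.ND.Green
import Pool.Agent.P.MP_7a6434d8_pr.QL.ND.FinA
import Pool.Agent.P.MP_7a6434d8_pr.QL.ND.FinB

/-! Block ND: no traps. -/

namespace Pool.Agent.QL.ND

open Pool.Agent.P.MP_7a6434d8_pr Mp Finset
open scoped ENNReal

open Classical in
theorem final_card {t : Mp} (ht : ok t) (V0 : ℝ) {c : ℝ} (hc : 0 < c) :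
    ((univ.filter (fun v : V t => ¬ GoodV t v V0 c)).card : ℝ≥0∞) ≤ FS V0 c t := by
  rw [card_filter, Nat.cast_sum]
  refine sum_le_sum fun v _ => ?_
  split_ifs with h
  · rw [Nat.cast_zero]
    exact zero_le
  · rw [Nat.cast_one]
    refine le_min le_rfl ?_
    rw [ENNReal.le_div_iff_mul_le (.inl (ENNReal.ofReal_pos.2 hc).ne')
      (.inl ENNReal.ofReal_ne_top), one_mul]
    exact le_of_not_ge fun h1 => h (good_of_trap ht v hc.le h1)

theorem nd (kap : ℕ → ℝ) (hS : SlowVar kap) (hE : E2u) (hC : CntBd) (hV : TailV)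
    (hN : N1fix kap) : NDdisc kap := by
  intro ε hε η hη
  obtain ⟨A, hA, H⟩ := nest
  obtain ⟨C0, C1, a0, hC0, hC1, hB⟩ := chord_bd kap hE hC hN
  obtain ⟨Cr, hCr, hR⟩ := ring_prob C0 hC0 hV
  obtain ⟨Dv, hDv, hD⟩ := fin_vol hV
  obtain ⟨K, hK, hφ⟩ := phi_small (η / (4 * A * (1 + Dv + Cr))) (by positivity)
  obtain ⟨v0, hv0, L1, h1⟩ := fin_cost kap hS C1 hC1 a0 ε hε K hK
  obtain ⟨L2, h2⟩ := fin_base kap hS ε hε K hK
  obtain ⟨L3, h3⟩ := phi_big 2
  refine ⟨v0, hv0, L1 + L2 + L3 + 1, fun L hL => ?_⟩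
  have hL0 : (1 : ℝ) ≤ L := by exact_mod_cast (by omega : 1 ≤ L)
  have hc : 0 < ε * (L : ℝ) ^ 2 * kap L := by
    have := hS.1 L
    positivity
  have hp := phi_pos (K * L)
  refine (IE_mono fun t ht _ => final_card ht _ hc).trans
    ((H (K * L) _ _ (1 + Dv + Cr) (by linarith) (fun L' hL' => ?_) (fun t v ht a b => ?_)
      (fun L0 h => (h3 _ L0 (le_trans (by omega) (Nat.le_mul_of_pos_left L hK)) h).1)
      (fun L0 L' x b N b1 b2 b3 b4 b5 b6 => ?_) L).trans (ENNReal.ofReal_le_ofReal ?_))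
  · have := hp L'
    have := Pz_pos L'
    refine (hD _ L' hL').trans (ENNReal.ofReal_le_ofReal ?_)
    gcongr
    linarith
  · have h4 := hp (per t)
    refine ENNReal.div_le_of_le_mul ((trap_crude _ ht v).trans ?_)
    rw [← ENNReal.ofReal_mul (by positivity)]
    refine ENNReal.ofReal_le_ofReal (le_trans ?_ ((h2 L _ (by omega) a).trans ?_))
    · gcongr
    · exact mul_le_mul_of_nonneg_right (le_mul_of_one_le_left h4.le (by linarith)) hc.le
  · obtain ⟨a, T, c1, c2, c3, c4, c5, c6, c7, c8⟩ := h1 L L0 L' (by omega) b1 b2 b3 b4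
    have h4 := hp L0
    have h5 := Pz_pos L'
    have h6 : 1 ≤ 1 / phi (K * L) L0 ^ 4 :=
      one_le_one_div (by positivity) (pow_le_one₀ h4.le (by linarith))
    refine (ring_step _ _ (2 * T) _ _ _ L0 L' x b a N hc (by positivity) (by positivity)
      (by positivity) (by positivity) c2 c3 b5 b6
      (hR kap C1 a0 hB L' a _ T h6 c1 c2 c4 c5 c6 c7) c8).trans
      (add_le_add_left (ENNReal.ofReal_le_ofReal (mul_le_mul_of_nonneg_right ?_ h5.le)) _)
    rw [div_div_eq_mul_div, div_one]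
    nlinarith [mul_pos hDv (pow_pos h4 4)]
  · have h4 := hφ L (by omega)
    have h5 := Z_pos L
    have h6 : Pz L ≤ 4 * (L : ℝ) ^ 2 * Z L :=
      (Pz_le L).trans (mul_le_mul_of_nonneg_right (by nlinarith) h5.le)
    calc A * (1 + Dv + Cr) * phi (K * L) L * Pz L
        ≤ A * (1 + Dv + Cr) * (η / (4 * A * (1 + Dv + Cr))) * (4 * (L : ℝ) ^ 2 * Z L) := by
          have := Pz_pos L
          gcongr
      _ = η * (L : ℝ) ^ 2 * Z L := by field_simp

end Pool.Agent.QL.ND
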