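import Pool.Agent.P.MP_7a6434d8_pr.QL.ND.TrapL
import Pool.Agent.P.MP_7a6434d8_pr.QL.ND.PeelI

/-! The pointed functionals along the exploration. -/

namespace Pool.Agent.QL.ND

open Pool.Agent.P.MP_7a6434d8_pr Mp Finset
open scoped ENNReal

theorem funl_sum_le {t : Mp} (F : V t → ℝ≥0∞) (h : ∀ v, F v ≤ 1) :
    ∑ v, F v ≤ (Fintype.card (V t) : ℝ≥0∞) := by
  calc ∑ v, F v ≤ ∑ _v : V t, (1 : ℝ≥0∞) := Finset.sum_le_sum fun v _ => h v
    _ = (Fintype.card (V t) : ℝ≥0∞) := by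
      rw [Finset.sum_const, Finset.card_univ, nsmul_eq_mul, mul_one]

theorem funl_min_add (A B : ℝ≥0∞) : min 1 (A + B) ≤ A + min 1 B := by
  rcases le_total 1 B with h | h
  · rw [min_eq_left h]
    exact (min_le_left _ _).trans le_add_self
  · rw [min_eq_right h]
    exact min_le_right _ _

/-- one term of the functional, read in a sub-disc -/
theorem funl_term (V0 c cap : ℝ) {t' t : Mp} {ι : V t' → V t} {x' b' x b : ℕ} (S : Sub t' t ι)
    (O : OldMap t' t ι x' b' x b) (v : V t') :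
    (if (edges t : ℝ) ≤ cap then
      min 1 (trapIn V0 (min V0 (2 * cap)) x b t (ι v) / ENNReal.ofReal c) else 0)
    ≤ if (edges t' : ℝ) ≤ cap then
      min 1 (trapIn V0 (min V0 (2 * cap)) x' b' t' v / ENNReal.ofReal c) else 0 := by
  by_cases h : (edges t : ℝ) ≤ cap
  · have h' : (edges t' : ℝ) ≤ cap := le_trans (Nat.cast_le.2 S.edges_le) h
    rw [if_pos h, if_pos h']
    refine min_le_min le_rfl (ENNReal.div_le_div_right (trapIn_sub S O (fun A hA => ?_) v) _)
    refine le_min hA ?_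
    have h1 : ∑ z ∈ A, dg t z ≤ ∑ z, dg t z :=
      Finset.sum_le_sum_of_subset_of_nonneg (Finset.subset_univ A) fun z _ _ => dg_nonneg t z
    linarith [sum_dg_le t]
  · rw [if_neg h]
    exact zero_le

theorem funl_Pz_nonneg (L : ℕ) : 0 ≤ Pz L := by
  have h := Z_pos L
  unfold Pz Av
  positivity

theorem FS_le_card (V0 c : ℝ) (t : Mp) : FS V0 c t ≤ (Fintype.card (V t) : ℝ≥0∞) := by
  exact funl_sum_le _ fun v => min_le_left _ _

theorem FI_le_card (V0 c : ℝ) (Λ L0 x b : ℕ) (t : Mp) :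
    FI V0 c Λ L0 x b t ≤ (Fintype.card (V t) : ℝ≥0∞) := by
  refine funl_sum_le _ fun v => ?_
  split_ifs
  · exact min_le_left _ _
  · exact zero_le

theorem FS_le_FI (V0 c : ℝ) (Λ L0 : ℕ) (t : Mp) :
    FS V0 c t ≤ (if capE Λ L0 < (edges t : ℝ) then (Fintype.card (V t) : ℝ≥0∞) else 0)
      + FI V0 c Λ L0 0 0 t := by
  by_cases h : capE Λ L0 < (edges t : ℝ)
  · rw [if_pos h]
    exact (FS_le_card V0 c t).trans le_self_add
  · rw [if_neg h, zero_add]
    unfold FS FI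
    refine Finset.sum_le_sum fun v _ => ?_
    rw [if_pos (not_lt.1 h)]
    exact min_le_min le_rfl (ENNReal.div_le_div_right (trap_le_in _ _ _ _ _ _) _)

theorem FI_face (V0 c : ℝ) (Λ L0 : ℕ) {x b k : ℕ} {t t' : Mp} (F : FaceV k t t')
    (h1 : x ≤ k + 1) (h2 : k ≤ x + b) : FI V0 c Λ L0 x b t ≤ FI V0 c Λ L0 x (b + 2) t' := by
  obtain ⟨ι, hι, S, O⟩ := sub_face F
  unfold FI
  rw [← Fintype.sum_bijective ι hι _ _ (fun _ => rfl)]
  exact Finset.sum_le_sum fun v _ => funl_term V0 c _ S (O x b h1 h2) v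

theorem FI_br (V0 c : ℝ) (Λ L0 x b : ℕ) {m : ℕ} {t W1 W2 : Mp} (B : BrV m t W1 W2) :
    FI V0 c Λ L0 x b t ≤ FI V0 c Λ L0 (fx1 x m) (fb1 x b m (per W2)) W1
      + FI V0 c Λ L0 (fx2 x m (per W2)) (fb2 x b m (per W2)) W2 := by
  obtain ⟨ι1, ι2, hι, S1, S2, O⟩ := sub_br B
  unfold FI
  rw [← Fintype.sum_bijective _ hι _ _ (fun _ => rfl), Fintype.sum_sum_type]
  exact add_le_add (Finset.sum_le_sum fun v _ => funl_term V0 c _ S1 (O x b).1 v)
    (Finset.sum_le_sum fun v _ => funl_term V0 c _ S2 (O x b).2 v)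

open Classical in
theorem ring_step (V0 c T ρ γ : ℝ) (Λ L0 L x b a N : ℕ) (hc : 0 < c) (hV : 0 ≤ V0) (hT : 0 ≤ T)
    (hρ : 0 ≤ ρ) (hγ : 0 ≤ γ) (ha : 1 ≤ a) (ha' : a ≤ L / 16) (hb : b ≤ L) (hx : x + b ≤ 2 * L)
    (hR : IE L (fun t => ((univ.filter (fun v : V t => ¬ RingV t a T v)).card : ℝ≥0∞))
      ≤ ENNReal.ofReal (ρ * Pz L))
    (hcost : 4 * (nT L a : ℝ) ^ 2 * T ^ 2 * min V0 (2 * capE Λ L0) ≤ γ * c) :
    IE L (trunc N (FI V0 c Λ L0 x b))
      ≤ ENNReal.ofReal ((ρ + γ) * Pz L) + IE L (trunc N (FS V0 c)) := by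
  obtain ⟨k, hk⟩ := sub_center L x b (by omega) hb hx
  have key : ∀ t, ok t → per t = L → FI V0 c Λ L0 x b (rotN k t) ≤
      (((univ.filter (fun v : V t => ¬ RingV t a T v)).card : ℝ≥0∞)
        + ENNReal.ofReal γ * (Fintype.card (V t) : ℝ≥0∞)) + FS V0 c t := by
    intro t ht hper
    obtain ⟨ι, hι, S, O⟩ := hk t ht hper
    unfold FI FS
    rw [← Fintype.sum_bijective ι hι _ _ (fun _ => rfl), Finset.card_filter, Nat.cast_sum,
      mul_comm (ENNReal.ofReal γ), ← Finset.card_univ, ← nsmul_eq_mul, ← Finset.sum_const,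
      ← Finset.sum_add_distrib, ← Finset.sum_add_distrib]
    refine Finset.sum_le_sum fun v _ => (funl_term V0 c _ S O v).trans ?_
    by_cases hc1 : (edges t : ℝ) ≤ capE Λ L0
    · rw [if_pos hc1]
      by_cases hv : RingV t a T v
      · have hU : 0 ≤ min V0 (2 * capE Λ L0) :=
          le_min hV (by linarith [Nat.cast_nonneg (α := ℝ) (edges t)])
        have h1 := trapIn_ring (V0 := V0) ht ha (by rw [hper]; exact ha') hT hU hv
        rw [hper] at h1
        have h2 : ENNReal.ofReal (4 * (nT L a : ℝ) ^ 2 * T ^ 2 * min V0 (2 * capE Λ L0))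
            / ENNReal.ofReal c ≤ ENNReal.ofReal γ := by
          apply ENNReal.div_le_of_le_mul
          rw [← ENNReal.ofReal_mul hγ]
          exact ENNReal.ofReal_le_ofReal hcost
        calc _ ≤ min 1 (ENNReal.ofReal γ + trap V0 t v / ENNReal.ofReal c) := by
              refine min_le_min le_rfl ((ENNReal.div_le_div_right h1 _).trans ?_)
              rw [ENNReal.add_div]
              exact add_le_add h2 le_rfl
          _ ≤ ENNReal.ofReal γ + min 1 (trap V0 t v / ENNReal.ofReal c) := funl_min_add _ _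
          _ ≤ _ := add_le_add le_add_self le_rfl
      · rw [if_pos hv, Nat.cast_one]
        exact (min_le_left _ _).trans (le_self_add.trans le_self_add)
    · rw [if_neg hc1]
      exact zero_le
  rw [← IE_trunc_rot N L k]
  refine (IE_trunc_mono key).trans ((IE_trunc_add N L _ _).trans (add_le_add ?_ le_rfl))
  rw [IE_add, IE_const_mul, add_mul,
    ENNReal.ofReal_add (mul_nonneg hρ (funl_Pz_nonneg L)) (mul_nonneg hγ (funl_Pz_nonneg L)),
    ENNReal.ofReal_mul hγ]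
  exact add_le_add hR (mul_le_mul' le_rfl (IE_card L))

end Pool.Agent.QL.ND
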