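import Pool.Agent.P.MP_7a6434d8_pr.QL.ND.FillL
import Pool.Agent.P.MP_7a6434d8_pr.QL.ND.PeelI

/-! Martingales of the exploration. -/

namespace Pool.Agent.QL.ND

open Pool.Agent.P.MP_7a6434d8_pr Mp Finset
open scoped ENNReal

theorem martl_ind_mono {A B : Prop} (h : A → B) : ind A ≤ ind B := by
  unfold ind
  by_cases hA : A
  · rw [if_pos hA, if_pos (h hA)]
  · rw [if_neg hA]
    exact zero_le

theorem martl_ind_one {A : Prop} (h : A) : (1 : ℝ≥0∞) ≤ ind A := by
  unfold ind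
  rw [if_pos h]

theorem martl_split (n N : ℕ) (J : Finset ℕ) (f g h : ℕ → ℝ≥0∞) (hn : n ≤ N)
    (hJ : ∀ j ∈ J, n ≤ j ∧ j < N) (hf : ∀ j, j < n → f j ≤ h j) (hg : ∀ j ∈ J, g j ≤ h j) :
    ∑ j ∈ range n, f j + ∑ j ∈ J, g j ≤ ∑ j ∈ range N, h j := by
  have hd : Disjoint (range n) J := by
    rw [Finset.disjoint_left]
    intro j hj hj'
    have h1 := mem_range.1 hj
    have h2 := (hJ j hj').1
    omega
  calc ∑ j ∈ range n, f j + ∑ j ∈ J, g j ≤ ∑ j ∈ range n, h j + ∑ j ∈ J, h j :=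
        add_le_add (sum_le_sum fun j hj => hf j (mem_range.1 hj)) (sum_le_sum hg)
    _ = ∑ j ∈ range n ∪ J, h j := (sum_union hd).symm
    _ ≤ ∑ j ∈ range N, h j := by
        refine sum_le_sum_of_subset fun j hj => mem_range.2 ?_
        rcases mem_union.1 hj with hj | hj
        · exact lt_of_lt_of_le (mem_range.1 hj) hn
        · exact (hJ j hj).2

theorem martl_two (i j : ℕ) :
    ENNReal.ofReal (Z i * Z j) = IE j (fun _ => IE i (fun _ => 1)) := by
  rw [IE_const, IE_const, one_mul, ENNReal.ofReal_mul (Z_pos i).le]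

/-- the lower bound used for a bridge step -/
noncomputable def martl_F (e : Ex) (u b0 y : ℕ) (P : Mp → Prop) (n : ℕ) (J : Finset ℕ) (m : ℕ)
    (W1 W2 : Mp) : ℝ≥0∞ :=
  if per W2 < n then ind (∀ t, Fill (e.br m W2) u b0 y t W1 → P t)
  else if per W2 ∈ J then 1 else 0

theorem martl_sum (e : Ex) (u b0 y : ℕ) (P : Mp → Prop) (L n N : ℕ) (J : Finset ℕ) (μ : ℕ → ℕ)
    (hn : n ≤ N) (hJ : ∀ j ∈ J, n ≤ j ∧ j < N) (G : ℕ → Mp → Mp → ℝ≥0∞)
    (hG : ∀ j, j < N → ∀ a b, per b = j → martl_F e u b0 y P n J (μ j) a b ≤ G j a b) :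
    ∑ j ∈ range n, IE j (fun W => Mart (e.br (μ j) W) u b0 y P (L - 1 - j))
      + ∑ j ∈ J, ENNReal.ofReal (Z (L - 1 - j) * Z j)
      ≤ ∑ j ∈ range N, IE j (fun b => IE (L - 1 - j) (fun a => G j a b)) := by
  refine martl_split n N J _ _ _ hn hJ (fun j hj => ?_) (fun j hj => ?_)
  · refine IE_mono fun b _ hb => IE_mono fun a _ _ => ?_
    refine le_trans (le_of_eq ?_) (hG j (lt_of_lt_of_le hj hn) a b hb)
    unfold martl_F
    rw [if_pos (by rw [hb]; exact hj)]
  · rw [martl_two]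
    refine IE_mono fun b _ hb => IE_mono fun a _ _ => ?_
    refine le_trans (le_of_eq ?_) (hG j (hJ j hj).2 a b hb)
    unfold martl_F
    rw [if_neg (by rw [hb]; exact not_lt.2 (hJ j hj).1), if_pos (by rw [hb]; exact hj)]

theorem mart_step (e : Ex) (u b0 y : ℕ) (P : Mp → Prop) (L p : ℕ) (JR JL : Finset ℕ)
    (hL : 2 * L = u + e.b + y) (hp : p < e.b)
    (hJR : ∀ j ∈ JR, (e.b - p) / 2 ≤ j ∧ j < (2 * L - (u + p)) / 2)
    (hJL : ∀ j ∈ JL, (p + 1) / 2 ≤ j ∧ j < (u + p + 1) / 2)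
    (hR : ∀ t t1 W1 W2, Fill e u b0 y t t1 → per W2 ∈ JR → BrV (u + p) t1 W1 W2 → P t)
    (hLf : ∀ t t1 W1 W2, Fill e u b0 y t t1 → per W2 ∈ JL →
      BrV (u + p - 2 * per W2 - 1) t1 W1 W2 → P t) :
    (12 : ℝ≥0∞)⁻¹ * Mart (e.fc p) u b0 y P (L + 1)
      + ∑ j ∈ range ((e.b - p) / 2), IE j (fun W => Mart (e.br p W) u b0 y P (L - 1 - j))
      + ∑ j ∈ range ((p + 1) / 2),
          IE j (fun W => Mart (e.br (p - 2 * j - 1) W) u b0 y P (L - 1 - j))
      + ∑ j ∈ JR, ENNReal.ofReal (Z (L - 1 - j) * Z j)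
      + ∑ j ∈ JL, ENNReal.ofReal (Z (L - 1 - j) * Z j) ≤ Mart e u b0 y P L := by
  have key := peel_down L (u + p) (by omega)
    (fun t1 => ind (∀ t, Fill e u b0 y t t1 → P t))
    (fun t' => ind (∀ t, Fill (e.fc p) u b0 y t t' → P t))
    (fun m W1 W2 => if m = u + p then martl_F e u b0 y P ((e.b - p) / 2) JR p W1 W2
      else martl_F e u b0 y P ((p + 1) / 2) JL (p - 2 * per W2 - 1) W1 W2)
    (fun t1 t' _ F => martl_ind_mono fun h t H => h t (fill_face H hp F))
    (by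
      intro m t1 W1 W2 _ hm B
      by_cases hm' : m = u + p
      · subst hm'
        rw [if_pos rfl]
        unfold martl_F
        split_ifs with h1 h2
        · exact martl_ind_mono fun h t H => h t (fill_br H (by omega) B)
        · exact martl_ind_one fun t H => hR t t1 W1 W2 H h2 B
        · exact zero_le
      · rw [if_neg hm']
        have hm2 : m + 2 * per W2 + 1 = u + p := hm.resolve_left hm'
        unfold martl_F
        split_ifs with h1 h2
        · have e1 : m = u + (p - 2 * per W2 - 1) := by omega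
          rw [e1] at B
          exact martl_ind_mono fun h t H => h t (fill_br H (by omega) B)
        · have e1 : m = u + p - 2 * per W2 - 1 := by omega
          rw [e1] at B
          exact martl_ind_one fun t H => hLf t t1 W1 W2 H h2 B
        · exact zero_le)
  refine le_trans ?_ key
  have hr := martl_sum e u b0 y P L ((e.b - p) / 2) ((2 * L - (u + p)) / 2) JR (fun _ => p)
    (by omega) hJR
    (fun _ W1 W2 => if u + p = u + p then martl_F e u b0 y P ((e.b - p) / 2) JR p W1 W2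
      else martl_F e u b0 y P ((p + 1) / 2) JL (p - 2 * per W2 - 1) W1 W2)
    (fun j _ a b _ => by rw [if_pos rfl])
  have hl := martl_sum e u b0 y P L ((p + 1) / 2) ((u + p + 1) / 2) JL (fun j => p - 2 * j - 1)
    (by omega) hJL
    (fun j W1 W2 => if u + p - 2 * j - 1 = u + p then
      martl_F e u b0 y P ((e.b - p) / 2) JR p W1 W2
      else martl_F e u b0 y P ((p + 1) / 2) JL (p - 2 * per W2 - 1) W1 W2)
    (fun j hj a b hb => by rw [if_neg (by omega), hb])
  refine le_trans (le_of_eq ?_) (add_le_add (add_le_add le_rfl hr) hl)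
  unfold Mart
  ring

theorem mart_init {u b0 y L : ℕ} (P : Mp → Prop) (hL : 2 * L = u + b0 + y) :
    Mart (Ex.init b0) u b0 y P L ≤ ENNReal.ofReal (mass L P) := by
  rw [← IE_indic]
  exact IE_mono fun t ht hp => martl_ind_mono fun h => h t (fill_init ht (by rw [hp]; exact hL))

theorem mart_ge (e : Ex) (u b0 y : ℕ) (P φ : Mp → Prop) (L : ℕ)
    (h : ∀ t t', per t' = L → φ t' → Fill e u b0 y t t' → P t) :
    ENNReal.ofReal (mass L φ) ≤ Mart e u b0 y P L := by
  rw [← IE_indic]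
  exact IE_mono fun t' _ hp => martl_ind_mono fun hφ t H => h t t' hp hφ H

theorem mart_full (e : Ex) (u b0 y : ℕ) (P : Mp → Prop) (L : ℕ)
    (h : ∀ t t', Fill e u b0 y t t' → P t) : ENNReal.ofReal (Z L) ≤ Mart e u b0 y P L := by
  rw [← one_mul (ENNReal.ofReal (Z L)), ← IE_const]
  exact IE_mono fun t' _ _ => martl_ind_one fun t H => h t t' H

end Pool.Agent.QL.ND
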