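import Pool.Agent.P.MP_7a6434d8_pr.QL.ND.NestNum
import Pool.Agent.P.MP_7a6434d8_pr.QL.ND.FunL

/-! Nested discs towards the marked vertex. -/

namespace Pool.Agent.QL.ND

open Pool.Agent.P.MP_7a6434d8_pr Mp Finset
open scoped ENNReal

theorem nest_card {L N : ℕ} {F : Mp → ℝ≥0∞} (h : ∀ t, F t ≤ (Fintype.card (V t) : ℝ≥0∞)) :
    IE L (trunc N F) ≤ ENNReal.ofReal (Pz L) :=
  (IE_trunc_le N L F).trans ((IE_mono fun t _ _ => h t).trans (IE_card L))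

theorem nest_nb_nonneg {Λ L0 : ℕ} {A D : ℝ} (hA : 0 ≤ A) (hD : 0 ≤ D) (L b : ℕ) :
    0 ≤ nb Λ L0 A D L b := by
  have h1 := Pz_pos L
  have h2 := phi_pos Λ L
  have h3 := phi_pos Λ L0
  unfold nb psiS
  split_ifs
  · exact h1.le
  · positivity

theorem nest_th {Λ L0 : ℕ} (h1 : 2 ≤ L0 * phi Λ L0 ^ 2) (h2 : phi Λ L0 ≤ 1 / 4) :
    2 ≤ thB Λ L0 ∧ thB Λ L0 ≤ L0 := by
  have h3 := phi_pos Λ L0
  have h4 : phi Λ L0 ^ 2 ≤ 1 := by nlinarith
  have h5 : (0 : ℝ) ≤ L0 := Nat.cast_nonneg _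
  refine ⟨Nat.le_floor (by exact_mod_cast h1), Nat.floor_le_of_le ?_⟩
  nlinarith

/-- one bridge term -/
theorem nest_term {V0 c A D : ℝ} {Λ L0 N : ℕ} (hA : 0 ≤ A) (hD : 0 ≤ D)
    (S : ∀ L x b : ℕ, x + b ≤ 2 * L → 2 * L ≤ 2 * L0 + b → b ≤ thB Λ L0 + 1 →
      IE L (trunc N (FI V0 c Λ L0 x b)) ≤ ENNReal.ofReal (nb Λ L0 A D L b))
    {L x b m j : ℕ} (hL : 1 ≤ L) (hx : x + b ≤ 2 * L) (h2 : 2 * L ≤ 2 * L0 + b)
    (hb : b < thB Λ L0) (hm : m = pk L x b ∨ m + 2 * j + 1 = pk L x b)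
    (hj : m + 2 * j + 2 ≤ 2 * L) :
    IE j (trunc N (fun W2 => IE (L - 1 - j) (trunc N (fun W1 =>
      FI V0 c Λ L0 (fx1 x m) (fb1 x b m (per W2)) W1
        + FI V0 c Λ L0 (fx2 x m (per W2)) (fb2 x b m (per W2)) W2))))
      ≤ ENNReal.ofReal (nb Λ L0 A D (L - 1 - j) (fb1 x b m j) * Z j
        + Z (L - 1 - j) * nb Λ L0 A D j (fb2 x b m j)) := by
  obtain ⟨-, -, -, f1, f2, f3, f4, f5, f6, -⟩ := front_inv L x b m j hL hx hm hj
  have e1 := S (L - 1 - j) _ _ f1 (by omega) (by omega)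
  have e2 := S j _ _ f4 (by omega) (by omega)
  have n1 := nest_nb_nonneg (Λ := Λ) (L0 := L0) hA hD (L - 1 - j) (fb1 x b m j)
  have n2 := nest_nb_nonneg (Λ := Λ) (L0 := L0) hA hD j (fb2 x b m j)
  have z1 := (Z_pos j).le
  have z2 := (Z_pos (L - 1 - j)).le
  refine (IE_trunc_mono (G := fun W2 => IE (L - 1 - j) (trunc N (fun W1 =>
      FI V0 c Λ L0 (fx1 x m) (fb1 x b m j) W1
        + FI V0 c Λ L0 (fx2 x m j) (fb2 x b m j) W2))) fun t _ ht => by rw [ht]).trans ?_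
  refine (two_le N (L - 1 - j) j _ _).trans ?_
  rw [ENNReal.ofReal_add (mul_nonneg n1 z1) (mul_nonneg z2 n2), ENNReal.ofReal_mul n1,
    ENNReal.ofReal_mul z2]
  gcongr

/-- one peeling step from a continuing state -/
theorem nest_step {V0 c A D B : ℝ} {Λ L0 N : ℕ} (hA : 0 ≤ A) (hD : 0 ≤ D)
    (S : ∀ L x b : ℕ, x + b ≤ 2 * L → 2 * L ≤ 2 * L0 + b → b ≤ thB Λ L0 + 1 →
      IE L (trunc N (FI V0 c Λ L0 x b)) ≤ ENNReal.ofReal (nb Λ L0 A D L b))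
    {L x b : ℕ} (hL : 1 ≤ L) (hx : x + b ≤ 2 * L) (h2 : 2 * L ≤ 2 * L0 + b)
    (hb : b < thB Λ L0)
    (hB : nb Λ L0 A D (L + 1) (b + 2) / 12
      + ∑ j ∈ range ((2 * L - pk L x b) / 2),
          (nb Λ L0 A D (L - 1 - j) (fb1 x b (pk L x b) j) * Z j
            + Z (L - 1 - j) * nb Λ L0 A D j (fb2 x b (pk L x b) j))
      + ∑ j ∈ range ((pk L x b + 1) / 2),
          (nb Λ L0 A D (L - 1 - j) (fb1 x b (pk L x b - 2 * j - 1) j) * Z j
            + Z (L - 1 - j) * nb Λ L0 A D j (fb2 x b (pk L x b - 2 * j - 1) j)) ≤ B) :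
    IE L (trunc (N + 1) (FI V0 c Λ L0 x b)) ≤ ENNReal.ofReal B := by
  have k1 : pk L x b < 2 * L := by unfold pk; omega
  have k2 : x ≤ pk L x b + 1 := by unfold pk; omega
  have k3 : pk L x b ≤ x + b := by unfold pk; omega
  have nn := nest_nb_nonneg (Λ := Λ) (L0 := L0) hA hD
  have nt : ∀ i j p q, 0 ≤ nb Λ L0 A D i p * Z j + Z i * nb Λ L0 A D j q := fun i j p q =>
    add_nonneg (mul_nonneg (nn _ _) (Z_pos _).le) (mul_nonneg (Z_pos _).le (nn _ _))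
  refine (peel_up N L (pk L x b) k1 _ (FI V0 c Λ L0 x (b + 2))
    (fun m W1 W2 => FI V0 c Λ L0 (fx1 x m) (fb1 x b m (per W2)) W1
      + FI V0 c Λ L0 (fx2 x m (per W2)) (fb2 x b m (per W2)) W2)
    (fun t t' _ F => FI_face V0 c Λ L0 F k2 k3)
    (fun m t W1 W2 _ _ H => FI_br V0 c Λ L0 x b H)).trans ?_
  refine le_trans ?_ (ENNReal.ofReal_le_ofReal hB)
  rw [ENNReal.ofReal_add (add_nonneg (div_nonneg (nn _ _) (by norm_num))
      (sum_nonneg fun j _ => nt _ _ _ _)) (sum_nonneg fun j _ => nt _ _ _ _),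
    ENNReal.ofReal_add (div_nonneg (nn _ _) (by norm_num)) (sum_nonneg fun j _ => nt _ _ _ _),
    ENNReal.ofReal_sum_of_nonneg fun j _ => nt _ _ _ _,
    ENNReal.ofReal_sum_of_nonneg fun j _ => nt _ _ _ _]
  refine add_le_add (add_le_add ?_ (sum_le_sum fun j hj => ?_)) (sum_le_sum fun j hj => ?_)
  · rw [ENNReal.ofReal_div_of_pos (by norm_num), ENNReal.ofReal_ofNat, div_eq_mul_inv, mul_comm]
    gcongr
    exact S (L + 1) x (b + 2) (by omega) (by omega) (by omega)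
  · rw [mem_range] at hj
    exact nest_term hA hD S hL hx h2 hb (.inl rfl) (by omega)
  · rw [mem_range] at hj
    exact nest_term hA hD S hL hx h2 hb (.inr (by omega)) (by omega)

theorem nest_small {V0 c D : ℝ} {Λ : ℕ} {t : Mp}
    (h : (edges t : ℝ) ≤ capE Λ (per t) → ∀ v : V t,
      trap V0 t v / ENNReal.ofReal c ≤ ENNReal.ofReal D) :
    FS V0 c t ≤ (if capE Λ (per t) < (edges t : ℝ) then (Fintype.card (V t) : ℝ≥0∞) else 0)
      + ENNReal.ofReal D * (Fintype.card (V t) : ℝ≥0∞) := by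
  split_ifs with h1
  · exact (FS_le_card V0 c t).trans le_self_add
  · rw [zero_add, FS, mul_comm, ← card_univ, ← nsmul_eq_mul, ← sum_const]
    exact sum_le_sum fun v _ => (min_le_right _ _).trans (h (not_lt.1 h1) v)

theorem nest_psi {Λ L0 L b : ℕ} (h0 : 2 ≤ thB Λ L0) (h1 : thB Λ L0 ≤ L0)
    (h : ¬ (b < thB Λ L0 ∧ L0 ≤ 2 * L)) : 1 ≤ psiS Λ L0 L b := by
  unfold psiS
  have p0 : (0 : ℝ) < thB Λ L0 := by exact_mod_cast (by omega : 0 < thB Λ L0)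
  have p1 : (0 : ℝ) < L0 := by exact_mod_cast (by omega : 0 < L0)
  by_cases hb : b < thB Λ L0
  · have h2 : L0 ≤ 2 * (L0 - L) := by omega
    have h3 : (1 : ℝ) ≤ 2 * ((L0 - L : ℕ) : ℝ) / L0 := by
      rw [one_le_div p1]; exact_mod_cast h2
    nlinarith [sq_nonneg ((b : ℝ) / thB Λ L0)]
  · have h3 : (1 : ℝ) ≤ (b : ℝ) / thB Λ L0 := by
      rw [one_le_div p0]; exact_mod_cast not_lt.1 hb
    nlinarith [sq_nonneg (2 * ((L0 - L : ℕ) : ℝ) / L0)]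

theorem nest : ∃ A1 : ℝ, 0 < A1 ∧ ∀ (Λ : ℕ) (V0 c D : ℝ), 1 ≤ D →
    (∀ L, L ≤ Λ → IE L (fun t => if capE Λ L < (edges t : ℝ) then
      (Fintype.card (V t) : ℝ≥0∞) else 0) ≤ ENNReal.ofReal (D * phi Λ L ^ 4 * Pz L)) →
    (∀ (t : Mp) (v : V t), ok t → per t ^ 3 ≤ Λ → (edges t : ℝ) ≤ capE Λ (per t) →
      trap V0 t v / ENNReal.ofReal c ≤ ENNReal.ofReal (D * phi Λ (per t))) →
    (∀ L0 : ℕ, Λ < L0 ^ 3 → 2 ≤ L0 * phi Λ L0 ^ 2) →
    (∀ L0 L x b N : ℕ, Λ < L0 ^ 3 → phi Λ L0 ≤ 1 / 4 → 2 * thB Λ L0 ≤ L → L ≤ 2 * L0 → b ≤ L →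
      x + b ≤ 2 * L → IE L (trunc N (FI V0 c Λ L0 x b))
        ≤ ENNReal.ofReal (D * phi Λ L0 ^ 4 * Pz L) + IE L (trunc N (FS V0 c))) →
    ∀ L, IE L (FS V0 c) ≤ ENNReal.ofReal (A1 * D * phi Λ L * Pz L) := by
  obtain ⟨A0, hA0, hnum⟩ := nest_num
  refine ⟨A0 + 4, by linarith, fun Λ V0 c D hD h1 h2 h3 h4 => ?_⟩
  have hD0 : 0 ≤ D := by linarith
  have hA4 : 4 * D ≤ A0 * D := by gcongr
  have hA : 0 ≤ A0 * D := by linarith
  have triv : ∀ L N, 1 / 4 < phi Λ L →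
      IE L (trunc N (FS V0 c)) ≤ ENNReal.ofReal (A0 * D * phi Λ L * Pz L) := fun L N h => by
    refine (nest_card (FS_le_card V0 c)).trans (ENNReal.ofReal_le_ofReal ?_)
    have := Pz_pos L
    have : 1 ≤ A0 * D * phi Λ L := by nlinarith
    nlinarith
  let S : ℕ → Prop := fun N => ∀ L0 : ℕ, Λ < L0 ^ 3 → phi Λ L0 ≤ 1 / 4 →
    ∀ L x b : ℕ, x + b ≤ 2 * L → 2 * L ≤ 2 * L0 + b → b ≤ thB Λ L0 + 1 →
      IE L (trunc N (FI V0 c Λ L0 x b)) ≤ ENNReal.ofReal (nb Λ L0 (A0 * D) D L b)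
  have one : ∀ N, S N → ∀ L0 : ℕ, Λ < L0 ^ 3 → phi Λ L0 ≤ 1 / 4 → ∀ L x b : ℕ, L0 ≤ 2 * L →
      2 * L ≤ 2 * L0 + b → b < thB Λ L0 → x + b ≤ 2 * L →
      IE L (trunc (N + 1) (FI V0 c Λ L0 x b)) ≤ ENNReal.ofReal
        ((A0 * D * phi Λ L + 17 * D * phi Λ L0 ^ 4 * psiS Λ L0 L b) * Pz L) := by
    intro N hS L0 g1 g2 L x b g3 g4 g5 g6
    obtain ⟨t1, t2⟩ := nest_th (h3 L0 g1) g2
    exact nest_step hA hD0 (hS L0 g1 g2) (by omega) g6 g4 g5
      (hnum Λ L0 L x b _ D hD le_rfl g2 (h3 L0 g1) g3 g4 g5 g6)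
  have zero : ∀ N, S N → ∀ L, IE L (trunc (N + 1) (FS V0 c))
      ≤ ENNReal.ofReal ((A0 * D * phi Λ L + D * phi Λ L ^ 4) * Pz L) := by
    intro N hS L
    have q1 := Pz_pos L
    have q2 := phi_pos Λ L
    have q3 : 0 ≤ D * phi Λ L ^ 4 * Pz L := by positivity
    have q4 : 0 ≤ A0 * D * phi Λ L * Pz L := by positivity
    rcases lt_or_ge (1 / 4) (phi Λ L) with g | g
    · exact (triv L _ g).trans (ENNReal.ofReal_le_ofReal (by linarith))
    have g0 := h1 L (le_of_phi_le_one (by linarith))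
    rw [add_mul, ENNReal.ofReal_add q4 q3, add_comm (ENNReal.ofReal _)]
    rcases le_or_gt (L ^ 3) Λ with g1 | g1
    · refine (IE_trunc_le _ _ _).trans ((IE_mono (G := fun t =>
        (if capE Λ L < (edges t : ℝ) then (Fintype.card (V t) : ℝ≥0∞) else 0)
          + ENNReal.ofReal (D * phi Λ L) * (Fintype.card (V t) : ℝ≥0∞)) fun t ht hp => ?_).trans ?_)
      · subst hp
        exact nest_small fun he v => h2 t v ht g1 he
      · rw [IE_add, IE_const_mul]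
        refine add_le_add g0 ((mul_le_mul_right (IE_card L) _).trans ?_)
        rw [← ENNReal.ofReal_mul (by positivity)]
        refine ENNReal.ofReal_le_ofReal ?_
        have : D ≤ A0 * D := by linarith
        gcongr
    · obtain ⟨t1, t2⟩ := nest_th (h3 L g1) g
      refine (IE_trunc_mono fun t _ _ => FS_le_FI V0 c Λ L t).trans
        ((IE_trunc_add _ _ _ _).trans (add_le_add g0 ?_))
      have := one N hS L g1 g L 0 0 (by omega) (by omega) (by omega) (by omega)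
      simpa [psiS] using this
  have all : ∀ N, S N := by
    intro N
    induction N with
    | zero => intro L0 _ _ L x b _ _ _; rw [IE_trunc_zero]; exact zero_le
    | succ N ih =>
      intro L0 g1 g2 L x b g3 g4 g5
      obtain ⟨t1, t2⟩ := nest_th (h3 L0 g1) g2
      unfold nb
      split_ifs with g6
      · exact nest_card (FI_le_card V0 c Λ L0 x b)
      by_cases g7 : b < thB Λ L0 ∧ L0 ≤ 2 * L
      · exact one N ih L0 g1 g2 L x b g7.2 g4 g7.1 g3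
      have q1 := Pz_pos L
      have q2 := phi_pos Λ L
      have q3 := phi_pos Λ L0
      have q4 := nest_psi t1 t2 g7
      have q5 : phi Λ L ≤ 2 * phi Λ L0 := phi_double Λ (by omega)
      have q6 : phi Λ L ^ 4 ≤ 16 * phi Λ L0 ^ 4 := by
        calc phi Λ L ^ 4 ≤ (2 * phi Λ L0) ^ 4 := by gcongr
          _ = _ := by ring
      refine (h4 L0 L x b (N + 1) g1 g2 (by omega) (by omega) (by omega) g3).trans
        ((add_le_add le_rfl (zero N ih L)).trans ?_)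
      rw [← ENNReal.ofReal_add (by positivity) (by positivity), ← add_mul]
      refine ENNReal.ofReal_le_ofReal (mul_le_mul_of_nonneg_right ?_ q1.le)
      have q7 : D * phi Λ L ^ 4 ≤ D * (16 * phi Λ L0 ^ 4) := by gcongr
      have q8 : 17 * D * phi Λ L0 ^ 4 * 1 ≤ 17 * D * phi Λ L0 ^ 4 * psiS Λ L0 L b := by gcongr
      linarith
  intro L
  have q1 := Pz_pos L
  have q2 := phi_pos Λ L
  have q3 : 0 ≤ D * phi Λ L * Pz L := by positivity
  refine IE_le_of_trunc fun N => ?_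
  rcases lt_or_ge (1 / 4) (phi Λ L) with g | g
  · exact (triv L N g).trans (ENNReal.ofReal_le_ofReal (by nlinarith))
  cases N with
  | zero => rw [IE_trunc_zero]; exact zero_le
  | succ N =>
    refine (zero N (all N) L).trans (ENNReal.ofReal_le_ofReal ?_)
    have q4 : phi Λ L ^ 4 ≤ phi Λ L := by
      calc phi Λ L ^ 4 ≤ phi Λ L ^ 1 := pow_le_pow_of_le_one q2.le (by linarith) (by norm_num)
        _ = _ := pow_one _
    have q5 : D * phi Λ L ^ 4 * Pz L ≤ D * phi Λ L * Pz L := by gcongr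
    nlinarith

end Pool.Agent.QL.ND
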