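import Pool.Agent.P.MP_7a6434d8_pr.QL.ND.Defs2
import Pool.Agent.P.MP_7a6434d8_pr.NumA
import Pool.Agent.P.MP_7a6434d8_pr.NumB
import Pool.Agent.P.MP_7a6434d8_pr.JumpNum

/-! Numerical bounds for one peeling step. -/

namespace Pool.Agent.QL.ND

open Pool.Agent.P.MP_7a6434d8_pr Mp Finset
open scoped ENNReal

theorem num1_iter (Y : ℕ → ℝ) (hY : ∀ n, Y (n + 1) ≤ 8 * Y n) (n k : ℕ) :
    Y (n + k) ≤ 8 ^ k * Y n := by
  induction k with
  | zero => simp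
  | succ k ih =>
    have := hY (n + k)
    rw [← add_assoc, pow_succ]
    nlinarith

theorem num1_sqrt_ge (J : ℕ) : 1 ≤ √((J : ℝ) + 1) := by
  rw [Real.le_sqrt (by norm_num) (by positivity)]
  have : (0 : ℝ) ≤ J := Nat.cast_nonneg J
  linarith

theorem n_quad : ∃ C : ℝ, 0 < C ∧ ∀ (Y : ℕ → ℝ), (∀ n, 0 ≤ Y n) → (∀ n, Y (n + 1) ≤ 8 * Y n) →
    ∀ (L J : ℕ) (d : ℝ), 0 ≤ d → J ≤ L →
    Y (L + 1) / 12 * (4 * d + 4)
      - 2 * ∑ j ∈ range J, Y (L - 1 - j) * Z j *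
          max 0 (2 * d * (2 * (j : ℝ) + 2) - (2 * (j : ℝ) + 2) ^ 2)
      ≤ C * (d / √((J : ℝ) + 1) + √((J : ℝ) + 1)) * Y L := by
  obtain ⟨c, C0, -, hC0, hw⟩ := w_bounds
  refine ⟨3 * C0 + 3, by positivity, fun Y hY0 hY L J d hd hJ => ?_⟩
  have hYL := hY0 L
  have hterm : ∀ j ∈ range J, Y L * (d / 2 * (((j : ℝ) + 1) * w j) - 1 / 2 * (((j : ℝ) + 1) ^ 2 * w j))
      ≤ Y (L - 1 - j) * Z j * max 0 (2 * d * (2 * (j : ℝ) + 2) - (2 * (j : ℝ) + 2) ^ 2) := by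
    intro j hj
    have hj' := mem_range.1 hj
    have h1 := num1_iter Y hY (L - 1 - j) (j + 1)
    rw [show L - 1 - j + (j + 1) = L by omega] at h1
    have hwj := w_pos j
    have h2 : Y L * w j / 8 ≤ Y (L - 1 - j) * Z j := by
      rw [Z_eq_w, div_le_iff₀ (by norm_num)]
      have := mul_le_mul_of_nonneg_right h1 hwj.le
      rw [pow_succ] at this
      nlinarith
    have h3 : 0 ≤ Y L * w j / 8 := by positivity
    calc _ = Y L * w j / 8 * (2 * d * (2 * (j : ℝ) + 2) - (2 * (j : ℝ) + 2) ^ 2) := by ring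
      _ ≤ Y L * w j / 8 * max 0 (2 * d * (2 * (j : ℝ) + 2) - (2 * (j : ℝ) + 2) ^ 2) :=
          mul_le_mul_of_nonneg_left (le_max_right _ _) h3
      _ ≤ _ := mul_le_mul_of_nonneg_right h2 (le_max_left _ _)
  have hsum := sum_le_sum hterm
  rw [← mul_sum, sum_sub_distrib, ← mul_sum, ← mul_sum, sum_jw] at hsum
  have hsq := jumpnum_sq_sum hC0 (fun L => (hw L).2) J
  have hs1 := num1_sqrt_ge J
  set s := √((J : ℝ) + 1) with hs
  have hs0 : 0 < s := by linarith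
  have hJ0 : (0 : ℝ) ≤ J := Nat.cast_nonneg J
  have hsJ : √(J : ℝ) ≤ s := Real.sqrt_le_sqrt (by linarith)
  have hwJ := w_pos J
  have h4 : (2 * (J : ℝ) ^ 2 + 16 * J / 3 + 8 / 3) * w J ≤ 3 * C0 / s := by
    rw [le_div_iff₀ hs0]
    have h5 := (hw J).2
    rw [← hs] at h5
    have h6 : (2 * (J : ℝ) ^ 2 + 16 * J / 3 + 8 / 3) ≤ 3 * ((J : ℝ) + 1) ^ 2 := by nlinarith
    have h7 := mul_le_mul_of_nonneg_right h6 (mul_pos hwJ hs0).le
    nlinarith
  have h8 : Y (L + 1) / 12 * (4 * d + 4) ≤ Y L * (8 / 3 * d + 8 / 3) := by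
    have := mul_le_mul_of_nonneg_right (hY L) (show (0 : ℝ) ≤ 4 * d + 4 by linarith)
    nlinarith
  set S := ∑ j ∈ range J, ((j : ℝ) + 1) ^ 2 * w j
  set A := (2 * (J : ℝ) ^ 2 + 16 * J / 3 + 8 / 3) * w J
  have h9 : d * A ≤ 3 * C0 * (d / s) := by
    have := mul_le_mul_of_nonneg_left h4 hd
    calc d * A ≤ d * (3 * C0 / s) := this
      _ = _ := by ring
  have h10 : S ≤ 2 * C0 * s := hsq.trans (mul_le_mul_of_nonneg_left hsJ (by positivity))
  have hds : 0 ≤ d / s := by positivity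
  have h11 : 8 / 3 + d * A + S ≤ (3 * C0 + 3) * (d / s + s) := by nlinarith
  have h12 := mul_le_mul_of_nonneg_left h11 hYL
  nlinarith

theorem Z_succ_le (n : ℕ) : Z (n + 1) ≤ 8 * Z n := by
  rw [Z_eq_w, Z_eq_w, pow_succ]
  have h := w_anti (Nat.le_succ n)
  have h8 : (0 : ℝ) < 8 ^ n := by positivity
  have := mul_le_mul_of_nonneg_right h h8.le
  simp only [Nat.succ_eq_add_one] at this
  nlinarith

theorem num1_ZZ (L j : ℕ) (hj : j + 1 ≤ L) :
    Z (L - 1 - j) * Z j = w (L - 1 - j) * w j * 8 ^ L / 8 := by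
  rw [Z_eq_w, Z_eq_w]
  have : (8 : ℝ) ^ L = 8 ^ (L - 1 - j) * 8 ^ j * 8 := by
    rw [← pow_add, ← pow_succ]; congr 1; omega
  rw [this]; ring

theorem num1_tail (J : ℕ) (s : Finset ℕ) (hs : ∀ j ∈ s, J ≤ j) :
    ∑ j ∈ s, w j ≤ (2 * (J : ℝ) + 4) / 3 * w J := by
  classical
  obtain ⟨M, hM⟩ : ∃ M, ∀ j ∈ s, j < M := ⟨s.sup id + 1, fun j hj =>
    Nat.lt_succ_of_le (Finset.le_sup (f := id) hj)⟩
  have h1 : ∑ j ∈ s, w j ≤ ∑ j ∈ Ico J (J + M), w j :=
    sum_le_sum_of_subset_of_nonneg (fun j hj => mem_Ico.2 ⟨hs j hj, by have := hM j hj; omega⟩)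
      fun j _ _ => (w_pos j).le
  rw [sum_Ico_eq_sub _ (Nat.le_add_right J M), sum_w, sum_w] at h1
  have : 0 ≤ (2 * ((J + M : ℕ) : ℝ) + 4) / 3 * w (J + M) := by
    have := w_pos (J + M); positivity
  linarith

theorem n_big : ∃ C : ℝ, 0 < C ∧ ∀ (L J : ℕ) (s : Finset ℕ),
    (∀ j ∈ s, J ≤ j ∧ J + j + 1 ≤ L) →
    ∑ j ∈ s, Z (L - 1 - j) * Z j ≤ C * Z L / (((J : ℝ) + 1) * √((J : ℝ) + 1)) := by
  classical
  obtain ⟨c0, C0, -, hC0, hw⟩ := w_bounds
  obtain ⟨c, hc, hd⟩ := w_doubling 2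
  refine ⟨C0 / c, by positivity, fun L J s hs => ?_⟩
  have hZ := Z_pos L
  have hterm : ∀ j ∈ s, Z (L - 1 - j) * Z j ≤ Z L / (8 * c) * (w j + w (L - 1 - j)) := by
    intro j hj
    obtain ⟨h1, h2⟩ := hs j hj
    rw [num1_ZZ L j (by omega), Z_eq_w]
    have hwj := w_pos j
    have hwi := w_pos (L - 1 - j)
    have hwL := w_pos L
    have h8 : (0 : ℝ) < 8 ^ L := by positivity
    have key : c * (w (L - 1 - j) * w j) ≤ w L * (w j + w (L - 1 - j)) := by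
      rcases le_total j (L - 1 - j) with h | h
      · have := hd (L - 1 - j) L (by omega)
        nlinarith [mul_le_mul_of_nonneg_right this hwj.le, mul_pos hwL hwi]
      · have := hd j L (by omega)
        nlinarith [mul_le_mul_of_nonneg_right this hwi.le, mul_pos hwL hwj]
    have e : w L * 8 ^ L / (8 * c) * (w j + w (L - 1 - j))
        = (w L * (w j + w (L - 1 - j))) * (8 ^ L / (8 * c)) := by ring
    have e' : w (L - 1 - j) * w j * 8 ^ L / 8 = (c * (w (L - 1 - j) * w j)) * (8 ^ L / (8 * c)) := by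
      field_simp
    rw [e, e']
    exact mul_le_mul_of_nonneg_right key (by positivity)
  have h1 := sum_le_sum hterm
  rw [← mul_sum, sum_add_distrib] at h1
  have h2 := num1_tail J s fun j hj => (hs j hj).1
  have h3 : ∑ j ∈ s, w (L - 1 - j) ≤ (2 * (J : ℝ) + 4) / 3 * w J := by
    rw [← sum_image (s := s) (g := fun j => L - 1 - j) (f := w)]
    · refine num1_tail J _ fun i hi => ?_
      obtain ⟨j, hj, rfl⟩ := mem_image.1 hi
      have := hs j hj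
      omega
    · intro a ha b hb hab
      have := hs a ha
      have := hs b hb
      simp only at hab
      omega
  have hs1 := num1_sqrt_ge J
  set r := √((J : ℝ) + 1) with hr
  have hJ0 : (0 : ℝ) ≤ J := Nat.cast_nonneg J
  have hwJ := w_pos J
  have h5 := (hw J).2
  rw [← hr] at h5
  have h6 : (2 * (J : ℝ) + 4) / 3 * w J ≤ 4 * C0 / (((J : ℝ) + 1) * r) := by
    rw [le_div_iff₀ (by positivity)]
    have h7 : (2 * (J : ℝ) + 4) / 3 ≤ 4 * ((J : ℝ) + 1) := by linarith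
    have := mul_le_mul_of_nonneg_right h7 (show 0 ≤ w J * (((J : ℝ) + 1) * r) by positivity)
    nlinarith
  calc _ ≤ _ := h1
    _ ≤ Z L / (8 * c) * (2 * (4 * C0 / (((J : ℝ) + 1) * r))) :=
        mul_le_mul_of_nonneg_left (by linarith) (by positivity)
    _ = _ := by field_simp; ring

theorem n_vol : ∃ C : ℝ, 0 < C ∧ ∀ (L J : ℕ), 2 * J + 1 ≤ L →
    ∑ j ∈ range (J + 1), Z (L - 1 - j) * Z j * (Bv j + 1) ≤ C * √((J : ℝ) + 1) * Z L := by
  obtain ⟨c0, C0, -, hC0, hw⟩ := w_bounds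
  obtain ⟨c, hc, hd⟩ := w_doubling 2
  refine ⟨C0 / (4 * c), by positivity, fun L J hJ => ?_⟩
  have hZ := Z_pos L
  have hterm : ∀ j ∈ range (J + 1), Z (L - 1 - j) * Z j * (Bv j + 1)
      ≤ Z L / (8 * c) * (((j : ℝ) + 1) ^ 2 * w j) := by
    intro j hj
    have hj' := mem_range.1 hj
    rw [num1_ZZ L j (by omega), Z_eq_w]
    have hwj := w_pos j
    have key := hd (L - 1 - j) L (by omega)
    have e : w L * 8 ^ L / (8 * c) * (((j : ℝ) + 1) ^ 2 * w j)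
        = w L * (8 ^ L / (8 * c) * (((j : ℝ) + 1) ^ 2 * w j)) := by ring
    have e' : w (L - 1 - j) * w j * 8 ^ L / 8 * (Bv j + 1)
        = (c * w (L - 1 - j)) * (8 ^ L / (8 * c) * (((j : ℝ) + 1) ^ 2 * w j)) := by
      unfold Bv; field_simp; ring
    rw [e, e']
    exact mul_le_mul_of_nonneg_right key (by positivity)
  have h1 := sum_le_sum hterm
  rw [← mul_sum] at h1
  have hsq := jumpnum_sq_sum hC0 (fun L => (hw L).2) (J + 1)
  push_cast at hsq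
  calc _ ≤ _ := h1
    _ ≤ Z L / (8 * c) * (2 * C0 * √((J : ℝ) + 1)) :=
        mul_le_mul_of_nonneg_left hsq (by positivity)
    _ = _ := by field_simp; ring

end Pool.Agent.QL.ND
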