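import Pool.Agent.P.MP_7a6434d8_pr.QL.ND.Ems
import Pool.Agent.P.MP_7a6434d8_pr.RotA
import Pool.Agent.P.MP_7a6434d8_pr.RotB

/-! Sub-discs produced by one peeling step or a rotation. -/

namespace Pool.Agent.QL.ND

open Pool.Agent.P.MP_7a6434d8_pr Mp Finset
open scoped ENNReal

theorem subl_men_zero {α : Type} (M : Multiset (Sym2 α)) (f : α → ℝ)
    (h : ∀ x y, s(x, y) ∈ M → f x = f y) : men M f = 0 := by
  unfold men
  apply Multiset.sum_eq_zero
  intro r hr
  obtain ⟨e, he, rfl⟩ := Multiset.mem_map.1 hr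
  induction e using Sym2.ind with
  | h x y => rw [sqd_mk, h x y he]; ring

/-- a sub-disc read on the multisets of edges -/
theorem subl_sub {t' t : Mp} (ht : ok t) (ht' : ok t') (ι : V t' → V t)
    (hι : Function.Injective ι) (M : Multiset (Sym2 (V t)))
    (hM : ems t = (ems t').map (Sym2.map ι) + M)
    (hout : ∀ a z, s(ι a, z) ∈ M → ∃ p, p ≤ 2 * per t' ∧ a = bv t' p)
    (hb : ∀ p a, p ≤ 2 * per t → bv t p = ι a → ∃ p', p' ≤ 2 * per t' ∧ a = bv t' p') :
    Sub t' t ι := by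
  have hen : ∀ f : V t → ℝ, energy t f = energy t' (fun z => f (ι z)) + men M f := by
    intro f
    rw [← men_ems, hM, men_add, men_map, men_ems]
  refine ⟨ht, ht', hι, fun f => ?_, fun a z h => ?_, fun a ha => ?_, hb, ?_⟩
  · rw [hen f]
    linarith [men_nonneg M f]
  · have h1 := (mem_ems t _ _).2 h
    rw [hM, Multiset.mem_add] at h1
    rcases h1 with h1 | h1
    · obtain ⟨a', b', h2, h3, h4⟩ := (mem_map_iff _ _ _ _).1 h1
      have h5 : a' = a := hι h3
      subst h5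
      exact Or.inr ⟨b', h4.symm, (mem_ems t' _ _).1 h2⟩
    · exact Or.inl (hout a z h1)
  · unfold dg
    rw [hen, subl_men_zero M, add_zero]
    · apply le_of_eq
      congr 1
      funext z
      by_cases hz : z = a
      · rw [if_pos hz, if_pos (by rw [hz])]
      · rw [if_neg hz, if_neg (fun h => hz (hι h))]
    · intro x y hxy
      have hx : x ≠ ι a := by
        intro h
        rw [h] at hxy
        obtain ⟨p, hp, h2⟩ := hout a y hxy
        exact ha p hp h2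
      have hy : y ≠ ι a := by
        intro h
        rw [h, Sym2.eq_swap] at hxy
        obtain ⟨p, hp, h2⟩ := hout a x hxy
        exact ha p hp h2
      rw [if_neg hx, if_neg hy]
  · rw [← card_ems, ← card_ems, hM, Multiset.card_add, Multiset.card_map]
    omega

theorem sub_face {k : ℕ} {t t' : Mp} (F : FaceV k t t') : ∃ ι : V t' → V t,
    Function.Bijective ι ∧ Sub t' t ι ∧
    ∀ x b, x ≤ k + 1 → k ≤ x + b → OldMap t' t ι x (b + 2) x b := by
  obtain ⟨ι, hbij, hM, h1, h2⟩ := faceM_of F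
  have hI := F.isFace
  have hper := hI.per_eq
  have hlt := hI.lt
  refine ⟨ι, hbij, subl_sub hI.ok_t hI.ok_t' ι hbij.1 _ hM ?_ ?_, ?_⟩
  · intro a z h
    rw [Multiset.mem_singleton, Sym2.eq_iff] at h
    rcases h with ⟨h, -⟩ | ⟨h, -⟩
    · exact ⟨k, by omega, hbij.1 h⟩
    · exact ⟨k + 3, by omega, hbij.1 h⟩
  · intro p a hp h
    by_cases hpk : p ≤ k
    · rw [h1 p hpk] at h
      exact ⟨p, by omega, (hbij.1 h).symm⟩
    · rw [h2 p (by omega) hp] at h
      exact ⟨p + 2, by omega, (hbij.1 h).symm⟩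
  · intro x b hx hb p' hp' h
    rcases h with h | h
    · exact ⟨p', by omega, Or.inl h, (h1 p' (by omega)).symm⟩
    · obtain ⟨p, rfl⟩ : ∃ p, p' = p + 2 := ⟨p' - 2, by omega⟩
      exact ⟨p, by omega, Or.inr (by omega), (h2 p (by omega) (by omega)).symm⟩

theorem sub_br {m : ℕ} {t W1 W2 : Mp} (B : BrV m t W1 W2) :
    ∃ (ι1 : V W1 → V t) (ι2 : V W2 → V t), Function.Bijective (Sum.elim ι1 ι2) ∧
    Sub W1 t ι1 ∧ Sub W2 t ι2 ∧ ∀ x b,
      OldMap W1 t ι1 (fx1 x m) (fb1 x b m (per W2)) x b ∧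
      OldMap W2 t ι2 (fx2 x m (per W2)) (fb2 x b m (per W2)) x b := by
  obtain ⟨ι1, ι2, hbij, hM, h1, h2, h3⟩ := brM_of B
  have hI := B.isBr
  have hper := hI.per_eq
  have hle := hI.le
  have i1 : Function.Injective ι1 := fun a b h =>
    Sum.inl_injective (hbij.1 (a₁ := Sum.inl a) (a₂ := Sum.inl b) h)
  have i2 : Function.Injective ι2 := fun a b h =>
    Sum.inr_injective (hbij.1 (a₁ := Sum.inr a) (a₂ := Sum.inr b) h)
  have i12 : ∀ a b, ι1 a ≠ ι2 b := fun a b h =>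
    Sum.inl_ne_inr (hbij.1 (a₁ := Sum.inl a) (a₂ := Sum.inr b) h)
  have hcase : ∀ p, p ≤ 2 * per t → (∃ q, q ≤ 2 * per W1 ∧ bv t p = ι1 (bv W1 q)) ∨
      ∃ q, q ≤ 2 * per W2 ∧ bv t p = ι2 (bv W2 q) := by
    intro p hp
    by_cases hp1 : p ≤ m
    · exact Or.inl ⟨p, by omega, h1 p hp1⟩
    · by_cases hp2 : p ≤ m + 1 + 2 * per W2
      · obtain ⟨q, rfl⟩ : ∃ q, p = m + 1 + q := ⟨p - m - 1, by omega⟩
        exact Or.inr ⟨q, by omega, h2 q (by omega)⟩
      · obtain ⟨q, rfl⟩ : ∃ q, p = q + 2 * per W2 + 2 := ⟨p - 2 * per W2 - 2, by omega⟩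
        exact Or.inl ⟨q, by omega, h3 q (by omega) (by omega)⟩
  refine ⟨ι1, ι2, hbij, ?_, ?_, fun x b => ⟨?_, ?_⟩⟩
  · refine subl_sub hI.ok_t hI.ok_1 ι1 i1
      ((ems W2).map (Sym2.map ι2) + {s(ι1 (bv W1 m), ι2 (bv W2 0))})
      (by rw [hM, add_assoc]) ?_ ?_
    · intro a z h
      rw [Multiset.mem_add] at h
      rcases h with h | h
      · obtain ⟨a', b', -, h4, -⟩ := (mem_map_iff _ _ _ _).1 h
        exact absurd h4.symm (i12 a a')
      · rw [Multiset.mem_singleton, Sym2.eq_iff] at h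
        rcases h with ⟨h, -⟩ | ⟨h, -⟩
        · exact ⟨m, hle, i1 h⟩
        · exact absurd h (i12 _ _)
    · intro p a hp h
      rcases hcase p hp with ⟨q, hq, h4⟩ | ⟨q, hq, h4⟩
      · exact ⟨q, hq, i1 (h.symm.trans h4)⟩
      · exact absurd (h.symm.trans h4) (i12 _ _)
  · refine subl_sub hI.ok_t hI.ok_2 ι2 i2
      ((ems W1).map (Sym2.map ι1) + {s(ι1 (bv W1 m), ι2 (bv W2 0))})
      (by rw [hM, add_comm ((ems W1).map (Sym2.map ι1)) ((ems W2).map (Sym2.map ι2)),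
        add_assoc]) ?_ ?_
    · intro a z h
      rw [Multiset.mem_add] at h
      rcases h with h | h
      · obtain ⟨a', b', -, h4, -⟩ := (mem_map_iff _ _ _ _).1 h
        exact absurd h4 (i12 a' a)
      · rw [Multiset.mem_singleton, Sym2.eq_iff] at h
        rcases h with ⟨h, -⟩ | ⟨h, -⟩
        · exact absurd h.symm (i12 _ _)
        · exact ⟨0, Nat.zero_le _, i2 h⟩
    · intro p a hp h
      rcases hcase p hp with ⟨q, hq, h4⟩ | ⟨q, hq, h4⟩
      · exact absurd (h4.symm.trans h) (i12 _ _)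
      · exact ⟨q, hq, i2 (h.symm.trans h4)⟩
  · intro p' hp' h
    unfold fx1 fb1 at h
    rcases h with h | h
    · exact ⟨p', by omega, Or.inl (by omega), (h1 p' (by omega)).symm⟩
    · exact ⟨p' + 2 * per W2 + 2, by omega, Or.inr (by omega), (h3 p' (by omega) hp').symm⟩
  · intro p' hp' h
    unfold fx2 fb2 at h
    exact ⟨m + 1 + p', by omega, by omega, (h2 p' hp').symm⟩

theorem sub_center (L x b : ℕ) (hL : 4 ≤ L) (hb : b ≤ L) (hx : x + b ≤ 2 * L) :
    ∃ k, ∀ t, ok t → per t = L → ∃ ι : V t → V (rotN k t), Function.Bijective ι ∧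
      Sub t (rotN k t) ι ∧ OldMap t (rotN k t) ι (L / 4 + 1) (2 * L - 2 * (L / 4) - 2) x b := by
  refine ⟨3 * L - (x + b / 2), fun t ht hper => ?_⟩
  obtain ⟨k, hk⟩ : ∃ k, k = 3 * L - (x + b / 2) := ⟨_, rfl⟩
  rw [← hk]
  obtain ⟨e, he, hbv⟩ := rotN_shift k t ht
  have hok := rotN_ok k t ht
  have hp := rotN_per k t ht
  refine ⟨e.symm, e.symm.bijective, ⟨hok, ht, e.symm.injective, fun f => ?_, fun a z h => ?_,
    fun a _ => ?_, fun p a hp1 h => ?_, (rotN_edges k t ht).ge⟩, ?_⟩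
  · rw [← he (fun z => f (e.symm z))]
    simp only [Equiv.symm_apply_apply, le_refl]
  · refine Or.inr ⟨e z, (e.symm_apply_apply z).symm, ?_⟩
    have h1 := (equiv_adj ht hok e he (e.symm a) z).2 h
    rwa [e.apply_symm_apply] at h1
  · rw [← equiv_dg e he (e.symm a), e.apply_symm_apply]
  · rw [hp] at hp1
    refine ⟨(p + k) % (2 * per t), (Nat.mod_lt _ (by omega)).le, ?_⟩
    rw [← hbv p hp1, h, e.apply_symm_apply]
  · intro p' hp' h
    have key : ∀ p i, p ≤ 2 * L → p + k = p' + 2 * L * i →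
        e.symm (bv t p') = bv (rotN k t) p := by
      intro p i hp1 hpi
      rw [Equiv.symm_apply_eq, hbv p (by omega), hpi, hper, Nat.add_mul_mod_self_left]
      by_cases h2 : p' < 2 * L
      · rw [Nat.mod_eq_of_lt h2]
      · have h3 : p' = 2 * L := by omega
        rw [h3, Nat.mod_self, ← hper]
        exact bv_end t ht
    rw [hp, hper]
    rw [hper] at hp'
    by_cases c1 : p' + L + (x + b / 2) < 2 * L
    · exact ⟨p' + L + (x + b / 2), by omega, by omega, key _ 2 (by omega) (by omega)⟩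
    · by_cases c2 : p' + L + (x + b / 2) < 4 * L
      · exact ⟨p' + (x + b / 2) - L, by omega, by omega, key _ 1 (by omega) (by omega)⟩
      · exact ⟨p' + (x + b / 2) - 3 * L, by omega, by omega, key _ 0 (by omega) (by omega)⟩

/-- bookkeeping for the frontier after one peeling step -/
theorem front_inv (L x b m j : ℕ) (hL : 1 ≤ L) (hx : x + b ≤ 2 * L)
    (hm : m = pk L x b ∨ m + 2 * j + 1 = pk L x b) (hj : m + 2 * j + 2 ≤ 2 * L) :
    pk L x b < 2 * L ∧ x ≤ pk L x b + 1 ∧ pk L x b ≤ x + b ∧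
    fx1 x m + fb1 x b m j ≤ 2 * (L - 1 - j) ∧ fb1 x b m j ≤ b ∧ b ≤ fb1 x b m j + 2 * j + 2 ∧
    fx2 x m j + fb2 x b m j ≤ 2 * j ∧ fb2 x b m j ≤ b ∧ b + 2 * j ≤ fb2 x b m j + 2 * L ∧
    (4 * j + 4 ≤ b → fb1 x b m j = b - 2 * j - 2) := by
  unfold pk at hm
  unfold pk fx1 fb1 fx2 fb2
  omega

end Pool.Agent.QL.ND
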