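import Pool.Agent.P.MP_7a6434d8_pr.QL.ND.Phi
import Pool.Agent.P.MP_7a6434d8_pr.QL.ND.Num1
import Pool.Agent.P.MP_7a6434d8_pr.QL.ND.SubL

/-! The numerical inequality of one step towards the marked vertex. -/

namespace Pool.Agent.QL.ND

open Pool.Agent.P.MP_7a6434d8_pr Mp Finset
open scoped ENNReal

/-- bound for the state after a step -/
noncomputable def nb (Λ L0 : ℕ) (A D : ℝ) (L b : ℕ) : ℝ :=
  if L < 2 * thB Λ L0 then Pz L
  else (A * phi Λ L + 17 * D * phi Λ L0 ^ 4 * psiS Λ L0 L b) * Pz L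

/-- indicator of small perimeters -/
noncomputable def nestnum_ind (θ n : ℕ) : ℝ := if n < 2 * θ then 1 else 0

/-- perimeter part of the potential -/
noncomputable def nestnum_q (L0 n : ℕ) : ℝ := (2 * ((L0 - n : ℕ) : ℝ) / L0) ^ 2

theorem nestnum_nb_le (Λ L0 : ℕ) (A D : ℝ) (hA : 0 ≤ A) (hD : 0 ≤ D) (n b : ℕ) :
    nb Λ L0 A D n b ≤
      Pz n * (nestnum_ind (thB Λ L0) n + A * phi Λ n + 17 * D * phi Λ L0 ^ 4 * nestnum_q L0 n)
        + 17 * D * phi Λ L0 ^ 4 / (thB Λ L0 : ℝ) ^ 2 * ((b : ℝ) ^ 2 * Pz n) := by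
  have hP := (Pz_pos n).le
  have h1 := (phi_pos Λ n).le
  have h2 := (phi_pos Λ L0).le
  have hq : 0 ≤ nestnum_q L0 n := sq_nonneg _
  unfold nb nestnum_ind
  split_ifs with h
  · have : 0 ≤ Pz n * (A * phi Λ n + 17 * D * phi Λ L0 ^ 4 * nestnum_q L0 n) := by positivity
    have h3 : 0 ≤ 17 * D * phi Λ L0 ^ 4 / (thB Λ L0 : ℝ) ^ 2 * ((b : ℝ) ^ 2 * Pz n) := by
      positivity
    nlinarith
  · unfold psiS nestnum_q
    apply le_of_eq
    ring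

theorem nestnum_opP_add (f g h : ℕ → ℝ) (a c : ℝ) (L : ℕ) :
    opP (fun n => f n + a * g n + c * h n) L = opP f L + a * opP g L + c * opP h L := by
  unfold opP
  have : ∑ j ∈ range L, Z j * (Pz (L - 1 - j) * (f (L - 1 - j) + a * g (L - 1 - j)
        + c * h (L - 1 - j)))
      = ∑ j ∈ range L, Z j * (Pz (L - 1 - j) * f (L - 1 - j))
        + a * ∑ j ∈ range L, Z j * (Pz (L - 1 - j) * g (L - 1 - j))
        + c * ∑ j ∈ range L, Z j * (Pz (L - 1 - j) * h (L - 1 - j)) := by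
    rw [mul_sum, mul_sum, ← sum_add_distrib, ← sum_add_distrib]
    exact sum_congr rfl fun j _ => by ring
  rw [this]
  ring

theorem nestnum_opP_ind : ∃ C : ℝ, 0 < C ∧ ∀ θ L : ℕ, 4 * θ + 1 ≤ L →
    opP (nestnum_ind θ) L ≤ C * √(2 * (θ : ℝ) + 1) * Pz L / ((L : ℝ) + 1) ^ 2 := by
  obtain ⟨C, hC, h⟩ := n_vol
  refine ⟨4 * C, by positivity, fun θ L hL => ?_⟩
  have h1 := h L (2 * θ) (by omega)
  have h0 : nestnum_ind θ (L + 1) = 0 := by
    unfold nestnum_ind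
    rw [if_neg (by omega)]
  have h2 : ∑ j ∈ range L, Z j * (Pz (L - 1 - j) * nestnum_ind θ (L - 1 - j))
      = ∑ j ∈ range L, Z (L - 1 - j) * (Pz j * nestnum_ind θ j) := by
    rw [← sum_range_reflect (fun j => Z (L - 1 - j) * (Pz j * nestnum_ind θ j)) L]
    refine sum_congr rfl fun j hj => ?_
    have hj' := mem_range.1 hj
    have : L - 1 - (L - 1 - j) = j := by omega
    rw [this]
  have h3 : ∑ j ∈ range L, Z (L - 1 - j) * (Pz j * nestnum_ind θ j)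
      ≤ ∑ j ∈ range (2 * θ + 1), Z (L - 1 - j) * Z j * (Bv j + 1) := by
    have hs : range (2 * θ + 1) ⊆ range L := range_subset_range.2 (by omega)
    rw [← sum_subset hs (f := fun j => Z (L - 1 - j) * (Pz j * nestnum_ind θ j))]
    · refine sum_le_sum fun j _ => ?_
      have hz := (Z_pos (L - 1 - j)).le
      have hp := Pz_le_vol j
      have hp0 := (Pz_pos j).le
      have hi : nestnum_ind θ j ≤ 1 := by
        unfold nestnum_ind
        split_ifs <;> norm_num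
      calc Z (L - 1 - j) * (Pz j * nestnum_ind θ j) ≤ Z (L - 1 - j) * (Pz j * 1) := by gcongr
        _ ≤ Z (L - 1 - j) * (Z j * (Bv j + 1)) := by rw [mul_one]; gcongr
        _ = _ := by ring
    · intro j _ hj
      have : ¬ j < 2 * θ := fun h' => hj (mem_range.2 (by omega))
      unfold nestnum_ind
      rw [if_neg this]
      ring
  have h4 : Z L ≤ 2 * Pz L / ((L : ℝ) + 1) ^ 2 := by
    rw [le_div_iff₀ (by positivity)]
    have := Pz_ge L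
    linarith
  unfold opP
  rw [h0, h2]
  push_cast at h1
  calc Pz (L + 1) * 0 / 12 + 2 * ∑ j ∈ range L, Z (L - 1 - j) * (Pz j * nestnum_ind θ j)
      ≤ 2 * (C * √(2 * (θ : ℝ) + 1) * Z L) := by linarith
    _ ≤ 2 * (C * √(2 * (θ : ℝ) + 1) * (2 * Pz L / ((L : ℝ) + 1) ^ 2)) := by gcongr
    _ = _ := by ring

theorem nestnum_opP_q : ∃ C : ℝ, 0 < C ∧ ∀ L0 L : ℕ, 1 ≤ L0 → 1 ≤ L →
    opP (nestnum_q L0) L ≤ nestnum_q L0 L * Pz L
      + C * √((L : ℝ) + 1) * Pz L / (L0 : ℝ) ^ 2 := by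
  obtain ⟨c, C, -, hC, h⟩ := pz_bounds
  refine ⟨2 * C, by positivity, fun L0 L h0 hL => ?_⟩
  have hL0 : (0 : ℝ) < L0 := by exact_mod_cast h0
  have h1 := opP_quad (nestnum_q L0) (nestnum_q L0 L) (-8 * ((L0 - L : ℕ) : ℝ) / (L0 : ℝ) ^ 2)
    (4 / (L0 : ℝ) ^ 2) L hL (fun n _ => by
      unfold nestnum_q
      have key : ((L0 - n : ℕ) : ℝ) ^ 2 ≤ (((L0 - L : ℕ) : ℝ) - ((n : ℝ) - L)) ^ 2 := by
        rcases le_total n L0 with hn | hn
        · rw [Nat.cast_sub hn]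
          have hn' : (n : ℝ) ≤ L0 := by exact_mod_cast hn
          rcases le_total L L0 with hl | hl
          · rw [Nat.cast_sub hl]
            apply le_of_eq
            ring
          · rw [Nat.sub_eq_zero_of_le hl]
            have hl' : (L0 : ℝ) ≤ L := by exact_mod_cast hl
            push_cast
            nlinarith
        · rw [Nat.sub_eq_zero_of_le hn]
          push_cast
          nlinarith [sq_nonneg (((L0 - L : ℕ) : ℝ) - ((n : ℝ) - L))]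
      have e1 : (2 * ((L0 - n : ℕ) : ℝ) / L0) ^ 2 = 4 / (L0 : ℝ) ^ 2 * ((L0 - n : ℕ) : ℝ) ^ 2 := by
        ring
      have e2 : (2 * ((L0 - L : ℕ) : ℝ) / L0) ^ 2
          + -8 * ((L0 - L : ℕ) : ℝ) / (L0 : ℝ) ^ 2 * ((n : ℝ) - L)
          + 4 / (L0 : ℝ) ^ 2 * ((n : ℝ) - L) ^ 2
          = 4 / (L0 : ℝ) ^ 2 * (((L0 - L : ℕ) : ℝ) - ((n : ℝ) - L)) ^ 2 := by ring
      rw [e1, e2]
      gcongr)
  have h2 := (h L).2
  calc opP (nestnum_q L0) L ≤ nestnum_q L0 L * Pz L + 4 / (L0 : ℝ) ^ 2 * 8 ^ L / 2 := h1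
    _ ≤ nestnum_q L0 L * Pz L + 4 / (L0 : ℝ) ^ 2 * (C * √((L : ℝ) + 1) * Pz L) / 2 := by gcongr
    _ = _ := by ring

theorem nestnum_part (L b N : ℕ) (f g : ℕ → ℕ) (hN : b / 4 ≤ N)
    (hf : ∀ j, j < N → f j ≤ b) (hg : ∀ j, j < N → g j ≤ b)
    (hf' : ∀ j, j < N → 4 * j + 4 ≤ b → f j = b - 2 * j - 2) :
    ∑ j ∈ range N, ((f j : ℝ) ^ 2 * Pz (L - 1 - j) * Z j + Z (L - 1 - j) * ((g j : ℝ) ^ 2 * Pz j))
      ≤ (b : ℝ) ^ 2 * ∑ j ∈ range N,
          (Pz (L - 1 - j) * 1 * Z j + Z (L - 1 - j) * (Pz j * 1))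
        - ∑ j ∈ range (b / 4), Pz (L - 1 - j) * Z j *
          max 0 (2 * (b : ℝ) * (2 * (j : ℝ) + 2) - (2 * (j : ℝ) + 2) ^ 2) := by
  have hs : range (b / 4) ⊆ range N := range_subset_range.2 hN
  have e : ∑ j ∈ range (b / 4), Pz (L - 1 - j) * Z j *
          max 0 (2 * (b : ℝ) * (2 * (j : ℝ) + 2) - (2 * (j : ℝ) + 2) ^ 2)
      ≤ ∑ j ∈ range N, Pz (L - 1 - j) * Z j * ((b : ℝ) ^ 2 - (f j : ℝ) ^ 2) := by
    calc _ = ∑ j ∈ range (b / 4), Pz (L - 1 - j) * Z j * ((b : ℝ) ^ 2 - (f j : ℝ) ^ 2) := by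
          refine sum_congr rfl fun j hj => ?_
          have hj' := mem_range.1 hj
          have h4 : 4 * j + 4 ≤ b := by omega
          have h5 := hf' j (by omega) h4
          have h6 : (f j : ℝ) = b - (2 * j + 2) := by
            have : f j + (2 * j + 2) = b := by omega
            have h7 : ((f j + (2 * j + 2) : ℕ) : ℝ) = b := by rw [this]
            push_cast at h7
            linarith
          have h8 : (4 * (j : ℝ) + 4) ≤ b := by exact_mod_cast h4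
          have h9 : (0 : ℝ) ≤ j := Nat.cast_nonneg j
          rw [max_eq_right (by nlinarith), h6]
          ring
      _ ≤ _ := by
          refine sum_le_sum_of_subset_of_nonneg hs fun j hj _ => ?_
          have h1 : (f j : ℝ) ≤ b := by exact_mod_cast hf j (mem_range.1 hj)
          have h2 : (f j : ℝ) ^ 2 ≤ (b : ℝ) ^ 2 := by gcongr
          have := (Pz_pos (L - 1 - j)).le
          have := (Z_pos j).le
          have h3 : 0 ≤ (b : ℝ) ^ 2 - (f j : ℝ) ^ 2 := by linarith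
          positivity
  have e2 : ∑ j ∈ range N,
      ((f j : ℝ) ^ 2 * Pz (L - 1 - j) * Z j + Z (L - 1 - j) * ((g j : ℝ) ^ 2 * Pz j))
      ≤ (b : ℝ) ^ 2 * ∑ j ∈ range N, (Pz (L - 1 - j) * 1 * Z j + Z (L - 1 - j) * (Pz j * 1))
        - ∑ j ∈ range N, Pz (L - 1 - j) * Z j * ((b : ℝ) ^ 2 - (f j : ℝ) ^ 2) := by
    rw [mul_sum, ← sum_sub_distrib]
    refine sum_le_sum fun j hj => ?_
    have h1 : (g j : ℝ) ≤ b := by exact_mod_cast hg j (mem_range.1 hj)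
    have h2 : (g j : ℝ) ^ 2 ≤ (b : ℝ) ^ 2 := by gcongr
    have h3 := (Pz_pos j).le
    have h4 := (Z_pos (L - 1 - j)).le
    have h5 : Z (L - 1 - j) * ((g j : ℝ) ^ 2 * Pz j) ≤ Z (L - 1 - j) * ((b : ℝ) ^ 2 * Pz j) := by
      gcongr
    nlinarith
  linarith

theorem nestnum_front : ∃ C : ℝ, 0 < C ∧ ∀ L x b : ℕ, 1 ≤ L → x + b ≤ 2 * L →
    ((b + 2 : ℕ) : ℝ) ^ 2 * Pz (L + 1) / 12
      + ∑ j ∈ range ((2 * L - pk L x b) / 2),
          ((fb1 x b (pk L x b) j : ℝ) ^ 2 * Pz (L - 1 - j) * Z j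
            + Z (L - 1 - j) * ((fb2 x b (pk L x b) j : ℝ) ^ 2 * Pz j))
      + ∑ j ∈ range ((pk L x b + 1) / 2),
          ((fb1 x b (pk L x b - 2 * j - 1) j : ℝ) ^ 2 * Pz (L - 1 - j) * Z j
            + Z (L - 1 - j) * ((fb2 x b (pk L x b - 2 * j - 1) j : ℝ) ^ 2 * Pz j))
      ≤ (b : ℝ) ^ 2 * Pz L + C * √((b : ℝ) + 1) * Pz L := by
  obtain ⟨C, hC, h⟩ := n_quad
  refine ⟨5 * C, by positivity, fun L x b hL hx => ?_⟩
  have hk : pk L x b < 2 * L := by unfold pk; omega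
  have hk1 : b / 4 ≤ (2 * L - pk L x b) / 2 := by unfold pk; omega
  have hk2 : b / 4 ≤ (pk L x b + 1) / 2 := by unfold pk; omega
  have p1 := nestnum_part L b _ (fun j => fb1 x b (pk L x b) j) (fun j => fb2 x b (pk L x b) j) hk1
    (fun j hj => (front_inv L x b _ j hL hx (Or.inl rfl) (by omega)).2.2.2.2.1)
    (fun j hj => (front_inv L x b _ j hL hx (Or.inl rfl) (by omega)).2.2.2.2.2.2.2.1)
    (fun j hj => (front_inv L x b _ j hL hx (Or.inl rfl) (by omega)).2.2.2.2.2.2.2.2.2)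
  have p2 := nestnum_part L b _ (fun j => fb1 x b (pk L x b - 2 * j - 1) j)
    (fun j => fb2 x b (pk L x b - 2 * j - 1) j) hk2
    (fun j hj => (front_inv L x b _ j hL hx (Or.inr (by omega)) (by omega)).2.2.2.2.1)
    (fun j hj => (front_inv L x b _ j hL hx (Or.inr (by omega)) (by omega)).2.2.2.2.2.2.2.1)
    (fun j hj => (front_inv L x b _ j hL hx (Or.inr (by omega)) (by omega)).2.2.2.2.2.2.2.2.2)
  have p3 := peel_opP (fun _ => 1) L (pk L x b) hk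
  have p4 := opP_quad (fun _ => 1) 1 0 0 L hL (fun n _ => by simp)
  have p5 := h Pz (fun n => (Pz_pos n).le) Pz_succ_le L (b / 4) b (Nat.cast_nonneg b) (by omega)
  have hP := (Pz_pos L).le
  have hs : 0 < √(((b / 4 : ℕ) : ℝ) + 1) := Real.sqrt_pos.2 (by positivity)
  have hs2 : √(((b / 4 : ℕ) : ℝ) + 1) ^ 2 = ((b / 4 : ℕ) : ℝ) + 1 := Real.sq_sqrt (by positivity)
  have hb4 : (b : ℝ) ≤ 4 * (((b / 4 : ℕ) : ℝ) + 1) := by
    have : b ≤ 4 * (b / 4 + 1) := by omega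
    exact_mod_cast this
  have hd : (b : ℝ) / √(((b / 4 : ℕ) : ℝ) + 1) ≤ 4 * √(((b / 4 : ℕ) : ℝ) + 1) := by
    rw [div_le_iff₀ hs]
    nlinarith
  have hs3 : √(((b / 4 : ℕ) : ℝ) + 1) ≤ √((b : ℝ) + 1) := by
    apply Real.sqrt_le_sqrt
    have : b / 4 ≤ b := Nat.div_le_self _ _
    have h' : ((b / 4 : ℕ) : ℝ) ≤ b := by exact_mod_cast this
    linarith
  have p6 : C * ((b : ℝ) / √(((b / 4 : ℕ) : ℝ) + 1) + √(((b / 4 : ℕ) : ℝ) + 1)) * Pz L
      ≤ 5 * C * √((b : ℝ) + 1) * Pz L := by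
    have : (b : ℝ) / √(((b / 4 : ℕ) : ℝ) + 1) + √(((b / 4 : ℕ) : ℝ) + 1) ≤ 5 * √((b : ℝ) + 1) := by
      linarith
    calc _ ≤ C * (5 * √((b : ℝ) + 1)) * Pz L := by gcongr
      _ = _ := by ring
  have p7 : (b : ℝ) ^ 2 * opP (fun _ => 1) L ≤ (b : ℝ) ^ 2 * Pz L := by
    have : opP (fun _ => 1) L ≤ Pz L := by linarith
    gcongr
  rw [← p3] at p7
  push_cast
  linarith

theorem nest_num : ∃ A0 : ℝ, 4 ≤ A0 ∧ ∀ (Λ L0 L x b : ℕ) (A D : ℝ), 1 ≤ D → A0 * D ≤ A →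
    phi Λ L0 ≤ 1 / 4 → 2 ≤ L0 * phi Λ L0 ^ 2 → L0 ≤ 2 * L → 2 * L ≤ 2 * L0 + b →
    b < thB Λ L0 → x + b ≤ 2 * L →
    nb Λ L0 A D (L + 1) (b + 2) / 12
      + ∑ j ∈ range ((2 * L - pk L x b) / 2),
          (nb Λ L0 A D (L - 1 - j) (fb1 x b (pk L x b) j) * Z j
            + Z (L - 1 - j) * nb Λ L0 A D j (fb2 x b (pk L x b) j))
      + ∑ j ∈ range ((pk L x b + 1) / 2),
          (nb Λ L0 A D (L - 1 - j) (fb1 x b (pk L x b - 2 * j - 1) j) * Z j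
            + Z (L - 1 - j) * nb Λ L0 A D j (fb2 x b (pk L x b - 2 * j - 1) j))
      ≤ (A * phi Λ L + 17 * D * phi Λ L0 ^ 4 * psiS Λ L0 L b) * Pz L := by
  obtain ⟨c, hc, hφ⟩ := phi_drift
  obtain ⟨C1, hC1, h1⟩ := nestnum_opP_ind
  obtain ⟨C2, hC2, h2⟩ := nestnum_opP_q
  obtain ⟨C3, hC3, h3⟩ := nestnum_front
  refine ⟨max 4 (2 * (3 * C1 + 17 * 9 * C2 + 17 * 27 * C3) / c), le_max_left _ _, ?_⟩
  intro Λ L0 L x b A D hD hA hφ0 hbig hL0 hLL hb hx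
  have hD0 : 0 ≤ D := by linarith
  have hA4 : 2 * (3 * C1 + 17 * 9 * C2 + 17 * 27 * C3) / c * D ≤ A :=
    le_trans (by gcongr; exact le_max_right _ _) hA
  have hA0 : 0 ≤ A := le_trans (by positivity) hA4
  have hp0 := phi_pos Λ L0
  have hsq : phi Λ L0 ^ 2 ≤ 1 / 16 := by nlinarith
  have hL0r : (0 : ℝ) ≤ L0 := Nat.cast_nonneg _
  have hθ1 : (thB Λ L0 : ℝ) ≤ L0 * phi Λ L0 ^ 2 := Nat.floor_le (by positivity)
  have hθ2 : (L0 : ℝ) * phi Λ L0 ^ 2 < thB Λ L0 + 1 := Nat.lt_floor_add_one _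
  have hθ3 : (L0 : ℝ) * phi Λ L0 ^ 2 ≤ 2 * thB Λ L0 := by linarith
  have hθ4 : 16 * (thB Λ L0 : ℝ) ≤ L0 := by nlinarith
  have hθ5 : 16 * thB Λ L0 ≤ L0 := by exact_mod_cast hθ4
  have hθ6 : (1 : ℝ) ≤ thB Λ L0 := by linarith
  have hθ7 : 1 ≤ thB Λ L0 := by exact_mod_cast hθ6
  have hL1 : 1 ≤ L := by omega
  have hk : pk L x b < 2 * L := by unfold pk; omega
  set θ : ℕ := thB Λ L0 with hθ
  set φ0 : ℝ := phi Λ L0 with hφ0d
  set F : ℝ := 17 * D * φ0 ^ 4 with hF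
  have hF0 : 0 ≤ F := by positivity
  have hP := Pz_pos L
  have hθp : (0 : ℝ) < θ := by linarith
  -- reduction to the operator
  have e1 := peel_opP (fun n => nestnum_ind θ n + A * phi Λ n + F * nestnum_q L0 n) L _ hk
  rw [nestnum_opP_add] at e1
  have e2 := h3 L x b hL1 hx
  have hnb := nestnum_nb_le Λ L0 A D hA0 hD0
  rw [← hθ, ← hφ0d, ← hF] at hnb
  have hsum : ∀ (N : ℕ) (f g : ℕ → ℕ),
      ∑ j ∈ range N, (nb Λ L0 A D (L - 1 - j) (f j) * Z j + Z (L - 1 - j) * nb Λ L0 A D j (g j))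
        ≤ ∑ j ∈ range N, (Pz (L - 1 - j) * (nestnum_ind θ (L - 1 - j) + A * phi Λ (L - 1 - j)
              + F * nestnum_q L0 (L - 1 - j)) * Z j
            + Z (L - 1 - j) * (Pz j * (nestnum_ind θ j + A * phi Λ j + F * nestnum_q L0 j)))
          + F / (θ : ℝ) ^ 2 * ∑ j ∈ range N, ((f j : ℝ) ^ 2 * Pz (L - 1 - j) * Z j
            + Z (L - 1 - j) * ((g j : ℝ) ^ 2 * Pz j)) := by
    intro N f g
    rw [mul_sum, ← sum_add_distrib]
    refine sum_le_sum fun j _ => ?_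
    have a1 := mul_le_mul_of_nonneg_right (hnb (L - 1 - j) (f j)) (Z_pos j).le
    have a2 := mul_le_mul_of_nonneg_left (hnb j (g j)) (Z_pos (L - 1 - j)).le
    linarith
  have s1 := hsum ((2 * L - pk L x b) / 2) (fun j => fb1 x b (pk L x b) j)
    (fun j => fb2 x b (pk L x b) j)
  have s2 := hsum ((pk L x b + 1) / 2) (fun j => fb1 x b (pk L x b - 2 * j - 1) j)
    (fun j => fb2 x b (pk L x b - 2 * j - 1) j)
  have s3 := hnb (L + 1) (b + 2)
  have hFθ : 0 ≤ F / (θ : ℝ) ^ 2 := by positivity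
  have s4 := mul_le_mul_of_nonneg_left e2 hFθ
  -- errors
  set s : ℝ := √((L : ℝ) + 1) with hs
  have hs0 : 0 < s := Real.sqrt_pos.2 (by positivity)
  have hs2 : s ^ 2 = (L : ℝ) + 1 := Real.sq_sqrt (by positivity)
  have hL0' : (L0 : ℝ) ≤ 2 * L := by exact_mod_cast hL0
  have hL3 : (L : ℝ) + 1 ≤ 3 * L0 := by
    have : L + 1 ≤ 3 * L0 := by omega
    exact_mod_cast this
  have hL0p : (0 : ℝ) < L0 := by linarith
  have hφ1 : φ0 ≤ 1 := by linarith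
  set U : ℝ := D * φ0 * Pz L / s ^ 3 with hU
  have hU0 : 0 ≤ U := by positivity
  have r1 : opP (nestnum_ind θ) L ≤ 3 * C1 * U := by
    have t1 : √(2 * (θ : ℝ) + 1) ≤ 3 * s * φ0 := by
      rw [Real.sqrt_le_left (by positivity)]
      have : (3 * s * φ0) ^ 2 = 9 * ((L : ℝ) + 1) * φ0 ^ 2 := by rw [← hs2]; ring
      rw [this]
      have t2 : (L0 : ℝ) * φ0 ^ 2 ≤ 2 * L * φ0 ^ 2 := by gcongr
      have t3 : 0 ≤ φ0 ^ 2 := sq_nonneg _
      have t4 : 0 ≤ (L : ℝ) * φ0 ^ 2 := by positivity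
      linarith
    calc opP (nestnum_ind θ) L ≤ C1 * √(2 * (θ : ℝ) + 1) * Pz L / ((L : ℝ) + 1) ^ 2 :=
          h1 θ L (by omega)
      _ ≤ C1 * (3 * s * φ0) * Pz L / ((L : ℝ) + 1) ^ 2 := by gcongr
      _ = 3 * C1 * (1 * φ0 * Pz L / s ^ 3) := by
          rw [← hs2]
          field_simp
      _ ≤ 3 * C1 * U := by rw [hU]; gcongr
  have r2 : F * opP (nestnum_q L0) L ≤ F * (nestnum_q L0 L * Pz L) + 17 * 9 * C2 * U := by
    have t1 := h2 L0 L (by omega) hL1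
    rw [← hs] at t1
    have t2 : C2 * s * Pz L / (L0 : ℝ) ^ 2 ≤ 9 * C2 * (Pz L / s ^ 3) := by
      have t3 : s ^ 4 ≤ 9 * (L0 : ℝ) ^ 2 := by
        have : s ^ 4 = ((L : ℝ) + 1) ^ 2 := by rw [← hs2]; ring
        rw [this]
        have : ((L : ℝ) + 1) ^ 2 ≤ (3 * L0) ^ 2 := by gcongr
        linarith
      rw [div_le_iff₀ (by positivity)]
      calc C2 * s * Pz L = C2 * (Pz L / s ^ 3) * s ^ 4 := by field_simp
        _ ≤ C2 * (Pz L / s ^ 3) * (9 * (L0 : ℝ) ^ 2) := by gcongr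
        _ = _ := by ring
    have t4 : φ0 ^ 4 ≤ φ0 := by
      calc φ0 ^ 4 ≤ φ0 ^ 1 := pow_le_pow_of_le_one hp0.le hφ1 (by norm_num)
        _ = φ0 := pow_one _
    have t5 : F * (9 * C2 * (Pz L / s ^ 3)) ≤ 17 * 9 * C2 * U := by
      calc F * (9 * C2 * (Pz L / s ^ 3)) = 17 * 9 * C2 * (D * φ0 ^ 4 * Pz L / s ^ 3) := by
            rw [hF]; ring
        _ ≤ 17 * 9 * C2 * U := by rw [hU]; gcongr
    have t6 : F * opP (nestnum_q L0) L
        ≤ F * (nestnum_q L0 L * Pz L + 9 * C2 * (Pz L / s ^ 3)) := by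
      apply mul_le_mul_of_nonneg_left _ hF0
      linarith
    linarith
  have r3 : F / (θ : ℝ) ^ 2 * (C3 * √((b : ℝ) + 1) * Pz L) ≤ 17 * 27 * C3 * U := by
    set t : ℝ := √(θ : ℝ) with ht
    have ht0 : 0 < t := Real.sqrt_pos.2 hθp
    have ht2 : t ^ 2 = θ := Real.sq_sqrt hθp.le
    have t1 : √((b : ℝ) + 1) ≤ t := by
      apply Real.sqrt_le_sqrt
      have : b + 1 ≤ θ := hb
      exact_mod_cast this
    have t2 : s * φ0 ≤ 3 * t := by
      refine (pow_le_pow_iff_left₀ (by positivity) (by positivity) two_ne_zero).1 ?_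
      have u1 : (s * φ0) ^ 2 = ((L : ℝ) + 1) * φ0 ^ 2 := by rw [← hs2]; ring
      have u2 : (3 * t) ^ 2 = 9 * (θ : ℝ) := by rw [← ht2]; ring
      have u3 : ((L : ℝ) + 1) * φ0 ^ 2 ≤ 3 * L0 * φ0 ^ 2 := by gcongr
      rw [u1, u2]
      linarith
    have t3 : (s * φ0) ^ 3 ≤ (3 * t) ^ 3 := by gcongr
    calc F / (θ : ℝ) ^ 2 * (C3 * √((b : ℝ) + 1) * Pz L)
        ≤ F / (θ : ℝ) ^ 2 * (C3 * t * Pz L) := by gcongr
      _ = 17 * C3 * U * (s * φ0) ^ 3 / t ^ 3 := by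
          rw [hF, hU, ← ht2]
          field_simp
      _ ≤ 17 * C3 * U * (3 * t) ^ 3 / t ^ 3 := by gcongr
      _ = 17 * 27 * C3 * U := by
          field_simp
          ring
  have r4 : A * opP (phi Λ) L ≤ A * phi Λ L * Pz L
      - (3 * C1 + 17 * 9 * C2 + 17 * 27 * C3) * U := by
    have t1 := hφ Λ L hL1
    rw [← hs] at t1
    have t2 : φ0 ≤ 2 * phi Λ L := phi_double Λ hL0
    have t3 : (3 * C1 + 17 * 9 * C2 + 17 * 27 * C3) * U
        ≤ A * (c * phi Λ L / (((L : ℝ) + 1) * s) * Pz L) := by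
      calc (3 * C1 + 17 * 9 * C2 + 17 * 27 * C3) * U
          = 2 * (3 * C1 + 17 * 9 * C2 + 17 * 27 * C3) / c * D
              * (c * (φ0 / 2) / s ^ 3 * Pz L) := by
            rw [hU]
            field_simp
        _ ≤ A * (c * phi Λ L / s ^ 3 * Pz L) := by
            gcongr
            linarith
        _ = _ := by rw [← hs2]; ring
    have t4 := mul_le_mul_of_nonneg_left t1 hA0
    linarith
  have r5 : (A * phi Λ L + F * psiS Λ L0 L b) * Pz L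
      = A * phi Λ L * Pz L + F * (nestnum_q L0 L * Pz L)
        + F / (θ : ℝ) ^ 2 * ((b : ℝ) ^ 2 * Pz L) := by
    unfold psiS nestnum_q
    rw [← hθ]
    ring
  rw [r5]
  linarith

end Pool.Agent.QL.ND
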