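import Pool.Agent.P.MP_7a6434d8_pr.QL.ND.Defs2
import Pool.Agent.P.MP_7a6434d8_pr.NumA
import Pool.Agent.P.MP_7a6434d8_pr.NumB

/-! The pointed perimeter process. -/

namespace Pool.Agent.QL.ND

open Pool.Agent.P.MP_7a6434d8_pr Mp Finset
open scoped ENNReal

theorem Pz_pos (L : ℕ) : 0 < Pz L := by
  have := Z_pos L
  unfold Pz Av; positivity

theorem num2_rec (L : ℕ) : Pz (L + 1) = Pz L * (8 * (L : ℝ) + 4) / ((L : ℝ) + 1) := by
  unfold Pz Av
  rw [Z_eq_w, Z_eq_w, w_succ]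
  push_cast
  field_simp
  ring

theorem Pz_succ_le (L : ℕ) : Pz (L + 1) ≤ 8 * Pz L := by
  have := Pz_pos L
  rw [num2_rec, div_le_iff₀ (by positivity)]
  nlinarith

theorem Pz_ge (L : ℕ) : ((L : ℝ) + 1) ^ 2 * Z L ≤ 2 * Pz L := by
  have := Z_pos L
  have h0 : (0 : ℝ) ≤ L := Nat.cast_nonneg L
  unfold Pz Av
  nlinarith [mul_nonneg h0 this.le]

theorem Pz_le (L : ℕ) : Pz L ≤ ((L : ℝ) + 1) ^ 2 * Z L := by
  have := Z_pos L
  have h0 : (0 : ℝ) ≤ L := Nat.cast_nonneg L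
  unfold Pz Av
  nlinarith [mul_nonneg h0 this.le, mul_nonneg (mul_nonneg h0 h0) this.le]

theorem Pz_le_vol (j : ℕ) : Pz j ≤ Z j * (Bv j + 1) := by
  have := Pz_le j
  unfold Bv
  nlinarith

theorem pz_bounds : ∃ c C : ℝ, 0 < c ∧ 0 < C ∧ ∀ L : ℕ,
    c * √((L : ℝ) + 1) * Pz L ≤ 8 ^ L ∧ (8 : ℝ) ^ L ≤ C * √((L : ℝ) + 1) * Pz L := by
  obtain ⟨c0, C0, hc0, hC0, hw⟩ := w_bounds
  refine ⟨1 / C0, 2 / c0, by positivity, by positivity, fun L => ?_⟩
  obtain ⟨h1, h2⟩ := hw L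
  have h3 := Pz_le L
  have h4 := Pz_ge L
  rw [Z_eq_w] at h3 h4
  have hs : 0 ≤ √((L : ℝ) + 1) := Real.sqrt_nonneg _
  have h8 : (0 : ℝ) < 8 ^ L := by positivity
  set s := √((L : ℝ) + 1)
  constructor
  · have e : 1 / C0 * s * Pz L = s * Pz L / C0 := by ring
    rw [e, div_le_iff₀ hC0]
    have a1 := mul_le_mul_of_nonneg_left h3 hs
    have a2 := mul_le_mul_of_nonneg_left h2 h8.le
    nlinarith
  · have e : 2 / c0 * s * Pz L = s * (2 * Pz L) / c0 := by ring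
    rw [e, le_div_iff₀ hc0]
    have a1 := mul_le_mul_of_nonneg_left h4 hs
    have a2 := mul_le_mul_of_nonneg_left h1 h8.le
    nlinarith

theorem peel_opP (h : ℕ → ℝ) (L k : ℕ) (hk : k < 2 * L) :
    Pz (L + 1) * h (L + 1) / 12
      + ∑ j ∈ range ((2 * L - k) / 2),
          (Pz (L - 1 - j) * h (L - 1 - j) * Z j + Z (L - 1 - j) * (Pz j * h j))
      + ∑ j ∈ range ((k + 1) / 2),
          (Pz (L - 1 - j) * h (L - 1 - j) * Z j + Z (L - 1 - j) * (Pz j * h j))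
      = opP h L := by
  rw [add_assoc, split_sum L k hk (fun i j => Pz i * h i * Z j + Z i * (Pz j * h j))
    fun i j => by ring]
  unfold opP
  rw [sum_add_distrib, two_mul]
  congr 2
  · exact sum_congr rfl fun j _ => mul_comm _ _
  · rw [← sum_range_reflect]
    refine sum_congr rfl fun j hj => ?_
    have := mem_range.1 hj
    rw [show L - 1 - (L - 1 - j) = j by omega]

/-- moments of the convolution -/
noncomputable def num2_S (k L : ℕ) : ℝ :=
  ∑ j ∈ range L, Z j * (Pz (L - 1 - j) * ((L - 1 - j : ℕ) : ℝ) ^ k)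

theorem num2_S0 (L : ℕ) (hL : 1 ≤ L) : num2_S 0 L = Pz L / 2 - Pz (L + 1) / 24 := by
  have h1 := peel_opP (fun _ => 1) L 0 (by omega)
  have h2 := Av_at L 0 (by omega)
  have e : ∀ j, (Av (L - 1 - j) + Av j) * (Z (L - 1 - j) * Z j)
      = 2 * (Pz (L - 1 - j) * 1 * Z j + Z (L - 1 - j) * (Pz j * 1)) := by
    intro j; unfold Pz; ring
  simp only [e, ← mul_sum] at h2
  have h3 : opP (fun _ => 1) L = Pz (L + 1) / 12 + 2 * num2_S 0 L := by
    unfold opP num2_S; simp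
  have h4 : Av L * Z L = 2 * Pz L := by unfold Pz; ring
  have h5 : Av (L + 1) * Z (L + 1) = 2 * Pz (L + 1) := by unfold Pz; ring
  rw [h4, h5] at h2
  linarith

theorem num2_step (L : ℕ) (k : ℕ) :
    num2_S (k + 1) (L + 1) = ∑ j ∈ range L, Z j * (Pz (L - 1 - j) *
      ((8 * ((L - 1 - j : ℕ) : ℝ) + 4) * (((L - 1 - j : ℕ) : ℝ) + 1) ^ k)) := by
  unfold num2_S
  rw [sum_range_succ]
  have e0 : L + 1 - 1 - L = 0 := by omega
  rw [e0]
  simp only [Nat.cast_zero, ne_eq, Nat.add_eq_zero_iff, one_ne_zero, and_false, not_false_eq_true,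
    zero_pow, mul_zero, add_zero]
  refine sum_congr rfl fun j hj => ?_
  have := mem_range.1 hj
  rw [show L + 1 - 1 - j = (L - 1 - j) + 1 by omega, num2_rec]
  push_cast
  field_simp
  ring

theorem num2_S1_succ (L : ℕ) : num2_S 1 (L + 1) = 8 * num2_S 1 L + 4 * num2_S 0 L := by
  rw [num2_step L 0]
  unfold num2_S
  rw [mul_sum, mul_sum, ← sum_add_distrib]
  exact sum_congr rfl fun j _ => by ring

theorem num2_S2_succ (L : ℕ) :
    num2_S 2 (L + 1) = 8 * num2_S 2 L + 12 * num2_S 1 L + 4 * num2_S 0 L := by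
  rw [num2_step L 1]
  unfold num2_S
  rw [mul_sum, mul_sum, mul_sum, ← sum_add_distrib, ← sum_add_distrib]
  exact sum_congr rfl fun j _ => by ring

theorem num2_Pz1 : Pz 1 = 4 ∧ Pz 2 = 24 := by
  have h0 : Pz 0 = 1 := by unfold Pz Av; rw [Z_zero]; norm_num
  have h1 : Pz 1 = 4 := by rw [num2_rec 0, h0]; norm_num
  refine ⟨h1, ?_⟩
  rw [num2_rec 1, h1]; norm_num

theorem num2_S1 (L : ℕ) (hL : 1 ≤ L) :
    num2_S 1 L = L * num2_S 0 L - Pz (L + 1) / 24 := by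
  induction L, hL using Nat.le_induction with
  | base =>
    rw [num2_S0 1 le_rfl, num2_Pz1.1, num2_Pz1.2]
    simp [num2_S]
    norm_num
  | succ L hL ih =>
    rw [num2_S1_succ, ih, num2_S0 L hL, num2_S0 (L + 1) (by omega), num2_rec (L + 1), num2_rec L]
    push_cast
    field_simp
    ring

theorem num2_S2 (L : ℕ) (hL : 1 ≤ L) :
    num2_S 2 L = 8 ^ L / 4 - Pz (L + 1) / 24 + 2 * L * num2_S 1 L - (L : ℝ) ^ 2 * num2_S 0 L := by
  induction L, hL using Nat.le_induction with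
  | base =>
    rw [num2_S1 1 le_rfl, num2_S0 1 le_rfl, num2_Pz1.1, num2_Pz1.2]
    simp [num2_S]
    norm_num
  | succ L hL ih =>
    rw [num2_S2_succ, ih, num2_S1 L hL, num2_S1 (L + 1) (by omega), num2_S0 L hL,
      num2_S0 (L + 1) (by omega), num2_rec (L + 1), num2_rec L, pow_succ (8 : ℝ) L]
    push_cast
    field_simp
    ring

theorem opP_quad (h : ℕ → ℝ) (h0 α κ : ℝ) (L : ℕ) (hL : 1 ≤ L)
    (hh : ∀ n : ℕ, n ≤ L + 1 → h n ≤ h0 + α * ((n : ℝ) - L) + κ * ((n : ℝ) - L) ^ 2) :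
    opP h L ≤ h0 * Pz L + κ * 8 ^ L / 2 := by
  have h1 : Pz (L + 1) * h (L + 1) ≤ Pz (L + 1) * (h0 + α + κ) := by
    refine mul_le_mul_of_nonneg_left ?_ (Pz_pos _).le
    have := hh (L + 1) le_rfl
    push_cast at this
    simpa using this
  have h2 : ∑ j ∈ range L, Z j * (Pz (L - 1 - j) * h (L - 1 - j))
      ≤ (h0 - α * L + κ * (L : ℝ) ^ 2) * num2_S 0 L + (α - 2 * κ * L) * num2_S 1 L
        + κ * num2_S 2 L := by
    unfold num2_S
    rw [mul_sum, mul_sum, mul_sum, ← sum_add_distrib, ← sum_add_distrib]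
    refine sum_le_sum fun j _ => ?_
    have := mul_le_mul_of_nonneg_left (mul_le_mul_of_nonneg_left (hh (L - 1 - j) (by omega))
      (Pz_pos (L - 1 - j)).le) (Z_pos j).le
    refine this.trans_eq ?_
    ring
  rw [num2_S2 L hL, num2_S1 L hL, num2_S0 L hL] at h2
  unfold opP
  nlinarith

end Pool.Agent.QL.ND
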