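import Pool.Agent.P.MP_7a6434d8_pr.QL.ND.Num2

/-! The scale function. -/

namespace Pool.Agent.QL.ND

open Pool.Agent.P.MP_7a6434d8_pr Mp Finset
open scoped ENNReal

theorem phi_pos (Λ L : ℕ) : 0 < phi Λ L := by
  unfold phi
  positivity

theorem phi_mono (Λ : ℕ) {L L' : ℕ} (h : L ≤ L') : phi Λ L ≤ phi Λ L' := by
  unfold phi
  gcongr

theorem phi_le_one {Λ L : ℕ} (h : L ≤ Λ) : phi Λ L ≤ 1 := by
  refine (phi_mono Λ h).trans (le_of_eq ?_)
  rw [phi, div_self (by positivity), Real.one_rpow]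

theorem le_of_phi_le_one {Λ L : ℕ} (h : phi Λ L ≤ 1) : L ≤ Λ := by
  by_contra h1
  have h2 : (Λ : ℝ) < L := by exact_mod_cast not_le.1 h1
  refine absurd h (not_le.2 (Real.one_lt_rpow ?_ (by norm_num)))
  rw [one_lt_div (by positivity)]
  linarith

theorem phi_double (Λ : ℕ) {L L' : ℕ} (h : L' ≤ 2 * L) : phi Λ L' ≤ 2 * phi Λ L := by
  have h1 : (L' : ℝ) ≤ 2 * L := by exact_mod_cast h
  calc phi Λ L' ≤ (2 * ((2 * (L : ℝ) + 1) / (2 * Λ + 1))) ^ (1 / 128 : ℝ) := by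
        unfold phi
        refine Real.rpow_le_rpow (by positivity) ?_ (by norm_num)
        rw [← mul_div_assoc]
        gcongr
        linarith
    _ = 2 ^ (1 / 128 : ℝ) * phi Λ L := Real.mul_rpow (by norm_num) (by positivity)
    _ ≤ 2 * phi Λ L := mul_le_mul_of_nonneg_right
        (Real.rpow_le_self_of_one_le one_le_two (by norm_num)) (phi_pos Λ L).le

theorem phi_pow (Λ L : ℕ) : phi Λ L ^ 128 = (2 * (L : ℝ) + 1) / (2 * Λ + 1) := by
  rw [phi, one_div, ← Real.rpow_natCast, ← Real.rpow_mul (by positivity)]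
  norm_num

theorem phi_bern {s : ℝ} (h0 : 0 ≤ s) (h1 : s ≤ 4) :
    s ^ (1 / 128 : ℝ) ≤ 1 + (s - 1) / 128 - (s - 1) ^ 2 / 1152 := by
  have hq := Real.sqrt_nonneg s
  have e := Real.sq_sqrt h0
  have h2 : √s ≤ 2 := by nlinarith
  have h3 : s ^ (1 / 128 : ℝ) = (1 + (√s - 1)) ^ (1 / 64 : ℝ) := by
    rw [add_sub_cancel, Real.sqrt_eq_rpow, ← Real.rpow_mul h0]
    norm_num
  have h4 := rpow_one_add_le_one_add_mul_self (s := √s - 1) (p := 1 / 64) (by linarith)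
    (by norm_num) (by norm_num)
  have h5 : (s - 1) ^ 2 ≤ 9 * (√s - 1) ^ 2 := by
    have h6 : (s - 1) ^ 2 = (√s + 1) ^ 2 * (√s - 1) ^ 2 := by
      rw [← mul_pow]
      congr 1
      linarith
    rw [h6]
    exact mul_le_mul_of_nonneg_right (by nlinarith) (sq_nonneg _)
  rw [h3]
  nlinarith

theorem phi_drift : ∃ c : ℝ, 0 < c ∧ ∀ Λ L : ℕ, 1 ≤ L →
    opP (phi Λ) L ≤ (phi Λ L - c * phi Λ L / (((L : ℝ) + 1) * √((L : ℝ) + 1))) * Pz L := by
  obtain ⟨c, C, hc, -, h⟩ := pz_bounds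
  refine ⟨c / 2304, by positivity, fun Λ L hL => ?_⟩
  have hL' : (1 : ℝ) ≤ L := by exact_mod_cast hL
  have hp := phi_pos Λ L
  have hz := Pz_pos L
  refine (opP_quad (phi Λ) (phi Λ L) (phi Λ L / (64 * (2 * L + 1)))
    (-(phi Λ L / (288 * (2 * L + 1) ^ 2))) L hL fun n hn => ?_).trans ?_
  · have hn' : (n : ℝ) ≤ L + 1 := by exact_mod_cast hn
    have e : phi Λ n = phi Λ L * ((2 * (n : ℝ) + 1) / (2 * L + 1)) ^ (1 / 128 : ℝ) := by
      rw [phi, phi, ← Real.mul_rpow (by positivity) (by positivity)]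
      congr 1
      field_simp
    rw [e]
    refine (mul_le_mul_of_nonneg_left (phi_bern (by positivity) ?_) hp.le).trans (le_of_eq ?_)
    · rw [div_le_iff₀ (by positivity)]
      linarith
    · field_simp
      ring
  · have hs : 0 < √((L : ℝ) + 1) := Real.sqrt_pos.2 (by positivity)
    have e := Real.sq_sqrt (show (0 : ℝ) ≤ L + 1 by positivity)
    have h1 : c / 2304 * phi Λ L / (((L : ℝ) + 1) * √((L : ℝ) + 1)) * Pz L =
        phi Λ L / (288 * (2 * L + 2) ^ 2) * (c * √((L : ℝ) + 1) * Pz L) / 2 := by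
      generalize √((L : ℝ) + 1) = q at hs e
      rw [show 2 * (L : ℝ) + 2 = 2 * q ^ 2 by linarith, ← e]
      field_simp
      ring
    have h2 : phi Λ L / (288 * (2 * L + 2) ^ 2) * (c * √((L : ℝ) + 1) * Pz L) ≤
        phi Λ L / (288 * (2 * L + 1) ^ 2) * 8 ^ L := by
      gcongr
      · norm_num
      · exact (h L).1
    rw [sub_mul, h1]
    linarith

theorem phi_big (M : ℝ) : ∃ Λ0 : ℕ, ∀ Λ L0 : ℕ, Λ0 ≤ Λ → Λ < L0 ^ 3 →
    M ≤ L0 * phi Λ L0 ^ 2 ∧ M ≤ L0 * phi Λ L0 ^ 50 := by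
  refine ⟨⌈|M| ^ 64⌉₊ ^ 3, fun Λ L0 h1 h2 => ?_⟩
  have h3 : ⌈|M| ^ 64⌉₊ < L0 := lt_of_pow_lt_pow_left₀ 3 (Nat.zero_le _) (h1.trans_lt h2)
  have h4 : |M| ^ 64 ≤ L0 := (Nat.le_ceil _).trans (by exact_mod_cast h3.le)
  have h5 : (1 : ℝ) ≤ L0 := by exact_mod_cast (show 1 ≤ L0 by omega)
  have h6 : (Λ : ℝ) + 1 ≤ L0 ^ 3 := by exact_mod_cast h2
  have h7 : 1 ≤ (L0 : ℝ) ^ 2 * phi Λ L0 ^ 128 := by
    rw [phi_pow, ← mul_div_assoc, one_le_div (by positivity)]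
    nlinarith
  have hp := phi_pos Λ L0
  have key : ∀ m k : ℕ, 2 * m + k + 1 = 64 → M ≤ L0 * phi Λ L0 ^ (2 * m) := fun m k hm => by
    refine (le_abs_self M).trans (le_of_pow_le_pow_left₀ (n := 64) (by norm_num) (by positivity)
      (h4.trans ?_))
    have e : ((L0 : ℝ) * phi Λ L0 ^ (2 * m)) ^ 64 =
        L0 * (L0 ^ k * (L0 ^ 2 * phi Λ L0 ^ 128) ^ m) := by
      rw [mul_pow, show (L0 : ℝ) ^ 64 = L0 ^ (2 * m + k + 1) by rw [hm]]
      ring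
    rw [e]
    exact le_mul_of_one_le_right (by positivity)
      (one_le_mul_of_one_le_of_one_le (one_le_pow₀ h5) (one_le_pow₀ h7))
  exact ⟨key 1 61 rfl, key 25 13 rfl⟩

theorem phi_small (η : ℝ) (hη : 0 < η) : ∃ K : ℕ, 1 ≤ K ∧ ∀ L : ℕ, 1 ≤ L → phi (K * L) L ≤ η := by
  obtain ⟨K, hK⟩ := exists_nat_gt (2 / η ^ 128)
  have h0 : 0 < η ^ 128 := by positivity
  have h1 : (0 : ℝ) < K := lt_trans (by positivity) hK
  refine ⟨K, by exact_mod_cast h1, fun L hL => ?_⟩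
  have hL' : (1 : ℝ) ≤ L := by exact_mod_cast hL
  refine le_of_pow_le_pow_left₀ (n := 128) (by norm_num) hη.le ?_
  rw [div_lt_iff₀ h0] at hK
  rw [phi_pow, div_le_iff₀ (by positivity)]
  push_cast
  nlinarith [mul_le_mul_of_nonneg_right hK.le (zero_le_one.trans hL')]

end Pool.Agent.QL.ND
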