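import Pool.Agent.P.MP_7a6434d8_pr.QL.ND.Ems

/-! Labels along the exploration. -/

namespace Pool.Agent.QL.ND

open Pool.Agent.P.MP_7a6434d8_pr Mp Finset
open scoped ENNReal

theorem rch_mono {e : Ex} {lo hi n n' : ℕ} {z : ℕ ⊕ e.X} (h : e.rch lo hi n z) (hn : n ≤ n') :
    e.rch lo hi n' z := by
  induction hn with
  | refl => exact h
  | step _ ih => exact Or.inl ih

theorem cntR_le (e : Ex) (lo hi r : ℕ) : e.cntR lo hi r ≤ e.b + 1 := by
  classical
  unfold Ex.cntR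
  exact (card_filter_le _ _).trans (card_range _).le

theorem cntR_pos {e : Ex} {lo hi r p : ℕ} (hp : p ≤ e.b) (h : e.rch lo hi r (Sum.inl p)) :
    1 ≤ e.cntR lo hi r := by
  classical
  unfold Ex.cntR
  exact card_pos.2 ⟨p, mem_filter.2 ⟨mem_range.2 (Nat.lt_succ_of_le hp), h⟩⟩

theorem noLow_zero (e : Ex) (lo hi : ℕ) : e.NoLow lo hi 0 := by
  intro n p hn
  exact absurd hn (Nat.not_lt_zero n)

theorem noLow_succ {e : Ex} {lo hi r : ℕ} (h : ∀ p, ¬ e.rch lo hi r (Sum.inl p)) :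
    e.NoLow lo hi (r + 1) := by
  intro n p hn hr
  exact h p (rch_mono hr (Nat.le_of_lt_succ hn))

theorem rch_back {e e' : Ex} {lo hi r : ℕ} (φ : ℕ ⊕ e.X → ℕ ⊕ e'.X)
    (hbd : ∀ p, e'.bd p = φ (e.bd p))
    (hinj : ∀ z x, φ z = φ (Sum.inr x) → z = Sum.inr x)
    (hel : ∀ x z', s(φ (Sum.inr x), z') ∈ e'.el →
      s(φ (Sum.inr x), z') ∈ e.el.map (Sym2.map φ))
    (h : e.NoLow lo hi r) {n : ℕ} (hn : n ≤ r) {z' : ℕ ⊕ e'.X} (hz : e'.rch lo hi n z') :
    ∃ z, φ z = z' ∧ e.rch lo hi n z := by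
  induction n generalizing z' with
  | zero =>
    obtain ⟨p, h1, h2, rfl⟩ := hz
    exact ⟨e.bd p, (hbd p).symm, p, h1, h2, rfl⟩
  | succ n ih =>
    rcases hz with hz | ⟨z'', hz, he⟩
    · obtain ⟨z, h1, h2⟩ := ih (Nat.le_of_succ_le hn) hz
      exact ⟨z, h1, Or.inl h2⟩
    · obtain ⟨w, rfl, h2⟩ := ih (Nat.le_of_succ_le hn) hz
      rcases w with p | x
      · exact absurd h2 (h n p hn)
      · obtain ⟨s, hs, hs'⟩ := Multiset.mem_map.1 (hel x z' he)
        induction s using Sym2.ind with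
        | h c d =>
          rw [Sym2.map_mk, Sym2.eq_iff] at hs'
          rcases hs' with ⟨h3, h4⟩ | ⟨h3, h4⟩
          · obtain rfl := hinj c x h3
            exact ⟨d, h4, Or.inr ⟨_, h2, hs⟩⟩
          · obtain rfl := hinj d x h4
            exact ⟨c, h3, Or.inr ⟨_, h2, by rwa [Sym2.eq_swap]⟩⟩

theorem rch_fmap_inj {X : Type} (k : ℕ) (z : ℕ ⊕ X) (x : X)
    (hz : Ex.fmap k z = Ex.fmap k (Sum.inr x)) : z = Sum.inr x := by
  rcases z with p | y
  · exact absurd hz (by simp [Ex.fmap])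
  · simpa [Ex.fmap] using hz

theorem rch_fmap_el {X : Type} (k : ℕ) (M : Multiset (Sym2 (ℕ ⊕ X))) (x : X) (z' : ℕ ⊕ X)
    (he : s(Ex.fmap k (Sum.inr x), z') ∈ M + {s(Sum.inl k, Sum.inl (k + 3))}) :
    s(Ex.fmap k (Sum.inr x), z') ∈ M := by
  rcases Multiset.mem_add.1 he with he | he
  · exact he
  · rw [Multiset.mem_singleton, Sym2.eq_iff] at he
    simp [Ex.fmap] at he

theorem rch_fc {e : Ex} {lo hi r k : ℕ} (h : e.NoLow lo hi r) {n q : ℕ} (hn : n ≤ r)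
    (hz : (e.fc k).rch lo hi n (Sum.inl q)) :
    ∃ p, (if p ≤ k then p else p + 2) = q ∧ e.rch lo hi n (Sum.inl p) := by
  obtain ⟨z, h1, h2⟩ := rch_back (e := e) (e' := e.fc k) (Ex.fmap k) (fun _ => rfl)
    (rch_fmap_inj k) (rch_fmap_el k _) h hn hz
  rcases z with p | y
  · exact ⟨p, Sum.inl.inj h1, h2⟩
  · exact absurd h1 (by simp [Ex.fmap])

theorem noLow_fc {e : Ex} {lo hi r k : ℕ} (hk : k < e.b) (h : e.NoLow lo hi r) :
    (e.fc k).NoLow lo hi r ∧ (e.fc k).cntR lo hi r ≤ e.cntR lo hi r := by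
  classical
  refine ⟨fun n q hn hq => ?_, ?_⟩
  · obtain ⟨p, -, hp⟩ := rch_fc h hn.le hq
    exact h n p hn hp
  · unfold Ex.cntR
    refine le_trans (card_le_card ?_) (card_image_le (f := fun p => if p ≤ k then p else p + 2))
    intro q hq
    obtain ⟨h1, h2⟩ := mem_filter.1 hq
    obtain ⟨p, h3, h4⟩ := rch_fc h le_rfl h2
    refine mem_image.2 ⟨p, mem_filter.2 ⟨mem_range.2 ?_, h4⟩, h3⟩
    have h5 : q < e.b + 2 + 1 := mem_range.1 h1
    split_ifs at h3 <;> omega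

theorem rch_bmap_inj {X : Type} (m : ℕ) (W : Mp) (z : ℕ ⊕ X) (x : X)
    (hz : Ex.bmap m W z = Ex.bmap m W (Sum.inr x)) : z = Sum.inr x := by
  rcases z with p | y
  · simp only [Ex.bmap, Sum.elim_inl, Sum.elim_inr] at hz
    split_ifs at hz
    simp at hz
  · simpa [Ex.bmap] using hz

theorem rch_bmap_el {X : Type} (m : ℕ) (W : Mp) (M : Multiset (Sym2 (ℕ ⊕ (X ⊕ V W)))) (x : X)
    (z' : ℕ ⊕ (X ⊕ V W))
    (he : s(Ex.bmap m W (Sum.inr x), z') ∈
      M + (ems W).map (Sym2.map (fun v => Sum.inr (Sum.inr v)))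
        + {s(Sum.inl m, Sum.inr (Sum.inr (bv W 0)))}) :
    s(Ex.bmap m W (Sum.inr x), z') ∈ M := by
  rcases Multiset.mem_add.1 he with he | he
  · rcases Multiset.mem_add.1 he with he | he
    · exact he
    · obtain ⟨s, -, hs⟩ := Multiset.mem_map.1 he
      induction s using Sym2.ind with
      | h c d =>
        rw [Sym2.map_mk, Sym2.eq_iff] at hs
        simp [Ex.bmap] at hs
  · rw [Multiset.mem_singleton, Sym2.eq_iff] at he
    simp [Ex.bmap] at he

theorem rch_br {e : Ex} {lo hi r m : ℕ} {W : Mp} (h : e.NoLow lo hi r) {n q : ℕ} (hn : n ≤ r)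
    (hz : (e.br m W).rch lo hi n (Sum.inl q)) :
    ∃ p, ((p ≤ m ∧ q = p) ∨ (m + 1 + 2 * per W < p ∧ q = p - 2 * per W - 2)) ∧
      e.rch lo hi n (Sum.inl p) := by
  obtain ⟨z, h1, h2⟩ := rch_back (e := e) (e' := e.br m W) (Ex.bmap m W) (fun _ => rfl)
    (rch_bmap_inj m W) (rch_bmap_el m W _) h hn hz
  rcases z with p | y
  · refine ⟨p, ?_, h2⟩
    simp only [Ex.bmap, Sum.elim_inl] at h1
    split_ifs at h1 with c1 c2
    · exact Or.inl ⟨c1, (Sum.inl.inj h1).symm⟩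
    · exact Or.inr ⟨by omega, (Sum.inl.inj h1).symm⟩
  · exact absurd h1 (by simp [Ex.bmap])

theorem noLow_br {e : Ex} {lo hi r m : ℕ} {W : Mp} (hm : m + 2 * per W + 2 ≤ e.b)
    (h : e.NoLow lo hi r) :
    (e.br m W).NoLow lo hi r ∧ (e.br m W).cntR lo hi r ≤ e.cntR lo hi r ∧
      (e.rch lo hi r (Sum.inl (m + 1 + 2 * per W)) →
        (e.br m W).cntR lo hi r + 1 ≤ e.cntR lo hi r) := by
  classical
  have key : (e.br m W).cntR lo hi r ≤ (((range (e.b + 1)).filter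
      (fun p => e.rch lo hi r (Sum.inl p))).erase (m + 1 + 2 * per W)).card := by
    unfold Ex.cntR
    refine le_trans (card_le_card ?_)
      (card_image_le (f := fun p => if p ≤ m then p else p - 2 * per W - 2))
    intro q hq
    obtain ⟨h1, h2⟩ := mem_filter.1 hq
    obtain ⟨p, h3, h4⟩ := rch_br h le_rfl h2
    have h5 : q < e.b - 2 * per W - 2 + 1 := mem_range.1 h1
    refine mem_image.2 ⟨p, mem_erase.2 ⟨by omega, mem_filter.2 ⟨mem_range.2 (by omega), h4⟩⟩, ?_⟩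
    split_ifs <;> omega
  refine ⟨fun n q hn hq => ?_, key.trans card_erase_le, fun hr => ?_⟩
  · obtain ⟨p, -, hp⟩ := rch_br h hn.le hq
    exact h n p hn hp
  · have hmem : m + 1 + 2 * per W ∈ (range (e.b + 1)).filter
        (fun p => e.rch lo hi r (Sum.inl p)) := mem_filter.2 ⟨mem_range.2 (by omega), hr⟩
    exact (Nat.succ_le_succ key).trans (card_erase_add_one hmem).le

end Pool.Agent.QL.ND
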