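import Pool.Agent.P.MP_7a6434d8_pr.QL.ND.Defs2
import Pool.Agent.P.MP_7a6434d8_pr.Chain
import Pool.Agent.P.MP_7a6434d8_pr.Cross

/-! Rings of chords bound Green-like functions. -/

namespace Pool.Agent.QL.ND

open Pool.Agent.P.MP_7a6434d8_pr Mp Finset
open scoped ENNReal

theorem ringd_trans {t : Mp} {K : V t → Prop} {x y z : V t} (h : Conn t K x y)
    (h' : Conn t K y z) : Conn t K x z := ⟨h.1, h.2.trans h'.2⟩

theorem ringd_symm {t : Mp} {K : V t → Prop} {x y : V t} (h : Conn t K x y) : Conn t K y x := by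
  obtain ⟨hx, h⟩ := h
  induction h with
  | refl => exact chain_conn_refl hx
  | tail _ h2 ih => exact chain_conn_head ih (adj_symm t _ _ h2.1) h2.2

theorem ringd_ind {t : Mp} (ht : ok t) {x0 N a H q : ℕ} {T : ℝ} {v : V t} (hT : 0 ≤ T)
    (hK : ∀ i, i < N → ∃ K, ChordK t (x0 + i * a) a H T K ∧ K v)
    (hN : x0 + N * a + H < 2 * per t) (f : V t → ℝ) (hf : energy t f < 1)
    (h0 : ∀ p, p ≤ x0 → f (bv t p) ≤ 0) (i : ℕ) (hi : i < N) (hq : x0 + i * a ≤ q) :
    ∃ (p q' : ℕ) (P K U : V t → Prop), p ≤ q ∧ x0 + (i + 1) * a < q' ∧ q' ≤ 2 * per t ∧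
      Conn t P (bv t p) (bv t q') ∧ Conn t K v (bv t (2 * per t)) ∧ (∀ z, P z → ¬ K z) ∧
      (∀ z, P z → U z) ∧ Conn t U (bv t 0) (bv t q') ∧ ∀ z, U z → f z ≤ (i + 1) * T := by
  have key : ∀ i, i < N → ∃ (p q' : ℕ) (P K : V t → Prop), p < x0 + i * a ∧
      x0 + (i + 1) * a < q' ∧ q' ≤ 2 * per t ∧ Conn t P (bv t p) (bv t q') ∧
      Conn t K v (bv t (2 * per t)) ∧ (∀ z, P z → ¬ K z) ∧
      ∀ z z', P z → P z' → f z - f z' ≤ T := fun i hi => by
    obtain ⟨K, hC, hv⟩ := hK i hi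
    obtain ⟨p, q', P, -, g2, g3, -, g5, g6, g7, g8⟩ := hC.path f hf
    have : (i + 1) * a ≤ N * a := Nat.mul_le_mul_right a hi
    rw [add_mul, one_mul] at this
    exact ⟨p, q', P, K, g2, by rw [add_mul, one_mul]; omega, g5, g6,
      hC.conn _ _ hv (hC.far _ le_rfl (.inr (by omega))), g7, g8⟩
  induction i with
  | zero =>
    obtain ⟨p, q', P, K, g1, g2, g3, g4, g5, g6, g7⟩ := key 0 hi
    refine ⟨p, q', P, K, fun z => P z ∨ ∃ r, r ≤ p ∧ z = bv t r, by omega, g2, g3, g4, g5, g6,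
      fun z hz => .inl hz, ringd_trans (chain_arc t ht _ 0 p (by omega)
        (fun r _ hr => .inr ⟨r, hr, rfl⟩) p (Nat.zero_le _) le_rfl)
        (chain_conn_mono (fun z hz => .inl hz) g4), ?_⟩
    rintro z (hz | ⟨r, hr, rfl⟩)
    · have := g7 z _ hz g4.1
      have := h0 p (by omega)
      push_cast; linarith
    · have := h0 r (by omega)
      push_cast; linarith
  | succ i ih =>
    obtain ⟨p, q', P, K, U, k1, k2, k3, k4, k5, k6, k7, k8, k9⟩ :=
      ih (by omega) (by rw [add_mul] at hq; omega)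
    obtain ⟨p1, q1, P1, K1, g1, g2, g3, g4, g5, g6, g7⟩ := key (i + 1) hi
    rcases le_or_gt q1 q' with h | h
    · refine ⟨p, q', P, K, U, k1, by omega, k3, k4, k5, k6, k7, k8, fun z hz => ?_⟩
      have := k9 z hz
      push_cast; linarith
    · obtain ⟨z, hz1, hz2⟩ := cross t ht _ _ 0 p1 q' q1 (Nat.zero_le _) (by omega) h.le g3
        (chain_conn_self k8) (chain_conn_self g4)
      refine ⟨p1, q1, P1, K1, fun z => U z ∨ P1 z, by omega, g2, g3, g4, g5, g6,
        fun z hz => .inr hz, ringd_trans (chain_conn_mono (fun z hz => .inl hz) hz1)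
          (chain_conn_mono (fun z hz => .inr hz) (ringd_trans (ringd_symm hz2) g4)), ?_⟩
      rintro y (hy | hy)
      · have := k9 y hy
        push_cast; linarith
      · have := k9 z (chain_conn_right hz1)
        have := g7 y z hy (chain_conn_right hz2)
        push_cast; linarith

theorem ring_det {t : Mp} (ht : ok t) {x0 N a H q : ℕ} {T ρ : ℝ} {v : V t} (hT : 0 ≤ T)
    (hK : ∀ i, i < N → ∃ K, ChordK t (x0 + i * a) a H T K ∧ K v)
    (hN : x0 + N * a + H < 2 * per t) (f : V t → ℝ) (hf : energy t f < 1)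
    (h0 : ∀ p, p ≤ x0 → f (bv t p) ≤ 0) (S : V t → Prop) (hS : Conn t S (bv t q) v)
    (hq1 : x0 ≤ q) (hq2 : q < x0 + N * a) (hρ : ∀ z, S z → ρ ≤ f z) : ρ ≤ N * T := by
  have ha : 0 < a := by
    rcases Nat.eq_zero_or_pos a with rfl | h
    · omega
    · exact h
  have e1 := Nat.div_add_mod (q - x0) a
  have e2 := Nat.mod_lt (q - x0) ha
  have e3 : (q - x0) / a < N := by
    rw [Nat.div_lt_iff_lt_mul ha]; omega
  rw [mul_comm] at e1
  obtain ⟨p, q', P, K, U, k1, k2, k3, k4, k5, k6, k7, -, k9⟩ :=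
    ringd_ind ht (q := q) hT hK hN f hf h0 _ e3 (by omega)
  rw [add_mul, one_mul] at k2
  obtain ⟨z, hz1, hz2⟩ := cross t ht P (fun z => S z ∨ K z) p q q' (2 * per t) k1 (by omega) k3
    le_rfl k4 (ringd_trans (chain_conn_mono (fun z hz => .inl hz) hS)
      (chain_conn_mono (fun z hz => .inr hz) k5))
  have h1 := hρ z (hz2.resolve_right (k6 z hz1))
  have h2 := k9 z (k7 z hz1)
  have h3 : (((q - x0) / a : ℕ) : ℝ) + 1 ≤ N := by exact_mod_cast e3
  nlinarith

theorem gin_ring {t : Mp} (ht : ok t) {a : ℕ} {T m : ℝ} {v : V t} {G : V t → ℝ} (ha : 1 ≤ a)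
    (ha' : a ≤ per t / 16) (hT : 0 ≤ T) (hR : RingV t a T v)
    (hG : GIn t (per t / 4 + 1) (2 * per t - 2 * (per t / 4) - 2) v G m) :
    m ≤ 4 * (nT (per t) a : ℝ) ^ 2 * T ^ 2 := by
  rcases hG.m0.eq_or_lt with rfl | hm
  · positivity
  obtain ⟨p, hp, hc⟩ := hG.pm hm
  have hs : 0 < √m := Real.sqrt_pos.2 hm
  have hs2 : √m * √m = m := Real.mul_self_sqrt hm.le
  have e1 := Nat.div_add_mod (2 * per t - 2 * (per t / 4)) a
  have e2 := Nat.mod_lt (2 * per t - 2 * (per t / 4)) ha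
  have e3 : nT (per t) a * a = a * ((2 * per t - 2 * (per t / 4)) / a) + a := by
    rw [nT]; ring
  have e4 : ¬ (p < per t / 4 + 1 ∨ per t / 4 + 1 + (2 * per t - 2 * (per t / 4) - 2) < p) :=
    fun h => by
      have := hG.old p hp h
      have : m ≤ G (bv t p) := hc.1
      linarith
  have h := ring_det ht (x0 := per t / 4) (N := nT (per t) a) (a := a) (H := per t / 16) (q := p)
    (ρ := √m / 2) hT hR (by omega) (fun z => (2 * √m)⁻¹ * max 0 (min (G z) m)) ?_ ?_ _ hc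
    (by omega) (by omega) ?_
  · have h1 : √m ≤ 2 * (nT (per t) a * T) := by linarith
    nlinarith [mul_self_le_mul_self hs.le h1]
  · rw [energy_smul]
    have h1 := hG.en 0 m le_rfl hm.le
    calc (2 * √m)⁻¹ ^ 2 * energy t (fun z => max 0 (min (G z) m))
        ≤ (2 * √m)⁻¹ ^ 2 * (m - 0) := by gcongr
      _ = 1 / 4 := by
        rw [sub_zero]
        nth_rewrite 2 [← hs2]
        field_simp
        norm_num
      _ < 1 := by norm_num
  · intro r hr
    have := hG.old r (by omega) (.inl (by omega))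
    rw [max_eq_left ((min_le_left _ _).trans this), mul_zero]
  · intro z hz
    rw [min_eq_right hz, max_eq_right hm.le]
    nth_rewrite 3 [← hs2]
    field_simp
    exact le_rfl

end Pool.Agent.QL.ND
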