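import Pool.Agent.P.MP_7a6434d8_pr.QL.ND.SubL
import Pool.Agent.P.MP_7a6434d8_pr.QL.ND.RingD
import Pool.Agent.P.MP_7a6434d8_pr.ZBase

/-! Monotonicity of the trapping time. -/

namespace Pool.Agent.QL.ND

open Pool.Agent.P.MP_7a6434d8_pr Mp Finset
open scoped ENNReal

theorem trapl_le_trapIn {V0 U : ℝ} {x b : ℕ} {t : Mp} {v : V t} {G : V t → ℝ} {m : ℝ}
    (hG : GIn t x b v G m) (S : Finset (V t)) (hS : ∑ z ∈ S, dg t z ≤ V0) :
    ENNReal.ofReal (m * U + ∑ z ∈ S, dg t z * max (G z - m) 0) ≤ trapIn V0 U x b t v := by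
  unfold trapIn
  exact le_iSup_of_le G (le_iSup_of_le m (le_iSup_of_le hG (le_iSup_of_le S
    (le_iSup_of_le hS le_rfl))))

theorem trapl_le_trap {V0 : ℝ} {t : Mp} {v : V t} {G : V t → ℝ}
    (hG : GIn t 0 0 v G 0) (S : Finset (V t)) (hS : ∑ z ∈ S, dg t z ≤ V0) :
    ENNReal.ofReal (∑ z ∈ S, dg t z * max (G z) 0) ≤ trap V0 t v := by
  unfold trap
  exact le_iSup_of_le G (le_iSup_of_le hG (le_iSup_of_le S (le_iSup_of_le hS le_rfl)))

theorem trap_le_in (V0 U : ℝ) (x b : ℕ) (t : Mp) (v : V t) :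
    trap V0 t v ≤ trapIn V0 U x b t v := by
  unfold trap
  refine iSup_le fun G => iSup_le fun hG => iSup_le fun S => iSup_le fun hS => ?_
  have hG' : GIn t x b v G 0 :=
    ⟨hG.en, fun p hp _ => hG.mb p hp, le_rfl, hG.mb, hG.pa, hG.pm⟩
  have h := trapl_le_trapIn (U := U) hG' S hS
  simpa using h

theorem trapl_conn_symm {t : Mp} {K : V t → Prop} {x y : V t} (h : Conn t K x y) :
    Conn t K y x := by
  obtain ⟨hx, hp⟩ := h
  induction hp with
  | refl => exact chain_conn_refl hx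
  | tail hab hbc ih =>
    exact chain_conn_head ih (adj_symm t _ _ hbc.1) hbc.2

/-- a path from an image vertex lifts up to its first boundary vertex of the sub-disc -/
theorem trapl_lift {t' t : Mp} {ι : V t' → V t} (S : Sub t' t ι) {K : V t → Prop} {v : V t'}
    {w : V t} (h : Conn t K (ι v) w) :
    (∃ p, p ≤ 2 * per t' ∧ Conn t' (fun a => K (ι a)) v (bv t' p)) ∨
      ∃ a, w = ι a ∧ Conn t' (fun a => K (ι a)) v a := by
  obtain ⟨hx, hp⟩ := h
  induction hp with
  | refl => exact Or.inr ⟨v, rfl, chain_conn_refl hx⟩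
  | tail hab hbc ih =>
    rcases ih with ih | ⟨a, rfl, ha⟩
    · exact Or.inl ih
    · rcases S.back a _ hbc.1 with ⟨p, hp, rfl⟩ | ⟨c, rfl, hc⟩
      · exact Or.inl ⟨p, hp, ha⟩
      · exact Or.inr ⟨c, rfl, chain_conn_tail ha hc hbc.2⟩

/-- a path that avoids the boundary of the sub-disc lifts completely -/
theorem trapl_lift_in {t' t : Mp} {ι : V t' → V t} (S : Sub t' t ι) {K : V t → Prop} {v : V t'}
    {w : V t} (h : Conn t K (ι v) w) (hK : ∀ p, p ≤ 2 * per t' → ¬ K (ι (bv t' p))) :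
    ∃ a, w = ι a ∧ Conn t' (fun a => K (ι a)) v a := by
  rcases trapl_lift S h with ⟨p, hp, hc⟩ | h'
  · exact absurd (chain_conn_right hc) (hK p hp)
  · exact h'

theorem trapl_dg_le {t' t : Mp} {ι : V t' → V t} (S : Sub t' t ι) (a : V t') :
    dg t' a ≤ dg t (ι a) := by
  classical
  unfold dg
  refine le_trans (le_of_eq ?_) (S.en _)
  congr 1
  funext z
  by_cases hz : z = a
  · simp [hz]
  · have : ι z ≠ ι a := fun h => hz (S.inj h)
    simp [hz, this]

theorem trapl_exists_max (f : ℕ → ℝ) (n : ℕ) (m : ℝ) :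
    ∃ m', m ≤ m' ∧ (∀ p, p ≤ n → f p ≤ m') ∧ (m' = m ∨ ∃ p, p ≤ n ∧ m' = f p ∧ m < m') := by
  obtain ⟨p0, hp0, hmax⟩ := Finset.exists_max_image (range (n + 1)) f ⟨0, by simp⟩
  have hp0' : p0 ≤ n := Nat.lt_succ_iff.mp (mem_range.mp hp0)
  have hmax' : ∀ p, p ≤ n → f p ≤ f p0 := fun p hp =>
    hmax p (mem_range.mpr (Nat.lt_succ_iff.mpr hp))
  by_cases h : f p0 ≤ m
  · exact ⟨m, le_rfl, fun p hp => (hmax' p hp).trans h, Or.inl rfl⟩
  · push Not at h
    exact ⟨f p0, h.le, hmax', Or.inr ⟨p0, hp0', rfl, h⟩⟩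

theorem trapl_gin_sub {t' t : Mp} {ι : V t' → V t} {x' b' x b : ℕ} (S : Sub t' t ι)
    (O : OldMap t' t ι x' b' x b) {v : V t'} {G : V t → ℝ} {m m' : ℝ}
    (hG : GIn t x b (ι v) G m) (hm : m ≤ m')
    (hb : ∀ p, p ≤ 2 * per t' → G (ι (bv t' p)) ≤ m')
    (hc : m' = m ∨ ∃ p, p ≤ 2 * per t' ∧ m' = G (ι (bv t' p)) ∧ m < m') :
    GIn t' x' b' v (fun a => G (ι a)) m' := by
  refine ⟨fun s s' hs hss => ?_, fun p hp hx => ?_, hG.m0.trans hm, hb, fun z hz => ?_,
    fun h0 => ?_⟩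
  · exact (S.en (fun z => max s (min (G z) s'))).trans (hG.en s s' hs hss)
  · obtain ⟨q, hq, hqx, he⟩ := O p hp hx
    show G (ι (bv t' p)) ≤ 0
    rw [he]
    exact hG.old q hq hqx
  · have h1 := hG.pa (ι z) (lt_of_le_of_lt hm hz)
    obtain ⟨a, ha, hcon⟩ := trapl_lift_in S h1 (fun p hp hK => by
      have := hb p hp
      have hz' : m' < G (ι z) := hz
      linarith)
    have : v = a := S.inj ha
    subst this
    exact hcon
  · rcases hc with rfl | ⟨p0, hp0, he, hlt⟩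
    · obtain ⟨p, hp, hcon⟩ := hG.pm h0
      rcases trapl_lift S (trapl_conn_symm hcon) with ⟨q, hq, hq'⟩ | ⟨a, ha, ha'⟩
      · exact ⟨q, hq, trapl_conn_symm hq'⟩
      · obtain ⟨q, hq, rfl⟩ := S.bdry p a hp ha
        exact ⟨q, hq, trapl_conn_symm ha'⟩
    · have h1 := hG.pa (ι (bv t' p0)) (he ▸ hlt)
      rw [← he] at h1
      rcases trapl_lift S (trapl_conn_symm h1) with ⟨q, hq, hq'⟩ | ⟨a, ha, ha'⟩
      · exact ⟨q, hq, trapl_conn_symm hq'⟩
      · have : bv t' p0 = a := S.inj ha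
        subst this
        exact ⟨p0, hp0, trapl_conn_symm ha'⟩

theorem trapIn_sub {V0 U : ℝ} {t' t : Mp} {ι : V t' → V t} {x' b' x b : ℕ} (S : Sub t' t ι)
    (O : OldMap t' t ι x' b' x b)
    (hU : ∀ A : Finset (V t), ∑ z ∈ A, dg t z ≤ V0 → ∑ z ∈ A, dg t z ≤ U) (v : V t') :
    trapIn V0 U x b t (ι v) ≤ trapIn V0 U x' b' t' v := by
  classical
  conv_lhs => unfold trapIn
  refine iSup_le fun G => iSup_le fun m => iSup_le fun hG => iSup_le fun A => iSup_le fun hA => ?_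
  obtain ⟨m', hm, hb, hc⟩ := trapl_exists_max (fun p => G (ι (bv t' p))) (2 * per t') m
  have hG' := trapl_gin_sub S O hG hm hb hc
  set A' : Finset (V t') := univ.filter (fun a => ι a ∈ A ∧ m' < G (ι a)) with hA'
  have hmap : A'.image ι = A.filter (fun z => m' < G z) := by
    ext z
    simp only [hA', mem_image, mem_filter, mem_univ, true_and]
    constructor
    · rintro ⟨a, ⟨h1, h2⟩, rfl⟩
      exact ⟨h1, h2⟩
    · rintro ⟨h1, h2⟩
      have h3 := hG.pa z (lt_of_le_of_lt hm h2)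
      obtain ⟨a, ha, -⟩ := trapl_lift_in S (trapl_conn_symm h3) (fun p hp hK => by
        have h4 : G (ι (bv t' p)) ≤ m' := hb p hp
        linarith)
      subst ha
      exact ⟨a, ⟨h1, h2⟩, rfl⟩
  have hsum : ∀ F : V t → ℝ, ∑ z ∈ A.filter (fun z => m' < G z), F z = ∑ a ∈ A', F (ι a) := by
    intro F
    rw [← hmap, sum_image (fun a _ c _ h => S.inj h)]
  have hvol : ∑ a ∈ A', dg t' a ≤ V0 := by
    calc ∑ a ∈ A', dg t' a ≤ ∑ a ∈ A', dg t (ι a) := sum_le_sum fun a _ => trapl_dg_le S a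
      _ = ∑ z ∈ A.filter (fun z => m' < G z), dg t z := (hsum _).symm
      _ ≤ ∑ z ∈ A, dg t z :=
        sum_le_sum_of_subset_of_nonneg (filter_subset _ _) fun z _ _ => dg_nonneg t z
      _ ≤ V0 := hA
  refine le_trans (ENNReal.ofReal_le_ofReal ?_) (trapl_le_trapIn (U := U) hG' A' hvol)
  have h1 : ∑ z ∈ A, dg t z * max (G z - m) 0
      ≤ ∑ z ∈ A, (dg t z * (m' - m) + if m' < G z then dg t z * (G z - m') else 0) := by
    refine sum_le_sum fun z _ => ?_
    have hd := dg_nonneg t z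
    by_cases hz : m' < G z
    · rw [if_pos hz, max_eq_left (by linarith)]
      exact le_of_eq (by ring)
    · rw [if_neg hz, add_zero]
      exact mul_le_mul_of_nonneg_left (max_le (by linarith) (by linarith)) hd
  have h2 : ∑ z ∈ A, (if m' < G z then dg t z * (G z - m') else 0)
      ≤ ∑ a ∈ A', dg t' a * max (G (ι a) - m') 0 := by
    rw [← sum_filter, hsum]
    refine sum_le_sum fun a ha => ?_
    have ha2 : m' < G (ι a) := (mem_filter.mp ha).2.2
    rw [max_eq_left (by linarith)]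
    refine mul_le_mul_of_nonneg_right (S.deg a fun p hp he => ?_) (by linarith)
    have h4 : G (ι (bv t' p)) ≤ m' := hb p hp
    rw [he] at ha2
    linarith
  have h3 : ∑ z ∈ A, dg t z * (m' - m) ≤ U * (m' - m) := by
    rw [← sum_mul]
    exact mul_le_mul_of_nonneg_right (hU A hA) (by linarith)
  rw [sum_add_distrib] at h1
  linarith

theorem trapl_gin_shift {t : Mp} {x b : ℕ} {v : V t} {G : V t → ℝ} {m : ℝ}
    (hG : GIn t x b v G m) : GIn t 0 0 v (fun z => G z - m) 0 := by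
  have hm := hG.m0
  refine ⟨fun s s' hs hss => ?_, fun p hp _ => ?_, le_rfl, fun p hp => ?_, fun z hz => ?_,
    fun h0 => absurd h0 (lt_irrefl _)⟩
  · have h1 := hG.en (s + m) (s' + m) (by linarith) (by linarith)
    have h2 : ∀ z, max s (min (G z - m) s') = max (s + m) (min (G z) (s' + m)) - m := by
      intro z
      rw [← max_sub_sub_right, ← min_sub_sub_right]
      simp
    refine le_trans (energy_le_of_adj t _ _ fun y y' _ => ?_) (h1.trans (by linarith))
    rw [h2, h2]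
    exact le_of_eq (by ring)
  · have := hG.mb p hp
    linarith
  · have := hG.mb p hp
    linarith
  · have h1 := hG.pa z (by linarith)
    exact chain_conn_mono (fun y hy => by
      have hy' : G z ≤ G y := hy
      show G z - m ≤ G y - m
      linarith) h1

theorem trapIn_ring {V0 U T : ℝ} {t : Mp} (ht : ok t) {a : ℕ} {v : V t} (ha : 1 ≤ a)
    (ha' : a ≤ per t / 16) (hT : 0 ≤ T) (hU : 0 ≤ U) (hR : RingV t a T v) :
    trapIn V0 U (per t / 4 + 1) (2 * per t - 2 * (per t / 4) - 2) t v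
      ≤ ENNReal.ofReal (4 * (nT (per t) a : ℝ) ^ 2 * T ^ 2 * U) + trap V0 t v := by
  unfold trapIn
  refine iSup_le fun G => iSup_le fun m => iSup_le fun hG => iSup_le fun A => iSup_le fun hA => ?_
  have hm := gin_ring ht ha ha' hT hR hG
  refine le_trans ENNReal.ofReal_add_le (add_le_add ?_ ?_)
  · exact ENNReal.ofReal_le_ofReal (mul_le_mul_of_nonneg_right hm hU)
  · exact trapl_le_trap (trapl_gin_shift hG) A hA

theorem trapl_cs3 {u v w A B C a b : ℝ} (ha : 0 ≤ a) (hb : 0 ≤ b) (hA : 0 ≤ A) (hB : 0 ≤ B)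
    (hu : u ^ 2 ≤ a * A) (hv : v ^ 2 ≤ b * B) (hw : w ^ 2 = C) :
    (u + v + w) ^ 2 ≤ (a + b + 1) * (A + B + C) := by
  have key : ∀ {p q P Q r s : ℝ}, 0 ≤ p → 0 ≤ q → 0 ≤ P → 0 ≤ Q → r ^ 2 ≤ p * P →
      s ^ 2 ≤ q * Q → 2 * (r * s) ≤ p * Q + q * P := by
    intro p q P Q r s hp hq hP hQ hr hs
    have h1 : (r * s) ^ 2 ≤ (p * Q) * (q * P) := by
      calc (r * s) ^ 2 = r ^ 2 * s ^ 2 := by ring
        _ ≤ (p * P) * (q * Q) := mul_le_mul hr hs (sq_nonneg _) (mul_nonneg hp hP)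
        _ = (p * Q) * (q * P) := by ring
    have h2 : (2 * (r * s)) ^ 2 ≤ (p * Q + q * P) ^ 2 := by
      nlinarith [sq_nonneg (p * Q - q * P)]
    exact le_trans (le_abs_self _)
      (abs_le_of_sq_le_sq h2 (add_nonneg (mul_nonneg hp hQ) (mul_nonneg hq hP)))
  have hC : 0 ≤ C := hw ▸ sq_nonneg w
  have hw' : w ^ 2 ≤ 1 * C := by linarith
  have k1 := key ha hb hA hB hu hv
  have k2 := key ha zero_le_one hA hC hu hw'
  have k3 := key hb zero_le_one hB hC hv hw'
  nlinarith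

theorem trapl_osc (t : Mp) (f : V t → ℝ) (x y : V t) :
    (f x - f y) ^ 2 ≤ (edges t : ℝ) * energy t f := by
  induction t with
  | pt =>
    have : x = y := Subsingleton.elim (α := Unit) x y
    simp [this, edges, energy]
  | face t ih =>
    have h1 := ih f x y
    have h2 := energy_nonneg t f
    have h3 : (0 : ℝ) ≤ edges t := Nat.cast_nonneg _
    show (f x - f y) ^ 2 ≤ ((edges t + 1 : ℕ) : ℝ) * (energy t f + (f (bv t 0) - f (bv t 3)) ^ 2)
    push_cast
    nlinarith [sq_nonneg (f (bv t 0) - f (bv t 3))]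
  | bridge a b iha ihb =>
    have ea := energy_nonneg a (fun x => f (Sum.inl x))
    have eb := energy_nonneg b (fun x => f (Sum.inr x))
    have na : (0 : ℝ) ≤ edges a := Nat.cast_nonneg _
    have nb : (0 : ℝ) ≤ edges b := Nat.cast_nonneg _
    show (f x - f y) ^ 2 ≤ ((edges a + edges b + 1 : ℕ) : ℝ) *
      (energy a (fun x => f (Sum.inl x)) + energy b (fun x => f (Sum.inr x))
        + (f (Sum.inl (bv a 0)) - f (Sum.inr (bv b 0))) ^ 2)
    push_cast
    have hc := sq_nonneg (f (Sum.inl (bv a 0)) - f (Sum.inr (bv b 0)))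
    have cross : ∀ (p : V a) (q : V b), (f (Sum.inl p) - f (Sum.inr q)) ^ 2 ≤
        ((edges a : ℝ) + edges b + 1) *
        (energy a (fun x => f (Sum.inl x)) + energy b (fun x => f (Sum.inr x))
          + (f (Sum.inl (bv a 0)) - f (Sum.inr (bv b 0))) ^ 2) := by
      intro p q
      have h1 := iha (fun x => f (Sum.inl x)) p (bv a 0)
      have h2 := ihb (fun x => f (Sum.inr x)) (bv b 0) q
      have h3 := trapl_cs3 na nb ea eb h1 h2
        (rfl : (f (Sum.inl (bv a 0)) - f (Sum.inr (bv b 0))) ^ 2 = _)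
      refine le_trans (le_of_eq ?_) h3
      ring
    rcases x with p | p <;> rcases y with q | q
    · have h1 := iha (fun x => f (Sum.inl x)) p q
      refine h1.trans ?_
      nlinarith [mul_nonneg na eb, mul_nonneg nb ea, mul_nonneg nb eb, mul_nonneg na hc,
        mul_nonneg nb hc]
    · exact cross p q
    · refine le_trans (le_of_eq ?_) (cross q p)
      ring
    · have h1 := ihb (fun x => f (Sum.inr x)) p q
      refine h1.trans ?_
      nlinarith [mul_nonneg na eb, mul_nonneg nb ea, mul_nonneg na ea, mul_nonneg na hc,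
        mul_nonneg nb hc]

theorem trap_crude (V0 : ℝ) {t : Mp} (ht : ok t) (v : V t) :
    trap V0 t v ≤ ENNReal.ofReal (2 * (edges t : ℝ) ^ 2) := by
  unfold trap
  refine iSup_le fun G => iSup_le fun hG => iSup_le fun A => iSup_le fun _ => ?_
  refine ENNReal.ofReal_le_ofReal ?_
  have ne : (0 : ℝ) ≤ edges t := Nat.cast_nonneg _
  have hb : ∀ y, max (G y) 0 ≤ edges t := by
    intro y
    refine max_le ?_ ne
    by_contra hy
    push Not at hy
    have hpos : 0 < G y := lt_of_le_of_lt ne hy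
    have h1 := hG.en 0 (G y) le_rfl hpos.le
    have h2 := trapl_osc t (fun z => max 0 (min (G z) (G y))) y (bv t 0)
    have h3 : G (bv t 0) ≤ 0 := hG.mb 0 (Nat.zero_le _)
    have h4 : max 0 (min (G (bv t 0)) (G y)) = 0 := max_eq_left ((min_le_left _ _).trans h3)
    have h5 : max 0 (min (G y) (G y)) = G y := by rw [min_self, max_eq_right hpos.le]
    simp only [h4, h5, sub_zero] at h2 h1
    have h6 := mul_le_mul_of_nonneg_left h1 ne
    nlinarith
  calc ∑ z ∈ A, dg t z * max (G z) 0 ≤ ∑ z ∈ A, dg t z * edges t :=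
        sum_le_sum fun z _ => mul_le_mul_of_nonneg_left (hb z) (dg_nonneg t z)
    _ = (∑ z ∈ A, dg t z) * edges t := by rw [sum_mul]
    _ ≤ (∑ z, dg t z) * edges t := mul_le_mul_of_nonneg_right
        (sum_le_sum_of_subset_of_nonneg (subset_univ _) fun z _ _ => dg_nonneg t z) ne
    _ ≤ (2 * edges t) * edges t := mul_le_mul_of_nonneg_right (sum_dg_le t) ne
    _ = 2 * (edges t : ℝ) ^ 2 := by ring

end Pool.Agent.QL.ND
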